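import Pool.Agent.Work.MP_620749_an.Closed

/-!
Dilations of maps of the class `M`.
-/

open Set Filter Topology MeasureTheory Metric

noncomputable section

namespace Pool.Agent.Work.MP_620749_an

/-- `z ↦ h (r z) / r`. -/
def dil (r : ℝ) (h : E → E) : E → E := fun z => ((r : ℂ)⁻¹) • h ((r : ℂ) • z)

lemma smul_pair (r x y : ℂ) : r • (!₂[x, y] : E) = !₂[r * x, r * y] := by
  ext i; fin_cases i <;> simp

lemma dil_pair (r : ℝ) (h : E → E) (x y : ℂ) (i : Fin 2) :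
    dil r h !₂[x, y] i = (r : ℂ)⁻¹ * h !₂[(r : ℂ) * x, (r : ℂ) * y] i := by
  unfold dil; rw [smul_pair]; rfl

lemma dil_cl {r : ℝ} (h0 : 0 < r) (h1 : r < 1) {h : E → E} (hM : h ∈ ClassM) : Cl (dil r h) := by
  have hr : (r : ℂ) ≠ 0 := by exact_mod_cast h0.ne'
  have hnr : ‖(r : ℂ)‖ = r := by rw [Complex.norm_real, Real.norm_of_nonneg h0.le]
  have hmaps : MapsTo (fun z : E => (r : ℂ) • z) (ball 0 (1 / r)) (ball 0 1) := by
    intro z hz
    rw [mem_ball_zero_iff] at *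
    rw [norm_smul, hnr]
    calc r * ‖z‖ < r * (1 / r) := by gcongr
      _ = 1 := by field_simp
  have hdiff : DifferentiableOn ℂ (dil r h) (ball 0 (1 / r)) := by
    have h3 : DifferentiableOn ℂ (fun z : E => (r : ℂ) • z) (ball 0 (1 / r)) := by fun_prop
    have h4 : DifferentiableOn ℂ (h ∘ fun z : E => (r : ℂ) • z) (ball 0 (1 / r)) :=
      hM.1.comp h3 hmaps
    exact h4.const_smul ((r : ℂ)⁻¹)
  have h1r : 1 < 1 / r := by rw [lt_div_iff₀ h0]; linarith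
  refine ⟨⟨hdiff.mono (ball_subset_ball h1r.le), ?_, ?_, ?_⟩, 1 / r, h1r, hdiff⟩
  · unfold dil; rw [smul_zero, hM.2.1, smul_zero]
  · have e1 : HasFDerivAt (fun z : E => (r : ℂ) • z) ((r : ℂ) • ContinuousLinearMap.id ℂ E) 0 :=
      ((r : ℂ) • ContinuousLinearMap.id ℂ E).hasFDerivAt
    have e2 : HasFDerivAt h (ContinuousLinearMap.id ℂ E) ((fun z : E => (r : ℂ) • z) 0) := by
      simp only [smul_zero]; exact diffAt_zero hM
    have e3 := (e2.comp 0 e1).const_smul (r : ℂ)⁻¹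
    have e4 : fderiv ℂ (dil r h) 0 = _ := e3.fderiv
    rw [e4]
    ext z
    simp [hr]
  · intro z hz hz0
    have hB : (r : ℂ) • z ∈ B := by
      rw [mem_ball_zero_iff] at *
      rw [norm_smul, hnr]
      nlinarith [norm_nonneg z]
    have hne : (r : ℂ) • z ≠ 0 := smul_ne_zero hr hz0
    have hp := hM.2.2.2 _ hB hne
    rw [inner_smul_left, Complex.conj_ofReal, Complex.re_ofReal_mul] at hp
    unfold dil
    rw [inner_smul_right, ← Complex.ofReal_inv, Complex.re_ofReal_mul]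
    have hp' : 0 < (inner ℂ z (h ((r : ℂ) • z))).re := by
      by_contra hcon
      push Not at hcon
      nlinarith
    positivity

lemma eF_dil (r : ℝ) (h : E → E) (y : ℂ) : eF (dil r h) y = (r : ℂ)⁻¹ * eF h ((r : ℂ) * y) := by
  unfold eF; rw [dil_pair, mul_zero]

lemma mF_dil (r : ℝ) (h : E → E) (y : ℂ) : mF (dil r h) y = (r : ℂ)⁻¹ * mF h ((r : ℂ) * y) := by
  unfold mF; rw [dil_pair, mul_zero]

lemma gF_dil {r : ℝ} (h0 : 0 < r) (h : E → E) (y : ℂ) :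
    gF (dil r h) y = gF h ((r : ℂ) * y) := by
  have hr : (r : ℂ) ≠ 0 := by exact_mod_cast h0.ne'
  unfold gF
  have e : (fun x : ℂ => dil r h !₂[x, y] 0) =
      fun x : ℂ => (r : ℂ)⁻¹ * (fun x : ℂ => h !₂[(r : ℂ) * x, (r : ℂ) * y] 0) x := by
    funext x; rw [dil_pair]
  rw [e, deriv_const_mul_field]
  have := deriv_comp_mul_left (r : ℂ) (fun x : ℂ => h !₂[x, (r : ℂ) * y] 0) 0
  simp only [smul_eq_mul, mul_zero] at this
  rw [this]
  field_simp

lemma gF_dil_deriv {r : ℝ} (h0 : 0 < r) (h : E → E) :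
    deriv (gF (dil r h)) 0 = (r : ℂ) * deriv (gF h) 0 := by
  have e : gF (dil r h) = fun y => gF h ((r : ℂ) * y) := by
    funext y; exact gF_dil h0 h y
  rw [e]
  have := deriv_comp_mul_left (r : ℂ) (gF h) 0
  simpa using this

lemma t2_const_mul (k : ℂ) (F : ℂ → ℂ) : t2 (fun x => k * F x) = k * t2 F := by
  unfold t2
  have e : dslope (fun x => k * F x) 0 = fun x => k * dslope F 0 x := by
    funext x
    by_cases hx : x = 0
    · subst hx
      rw [dslope_same, dslope_same]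
      exact deriv_const_mul_field k
    · rw [dslope_eq hx, dslope_eq hx]; ring
  rw [e, dslope_same, dslope_same]
  exact deriv_const_mul_field k

lemma t2_dil {r : ℝ} (h0 : 0 < r) (F : ℂ → ℂ) :
    t2 (fun x => (r : ℂ)⁻¹ * F ((r : ℂ) * x)) = (r : ℂ) * t2 F := by
  have hr : (r : ℂ) ≠ 0 := by exact_mod_cast h0.ne'
  rw [t2_const_mul, t2_scale F hr]
  field_simp

/-- The filter used for the limits `r → 1`. -/
lemma Ioo_mem_left : Ioo (0 : ℝ) 1 ∈ 𝓝[<] (1 : ℝ) := Ioo_mem_nhdsLT (by norm_num)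

lemma tendsto_ofReal_one : Tendsto (fun r : ℝ => (r : ℂ)) (𝓝[<] (1 : ℝ)) (𝓝 1) := by
  have : Tendsto (fun r : ℝ => (r : ℂ)) (𝓝 (1 : ℝ)) (𝓝 ((1 : ℝ) : ℂ)) :=
    Complex.continuous_ofReal.tendsto 1
  rw [Complex.ofReal_one] at this
  exact this.mono_left nhdsWithin_le_nhds

lemma tendsto_inv_one : Tendsto (fun r : ℝ => (r : ℂ)⁻¹) (𝓝[<] (1 : ℝ)) (𝓝 1) := by
  have := tendsto_ofReal_one.inv₀ one_ne_zero
  simpa using this

lemma tendsto_scale {F : ℂ → ℂ} (hF : DifferentiableOn ℂ F (ball 0 1)) {w : ℂ} (hw : ‖w‖ < 1) :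
    Tendsto (fun r : ℝ => F ((r : ℂ) * w)) (𝓝[<] (1 : ℝ)) (𝓝 (F w)) := by
  have h1 : ContinuousAt F w :=
    (hF.differentiableAt (isOpen_ball.mem_nhds (mem_ball_zero_iff.2 hw))).continuousAt
  have h2 : Tendsto (fun r : ℝ => (r : ℂ) * w) (𝓝[<] (1 : ℝ)) (𝓝 w) := by
    have := tendsto_ofReal_one.mul_const w
    rwa [one_mul] at this
  exact h1.tendsto.comp h2

lemma tendsto_eF {h : E → E} (hM : h ∈ ClassM) {w : ℂ} (hw : ‖w‖ < 1) :
    Tendsto (fun r : ℝ => eF (dil r h) w) (𝓝[<] (1 : ℝ)) (𝓝 (eF h w)) := by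
  have := tendsto_inv_one.mul (tendsto_scale (eF_diff one_pos hM.1) hw)
  rw [one_mul] at this
  exact this.congr fun r => (eF_dil r h w).symm

lemma tendsto_mF {h : E → E} (hM : h ∈ ClassM) {w : ℂ} (hw : ‖w‖ < 1) :
    Tendsto (fun r : ℝ => mF (dil r h) w) (𝓝[<] (1 : ℝ)) (𝓝 (mF h w)) := by
  have := tendsto_inv_one.mul (tendsto_scale (mF_diff one_pos hM.1) hw)
  rw [one_mul] at this
  exact this.congr fun r => (mF_dil r h w).symm

lemma tendsto_gF {h : E → E} (hM : h ∈ ClassM) {w : ℂ} (hw : ‖w‖ < 1) :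
    Tendsto (fun r : ℝ => gF (dil r h) w) (𝓝[<] (1 : ℝ)) (𝓝 (gF h w)) := by
  have := tendsto_scale (gF_diff hM.1) hw
  refine this.congr' ?_
  filter_upwards [Ioo_mem_left] with r hr
  exact (gF_dil hr.1 h w).symm

lemma tendsto_gF' (h : E → E) :
    Tendsto (fun r : ℝ => deriv (gF (dil r h)) 0) (𝓝[<] (1 : ℝ)) (𝓝 (deriv (gF h) 0)) := by
  have := tendsto_ofReal_one.mul_const (deriv (gF h) 0)
  rw [one_mul] at this
  refine this.congr' ?_
  filter_upwards [Ioo_mem_left] with r hr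
  exact (gF_dil_deriv hr.1 h).symm

end Pool.Agent.Work.MP_620749_an
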