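import Pool.Agent.Work.MP_620749_an.HoroIneq
import Pool.Agent.Work.MP_620749_an.Dil

/-!
The case of the coefficient (2,0), written for the second variable: if the second Taylor
coefficient of `h_2(0,w)` is the largest possible one, then `h(0,w) = (0, w(1+w)/(1-w))`.
-/

open Set Filter Topology MeasureTheory Metric

noncomputable section

namespace Pool.Agent.Work.MP_620749_an

variable {η r : ℝ} {h : E → E}

/-- The integrand on the torus of radii `η`, `r`. -/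
def ZT (η r : ℝ) (h : E → E) (l τ : ℂ) : ℂ :=
  (η : ℂ) * cj l * h !₂[(η : ℂ) * l, (r : ℂ) * τ] 0 +
    (r : ℂ) * cj τ * h !₂[(η : ℂ) * l, (r : ℂ) * τ] 1

lemma tor_le (hr : η ^ 2 + r ^ 2 = 1) {l τ : ℂ} (hl : ‖l‖ ≤ 1) (hτ : ‖τ‖ ≤ 1) :
    ‖(η : ℂ) * l‖ ^ 2 + ‖(r : ℂ) * τ‖ ^ 2 ≤ 1 := by
  rw [norm_mul, norm_mul, Complex.norm_real, Complex.norm_real, mul_pow, mul_pow,
    Real.norm_eq_abs, Real.norm_eq_abs, sq_abs, sq_abs]
  have h1 : ‖l‖ ^ 2 ≤ 1 := by nlinarith [norm_nonneg l]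
  have h2 : ‖τ‖ ^ 2 ≤ 1 := by nlinarith [norm_nonneg τ]
  nlinarith [sq_nonneg η, sq_nonneg r]

lemma ZT_pos (hr : η ^ 2 + r ^ 2 = 1) (hC : Cl h) {l τ : ℂ} (hl : ‖l‖ = 1) (hτ : ‖τ‖ = 1) :
    0 ≤ (ZT η r h l τ).re := by
  have hz : ‖(!₂[(η : ℂ) * l, (r : ℂ) * τ] : E)‖ ≤ 1 := by
    rw [norm_le_iff zero_le_one, one_pow]
    exact tor_le hr hl.le hτ.le
  have := hC.pos hz
  rw [inner_pair, map_mul, map_mul, Complex.conj_ofReal, Complex.conj_ofReal] at this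
  exact this

lemma CT_ZT (hr : η ^ 2 + r ^ 2 = 1) (hC : Cl h) : CT (ZT η r h) := by
  obtain ⟨hM, R, hR, hd⟩ := hC
  have e1 : Continuous (fun p : ℝ × ℝ => (!₂[(η : ℂ) * ce p.1, (r : ℂ) * ce p.2] : E)) := by
    apply continuous_pair
    · exact continuous_const.mul (ce_cont.comp continuous_fst)
    · exact continuous_const.mul (ce_cont.comp continuous_snd)
  have a : ∀ i : Fin 2, CT (fun l τ => h !₂[(η : ℂ) * l, (r : ℂ) * τ] i) := by
    intro i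
    apply ContinuousOn.comp_continuous (comp_diff hd i).continuousOn e1
    intro p
    apply (pair_mem_ball (by linarith)).2
    have := tor_le hr (ce_norm p.1).le (ce_norm p.2).le
    nlinarith
  have a4 : CT (fun l _ => (η : ℂ) * cj l) :=
    CT_fst (continuousOn_const.mul contSphere_cj)
  have a6 : CT (fun _ τ => (r : ℂ) * cj τ) :=
    CT_snd (continuousOn_const.mul contSphere_cj)
  exact (a4.mul (a 0)).add (a6.mul (a 1))

lemma holT_in (hr : η ^ 2 + r ^ 2 = 1) (hC : Cl h) (i : Fin 2) {τ : ℂ} (hτ : ‖τ‖ ≤ 1) :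
    Hol (fun l => h !₂[(η : ℂ) * l, (r : ℂ) * τ] i) := by
  obtain ⟨hM, R, hR, hd⟩ := hC
  apply hol_of_diffAt
  intro l hl
  exact pair_at hR hd i (by fun_prop) (by fun_prop) (tor_le hr hl hτ)

lemma holT_out (hr : η ^ 2 + r ^ 2 = 1) (hC : Cl h) (i : Fin 2) {l : ℂ} (hl : ‖l‖ ≤ 1) :
    Hol (fun τ => h !₂[(η : ℂ) * l, (r : ℂ) * τ] i) := by
  obtain ⟨hM, R, hR, hd⟩ := hC
  apply hol_of_diffAt
  intro τ hτ
  exact pair_at hR hd i (by fun_prop) (by fun_prop) (tor_le hr hl hτ)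

lemma r_le (hr : η ^ 2 + r ^ 2 = 1) {τ : ℂ} (hτ : ‖τ‖ ≤ 1) : ‖(r : ℂ) * τ‖ ≤ 1 := by
  have := tor_le hr (l := 0) (by simp) hτ
  simp only [mul_zero, norm_zero] at this
  nlinarith [norm_nonneg ((r : ℂ) * τ)]

/-- The average of the integrand over the first variable. -/
def ST (η r : ℝ) (h : E → E) (τ : ℂ) : ℂ :=
  (η : ℂ) ^ 2 * gF h ((r : ℂ) * τ) + (r : ℂ) * dslope (fun x => mF h ((r : ℂ) * x)) 0 τ

lemma hol_gr (hr : η ^ 2 + r ^ 2 = 1) (hC : Cl h) : Hol (fun τ => gF h ((r : ℂ) * τ)) := by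
  obtain ⟨hM, R, hR, hd⟩ := hC
  apply hol_of_diffAt
  intro τ hτ
  exact comp_at hR (gF_diff hd) (by fun_prop) (r_le hr hτ)

lemma hol_mr (hr : η ^ 2 + r ^ 2 = 1) (hC : Cl h) : Hol (fun τ => mF h ((r : ℂ) * τ)) := by
  obtain ⟨hM, R, hR, hd⟩ := hC
  apply hol_of_diffAt
  intro τ hτ
  exact comp_at hR (mF_diff (by linarith) hd) (by fun_prop) (r_le hr hτ)

lemma hol_er (hr : η ^ 2 + r ^ 2 = 1) (hC : Cl h) : Hol (fun τ => eF h ((r : ℂ) * τ)) := by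
  obtain ⟨hM, R, hR, hd⟩ := hC
  apply hol_of_diffAt
  intro τ hτ
  exact comp_at hR (eF_diff (by linarith) hd) (by fun_prop) (r_le hr hτ)

lemma hadd {F G : ℂ → ℂ} (hF : Hol F) (hG : Hol G) : Hol (fun τ => F τ + G τ) :=
  DiffContOnCl.add hF hG

lemma hol_ST (hr : η ^ 2 + r ^ 2 = 1) (hC : Cl h) : Hol (ST η r h) :=
  hadd (hmul (hol_const _) (hol_gr hr hC)) (hmul (hol_const _) (hol_dslope (hol_mr hr hC)))

lemma ST_zero (hr : η ^ 2 + r ^ 2 = 1) (hC : Cl h) : ST η r h 0 = 1 := by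
  unfold ST
  rw [mul_zero, gF_zero hC.1, dslope_same]
  have : deriv (fun x => mF h ((r : ℂ) * x)) 0 = (r : ℂ) := by
    have h1 := deriv_comp_mul_left (r : ℂ) (mF h) 0
    simp only [smul_eq_mul, mul_zero] at h1
    rw [h1, mF_deriv hC.1, mul_one]
  rw [this]
  have h2 : ((η ^ 2 + r ^ 2 : ℝ) : ℂ) = 1 := by rw [hr]; simp
  push_cast at h2
  linear_combination h2

lemma deriv_of_hol {F : ℂ → ℂ} (hF : Hol F) : HasDerivAt F (deriv F 0) 0 :=
  (hF.differentiableOn.differentiableAt (ball_mem_nhds (0 : ℂ) one_pos)).hasDerivAt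

lemma ST_deriv (hr : η ^ 2 + r ^ 2 = 1) (hr0 : r ≠ 0) (hC : Cl h) :
    deriv (ST η r h) 0 = (η : ℂ) ^ 2 * ((r : ℂ) * deriv (gF h) 0) + (r : ℂ) ^ 3 * t2 (mF h) := by
  have hrc : (r : ℂ) ≠ 0 := by exact_mod_cast hr0
  have e1 : HasDerivAt (fun τ => gF h ((r : ℂ) * τ)) ((r : ℂ) * deriv (gF h) 0) 0 := by
    have h1 := deriv_of_hol (hol_gr hr hC)
    have h2 := deriv_comp_mul_left (r : ℂ) (gF h) 0
    simp only [smul_eq_mul, mul_zero] at h2
    rwa [h2] at h1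
  have e2 : HasDerivAt (dslope (fun x => mF h ((r : ℂ) * x)) 0) ((r : ℂ) ^ 2 * t2 (mF h)) 0 := by
    have h1 := deriv_of_hol (hol_dslope (hol_mr hr hC))
    rwa [← dslope_same (dslope (fun x => mF h ((r : ℂ) * x)) 0) (0 : ℂ),
      show dslope (dslope (fun x => mF h ((r : ℂ) * x)) 0) 0 0 = (r : ℂ) ^ 2 * t2 (mF h) from
        t2_scale (mF h) hrc] at h1
  have e3 := (e1.const_mul ((η : ℂ) ^ 2)).fun_add (e2.const_mul (r : ℂ))
  have e4 : deriv (ST η r h) 0 = _ := e3.deriv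
  rw [e4]
  ring

lemma inT_one (hr : η ^ 2 + r ^ 2 = 1) (hC : Cl h) {τ : ℂ} (hτ : ‖τ‖ = 1) :
    av (fun l => ZT η r h l τ) = ST η r h τ := by
  have hF1 := holT_in hr hC 0 hτ.le
  have hF2 := holT_in hr hC 1 hτ.le
  have e1 : av (fun l => ZT η r h l τ) =
      av (fun l => (η : ℂ) * (h !₂[(η : ℂ) * l, (r : ℂ) * τ] 0 * cj l) +
        ((r : ℂ) * cj τ) * h !₂[(η : ℂ) * l, (r : ℂ) * τ] 1) := by
    apply av_congr; intro l _; unfold ZT; ring
  rw [e1, av_add, av_mul_left, av_mul_left, av_mul_cj hF1, av_hol hF2]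
  · have e2 : deriv (fun l : ℂ => h !₂[(η : ℂ) * l, (r : ℂ) * τ] 0) 0 =
        (η : ℂ) * gF h ((r : ℂ) * τ) := by
      have := deriv_comp_mul_left (η : ℂ) (fun x : ℂ => h !₂[x, (r : ℂ) * τ] 0) 0
      simp only [smul_eq_mul, mul_zero] at this
      rw [this]
      rfl
    have hτ0 : τ ≠ 0 := by intro h0; rw [h0, norm_zero] at hτ; norm_num at hτ
    have e3 : dslope (fun x => mF h ((r : ℂ) * x)) 0 τ = cj τ * mF h ((r : ℂ) * τ) := by
      rw [dslope_eq hτ0, mul_zero, mF_zero hC.1, sub_zero, cj_eq_inv hτ]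
      field_simp
    unfold ST
    rw [e2, e3, mul_zero]
    unfold mF
    ring
  · exact continuousOn_const.mul (hF1.contSphere.mul contSphere_cj)
  · exact continuousOn_const.mul hF2.contSphere

lemma inT_l (hr : η ^ 2 + r ^ 2 = 1) (hC : Cl h) {τ : ℂ} (hτ : ‖τ‖ = 1) :
    av (fun l => ZT η r h l τ * l) = (η : ℂ) * eF h ((r : ℂ) * τ) := by
  have hF1 := holT_in hr hC 0 hτ.le
  have hF2 := holT_in hr hC 1 hτ.le
  have hF3 : Hol (fun l => h !₂[(η : ℂ) * l, (r : ℂ) * τ] 1 * l) := hmul hF2 hol_id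
  have e1 : av (fun l => ZT η r h l τ * l) =
      av (fun l => (η : ℂ) * h !₂[(η : ℂ) * l, (r : ℂ) * τ] 0 +
        ((r : ℂ) * cj τ) * (h !₂[(η : ℂ) * l, (r : ℂ) * τ] 1 * l)) := by
    apply av_congr; intro l hl; unfold ZT
    have := mul_cj_one hl
    linear_combination ((η : ℂ) * (h !₂[(η : ℂ) * l, (r : ℂ) * τ] 0)) * this
  rw [e1, av_add, av_mul_left, av_mul_left, av_hol hF1, av_hol hF3]
  · unfold eF
    simp only [mul_zero, add_zero]
  · exact continuousOn_const.mul hF1.contSphere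
  · exact continuousOn_const.mul hF3.contSphere

lemma A2_ZT (hr : η ^ 2 + r ^ 2 = 1) (hC : Cl h) (T : ℂ → ℂ) :
    A2 (fun l τ => ZT η r h l τ * T τ) = av (fun τ => ST η r h τ * T τ) := by
  unfold A2
  apply av_congr
  intro τ hτ
  rw [av_mul_right, inT_one hr hC hτ]

lemma A2_ZTl (hr : η ^ 2 + r ^ 2 = 1) (hC : Cl h) (T : ℂ → ℂ) :
    A2 (fun l τ => ZT η r h l τ * (l * T τ)) =
      av (fun τ => (η : ℂ) * (eF h ((r : ℂ) * τ) * T τ)) := by
  unfold A2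
  apply av_congr
  intro τ hτ
  have e : (fun l => ZT η r h l τ * (l * T τ)) = fun l => (ZT η r h l τ * l) * T τ := by
    funext l; ring
  rw [e, av_mul_right, inT_l hr hC hτ]
  ring

/-- The conjugate test functions of type `l * cj τ * T(cj τ)` give zero. -/
lemma A2_ZTcj (hr : η ^ 2 + r ^ 2 = 1) (hC : Cl h) {T : ℂ → ℂ} (hT : ContinuousOn T (sphere 0 1))
    {χ : ℂ → ℂ} (hχ : Hol χ) (hTχ : ∀ τ : ℂ, ‖τ‖ = 1 → cj (T τ) = τ * χ τ) :
    A2 (fun l τ => ZT η r h l τ * cj (l * T τ)) = 0 := by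
  have hCT : CT (fun l τ => ZT η r h l τ * cj (l * T τ)) := by
    apply (CT_ZT hr hC).mul
    apply CT.cj
    exact (CT_fst continuousOn_id).mul (CT_snd hT)
  rw [A2_swap hCT]
  have inner : ∀ l : ℂ, ‖l‖ = 1 → av (fun τ => ZT η r h l τ * cj (l * T τ)) =
      ((r : ℂ) * χ 0) * (h !₂[(η : ℂ) * l, 0] 1 * cj l) := by
    intro l hl
    have hF1 := holT_out hr hC 0 hl.le
    have hF2 := holT_out hr hC 1 hl.le
    have hA : Hol (fun τ => (τ * χ τ) * h !₂[(η : ℂ) * l, (r : ℂ) * τ] 0) :=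
      hmul (hmul hol_id hχ) hF1
    have hB : Hol (fun τ => χ τ * h !₂[(η : ℂ) * l, (r : ℂ) * τ] 1) := hmul hχ hF2
    have e1 : av (fun τ => ZT η r h l τ * cj (l * T τ)) =
        av (fun τ => ((η : ℂ) * cj l ^ 2) * ((τ * χ τ) * h !₂[(η : ℂ) * l, (r : ℂ) * τ] 0) +
          ((r : ℂ) * cj l) * (χ τ * h !₂[(η : ℂ) * l, (r : ℂ) * τ] 1)) := by
      apply av_congr; intro τ hτ
      rw [map_mul, hTχ τ hτ]
      unfold ZT
      have := mul_cj_one hτ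
      linear_combination ((r : ℂ) * cj l * χ τ * h !₂[(η : ℂ) * l, (r : ℂ) * τ] 1) * this
    rw [e1, av_add, av_mul_left, av_mul_left, av_hol hA, av_hol hB]
    · simp only [mul_zero, zero_mul, zero_add]
      ring
    · exact continuousOn_const.mul hA.contSphere
    · exact continuousOn_const.mul hB.contSphere
  rw [av_congr inner]
  have h4 : Hol (fun l => h !₂[(η : ℂ) * l, 0] 1) := by
    have := holT_in hr hC 1 (τ := 0) (by simp)
    rwa [mul_zero] at this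
  rw [av_mul_left, av_mul_cj h4, off_deriv hC.1 (η : ℂ), mul_zero]

/-- The square of `|1 - τ|` on the circle. -/
lemma sq_circle {τ : ℂ} (hτ : ‖τ‖ = 1) : ((‖1 - τ‖ ^ 2 : ℝ) : ℂ) = 2 - τ - cj τ := by
  rw [← Complex.normSq_eq_norm_sq, Complex.normSq_eq_conj_mul_self, map_sub, map_one]
  have := mul_cj_one hτ
  linear_combination this

lemma av_sq {S : ℂ → ℂ} (hS : Hol S) :
    av (fun τ => S τ * (2 - τ - cj τ)) = 2 * S 0 - deriv S 0 := by
  have h1 : Hol (fun τ => S τ * (2 - τ)) := hmul hS (hsub (hol_const 2) hol_id)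
  have e : av (fun τ => S τ * (2 - τ - cj τ)) = av (fun τ => S τ * (2 - τ) - S τ * cj τ) := by
    apply av_congr; intro τ _; ring
  have c2 : ContinuousOn (fun τ => S τ * cj τ) (sphere 0 1) := hS.contSphere.mul contSphere_cj
  rw [e, av_sub h1.contSphere c2, av_hol h1, av_mul_cj hS]
  ring

lemma CT.norm {u : ℂ → ℂ → ℂ} (hu : CT u) : CT (fun l τ => ‖u l τ‖) := Continuous.norm hu

/-- The mass of `k0 + k |1-τ|^2`. -/
lemma re_sq (hr : η ^ 2 + r ^ 2 = 1) (hC : Cl h) (k0 k : ℝ) :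
    (A2 (fun l τ => ZT η r h l τ * ((k0 + k * ‖1 - τ‖ ^ 2 : ℝ) : ℂ))).re =
      k0 + k * (2 - (deriv (ST η r h) 0).re) := by
  have hS := hol_ST hr hC
  have e : A2 (fun l τ => ZT η r h l τ * ((k0 + k * ‖1 - τ‖ ^ 2 : ℝ) : ℂ)) =
      (k0 : ℂ) + (k : ℂ) * (2 - deriv (ST η r h) 0) := by
    rw [A2_ZT hr hC (fun τ => ((k0 + k * ‖1 - τ‖ ^ 2 : ℝ) : ℂ))]
    have e1 : av (fun τ => ST η r h τ * ((k0 + k * ‖1 - τ‖ ^ 2 : ℝ) : ℂ)) =
        av (fun τ => (k0 : ℂ) * ST η r h τ + (k : ℂ) * (ST η r h τ * (2 - τ - cj τ))) := by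
      apply av_congr; intro τ hτ
      rw [← sq_circle hτ]; push_cast; ring
    have c1 : ContinuousOn (fun τ => (k0 : ℂ) * ST η r h τ) (sphere 0 1) :=
      continuousOn_const.mul hS.contSphere
    have c2 : ContinuousOn (fun τ => (k : ℂ) * (ST η r h τ * (2 - τ - cj τ))) (sphere 0 1) :=
      continuousOn_const.mul (hS.contSphere.mul
        ((continuousOn_const.sub continuousOn_id).sub contSphere_cj))
    rw [e1, av_add c1 c2, av_mul_left, av_mul_left, av_sq hS, av_hol hS, ST_zero hr hC]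
    ring
  rw [e, Complex.add_re, Complex.re_ofReal_mul]
  simp

lemma CT_sq (k0 k : ℝ) : CT (fun _ τ => k0 + k * ‖1 - τ‖ ^ 2) := by
  have h1 : CT (fun _ τ => (1 - τ)) := CT_snd (by fun_prop)
  have h2 : Continuous (fun p : ℝ × ℝ => ‖1 - ce p.2‖) := h1.norm
  exact continuous_const.add (continuous_const.mul (h2.pow 2))

theorem m2_le_cl (hC : Cl h) : (t2 (mF h)).re ≤ 2 := by
  have hr : (0 : ℝ) ^ 2 + (1 : ℝ) ^ 2 = 1 := by norm_num
  have key := general_principle (Z := ZT 0 1 h) (T := fun _ _ => 0)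
    (V := fun _ τ => 0 + 1 * ‖1 - τ‖ ^ 2)
    (CT_ZT hr hC) (CT_fst continuousOn_const) (CT_sq 0 1)
    (fun l τ hl hτ => ZT_pos hr hC hl hτ) (fun _ _ _ _ => by simp)
  rw [re_sq hr hC 0 1, ST_deriv hr one_ne_zero hC] at key
  have := (norm_nonneg _).trans key
  simp at this
  linarith

theorem m2_le (hM : h ∈ ClassM) : (t2 (mF h)).re ≤ 2 := by
  have h1 : Tendsto (fun ρ : ℝ => ρ * (t2 (mF h)).re) (𝓝[<] (1 : ℝ)) (𝓝 (t2 (mF h)).re) := by
    have : Tendsto (fun ρ : ℝ => ρ * (t2 (mF h)).re) (𝓝 (1 : ℝ)) (𝓝 (1 * (t2 (mF h)).re)) := by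
      apply Continuous.tendsto; fun_prop
    rw [one_mul] at this
    exact this.mono_left nhdsWithin_le_nhds
  apply le_of_tendsto h1
  filter_upwards [Ioo_mem_left] with ρ hρ
  have h2 := m2_le_cl (dil_cl hρ.1 hρ.2 hM)
  have e : mF (dil ρ h) = fun y => (ρ : ℂ)⁻¹ * mF h ((ρ : ℂ) * y) := by
    funext y; exact mF_dil ρ h y
  rw [e, t2_dil hρ.1, Complex.re_ofReal_mul] at h2
  exact h2

lemma norm_one_sub_cj (τ : ℂ) : ‖1 - cj τ‖ = ‖1 - τ‖ := by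
  have : 1 - cj τ = cj (1 - τ) := by simp
  rw [this, norm_cj]

lemma contSphere_one_sub_cj : ContinuousOn (fun τ : ℂ => 1 - cj τ) (sphere 0 1) :=
  continuousOn_const.sub contSphere_cj

lemma av_KA {S : ℂ → ℂ} (hS : Hol S) {a : ℂ} (ha : ‖a‖ < 1) :
    av (fun τ => S τ * ((1 - cj τ) * KK a τ)) = S a - dslope S 0 a := by
  have k := contSphere_ker ha
  have e : av (fun τ => S τ * ((1 - cj τ) * KK a τ)) =
      av (fun τ => S τ * (1 - a * cj τ)⁻¹ - S τ * (cj τ * (1 - a * cj τ)⁻¹)) := by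
    apply av_congr; intro τ _; unfold KK; ring
  have c1 : ContinuousOn (fun τ => S τ * (1 - a * cj τ)⁻¹) (sphere 0 1) := hS.contSphere.mul k
  have c2 : ContinuousOn (fun τ => S τ * (cj τ * (1 - a * cj τ)⁻¹)) (sphere 0 1) :=
    hS.contSphere.mul (contSphere_cj.mul k)
  rw [e, av_sub c1 c2, av_cauchy hS ha, av_pow1 ha hS]

lemma av_KAcj {S : ℂ → ℂ} (hS : Hol S) {a : ℂ} (ha : ‖a‖ < 1) :
    av (fun τ => S τ * cj ((1 - cj τ) * KK a τ)) = S 0 := by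
  have h1 : Hol (fun τ => S τ * ((1 - τ) * (1 - cj a * τ)⁻¹)) :=
    hmul hS (hmul (hsub (hol_const 1) hol_id) (hol_chi ha))
  have e : av (fun τ => S τ * cj ((1 - cj τ) * KK a τ)) =
      av (fun τ => S τ * ((1 - τ) * (1 - cj a * τ)⁻¹)) := by
    apply av_congr; intro τ _
    rw [map_mul, cj_KK, map_sub, map_one, Complex.conj_conj]
  rw [e, av_hol h1]
  simp

lemma amgm {ε v x : ℝ} (hε : 0 < ε) : v * x ≤ ε / 2 + (v ^ 2 / (2 * ε)) * x ^ 2 := by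
  have h1 : ε / 2 + (v ^ 2 / (2 * ε)) * x ^ 2 - v * x = (ε - v * x) ^ 2 / (2 * ε) := by
    field_simp
    ring
  have h2 : 0 ≤ (ε - v * x) ^ 2 / (2 * ε) := by positivity
  linarith

lemma ineqA (hC : Cl h) {a : ℂ} (ha : ‖a‖ < 1) (ha0 : a ≠ 0) {ε : ℝ} (hε : 0 < ε) :
    ‖mF h a / a - (mF h a / a - 1) / a + 1‖ ≤
      ε + ((1 / (1 - ‖a‖)) ^ 2 / ε) * (2 - (t2 (mF h)).re) := by
  have hr : (0 : ℝ) ^ 2 + (1 : ℝ) ^ 2 = 1 := by norm_num
  have hS := hol_ST hr hC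
  have key := general_principle (Z := ZT 0 1 h) (T := fun _ τ => (1 - cj τ) * KK a τ)
    (V := fun _ τ => ε / 2 + ((1 / (1 - ‖a‖)) ^ 2 / (2 * ε)) * ‖1 - τ‖ ^ 2)
    (CT_ZT hr hC) (CT_snd (contSphere_one_sub_cj.mul (KK_cont ha)))
    (CT_sq (ε / 2) ((1 / (1 - ‖a‖)) ^ 2 / (2 * ε)))
    (fun l τ hl hτ => ZT_pos hr hC hl hτ) (fun l τ hl hτ => by
      rw [norm_mul, norm_one_sub_cj, mul_comm]
      refine le_trans ?_ (amgm hε)
      gcongr
      exact KK_norm ha hτ)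
  rw [re_sq hr hC, A2_ZT hr hC (fun τ => (1 - cj τ) * KK a τ),
    A2_ZT hr hC (fun τ => cj ((1 - cj τ) * KK a τ)), av_KA hS ha, av_KAcj hS ha,
    ST_zero hr hC, map_one, ST_deriv hr one_ne_zero hC] at key
  have e1 : ST 0 1 h a = mF h a / a := by
    unfold ST
    rw [dslope_eq ha0]
    simp [mF_zero hC.1]
  have e2 : dslope (ST 0 1 h) 0 a = (mF h a / a - 1) / a := by
    rw [dslope_eq ha0, e1, ST_zero hr hC]
  rw [e1, e2] at key
  refine key.trans (le_of_eq ?_)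
  simp only [Complex.ofReal_zero, Complex.ofReal_one, one_pow, one_mul]
  norm_num
  field_simp

theorem m_ext (hM : h ∈ ClassM) (hm : t2 (mF h) = 2) {w : ℂ} (hw : ‖w‖ < 1) :
    mF h w = w * (1 + w) / (1 - w) := by
  rcases eq_or_ne w 0 with rfl | hw0
  · rw [mF_zero hM]; simp
  have hv : 0 < 1 - ‖w‖ := by linarith
  have hw1 : 1 - w ≠ 0 := by
    intro h0
    have : w = 1 := by linear_combination -h0
    rw [this, norm_one] at hw; linarith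
  have hle : ∀ ε : ℝ, 0 < ε → ‖mF h w / w - (mF h w / w - 1) / w + 1‖ ≤ ε := by
    intro ε hε
    have t1 : Tendsto (fun ρ : ℝ => ‖mF (dil ρ h) w / w - (mF (dil ρ h) w / w - 1) / w + 1‖)
        (𝓝[<] (1 : ℝ)) (𝓝 ‖mF h w / w - (mF h w / w - 1) / w + 1‖) := by
      have := (tendsto_mF hM hw).div_const w
      exact ((this.sub ((this.sub_const 1).div_const w)).add_const 1).norm
    have t2' : Tendsto (fun ρ : ℝ => ε + ((1 / (1 - ‖w‖)) ^ 2 / ε) * (2 - ρ * 2))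
        (𝓝[<] (1 : ℝ)) (𝓝 (ε + ((1 / (1 - ‖w‖)) ^ 2 / ε) * (2 - 1 * 2))) := by
      have : Continuous (fun ρ : ℝ => ε + ((1 / (1 - ‖w‖)) ^ 2 / ε) * (2 - ρ * 2)) := by
        fun_prop
      exact (this.tendsto 1).mono_left nhdsWithin_le_nhds
    have h3 := le_of_tendsto_of_tendsto t1 t2' (by
      filter_upwards [Ioo_mem_left] with ρ hρ
      have h2 := ineqA (dil_cl hρ.1 hρ.2 hM) hw hw0 hε
      have e : mF (dil ρ h) = fun y => (ρ : ℂ)⁻¹ * mF h ((ρ : ℂ) * y) := by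
        funext y; exact mF_dil ρ h y
      have e2 : t2 (mF (dil ρ h)) = (ρ : ℂ) * 2 := by
        rw [e, t2_dil hρ.1, hm]
      rw [e2] at h2
      have e3 : ((ρ : ℂ) * 2).re = ρ * 2 := by
        rw [Complex.re_ofReal_mul]; norm_num
      rw [e3] at h2
      exact h2)
    refine h3.trans (le_of_eq ?_)
    ring
  have h0 : ‖mF h w / w - (mF h w / w - 1) / w + 1‖ = 0 := by
    apply le_antisymm _ (norm_nonneg _)
    exact le_of_forall_pos_le_add (by intro ε hε; rw [zero_add]; exact hle ε hε)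
  rw [norm_eq_zero] at h0
  field_simp at h0 ⊢
  linear_combination -h0

lemma er_zero (hC : Cl h) (r : ℝ) : eF h ((r : ℂ) * 0) = 0 := by
  rw [mul_zero, eF_zero hC.1]

lemma er_deriv (hC : Cl h) (r : ℝ) : deriv (fun τ => eF h ((r : ℂ) * τ)) 0 = 0 := by
  have h1 := deriv_comp_mul_left (r : ℂ) (eF h) 0
  simp only [smul_eq_mul, mul_zero] at h1
  rw [h1, eF_deriv hC.1, mul_zero]

lemma ineqB (hr : η ^ 2 + r ^ 2 = 1) (hr0 : r ≠ 0) (hC : Cl h) {a : ℂ} (ha : ‖a‖ < 1)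
    (ha0 : a ≠ 0) :
    ‖(η : ℂ) * ((1 - a) ^ 2 * eF h ((r : ℂ) * a) / a ^ 3 - (r : ℂ) ^ 2 * t2 (eF h) / a)‖ ≤
      2 * (1 / (1 - ‖a‖) * (2 - (deriv (ST η r h) 0).re)) := by
  have hrc : (r : ℂ) ≠ 0 := by exact_mod_cast hr0
  have hN := hol_er hr hC
  have hv : 0 < 1 - ‖a‖ := by linarith
  obtain ⟨T, hT⟩ : ∃ T : ℂ → ℂ, T = fun τ => (1 - cj τ) ^ 2 * (cj τ * KK a τ) := ⟨_, rfl⟩
  have hTc : ContinuousOn T (sphere 0 1) := by
    rw [hT]
    exact (contSphere_one_sub_cj.pow 2).mul (contSphere_cj.mul (KK_cont ha))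
  have key := general_principle (Z := ZT η r h) (T := fun l τ => l * T τ)
    (V := fun _ τ => 0 + (1 / (1 - ‖a‖)) * ‖1 - τ‖ ^ 2)
    (CT_ZT hr hC) ((CT_fst continuousOn_id).mul (CT_snd hTc))
    (CT_sq 0 (1 / (1 - ‖a‖)))
    (fun l τ hl hτ => ZT_pos hr hC hl hτ) (fun l τ hl hτ => by
      rw [norm_mul, hl, one_mul, hT]
      simp only
      rw [norm_mul, norm_pow, norm_mul, norm_one_sub_cj, norm_cj, hτ, one_mul, zero_add, mul_comm]
      gcongr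
      exact KK_norm ha hτ)
  have hχ : Hol (fun τ => (1 - τ) ^ 2 * (1 - cj a * τ)⁻¹) := by
    have h1 : Hol (fun τ : ℂ => (1 - τ)) := hsub (hol_const 1) hol_id
    have h2 := hmul (hmul h1 h1) (hol_chi ha)
    have e : (fun τ : ℂ => (1 - τ) ^ 2 * (1 - cj a * τ)⁻¹) =
        fun τ => (1 - τ) * (1 - τ) * (1 - cj a * τ)⁻¹ := by
      funext τ; ring
    rw [e]
    exact h2
  have hz := A2_ZTcj hr hC hTc hχ (fun τ hτ => by
    rw [hT]
    simp only [map_mul, map_pow, map_sub, map_one, Complex.conj_conj, cj_KK]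
    ring)
  rw [hz, map_zero, add_zero, A2_ZTl hr hC T, re_sq hr hC, zero_add, av_mul_left] at key
  have e1 : av (fun τ => eF h ((r : ℂ) * τ) * T τ) =
      (1 - a) ^ 2 * eF h ((r : ℂ) * a) / a ^ 3 - (r : ℂ) ^ 2 * t2 (eF h) / a := by
    have k := contSphere_ker ha
    have c1 : ContinuousOn (fun τ => eF h ((r : ℂ) * τ) * (cj τ * (1 - a * cj τ)⁻¹)) (sphere 0 1) :=
      hN.contSphere.mul (contSphere_cj.mul k)
    have c2 : ContinuousOn (fun τ => 2 * (eF h ((r : ℂ) * τ) * (cj τ ^ 2 * (1 - a * cj τ)⁻¹)))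
        (sphere 0 1) := continuousOn_const.mul (hN.contSphere.mul ((contSphere_cj.pow 2).mul k))
    have c3 : ContinuousOn (fun τ => eF h ((r : ℂ) * τ) * (cj τ ^ 3 * (1 - a * cj τ)⁻¹))
        (sphere 0 1) := hN.contSphere.mul ((contSphere_cj.pow 3).mul k)
    have c12 : ContinuousOn (fun τ => eF h ((r : ℂ) * τ) * (cj τ * (1 - a * cj τ)⁻¹) -
        2 * (eF h ((r : ℂ) * τ) * (cj τ ^ 2 * (1 - a * cj τ)⁻¹))) (sphere 0 1) := c1.sub c2
    have e2 : av (fun τ => eF h ((r : ℂ) * τ) * T τ) =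
        av (fun τ => (eF h ((r : ℂ) * τ) * (cj τ * (1 - a * cj τ)⁻¹) -
          2 * (eF h ((r : ℂ) * τ) * (cj τ ^ 2 * (1 - a * cj τ)⁻¹))) +
          eF h ((r : ℂ) * τ) * (cj τ ^ 3 * (1 - a * cj τ)⁻¹)) := by
      apply av_congr; intro τ _
      rw [hT]; unfold KK; ring
    have e3 : dslope (dslope (fun τ => eF h ((r : ℂ) * τ)) 0) 0 0 = (r : ℂ) ^ 2 * t2 (eF h) :=
      t2_scale (eF h) hrc
    rw [e2, av_add c12 c3, av_sub c1 c2, av_mul_left, av_pow1 ha hN, av_pow2 ha hN, av_pow3 ha hN,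
      dslope_eq (F := dslope (dslope (fun τ => eF h ((r : ℂ) * τ)) 0) 0) ha0, e3,
      dslope_eq (F := dslope (fun τ => eF h ((r : ℂ) * τ)) 0) ha0, dslope_same, er_deriv hC,
      dslope_eq ha0, er_zero hC]
    field_simp
    ring
  rw [e1] at key
  exact key

/-- The limit form of the inequality. -/
lemma ineqB' (hM : h ∈ ClassM) (hm : t2 (mF h) = 2) (hr : η ^ 2 + r ^ 2 = 1) (hr0 : 0 < r)
    {a : ℂ} (ha : ‖a‖ < 1) (ha0 : a ≠ 0) :
    ‖(η : ℂ) * ((1 - a) ^ 2 * eF h ((r : ℂ) * a) / a ^ 3 - (r : ℂ) ^ 2 * t2 (eF h) / a)‖ ≤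
      2 * (1 / (1 - ‖a‖) * (2 - (η ^ 2 * (r * (deriv (gF h) 0).re) + r ^ 3 * 2))) := by
  have hra : ‖(r : ℂ) * a‖ < 1 := by
    rw [norm_mul, Complex.norm_real, Real.norm_of_nonneg hr0.le]
    have : r ≤ 1 := by nlinarith [sq_nonneg η]
    nlinarith [norm_nonneg a]
  have t1 : Tendsto (fun ρ : ℝ => ‖(η : ℂ) * ((1 - a) ^ 2 * eF (dil ρ h) ((r : ℂ) * a) / a ^ 3 -
      (r : ℂ) ^ 2 * ((ρ : ℂ) * t2 (eF h)) / a)‖) (𝓝[<] (1 : ℝ))
      (𝓝 ‖(η : ℂ) * ((1 - a) ^ 2 * eF h ((r : ℂ) * a) / a ^ 3 -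
        (r : ℂ) ^ 2 * (1 * t2 (eF h)) / a)‖) := by
    apply Tendsto.norm
    apply Tendsto.const_mul
    apply Tendsto.sub
    · exact ((tendsto_eF hM hra).const_mul _).div_const _
    · exact ((tendsto_ofReal_one.mul_const _).const_mul _).div_const _
  rw [one_mul] at t1
  have t2' : Tendsto (fun ρ : ℝ => 2 * (1 / (1 - ‖a‖) *
      (2 - (η ^ 2 * (r * (ρ * (deriv (gF h) 0).re)) + r ^ 3 * (ρ * 2))))) (𝓝[<] (1 : ℝ))
      (𝓝 (2 * (1 / (1 - ‖a‖) *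
      (2 - (η ^ 2 * (r * (1 * (deriv (gF h) 0).re)) + r ^ 3 * (1 * 2)))))) := by
    have : Continuous (fun ρ : ℝ => 2 * (1 / (1 - ‖a‖) *
      (2 - (η ^ 2 * (r * (ρ * (deriv (gF h) 0).re)) + r ^ 3 * (ρ * 2))))) := by fun_prop
    exact (this.tendsto 1).mono_left nhdsWithin_le_nhds
  rw [one_mul, one_mul] at t2'
  refine le_of_tendsto_of_tendsto t1 t2' ?_
  filter_upwards [Ioo_mem_left] with ρ hρ
  have h2 := ineqB hr hr0.ne' (dil_cl hρ.1 hρ.2 hM) ha ha0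
  have e : mF (dil ρ h) = fun y => (ρ : ℂ)⁻¹ * mF h ((ρ : ℂ) * y) := by
    funext y; exact mF_dil ρ h y
  have e' : eF (dil ρ h) = fun y => (ρ : ℂ)⁻¹ * eF h ((ρ : ℂ) * y) := by
    funext y; exact eF_dil ρ h y
  have e2 : t2 (mF (dil ρ h)) = (ρ : ℂ) * 2 := by rw [e, t2_dil hρ.1, hm]
  have e2' : t2 (eF (dil ρ h)) = (ρ : ℂ) * t2 (eF h) := by rw [e', t2_dil hρ.1]
  rw [ST_deriv hr hr0.ne' (dil_cl hρ.1 hρ.2 hM), e2, e2', gF_dil_deriv hρ.1] at h2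
  refine h2.trans (le_of_eq ?_)
  congr 3
  have e3 : (η : ℂ) ^ 2 * ((r : ℂ) * ((ρ : ℂ) * deriv (gF h) 0)) + (r : ℂ) ^ 3 * ((ρ : ℂ) * 2) =
      ((η ^ 2 * (r * ρ) : ℝ) : ℂ) * deriv (gF h) 0 + ((r ^ 3 * (ρ * 2) : ℝ) : ℂ) := by
    push_cast; ring
  rw [e3, Complex.add_re, Complex.re_ofReal_mul, Complex.ofReal_re]
  ring

lemma e_form (hM : h ∈ ClassM) (hm : t2 (mF h) = 2) {a : ℂ} (ha : ‖a‖ < 1) (ha0 : a ≠ 0) :
    eF h a = t2 (eF h) * a ^ 2 / (1 - a) ^ 2 := by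
  have hv : 0 < 1 - ‖a‖ := by linarith
  have ha1 : 1 - a ≠ 0 := by
    intro h0
    have : a = 1 := by linear_combination -h0
    rw [this, norm_one] at ha; linarith
  obtain ⟨X, hX⟩ : ∃ X : ℝ → ℂ, X = fun r : ℝ =>
      (1 - a) ^ 2 * eF h ((r : ℂ) * a) / a ^ 3 - (r : ℂ) ^ 2 * t2 (eF h) / a := ⟨_, rfl⟩
  obtain ⟨G, hG⟩ : ∃ G : ℝ, G = |(deriv (gF h) 0).re| := ⟨_, rfl⟩
  have hb : ∀ η : ℝ, 0 < η → η < 1 / 2 → ‖X (Real.sqrt (1 - η ^ 2))‖ ≤
      2 * (1 / (1 - ‖a‖)) * (6 + G) * η := by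
    intro η h0 h1
    obtain ⟨r, hr⟩ : ∃ r : ℝ, r = Real.sqrt (1 - η ^ 2) := ⟨_, rfl⟩
    have hr2 : r ^ 2 = 1 - η ^ 2 := by rw [hr]; exact Real.sq_sqrt (by nlinarith)
    have hrp : 0 < r := by rw [hr]; exact Real.sqrt_pos.2 (by nlinarith)
    have hrr : η ^ 2 + r ^ 2 = 1 := by linarith
    have key := ineqB' hM hm hrr hrp ha ha0
    rw [← hr]
    have e : (η : ℂ) * ((1 - a) ^ 2 * eF h ((r : ℂ) * a) / a ^ 3 -
        (r : ℂ) ^ 2 * t2 (eF h) / a) = (η : ℂ) * X r := by rw [hX]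
    rw [e, norm_mul, Complex.norm_real, Real.norm_of_nonneg h0.le] at key
    have hr1 : r ≤ 1 := by nlinarith
    have h3 : 2 - (η ^ 2 * (r * (deriv (gF h) 0).re) + r ^ 3 * 2) ≤ η ^ 2 * (6 + G) := by
      have h4 : -G ≤ (deriv (gF h) 0).re := by rw [hG]; exact neg_abs_le _
      have hGn : 0 ≤ G := by rw [hG]; exact abs_nonneg _
      have h5 : 1 - r ≤ η ^ 2 := by nlinarith
      have h6 : 1 - r ^ 3 ≤ 3 * (1 - r) := by nlinarith [mul_nonneg hrp.le (sub_nonneg.2 hr1), sq_nonneg (1 - r)]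
      have h7 : -(r * (deriv (gF h) 0).re) ≤ G := by nlinarith
      nlinarith [sq_nonneg η]
    have h8 : η * ‖X r‖ ≤ η * (2 * (1 / (1 - ‖a‖)) * (6 + G) * η) := by
      refine key.trans ?_
      have : 0 < 1 / (1 - ‖a‖) := by positivity
      nlinarith
    exact le_of_mul_le_mul_left h8 h0
  have hlim : Tendsto (fun η : ℝ => ‖X (Real.sqrt (1 - η ^ 2))‖) (𝓝[>] (0 : ℝ)) (𝓝 ‖X 1‖) := by
    have h1 : Tendsto (fun η : ℝ => Real.sqrt (1 - η ^ 2)) (𝓝[>] (0 : ℝ)) (𝓝 1) := by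
      have : Tendsto (fun η : ℝ => Real.sqrt (1 - η ^ 2)) (𝓝 (0 : ℝ))
          (𝓝 (Real.sqrt (1 - (0 : ℝ) ^ 2))) := by
        apply Continuous.tendsto; fun_prop
      norm_num at this
      exact this.mono_left nhdsWithin_le_nhds
    have h2 : ContinuousAt X 1 := by
      have h3 : ContinuousAt (fun r : ℝ => eF h ((r : ℂ) * a)) 1 := by
        have h4 : ContinuousAt (eF h) (((1 : ℝ) : ℂ) * a) := by
          rw [Complex.ofReal_one, one_mul]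
          exact ((eF_diff one_pos hM.1).differentiableAt
            (isOpen_ball.mem_nhds (mem_ball_zero_iff.2 ha))).continuousAt
        have h5 : ContinuousAt (fun r : ℝ => (r : ℂ) * a) 1 :=
          (Complex.continuous_ofReal.mul continuous_const).continuousAt
        exact ContinuousAt.comp (g := eF h) (f := fun r : ℝ => (r : ℂ) * a) h4 h5
      rw [hX]
      exact ((h3.const_mul _).div_const _).sub
        (((Complex.continuous_ofReal.continuousAt.pow 2).mul continuousAt_const).div_const _)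
    exact (h2.norm.tendsto).comp h1
  have hlim2 : Tendsto (fun η : ℝ => 2 * (1 / (1 - ‖a‖)) * (6 + G) * η) (𝓝[>] (0 : ℝ)) (𝓝 0) := by
    have : Tendsto (fun η : ℝ => 2 * (1 / (1 - ‖a‖)) * (6 + G) * η) (𝓝 (0 : ℝ))
        (𝓝 (2 * (1 / (1 - ‖a‖)) * (6 + G) * 0)) := by
      apply Continuous.tendsto; fun_prop
    rw [mul_zero] at this
    exact this.mono_left nhdsWithin_le_nhds
  have h0 : ‖X 1‖ ≤ 0 := by
    refine le_of_tendsto_of_tendsto hlim hlim2 ?_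
    have : Ioo (0 : ℝ) (1 / 2) ∈ 𝓝[>] (0 : ℝ) := Ioo_mem_nhdsGT (by norm_num)
    filter_upwards [this] with η hη
    exact hb η hη.1 hη.2
  have h1 : X 1 = 0 := norm_le_zero_iff.1 h0
  rw [hX] at h1
  simp only [Complex.ofReal_one, one_mul, one_pow] at h1
  field_simp at h1 ⊢
  linear_combination h1

lemma av_re_nonneg {u : ℂ → ℂ} (hu : ContinuousOn u (sphere 0 1))
    (h : ∀ τ : ℂ, ‖τ‖ = 1 → 0 ≤ (u τ).re) : 0 ≤ (av u).re := by
  have key := general_principle (Z := fun l _ => u l) (T := fun _ _ => 0)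
    (V := fun _ _ => 1) (CT_fst hu) (CT_fst continuousOn_const)
    (by unfold CT; exact continuous_const)
    (fun l τ hl _ => h l hl) (fun _ _ _ _ => by simp)
  have e : A2 (fun l τ => u l * ((1 : ℝ) : ℂ)) = av u := by
    unfold A2
    have : (fun τ : ℂ => av fun l => u l * ((1 : ℝ) : ℂ)) = fun _ => av u := by
      funext τ
      apply av_congr; intro l _; simp
    rw [this, av_const]
  rw [e] at key
  have := (norm_nonneg _).trans key
  linarith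

lemma hol_re_nonneg {S : ℂ → ℂ} (hS : Hol S) (h : ∀ τ : ℂ, ‖τ‖ = 1 → 0 ≤ (S τ).re) {a : ℂ}
    (ha : ‖a‖ < 1) : 0 ≤ (S a).re := by
  have h1 : Hol (fun τ => Complex.exp (-S τ)) := by
    have h2 : Hol (fun τ => -S τ) := DiffContOnCl.neg hS
    refine ⟨h2.differentiableOn.cexp, ?_⟩
    exact Complex.continuous_exp.comp_continuousOn h2.continuousOn
  have h2 := Complex.norm_le_of_forall_mem_frontier_norm_le (C := 1) isBounded_ball h1 (by
    intro τ hτ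
    rw [frontier_ball _ one_ne_zero] at hτ
    have hτ1 : ‖τ‖ = 1 := by simpa using hτ
    rw [Complex.norm_exp, Real.exp_le_one_iff, Complex.neg_re]
    linarith [h τ hτ1]) (z := a) (subset_closure (mem_ball_zero_iff.2 ha))
  rw [Complex.norm_exp, Real.exp_le_one_iff, Complex.neg_re] at h2
  linarith

lemma ST_re (hr : η ^ 2 + r ^ 2 = 1) (hC : Cl h) {a : ℂ} (ha : ‖a‖ < 1) :
    0 ≤ (ST η r h a).re := by
  apply hol_re_nonneg (hol_ST hr hC) _ ha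
  intro τ hτ
  rw [← inT_one hr hC hτ]
  apply av_re_nonneg
  · have h1 := (holT_in hr hC 0 hτ.le).contSphere
    have h2 := (holT_in hr hC 1 hτ.le).contSphere
    unfold ZT
    exact ((continuousOn_const.mul contSphere_cj).mul h1).add (continuousOn_const.mul h2)
  · intro l hl
    exact ZT_pos hr hC hl hτ

lemma ineqC0 (hr : η ^ 2 + r ^ 2 = 1) (h0 : 0 ≤ η) (hC : Cl h) {a : ℝ} (ha0 : 0 < a)
    (ha1 : a < 1) {ε : ℝ} (hε : 0 < ε) :
    η * ‖eF h ((r : ℂ) * a)‖ / a ≤ ε + (a / (1 - a) ^ 2) / ε := by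
  have han : ‖(a : ℂ)‖ < 1 := by rw [Complex.norm_real, Real.norm_of_nonneg ha0.le]; exact ha1
  have hac : (a : ℂ) ≠ 0 := by exact_mod_cast ha0.ne'
  have h1a : (1 : ℝ) - a ≠ 0 := by linarith
  have h1ac : (1 : ℂ) - a ≠ 0 := by exact_mod_cast h1a
  have h2a : (1 : ℝ) - a ^ 2 ≠ 0 := by nlinarith
  have h2ac : (1 : ℂ) - (a : ℂ) ^ 2 ≠ 0 := by exact_mod_cast h2a
  have hS := hol_ST hr hC
  have hN := hol_er hr hC
  have hcja : cj (a : ℂ) = a := Complex.conj_ofReal a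
  have hχ : Hol (fun τ => (1 - (a : ℂ) * τ)⁻¹) := by
    have := hol_chi han
    rwa [hcja] at this
  obtain ⟨κ, hκ⟩ : ∃ κ : ℝ, κ = a ^ 2 / ((1 - a) ^ 2 * (1 - a ^ 2)) := ⟨_, rfl⟩
  obtain ⟨T, hT⟩ : ∃ T : ℂ → ℂ, T = fun τ => cj τ * (KK a τ - (1 - (a : ℂ))⁻¹) := ⟨_, rfl⟩
  have hTc : ContinuousOn T (sphere 0 1) := by
    rw [hT]
    exact contSphere_cj.mul ((KK_cont han).sub continuousOn_const)
  have hTsq : ∀ τ : ℂ, ‖τ‖ = 1 → ((‖T τ‖ ^ 2 : ℝ) : ℂ) =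
      (κ : ℂ) * ((2 - τ - cj τ) * (KK a τ + (a : ℂ) * τ * (1 - (a : ℂ) * τ)⁻¹)) := by
    intro τ hτ
    have k1 : 1 - (a : ℂ) * cj τ ≠ 0 := one_sub_ne han (by rw [norm_cj, hτ])
    have k2 : 1 - (a : ℂ) * τ ≠ 0 := one_sub_ne han hτ.le
    have hmc := mul_cj_one hτ
    rw [← Complex.normSq_eq_norm_sq, Complex.normSq_eq_conj_mul_self, hT, hκ]
    simp only [map_mul, map_sub, map_one, map_inv₀, Complex.conj_conj, cj_KK, hcja]
    unfold KK
    have e1 : (1 - (a : ℂ) * τ)⁻¹ - (1 - (a : ℂ))⁻¹ =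
        (a : ℂ) * (τ - 1) / ((1 - (a : ℂ) * τ) * (1 - (a : ℂ))) := by
      field_simp
      ring
    have e2 : (1 - (a : ℂ) * cj τ)⁻¹ - (1 - (a : ℂ))⁻¹ =
        (a : ℂ) * (cj τ - 1) / ((1 - (a : ℂ) * cj τ) * (1 - (a : ℂ))) := by
      field_simp
      ring
    have e3 : (1 - (a : ℂ) * cj τ)⁻¹ + (a : ℂ) * τ * (1 - (a : ℂ) * τ)⁻¹ =
        (1 - (a : ℂ) ^ 2) / ((1 - (a : ℂ) * cj τ) * (1 - (a : ℂ) * τ)) := by
      have : (1 - (a : ℂ) * τ) + (a : ℂ) * τ * (1 - (a : ℂ) * cj τ) = 1 - (a : ℂ) ^ 2 := by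
        linear_combination -(a : ℂ) ^ 2 * hmc
      rw [← this]
      field_simp
    rw [e1, e2, e3]
    push_cast
    have e4 : (2 - τ - cj τ) = τ * cj τ * ((τ - 1) * (cj τ - 1)) := by
      rw [hmc]
      linear_combination -hmc
    rw [e4]
    field_simp
  have hV : CT (fun l τ => (ε + ‖l * T τ‖ ^ 2 / ε) / 2) := by
    have h1 : CT (fun l τ => l * T τ) := (CT_fst continuousOn_id).mul (CT_snd hTc)
    have h2 : Continuous (fun p : ℝ × ℝ => ‖ce p.1 * T (ce p.2)‖) := h1.norm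
    exact (continuous_const.add ((h2.pow 2).div_const ε)).div_const 2
  have key := general_principle (Z := ZT η r h) (T := fun l τ => l * T τ)
    (V := fun l τ => (ε + ‖l * T τ‖ ^ 2 / ε) / 2)
    (CT_ZT hr hC) ((CT_fst continuousOn_id).mul (CT_snd hTc)) hV
    (fun l τ hl hτ => ZT_pos hr hC hl hτ) (fun l τ hl hτ => by
      have h1 := amgm (ε := ε) (v := 1) (x := ‖l * T τ‖) hε
      have h2 : ε / 2 + (1 ^ 2 / (2 * ε)) * ‖l * T τ‖ ^ 2 = (ε + ‖l * T τ‖ ^ 2 / ε) / 2 := by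
        field_simp
      rw [h2, one_mul] at h1
      exact h1)
  have hχ2 : Hol (fun τ => (1 - (a : ℂ) * τ)⁻¹ - (1 - (a : ℂ))⁻¹) := hsub hχ (hol_const _)
  have hz := A2_ZTcj hr hC hTc hχ2 (fun τ hτ => by
    rw [hT]
    simp only [map_mul, map_sub, map_one, map_inv₀, Complex.conj_conj, cj_KK, hcja])
  have e1 : A2 (fun l τ => ZT η r h l τ * (l * T τ)) = (η : ℂ) * (eF h ((r : ℂ) * a) / a) := by
    rw [A2_ZTl hr hC T, av_mul_left]
    congr 1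
    have k := contSphere_ker han
    have c1 : ContinuousOn (fun τ => eF h ((r : ℂ) * τ) * (cj τ * (1 - (a : ℂ) * cj τ)⁻¹))
        (sphere 0 1) := hN.contSphere.mul (contSphere_cj.mul k)
    have c2 : ContinuousOn (fun τ => (1 - (a : ℂ))⁻¹ * (eF h ((r : ℂ) * τ) * cj τ)) (sphere 0 1) :=
      continuousOn_const.mul (hN.contSphere.mul contSphere_cj)
    have e2 : av (fun τ => eF h ((r : ℂ) * τ) * T τ) =
        av (fun τ => eF h ((r : ℂ) * τ) * (cj τ * (1 - (a : ℂ) * cj τ)⁻¹) -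
          (1 - (a : ℂ))⁻¹ * (eF h ((r : ℂ) * τ) * cj τ)) := by
      apply av_congr; intro τ _
      rw [hT]; unfold KK; ring
    rw [e2, av_sub c1 c2, av_mul_left, av_pow1 han hN, av_mul_cj hN, er_deriv hC,
      dslope_eq hac, er_zero hC]
    ring
  have e2 : A2 (fun l τ => ZT η r h l τ * (((ε + ‖l * T τ‖ ^ 2 / ε) / 2 : ℝ) : ℂ)) =
      ((ε / 2 : ℝ) : ℂ) + ((κ / (2 * ε) : ℝ) : ℂ) *
        ((((1 - a ^ 2) / a : ℝ) : ℂ) - (((1 - a) ^ 2 / a : ℝ) : ℂ) * ST η r h a) := by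
    have f1 : A2 (fun l τ => ZT η r h l τ * (((ε + ‖l * T τ‖ ^ 2 / ε) / 2 : ℝ) : ℂ)) =
        av (fun τ => ST η r h τ * (((ε + ‖T τ‖ ^ 2 / ε) / 2 : ℝ) : ℂ)) := by
      unfold A2
      apply av_congr; intro τ hτ
      rw [← inT_one hr hC hτ, ← av_mul_right]
      apply av_congr; intro l hl
      show ZT η r h l τ * (((ε + ‖l * T τ‖ ^ 2 / ε) / 2 : ℝ) : ℂ) = _
      rw [norm_mul, hl, one_mul]
    have k := contSphere_ker han
    have hS2 : Hol (fun τ => ST η r h τ * (2 - τ)) := hmul hS (hsub (hol_const 2) hol_id)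
    have hS3 : Hol (fun τ => τ * (ST η r h τ * (2 - τ) * ((a : ℂ) * (1 - (a : ℂ) * τ)⁻¹))) :=
      hmul hol_id (hmul hS2 (hmul (hol_const _) hχ))
    have hS4 : Hol (fun τ => ST η r h τ * ((a : ℂ) * (1 - (a : ℂ) * τ)⁻¹)) :=
      hmul hS (hmul (hol_const _) hχ)
    have f2 : av (fun τ => ST η r h τ * (((ε + ‖T τ‖ ^ 2 / ε) / 2 : ℝ) : ℂ)) =
        av (fun τ => ((ε / 2 : ℝ) : ℂ) * ST η r h τ + ((κ / (2 * ε) : ℝ) : ℂ) *
          ((ST η r h τ * (2 - τ) * (1 - (a : ℂ) * cj τ)⁻¹ -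
            ST η r h τ * (cj τ * (1 - (a : ℂ) * cj τ)⁻¹)) +
          (τ * (ST η r h τ * (2 - τ) * ((a : ℂ) * (1 - (a : ℂ) * τ)⁻¹)) -
            ST η r h τ * ((a : ℂ) * (1 - (a : ℂ) * τ)⁻¹)))) := by
      apply av_congr; intro τ hτ
      have g1 := hTsq τ hτ
      have hmc := mul_cj_one hτ
      have hεc : (ε : ℂ) ≠ 0 := by exact_mod_cast hε.ne'
      have g2 : (((ε + ‖T τ‖ ^ 2 / ε) / 2 : ℝ) : ℂ) =
          ((ε / 2 : ℝ) : ℂ) + ((‖T τ‖ ^ 2 : ℝ) : ℂ) / (2 * (ε : ℂ)) := by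
        push_cast; field_simp
      rw [g2, g1]
      unfold KK
      have g3 : ((κ / (2 * ε) : ℝ) : ℂ) = (κ : ℂ) / (2 * (ε : ℂ)) := by push_cast; ring
      rw [g3]
      linear_combination (-(κ : ℂ) / (2 * (ε : ℂ)) * ST η r h τ * (a : ℂ) *
        (1 - (a : ℂ) * τ)⁻¹) * hmc
    have c0 : ContinuousOn (fun τ => ((ε / 2 : ℝ) : ℂ) * ST η r h τ) (sphere 0 1) :=
      continuousOn_const.mul hS.contSphere
    have c1 : ContinuousOn (fun τ => ST η r h τ * (2 - τ) * (1 - (a : ℂ) * cj τ)⁻¹) (sphere 0 1) :=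
      hS2.contSphere.mul k
    have c2 : ContinuousOn (fun τ => ST η r h τ * (cj τ * (1 - (a : ℂ) * cj τ)⁻¹)) (sphere 0 1) :=
      hS.contSphere.mul (contSphere_cj.mul k)
    have c12 : ContinuousOn (fun τ => ST η r h τ * (2 - τ) * (1 - (a : ℂ) * cj τ)⁻¹ -
        ST η r h τ * (cj τ * (1 - (a : ℂ) * cj τ)⁻¹)) (sphere 0 1) := c1.sub c2
    have c34 : ContinuousOn (fun τ => τ * (ST η r h τ * (2 - τ) * ((a : ℂ) *
        (1 - (a : ℂ) * τ)⁻¹)) - ST η r h τ * ((a : ℂ) * (1 - (a : ℂ) * τ)⁻¹)) (sphere 0 1) :=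
      hS3.contSphere.sub hS4.contSphere
    have c5 : ContinuousOn (fun τ => ((κ / (2 * ε) : ℝ) : ℂ) *
          ((ST η r h τ * (2 - τ) * (1 - (a : ℂ) * cj τ)⁻¹ -
            ST η r h τ * (cj τ * (1 - (a : ℂ) * cj τ)⁻¹)) +
          (τ * (ST η r h τ * (2 - τ) * ((a : ℂ) * (1 - (a : ℂ) * τ)⁻¹)) -
            ST η r h τ * ((a : ℂ) * (1 - (a : ℂ) * τ)⁻¹)))) (sphere 0 1) :=
      continuousOn_const.mul (c12.add c34)
    rw [f1, f2, av_add c0 c5, av_mul_left, av_mul_left, av_add c12 c34, av_sub c1 c2,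
      av_sub hS3.contSphere hS4.contSphere, av_hol hS, av_cauchy hS2 han, av_pow1 han hS,
      av_hol hS3, av_hol hS4, ST_zero hr hC, dslope_eq hac, ST_zero hr hC]
    push_cast
    simp only [zero_mul, mul_zero, sub_zero, inv_one, mul_one, one_mul, zero_sub]
    field_simp
    ring
  rw [e1, hz, map_zero, add_zero, e2] at key
  have hre := ST_re hr hC han
  have e3 : (((ε / 2 : ℝ) : ℂ) + ((κ / (2 * ε) : ℝ) : ℂ) *
        ((((1 - a ^ 2) / a : ℝ) : ℂ) - (((1 - a) ^ 2 / a : ℝ) : ℂ) * ST η r h a)).re =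
      ε / 2 + κ / (2 * ε) * ((1 - a ^ 2) / a - (1 - a) ^ 2 / a * (ST η r h a).re) := by
    rw [Complex.add_re, Complex.ofReal_re, Complex.re_ofReal_mul, Complex.sub_re,
      Complex.ofReal_re, Complex.re_ofReal_mul]
  rw [e3, norm_mul, Complex.norm_real, Real.norm_of_nonneg h0, norm_div, Complex.norm_real,
    Real.norm_of_nonneg ha0.le] at key
  have hκ0 : 0 < κ := by
    rw [hκ]
    have : 0 < 1 - a ^ 2 := by nlinarith
    positivity
  have h5 : κ / (2 * ε) * ((1 - a ^ 2) / a - (1 - a) ^ 2 / a * (ST η r h a).re) ≤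
      κ / (2 * ε) * ((1 - a ^ 2) / a) := by
    apply mul_le_mul_of_nonneg_left _ (by positivity)
    have : 0 ≤ (1 - a) ^ 2 / a * (ST η r h a).re := by positivity
    linarith
  have h6 : 2 * (ε / 2 + κ / (2 * ε) * ((1 - a ^ 2) / a)) = ε + (a / (1 - a) ^ 2) / ε := by
    rw [hκ]
    field_simp
  calc η * ‖eF h ((r : ℂ) * a)‖ / a = η * (‖eF h ((r : ℂ) * a)‖ / a) := by ring
    _ ≤ _ := key
    _ ≤ 2 * (ε / 2 + κ / (2 * ε) * ((1 - a ^ 2) / a)) := by linarith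
    _ = _ := h6

lemma ineqC (hr : η ^ 2 + r ^ 2 = 1) (h0 : 0 ≤ η) (hC : Cl h) {a : ℝ} (ha0 : 0 < a)
    (ha1 : a < 1) : η * ‖eF h ((r : ℂ) * a)‖ / a ≤ 2 * (Real.sqrt a / (1 - a)) := by
  have hs : 0 < Real.sqrt a := Real.sqrt_pos.2 ha0
  have h1a : 0 < 1 - a := by linarith
  have key := ineqC0 hr h0 hC ha0 ha1 (ε := Real.sqrt a / (1 - a)) (by positivity)
  refine key.trans (le_of_eq ?_)
  have h2 : Real.sqrt a ^ 2 = a := Real.sq_sqrt ha0.le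
  have h3 : a / (1 - a) ^ 2 = (Real.sqrt a / (1 - a)) ^ 2 := by
    rw [div_pow, h2]
  rw [h3]
  field_simp
  ring

lemma ineqC' (hM : h ∈ ClassM) (hr : η ^ 2 + r ^ 2 = 1) (h0 : 0 ≤ η) (hr0 : 0 ≤ r) {a : ℝ}
    (ha0 : 0 < a) (ha1 : a < 1) :
    η * ‖eF h ((r : ℂ) * a)‖ / a ≤ 2 * (Real.sqrt a / (1 - a)) := by
  have hra : ‖(r : ℂ) * a‖ < 1 := by
    rw [norm_mul, Complex.norm_real, Complex.norm_real, Real.norm_of_nonneg hr0,
      Real.norm_of_nonneg ha0.le]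
    have : r ≤ 1 := by nlinarith [sq_nonneg η]
    nlinarith
  have t1 : Tendsto (fun ρ : ℝ => η * ‖eF (dil ρ h) ((r : ℂ) * a)‖ / a) (𝓝[<] (1 : ℝ))
      (𝓝 (η * ‖eF h ((r : ℂ) * a)‖ / a)) :=
    (((tendsto_eF hM hra).norm).const_mul η).div_const a
  refine le_of_tendsto t1 ?_
  filter_upwards [Ioo_mem_left] with ρ hρ
  exact ineqC hr h0 (dil_cl hρ.1 hρ.2 hM) ha0 ha1

theorem e_ext (hM : h ∈ ClassM) (hm : t2 (mF h) = 2) {w : ℂ} (hw : ‖w‖ < 1) : eF h w = 0 := by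
  have hE : t2 (eF h) = 0 := by
    have hb : ∀ a : ℝ, 0 < a → a < 1 →
        ‖t2 (eF h)‖ * a ^ 3 ≤ 4 * Real.sqrt (1 - a ^ 2) * (1 + a) := by
      intro a ha0 ha1
      obtain ⟨η, hη⟩ : ∃ η : ℝ, η = Real.sqrt (1 - a ^ 2) := ⟨_, rfl⟩
      have hη2 : η ^ 2 = 1 - a ^ 2 := by rw [hη]; exact Real.sq_sqrt (by nlinarith)
      have hηp : 0 < η := by rw [hη]; exact Real.sqrt_pos.2 (by nlinarith)
      have hr : η ^ 2 + a ^ 2 = 1 := by linarith
      have key := ineqC' hM hr hηp.le ha0.le ha0 ha1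
      have haa : ‖(a : ℂ) * a‖ < 1 := by
        rw [norm_mul, Complex.norm_real, Real.norm_of_nonneg ha0.le]; nlinarith
      have haa0 : (a : ℂ) * a ≠ 0 := by
        have : (a : ℂ) ≠ 0 := by exact_mod_cast ha0.ne'
        exact mul_ne_zero this this
      rw [e_form hM hm haa haa0] at key
      have e1 : ‖t2 (eF h) * ((a : ℂ) * a) ^ 2 / (1 - (a : ℂ) * a) ^ 2‖ =
          ‖t2 (eF h)‖ * a ^ 4 / (1 - a ^ 2) ^ 2 := by
        rw [norm_div, norm_mul, norm_pow, norm_pow, norm_mul, Complex.norm_real,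
          Real.norm_of_nonneg ha0.le]
        have : (1 : ℂ) - (a : ℂ) * a = ((1 - a ^ 2 : ℝ) : ℂ) := by push_cast; ring
        rw [this, Complex.norm_real, Real.norm_of_nonneg (by nlinarith)]
        ring
      rw [e1, ← hη2] at key
      have hs1 : Real.sqrt a ≤ 1 := by
        rw [Real.sqrt_le_one]; exact ha1.le
      have h1a : 0 < 1 - a := by linarith
      have k2 : η * (‖t2 (eF h)‖ * a ^ 4 / (η ^ 2) ^ 2) / a ≤ 2 * (1 / (1 - a)) := by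
        refine key.trans ?_
        gcongr
      have k3 : η * (‖t2 (eF h)‖ * a ^ 4 / (η ^ 2) ^ 2) / a = ‖t2 (eF h)‖ * a ^ 3 / η ^ 3 := by
        field_simp
      rw [k3, div_le_iff₀ (by positivity)] at k2
      have k4 : 2 * (1 / (1 - a)) * η ^ 3 = 2 * η * (1 + a) := by
        have : η ^ 3 = η * ((1 - a) * (1 + a)) := by
          rw [pow_succ, hη2]; ring
        rw [this]
        field_simp
      rw [k4] at k2
      rw [← hη]
      nlinarith [mul_pos hηp (by linarith : (0 : ℝ) < 1 + a)]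
    have t1 : Tendsto (fun a : ℝ => ‖t2 (eF h)‖ * a ^ 3) (𝓝[<] (1 : ℝ))
        (𝓝 (‖t2 (eF h)‖ * 1 ^ 3)) := by
      have : Continuous (fun a : ℝ => ‖t2 (eF h)‖ * a ^ 3) := by fun_prop
      exact (this.tendsto 1).mono_left nhdsWithin_le_nhds
    have t2' : Tendsto (fun a : ℝ => 4 * Real.sqrt (1 - a ^ 2) * (1 + a)) (𝓝[<] (1 : ℝ))
        (𝓝 (4 * Real.sqrt (1 - 1 ^ 2) * (1 + 1))) := by
      have : Continuous (fun a : ℝ => 4 * Real.sqrt (1 - a ^ 2) * (1 + a)) := by fun_prop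
      exact (this.tendsto 1).mono_left nhdsWithin_le_nhds
    have h3 := le_of_tendsto_of_tendsto t1 t2' (by
      filter_upwards [Ioo_mem_left] with a ha
      exact hb a ha.1 ha.2)
    norm_num at h3
    exact h3
  rcases eq_or_ne w 0 with rfl | hw0
  · exact eF_zero hM
  · rw [e_form hM hm hw hw0, hE]; simp

end Pool.Agent.Work.MP_620749_an
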