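import Pool.Agent.Work.MP_620749_an.ModelBase

/-!
The extremal map for the coefficient of z_1 z_2: it belongs to S^0.
-/

open Set Filter Topology MeasureTheory Metric

noncomputable section

namespace Pool.Agent.Work.MP_620749_an

/-- The constant `3 + 2 sqrt 2`. -/
def kap : ℝ := 3 + 2 * √2

/-- The extremal map for the coefficient of `z_1 z_2`. -/
def extr : E → E := fun z =>
  !₂[z 0 * Complex.exp (-(kap : ℂ) * (z 1 / (1 - z 1))) / (1 - z 1), z 1 / (1 - z 1)]

/-- The vector field of the extremal map. -/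
def extH : E → E := fun z =>
  !₂[z 0 * (1 - z 1 + (kap : ℂ) * (z 1 / (1 - z 1))), z 1 * (1 - z 1)]

/-- The rescaled flow of the extremal vector field, `s = exp (-t)`. -/
def extPsi : E → ℝ → E := fun z s =>
  !₂[z 0 * Complex.exp (-(kap : ℂ) * (1 - (s : ℂ)) * (z 1 / (1 - z 1))) / (1 - (1 - (s : ℂ)) * z 1),
    z 1 / (1 - (1 - (s : ℂ)) * z 1)]

lemma ball_one {z : E} (hz : z ∈ B) : ‖z 1‖ < 1 :=
  (norm_apply_le z 1).trans_lt (mem_ball_zero_iff.1 hz)

lemma extm_sub_ne {y : ℂ} (hy : ‖y‖ < 1) : (1 : ℂ) - y ≠ 0 := by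
  intro h
  have : y = 1 := (sub_eq_zero.1 h).symm
  rw [this] at hy
  simp at hy

lemma den_ne {y : ℂ} (hy : ‖y‖ < 1) {s : ℝ} (h0 : 0 ≤ s) (h1 : s ≤ 1) :
    (1 : ℂ) - (1 - (s : ℂ)) * y ≠ 0 := by
  apply extm_sub_ne
  rw [norm_mul]
  have e : ‖(1 : ℂ) - (s : ℂ)‖ = 1 - s := by
    have : (1 : ℂ) - (s : ℂ) = ((1 - s : ℝ) : ℂ) := by push_cast; ring
    rw [this, Complex.norm_real, Real.norm_of_nonneg (by linarith)]
  rw [e]
  calc (1 - s) * ‖y‖ ≤ 1 * ‖y‖ := by gcongr; linarith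
    _ < 1 := by linarith

lemma diff_co (i : Fin 2) (p : E) : DifferentiableAt ℂ (fun z : E => z i) p :=
  (pr i).differentiableAt

lemma hasFDeriv_co (i : Fin 2) (p : E) : HasFDerivAt (fun z : E => z i) (pr i) p :=
  (pr i).hasFDerivAt

lemma mk2_pr : mk2.comp ((pr 0).prod (pr 1)) = ContinuousLinearMap.id ℂ E := by
  apply ContinuousLinearMap.ext
  intro z
  show mk2 (z 0, z 1) = z
  rw [mk2_apply, eta]

lemma extm_sub (z : E) : DifferentiableAt ℂ (fun z : E => 1 - z 1) z :=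
  (diff_co 1 z).const_sub 1

lemma extm_div {c : E → ℂ} {z : E} (hc : DifferentiableAt ℂ c z) (h : 1 - z 1 ≠ 0) :
    DifferentiableAt ℂ (fun z : E => c z / (1 - z 1)) z := by
  have hi : DifferentiableAt ℂ (fun z : E => (1 - z 1)⁻¹) z :=
    DifferentiableAt.fun_inv (extm_sub z) h
  have e : (fun z : E => c z / (1 - z 1)) = fun z : E => c z * (1 - z 1)⁻¹ := by
    funext w; exact div_eq_mul_inv _ _
  rw [e]
  exact hc.mul hi

lemma extm_quot {z : E} (h : 1 - z 1 ≠ 0) : DifferentiableAt ℂ (fun z : E => z 1 / (1 - z 1)) z :=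
  extm_div (diff_co 1 z) h

lemma extm_unit {z : E} (h : 1 - z 1 ≠ 0) : DifferentiableAt ℂ
    (fun z : E => Complex.exp (-(kap : ℂ) * (z 1 / (1 - z 1))) / (1 - z 1)) z :=
  extm_div (((extm_quot h).const_mul _).cexp) h

lemma extm_first {z : E} (h : 1 - z 1 ≠ 0) : DifferentiableAt ℂ
    (fun z : E => z 0 * Complex.exp (-(kap : ℂ) * (z 1 / (1 - z 1))) / (1 - z 1)) z :=
  extm_div ((diff_co 0 z).mul (((extm_quot h).const_mul _).cexp)) h

lemma extm_hone {z : E} (h : 1 - z 1 ≠ 0) : DifferentiableAt ℂ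
    (fun z : E => 1 - z 1 + (kap : ℂ) * (z 1 / (1 - z 1))) z :=
  (extm_sub z).add ((extm_quot h).const_mul _)

/-- A product of a coordinate with a function which is `1` at the origin. -/
lemma hasFDeriv_unit (i : Fin 2) {p : E → ℂ} (hp : DifferentiableAt ℂ p 0) (h1 : p 0 = 1) :
    HasFDerivAt (fun z : E => z i * p z) (pr i) 0 := by
  have h := (hasFDeriv_co i 0).mul hp.hasFDerivAt
  have e : (fun z : E => z i * p z) = (fun z : E => z i) * p := rfl
  rw [e]
  refine h.congr_fderiv ?_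
  apply ContinuousLinearMap.ext
  intro v
  simp [h1]

lemma extH_fderiv : fderiv ℂ extH 0 = ContinuousLinearMap.id ℂ E := by
  rw [← mk2_pr]
  apply HasFDerivAt.fderiv
  apply hasFDerivAt_pair
  · apply hasFDeriv_unit
    · exact extm_hone (by simp)
    · simp
  · apply hasFDeriv_unit
    · exact (diff_co 1 0).const_sub 1
    · simp

lemma key_pos {X Y b : ℝ} (hX : 0 ≤ X) (hY : 0 ≤ Y) (hXY : X + Y < 1) (hb : 0 < b)
    (h0 : Y = 0 → b = 1 ∧ 0 < X) :
    0 < (X + Y) * ((1 - Y + b) / 2) + kap * X * ((1 - Y - b) / 2 / b) := by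
  have hA : 0 < 1 - Y := by linarith
  have s2 : √2 * √2 = 2 := Real.mul_self_sqrt (by norm_num)
  have hid : (X + Y) * ((1 - Y + b) / 2) + kap * X * ((1 - Y - b) / 2 / b) =
      ((1 - Y - X) * (Y * ((1 - Y + b) * b)) + X * ((1 + √2) * (1 - Y) - b) ^ 2) /
        (2 * b * (1 - Y)) := by
    have e : ((1 + √2) * (1 - Y) - b) ^ 2 =
        (3 + 2 * √2) * (1 - Y) ^ 2 - (2 + 2 * √2) * (1 - Y) * b + b ^ 2 := by
      linear_combination (1 - Y) ^ 2 * s2
    rw [e, kap]
    field_simp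
    ring
  rw [hid]
  apply div_pos _ (by positivity)
  rcases eq_or_lt_of_le hY with h | h
  · obtain ⟨hb1, hX0⟩ := h0 h.symm
    subst hb1
    rw [← h]
    have : 0 < √2 := by positivity
    have e : (1 - 0 - X) * (0 * ((1 - 0 + 1) * 1)) + X * ((1 + √2) * (1 - 0) - 1) ^ 2 =
        X * √2 ^ 2 := by ring
    rw [e]
    positivity
  · have h1 : 0 < (1 - Y - X) * (Y * ((1 - Y + b) * b)) := by
      have : 0 < 1 - Y - X := by linarith
      have : 0 < 1 - Y + b := by linarith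
      positivity
    have h2 : 0 ≤ X * ((1 + √2) * (1 - Y) - b) ^ 2 := by positivity
    linarith

lemma extH_re {z : E} (hz : z ∈ B) :
    (inner ℂ z (extH z)).re = (‖z 0‖ ^ 2 + ‖z 1‖ ^ 2) * ((1 - ‖z 1‖ ^ 2 + ‖1 - z 1‖ ^ 2) / 2) +
      kap * ‖z 0‖ ^ 2 * ((1 - ‖z 1‖ ^ 2 - ‖1 - z 1‖ ^ 2) / 2 / ‖1 - z 1‖ ^ 2) := by
  have hne := extm_sub_ne (ball_one hz)
  rw [inner_E]
  show ((starRingEnd ℂ) (z 0) * (z 0 * (1 - z 1 + (kap : ℂ) * (z 1 / (1 - z 1)))) +
    (starRingEnd ℂ) (z 1) * (z 1 * (1 - z 1))).re = _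
  generalize z 0 = x
  generalize hy : z 1 = y at *
  have hb : (0 : ℝ) < ‖1 - y‖ ^ 2 := by positivity
  have e1 : (starRingEnd ℂ) x * (x * (1 - y + (kap : ℂ) * (y / (1 - y)))) +
      (starRingEnd ℂ) y * (y * (1 - y)) =
      ((‖x‖ ^ 2 + ‖y‖ ^ 2 : ℝ) : ℂ) * (1 - y) + ((kap * ‖x‖ ^ 2 : ℝ) : ℂ) * (y / (1 - y)) := by
    have ex : (starRingEnd ℂ) x * x = ((‖x‖ ^ 2 : ℝ) : ℂ) := by
      rw [mul_comm, Complex.mul_conj, Complex.normSq_eq_norm_sq]
    have ey : (starRingEnd ℂ) y * y = ((‖y‖ ^ 2 : ℝ) : ℂ) := by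
      rw [mul_comm, Complex.mul_conj, Complex.normSq_eq_norm_sq]
    calc _ = ((starRingEnd ℂ) x * x) * (1 - y + (kap : ℂ) * (y / (1 - y))) +
        ((starRingEnd ℂ) y * y) * (1 - y) := by ring
      _ = _ := by
        rw [ex, ey]; push_cast; ring
  rw [e1, Complex.add_re, Complex.re_ofReal_mul, Complex.re_ofReal_mul]
  have e2 : ‖1 - y‖ ^ 2 = (1 - y.re) ^ 2 + y.im ^ 2 := by
    rw [← Complex.normSq_eq_norm_sq, Complex.normSq_apply]
    simp; ring
  have e3 : ‖y‖ ^ 2 = y.re ^ 2 + y.im ^ 2 := by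
    rw [← Complex.normSq_eq_norm_sq, Complex.normSq_apply]; ring
  have e4 : (1 - y).re = (1 - ‖y‖ ^ 2 + ‖1 - y‖ ^ 2) / 2 := by
    rw [e2, e3]; simp; ring
  have e5 : (y / (1 - y)).re = (1 - ‖y‖ ^ 2 - ‖1 - y‖ ^ 2) / 2 / ‖1 - y‖ ^ 2 := by
    rw [Complex.div_re, Complex.normSq_eq_norm_sq, ← add_div]
    congr 1
    rw [e2, e3]; simp; ring
  rw [e4, e5]

lemma extH_mem : extH ∈ ClassM := by
  refine ⟨?_, ?_, extH_fderiv, ?_⟩
  · intro z hz
    have hne := extm_sub_ne (ball_one hz)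
    apply DifferentiableAt.differentiableWithinAt
    exact differentiableAt_pair ((diff_co 0 z).mul (extm_hone hne))
      ((diff_co 1 z).mul (extm_sub z))
  · ext i; fin_cases i <;> simp [extH]
  · intro z hz hz0
    rw [extH_re hz]
    have hn : ‖z 0‖ ^ 2 + ‖z 1‖ ^ 2 < 1 := by
      have := (norm_lt_iff (z := z) (r := 1) (by norm_num)).1 (mem_ball_zero_iff.1 hz)
      simpa using this
    apply key_pos (by positivity) (by positivity) hn
    · have := extm_sub_ne (ball_one hz)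
      positivity
    · intro h
      have h1 : z 1 = 0 := by simpa using h
      refine ⟨by simp [h1], ?_⟩
      have h0 : z 0 ≠ 0 := by
        intro h0
        apply hz0
        ext i; fin_cases i
        · simpa using h0
        · simpa using h1
      positivity

lemma extr_classS : extr ∈ ClassS := by
  refine ⟨?_, ?_, ?_, ?_⟩
  · intro z hz
    have hne := extm_sub_ne (ball_one hz)
    apply DifferentiableAt.differentiableWithinAt
    exact differentiableAt_pair (extm_first hne) (extm_quot hne)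
  · intro z hz w hw hzw
    have hne := extm_sub_ne (ball_one hz)
    have hne' := extm_sub_ne (ball_one hw)
    have c1 : z 1 / (1 - z 1) = w 1 / (1 - w 1) := congrArg (fun v : E => v 1) hzw
    have c0 : z 0 * Complex.exp (-(kap : ℂ) * (z 1 / (1 - z 1))) / (1 - z 1) =
      w 0 * Complex.exp (-(kap : ℂ) * (w 1 / (1 - w 1))) / (1 - w 1) :=
      congrArg (fun v : E => v 0) hzw
    have h1 : z 1 = w 1 := by
      rw [div_eq_div_iff hne hne'] at c1
      linear_combination c1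
    rw [h1] at c0
    have h0 : z 0 = w 0 := by
      have hE := Complex.exp_ne_zero (-(kap : ℂ) * (w 1 / (1 - w 1)))
      field_simp at c0
      exact c0
    ext i; fin_cases i
    · exact h0
    · exact h1
  · ext i; fin_cases i <;> simp [extr]
  · rw [← mk2_pr]
    apply HasFDerivAt.fderiv
    have h1 : (1 : ℂ) - (0 : E) 1 ≠ 0 := by simp
    apply hasFDerivAt_pair
    · have := hasFDeriv_unit 0
        (p := fun z : E => Complex.exp (-(kap : ℂ) * (z 1 / (1 - z 1))) / (1 - z 1))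
        (extm_unit h1) (by simp)
      refine this.congr_of_eventuallyEq (Eventually.of_forall fun z => ?_)
      simp only
      ring
    · have := hasFDeriv_unit 1 (p := fun z : E => (1 - z 1)⁻¹) ((extm_sub 0).inv h1) (by simp)
      refine this.congr_of_eventuallyEq (Eventually.of_forall fun z => ?_)
      simp only
      ring

lemma extPsi_cont :
    ContinuousOn (fun p : E × ℝ => extPsi p.1 p.2) (B ×ˢ Icc (0 : ℝ) 1) := by
  have c0 : ContinuousOn (fun p : E × ℝ => p.1 0) (B ×ˢ Icc (0 : ℝ) 1) :=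
    ((pr 0).continuous.comp continuous_fst).continuousOn
  have c1 : ContinuousOn (fun p : E × ℝ => p.1 1) (B ×ˢ Icc (0 : ℝ) 1) :=
    ((pr 1).continuous.comp continuous_fst).continuousOn
  have cs : ContinuousOn (fun p : E × ℝ => (1 : ℂ) - (p.2 : ℂ)) (B ×ˢ Icc (0 : ℝ) 1) :=
    (continuous_const.sub (Complex.continuous_ofReal.comp continuous_snd)).continuousOn
  have cd : ContinuousOn (fun p : E × ℝ => (1 : ℂ) - (1 - (p.2 : ℂ)) * p.1 1)
      (B ×ˢ Icc (0 : ℝ) 1) := continuousOn_const.sub (cs.mul c1)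
  have hd : ∀ p ∈ (B ×ˢ Icc (0 : ℝ) 1 : Set (E × ℝ)), (1 : ℂ) - (1 - (p.2 : ℂ)) * p.1 1 ≠ 0 :=
    fun p hp => den_ne (ball_one hp.1) hp.2.1 hp.2.2
  have ce : ContinuousOn (fun p : E × ℝ => p.1 1 / (1 - p.1 1)) (B ×ˢ Icc (0 : ℝ) 1) :=
    c1.div (continuousOn_const.sub c1) fun p hp => extm_sub_ne (ball_one hp.1)
  exact continuousOn_pair ((c0.mul ((continuousOn_const.mul cs).mul ce).cexp).div cd hd)
    (c1.div cd hd)

lemma extPsi_zero (z : E) : extPsi z 0 = extr z := by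
  simp [extPsi, extr]

/-- The flow of the extremal vector field. -/
def extPhi : E → ℝ → E := fun z t => Real.exp (-t) • extPsi z (Real.exp (-t))

lemma extPhi_zero {z : E} (_hz : z ∈ B) : extPhi z 0 = z := by
  simp only [extPhi, extPsi, neg_zero, Real.exp_zero, one_smul]
  rw [← eta z]
  simp

lemma flow_two {σ : ℝ → ℂ} {t : ℝ} (hσ : HasDerivAt σ (-(σ t)) t) {y : ℂ}
    (hD : 1 - (1 - σ t) * y ≠ 0) :
    HasDerivAt (fun t => σ t * (y / (1 - (1 - σ t) * y)))
      (-(σ t * (y / (1 - (1 - σ t) * y)) * (1 - σ t * (y / (1 - (1 - σ t) * y))))) t := by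
  have dD : HasDerivAt (fun t : ℝ => (1 : ℂ) - (1 - σ t) * y) (-(σ t * y)) t := by
    have := ((hσ.const_sub 1).mul_const y).const_sub 1
    refine this.congr_deriv ?_
    ring
  have dq : HasDerivAt (fun t : ℝ => y / (1 - (1 - σ t) * y))
      ((0 * (1 - (1 - σ t) * y) - y * (-(σ t * y))) / (1 - (1 - σ t) * y) ^ 2) t :=
    (hasDerivAt_const t y).div dD hD
  have H : HasDerivAt (fun t => σ t * (y / (1 - (1 - σ t) * y)))
      (-(σ t) * (y / (1 - (1 - σ t) * y)) +
        σ t * ((0 * (1 - (1 - σ t) * y) - y * (-(σ t * y))) / (1 - (1 - σ t) * y) ^ 2)) t :=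
    hσ.mul dq
  refine H.congr_deriv ?_
  generalize σ t = s at *
  obtain ⟨D, hDD⟩ : ∃ D, D = 1 - (1 - s) * y := ⟨_, rfl⟩
  rw [← hDD] at hD ⊢
  field_simp
  ring

lemma flow_one {σ : ℝ → ℂ} {t : ℝ} (hσ : HasDerivAt σ (-(σ t)) t) {x y k : ℂ}
    (hy : 1 - y ≠ 0) (hD : 1 - (1 - σ t) * y ≠ 0) :
    HasDerivAt (fun t => σ t * (x * Complex.exp (-k * (1 - σ t) * (y / (1 - y))) /
        (1 - (1 - σ t) * y)))
      (-(σ t * (x * Complex.exp (-k * (1 - σ t) * (y / (1 - y))) / (1 - (1 - σ t) * y)) *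
        (1 - σ t * (y / (1 - (1 - σ t) * y)) + k * (σ t * (y / (1 - (1 - σ t) * y)) /
          (1 - σ t * (y / (1 - (1 - σ t) * y))))))) t := by
  have dD : HasDerivAt (fun t : ℝ => (1 : ℂ) - (1 - σ t) * y) (-(σ t * y)) t := by
    have := ((hσ.const_sub 1).mul_const y).const_sub 1
    refine this.congr_deriv ?_
    ring
  have dE : HasDerivAt (fun t : ℝ => Complex.exp (-k * (1 - σ t) * (y / (1 - y))))
      (Complex.exp (-k * (1 - σ t) * (y / (1 - y))) * (-k * σ t * (y / (1 - y)))) t := by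
    have := (((hσ.const_sub 1).const_mul (-k)).mul_const (y / (1 - y))).cexp
    refine this.congr_deriv ?_
    ring
  have dq : HasDerivAt (fun t : ℝ => x * Complex.exp (-k * (1 - σ t) * (y / (1 - y))) /
      (1 - (1 - σ t) * y))
      ((x * (Complex.exp (-k * (1 - σ t) * (y / (1 - y))) * (-k * σ t * (y / (1 - y)))) *
        (1 - (1 - σ t) * y) - x * Complex.exp (-k * (1 - σ t) * (y / (1 - y))) * (-(σ t * y))) /
        (1 - (1 - σ t) * y) ^ 2) t :=
    (dE.const_mul x).div dD hD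
  have H : HasDerivAt (fun t => σ t * (x * Complex.exp (-k * (1 - σ t) * (y / (1 - y))) /
        (1 - (1 - σ t) * y)))
      (-(σ t) * (x * Complex.exp (-k * (1 - σ t) * (y / (1 - y))) / (1 - (1 - σ t) * y)) +
        σ t * ((x * (Complex.exp (-k * (1 - σ t) * (y / (1 - y))) * (-k * σ t * (y / (1 - y)))) *
        (1 - (1 - σ t) * y) - x * Complex.exp (-k * (1 - σ t) * (y / (1 - y))) * (-(σ t * y))) /
        (1 - (1 - σ t) * y) ^ 2)) t :=
    hσ.mul dq
  refine H.congr_deriv ?_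
  generalize Complex.exp (-k * (1 - σ t) * (y / (1 - y))) = e at *
  have h1 : 1 - σ t * (y / (1 - (1 - σ t) * y)) = (1 - y) / (1 - (1 - σ t) * y) := by
    rw [eq_div_iff hD, sub_mul, mul_assoc, div_mul_cancel₀ _ hD]
    ring
  have h2 : σ t * (y / (1 - (1 - σ t) * y)) / ((1 - y) / (1 - (1 - σ t) * y)) =
      σ t * y / (1 - y) := by
    rw [← mul_div_assoc, div_div_div_cancel_right₀ hD]
  rw [h1, h2]
  generalize σ t = s at *
  obtain ⟨D, hDD⟩ : ∃ D, D = 1 - (1 - s) * y := ⟨_, rfl⟩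
  rw [← hDD] at hD ⊢
  field_simp
  rw [hDD]
  ring

lemma extPhi_form (z : E) : extPhi z = fun t : ℝ =>
      !₂[((Real.exp (-t) : ℝ) : ℂ) * (z 0 * Complex.exp (-(kap : ℂ) *
        (1 - ((Real.exp (-t) : ℝ) : ℂ)) * (z 1 / (1 - z 1))) /
        (1 - (1 - ((Real.exp (-t) : ℝ) : ℂ)) * z 1)),
        ((Real.exp (-t) : ℝ) : ℂ) * (z 1 / (1 - (1 - ((Real.exp (-t) : ℝ) : ℂ)) * z 1))] := by
  funext t
  simp only [extPhi, extPsi]
  ext i; fin_cases i
  · simp
  · simp

lemma extPhi_deriv {z : E} (hz : z ∈ B) {t : ℝ} (ht : 0 ≤ t) :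
    HasDerivAt (extPhi z) (-extH (extPhi z t)) t := by
  have hy := ball_one hz
  have hne := extm_sub_ne hy
  have hs0 : 0 < Real.exp (-t) := Real.exp_pos _
  have hs1 : Real.exp (-t) ≤ 1 := by simpa using ht
  have hD := den_ne hy hs0.le hs1
  have ds : HasDerivAt (fun t : ℝ => ((Real.exp (-t) : ℝ) : ℂ)) (-((Real.exp (-t) : ℝ) : ℂ)) t := by
    have h1 : HasDerivAt (fun t : ℝ => Real.exp (-t)) (Real.exp (-t) * (-1)) t :=
      (Real.hasDerivAt_exp (-t)).comp t (hasDerivAt_neg t)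
    have h2 := h1.ofReal_comp
    refine h2.congr_deriv ?_
    push_cast; ring
  have H := hasDerivAt_pair_real (flow_one ds (x := z 0) (k := (kap : ℂ)) hne hD)
    (flow_two ds hD)
  rw [extPhi_form]
  refine H.congr_deriv ?_
  ext i; fin_cases i
  · rfl
  · rfl

theorem extr_mem : extr ∈ ClassS0 := by
  apply mem_S0 (h := extH) (φ := extPhi) extH_mem extr_classS
  · intro z hz; exact extPhi_zero hz
  · intro z hz t ht; exact extPhi_deriv hz ht
  · apply tendsto_of_joint (Ψ := extPsi) extPsi_cont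
    · intro z _; exact extPsi_zero z
    · intro z _ t _; rfl

theorem extr_coeff : coeffOne 1 1 extr = 1 - (kap : ℂ) := by
  have h1 : (fun y : ℂ => iteratedDeriv 1 (fun x : ℂ => extr !₂[x, y] 0) 0) =
      fun y : ℂ => Complex.exp (-(kap : ℂ) * (y / (1 - y))) / (1 - y) := by
    funext y
    rw [iteratedDeriv_one]
    have : (fun x : ℂ => extr !₂[x, y] 0) =
        fun x : ℂ => x * (Complex.exp (-(kap : ℂ) * (y / (1 - y))) / (1 - y)) := by
      funext x
      show x * Complex.exp (-(kap : ℂ) * (y / (1 - y))) / (1 - y) = _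
      ring
    rw [this]
    simp
  rw [coeffOne, h1, iteratedDeriv_one]
  have d1 : HasDerivAt (fun y : ℂ => 1 - y) (-1) 0 := by
    simpa using (hasDerivAt_id (0 : ℂ)).const_sub 1
  have hne : (1 : ℂ) - 0 ≠ 0 := by simp
  have d2 : HasDerivAt (fun y : ℂ => y / (1 - y)) 1 0 := by
    have := (hasDerivAt_id (0 : ℂ)).div d1 hne
    refine this.congr_deriv ?_
    simp
  have d3 := (d2.const_mul (-(kap : ℂ))).cexp
  have d4 := d3.div d1 hne
  have e := d4.deriv
  have e' : deriv (fun y : ℂ => Complex.exp (-(kap : ℂ) * (y / (1 - y))) / (1 - y)) 0 =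
      1 - (kap : ℂ) := by
    refine e.trans ?_
    simp
    ring
  rw [e']
  simp

end Pool.Agent.Work.MP_620749_an
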