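import Pool.Agent.Work.MP_620749_an.ExtModel

/-!
The Koebe map in the first coordinate belongs to S^0.
-/

open Set Filter Topology MeasureTheory Metric

noncomputable section

namespace Pool.Agent.Work.MP_620749_an

/-- The Koebe function in the first coordinate. -/
def koebe : E → E := fun z => !₂[z 0 / (1 - z 0) ^ 2, z 1]

/-- The vector field of the Koebe map. -/
def koeH : E → E := fun z => !₂[z 0 * (1 - z 0) / (1 + z 0), z 1]

/-- The Cayley transform. -/
def cay (x : ℂ) : ℂ := (1 + x) / (1 - x)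

/-- The square root in the flow. -/
def koeV (x : ℂ) (s : ℂ) : ℂ := Complex.sqrt ((1 - s) + s * cay x ^ 2)

/-- The rescaled flow of the Koebe vector field, `s = exp (-t)`. -/
def koePsi : E → ℝ → E := fun z s =>
  !₂[(cay (z 0) ^ 2 - 1) / (koeV (z 0) (s : ℂ) + 1) ^ 2, z 1]

lemma ball_zero' {z : E} (hz : z ∈ B) : ‖z 0‖ < 1 :=
  (norm_apply_le z 0).trans_lt (mem_ball_zero_iff.1 hz)

lemma one_add_ne {y : ℂ} (hy : ‖y‖ < 1) : (1 : ℂ) + y ≠ 0 := by
  have := extm_sub_ne (y := -y) (by simpa using hy)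
  simpa using this

lemma sqrt_sq' (w : ℂ) : Complex.sqrt w ^ 2 = w := Complex.cpow_ofNat_inv_pow w 2

lemma sqrt_re_nonneg (w : ℂ) : 0 ≤ (Complex.sqrt w).re := by
  have : (Complex.sqrt w).re = √((‖w‖ + w.re) / 2) := Complex.cpow_inv_two_re w
  rw [this]
  positivity

lemma sqrt_add_ne (w : ℂ) : Complex.sqrt w + 1 ≠ 0 := by
  intro h
  have h1 := sqrt_re_nonneg w
  have h2 := congrArg Complex.re h
  simp at h2
  linarith

lemma sqrt_ne {w : ℂ} (hw : w ≠ 0) : Complex.sqrt w ≠ 0 := by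
  intro h
  have := sqrt_sq' w
  rw [h] at this
  apply hw
  rw [← this]; ring

lemma sqrt_deriv {w : ℂ} (hw : w ∈ Complex.slitPlane) :
    HasDerivAt Complex.sqrt (1 / (2 * Complex.sqrt w)) w := by
  refine (Complex.hasDerivAt_sqrt hw).congr_deriv ?_
  have e : w ^ (-1 / 2 : ℂ) = (Complex.sqrt w)⁻¹ := by
    rw [Complex.sqrt, ← Complex.cpow_neg]
    congr 1
    norm_num
  rw [e]
  have := sqrt_ne (Complex.slitPlane_ne_zero hw)
  field_simp

lemma sqrt_sq_of_re {u : ℂ} (hu : 0 < u.re) : Complex.sqrt (u ^ 2) = u := by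
  have h := sqrt_sq' (u ^ 2)
  rcases sq_eq_sq_iff_eq_or_eq_neg.1 h with h1 | h1
  · exact h1
  · exfalso
    have h2 := sqrt_re_nonneg (u ^ 2)
    rw [h1] at h2
    simp at h2
    linarith

lemma cay_re {x : ℂ} (hx : ‖x‖ < 1) : 0 < (cay x).re := by
  have h1 := extm_sub_ne hx
  have e : (cay x).re = (1 - ‖x‖ ^ 2) / ‖1 - x‖ ^ 2 := by
    rw [cay, Complex.div_re, Complex.normSq_eq_norm_sq, ← add_div]
    congr 1
    rw [← Complex.normSq_eq_norm_sq, Complex.normSq_apply]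
    simp; ring
  rw [e]
  have : ‖x‖ ^ 2 < 1 := by nlinarith [norm_nonneg x]
  have : 0 < 1 - ‖x‖ ^ 2 := by linarith
  positivity

lemma sq_slit {u : ℂ} (hu : 0 < u.re) : u ^ 2 ∈ Complex.slitPlane := by
  rw [Complex.mem_slitPlane_iff]
  by_cases h : u.im = 0
  · left
    rw [sq, Complex.mul_re, h]
    nlinarith
  · right
    rw [sq, Complex.mul_im]
    intro h2
    have : 2 * (u.re * u.im) = 0 := by linarith
    rcases mul_eq_zero.1 (by linarith : u.re * u.im = 0) with h3 | h3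
    · linarith
    · exact h h3

lemma seg_slit {x : ℂ} (hx : ‖x‖ < 1) {s : ℝ} (h0 : 0 ≤ s) (h1 : s ≤ 1) :
    (1 - (s : ℂ)) + (s : ℂ) * cay x ^ 2 ∈ Complex.slitPlane := by
  have := Complex.starConvex_one_slitPlane (sq_slit (cay_re hx))
    (a := 1 - s) (b := s) (by linarith) h0 (by ring)
  simpa using this

lemma koebe_inj {x y : ℂ} (hx : ‖x‖ < 1) (hy : ‖y‖ < 1)
    (h : x / (1 - x) ^ 2 = y / (1 - y) ^ 2) : x = y := by
  have h1 := extm_sub_ne hx
  have h2 := extm_sub_ne hy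
  rw [div_eq_div_iff (pow_ne_zero 2 h1) (pow_ne_zero 2 h2)] at h
  have h3 : (x - y) * (1 - x * y) = 0 := by linear_combination h
  have h4 : (1 : ℂ) - x * y ≠ 0 := by
    apply extm_sub_ne
    rw [norm_mul]
    nlinarith [norm_nonneg x, norm_nonneg y]
  rcases mul_eq_zero.1 h3 with h5 | h5
  · exact sub_eq_zero.1 h5
  · exact absurd h5 h4

lemma koe_quot {c d : E → ℂ} {z : E} (hc : DifferentiableAt ℂ c z) (hd : DifferentiableAt ℂ d z)
    (h : d z ≠ 0) : DifferentiableAt ℂ (fun z : E => c z / d z) z := by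
  have hi : DifferentiableAt ℂ (fun z : E => (d z)⁻¹) z := DifferentiableAt.fun_inv hd h
  have e : (fun z : E => c z / d z) = fun z : E => c z * (d z)⁻¹ := by
    funext w; exact div_eq_mul_inv _ _
  rw [e]
  exact hc.mul hi

lemma koeH_re {z : E} (hz : z ∈ B) :
    (inner ℂ z (koeH z)).re = ‖z 0‖ ^ 2 * ((1 - ‖z 0‖ ^ 2) / ‖1 + z 0‖ ^ 2) + ‖z 1‖ ^ 2 := by
  have hne := one_add_ne (ball_zero' hz)
  rw [inner_E]
  show ((starRingEnd ℂ) (z 0) * (z 0 * (1 - z 0) / (1 + z 0)) +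
    (starRingEnd ℂ) (z 1) * z 1).re = _
  generalize z 0 = x at *
  generalize z 1 = y at *
  have ex : (starRingEnd ℂ) x * x = ((‖x‖ ^ 2 : ℝ) : ℂ) := by
    rw [mul_comm, Complex.mul_conj, Complex.normSq_eq_norm_sq]
  have ey : (starRingEnd ℂ) y * y = ((‖y‖ ^ 2 : ℝ) : ℂ) := by
    rw [mul_comm, Complex.mul_conj, Complex.normSq_eq_norm_sq]
  have e1 : (starRingEnd ℂ) x * (x * (1 - x) / (1 + x)) + (starRingEnd ℂ) y * y =
      ((‖x‖ ^ 2 : ℝ) : ℂ) * ((1 - x) / (1 + x)) + ((‖y‖ ^ 2 : ℝ) : ℂ) := by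
    rw [← ex, ← ey]; ring
  rw [e1, Complex.add_re, Complex.re_ofReal_mul, Complex.ofReal_re]
  have e5 : ((1 - x) / (1 + x)).re = (1 - ‖x‖ ^ 2) / ‖1 + x‖ ^ 2 := by
    rw [Complex.div_re, Complex.normSq_eq_norm_sq, ← add_div]
    congr 1
    rw [← Complex.normSq_eq_norm_sq, Complex.normSq_apply]
    simp; ring
  rw [e5]

lemma koeH_mem : koeH ∈ ClassM := by
  refine ⟨?_, ?_, ?_, ?_⟩
  · intro z hz
    have hne := one_add_ne (ball_zero' hz)
    apply DifferentiableAt.differentiableWithinAt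
    refine differentiableAt_pair (koe_quot ?_ ?_ hne) (diff_co 1 z)
    · exact (diff_co 0 z).mul ((diff_co 0 z).const_sub 1)
    · exact (diff_co 0 z).const_add 1
  · ext i; fin_cases i <;> simp [koeH]
  · rw [← mk2_pr]
    apply HasFDerivAt.fderiv
    apply hasFDerivAt_pair _ (hasFDeriv_co 1 0)
    have := hasFDeriv_unit 0 (p := fun z : E => (1 - z 0) / (1 + z 0))
      (koe_quot ((diff_co 0 0).const_sub 1) ((diff_co 0 0).const_add 1) (by simp)) (by simp)
    refine this.congr_of_eventuallyEq (Eventually.of_forall fun z => ?_)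
    simp only
    ring
  · intro z hz hz0
    rw [koeH_re hz]
    have hx := ball_zero' hz
    have hne := one_add_ne hx
    have h1 : ‖z 0‖ ^ 2 < 1 := by nlinarith [norm_nonneg (z 0)]
    have h2 : 0 < (1 - ‖z 0‖ ^ 2) / ‖1 + z 0‖ ^ 2 := by
      have : 0 < 1 - ‖z 0‖ ^ 2 := by linarith
      positivity
    by_cases h : z 1 = 0
    · have h0 : z 0 ≠ 0 := by
        intro h0
        apply hz0
        ext i; fin_cases i
        · simpa using h0
        · simpa using h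
      positivity
    · have : 0 < ‖z 1‖ ^ 2 := by positivity
      have : 0 ≤ ‖z 0‖ ^ 2 * ((1 - ‖z 0‖ ^ 2) / ‖1 + z 0‖ ^ 2) := by positivity
      linarith

lemma koebe_classS : koebe ∈ ClassS := by
  refine ⟨?_, ?_, ?_, ?_⟩
  · intro z hz
    have hne := extm_sub_ne (ball_zero' hz)
    apply DifferentiableAt.differentiableWithinAt
    refine differentiableAt_pair (koe_quot (diff_co 0 z) ?_ (pow_ne_zero 2 hne)) (diff_co 1 z)
    exact ((diff_co 0 z).const_sub 1).pow 2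
  · intro z hz w hw hzw
    have c1 : (koebe z) 1 = (koebe w) 1 := congrArg (fun v : E => v 1) hzw
    have c0 : (koebe z) 0 = (koebe w) 0 := congrArg (fun v : E => v 0) hzw
    ext i; fin_cases i
    · exact koebe_inj (ball_zero' hz) (ball_zero' hw) c0
    · exact c1
  · ext i; fin_cases i <;> simp [koebe]
  · rw [← mk2_pr]
    apply HasFDerivAt.fderiv
    apply hasFDerivAt_pair _ (hasFDeriv_co 1 0)
    have := hasFDeriv_unit 0 (p := fun z : E => 1 / (1 - z 0) ^ 2)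
      (koe_quot (differentiableAt_const 1) (((diff_co 0 0).const_sub 1).pow 2) (by simp)) (by simp)
    refine this.congr_of_eventuallyEq (Eventually.of_forall fun z => ?_)
    simp only
    ring

lemma cay_cont {x : ℂ} (hx : ‖x‖ < 1) : ContinuousAt cay x := by
  have h := extm_sub_ne hx
  unfold cay
  fun_prop (disch := assumption)

lemma koePsi_cont :
    ContinuousOn (fun p : E × ℝ => koePsi p.1 p.2) (B ×ˢ Icc (0 : ℝ) 1) := by
  have c0 : Continuous (fun p : E × ℝ => p.1 0) := (pr 0).continuous.comp continuous_fst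
  have c1 : Continuous (fun p : E × ℝ => p.1 1) := (pr 1).continuous.comp continuous_fst
  have cs : Continuous (fun p : E × ℝ => (p.2 : ℂ)) := Complex.continuous_ofReal.comp continuous_snd
  intro p hp
  apply ContinuousAt.continuousWithinAt
  have hx := ball_zero' hp.1
  have cc : ContinuousAt (fun p : E × ℝ => cay (p.1 0)) p :=
    ContinuousAt.comp (f := fun p : E × ℝ => p.1 0) (cay_cont hx) c0.continuousAt
  have cq : ContinuousAt (fun p : E × ℝ => (1 - (p.2 : ℂ)) + (p.2 : ℂ) * cay (p.1 0) ^ 2) p :=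
    (continuousAt_const.sub cs.continuousAt).add (cs.continuousAt.mul (cc.pow 2))
  have cv : ContinuousAt (fun p : E × ℝ => koeV (p.1 0) (p.2 : ℂ)) p := by
    have hs := seg_slit hx hp.2.1 hp.2.2
    exact ContinuousAt.comp (f := fun p : E × ℝ => (1 - (p.2 : ℂ)) + (p.2 : ℂ) * cay (p.1 0) ^ 2)
      (sqrt_deriv hs).continuousAt cq
  have cn : ContinuousAt (fun p : E × ℝ => (cay (p.1 0) ^ 2 - 1) /
      (koeV (p.1 0) (p.2 : ℂ) + 1) ^ 2) p :=
    ContinuousAt.div ((cc.pow 2).sub continuousAt_const) ((cv.add continuousAt_const).pow 2)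
      (pow_ne_zero 2 (sqrt_add_ne _))
  have e : (fun p : E × ℝ => koePsi p.1 p.2) = fun p : E × ℝ =>
      mk2 ((cay (p.1 0) ^ 2 - 1) / (koeV (p.1 0) (p.2 : ℂ) + 1) ^ 2, p.1 1) := by
    funext q; rw [mk2_apply]; rfl
  rw [e]
  exact mk2.continuous.continuousAt.comp (cn.prodMk c1.continuousAt)

lemma koePsi_zero {z : E} (hz : z ∈ B) : koePsi z 0 = koebe z := by
  have h1 := extm_sub_ne (ball_zero' hz)
  have hv : koeV (z 0) ((0 : ℝ) : ℂ) = 1 := by
    simp [koeV]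
  simp only [koePsi, koebe]
  rw [hv]
  congr 2
  rw [cay]
  field_simp
  ring

/-- The flow of the Koebe vector field. -/
def koePhi : E → ℝ → E := fun z t => Real.exp (-t) • koePsi z (Real.exp (-t))

lemma koePhi_zero {z : E} (hz : z ∈ B) : koePhi z 0 = z := by
  have hx := ball_zero' hz
  have h1 := extm_sub_ne hx
  have hv : koeV (z 0) ((1 : ℝ) : ℂ) = cay (z 0) := by
    simp only [koeV, Complex.ofReal_one, sub_self, zero_add, one_mul]
    exact sqrt_sq_of_re (cay_re hx)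
  have hc : cay (z 0) + 1 ≠ 0 := by
    intro h
    have h2 := congrArg Complex.re h
    have h3 := cay_re hx
    simp at h2
    linarith
  have e : (cay (z 0) ^ 2 - 1) / (cay (z 0) + 1) ^ 2 = z 0 := by
    have e1 : (cay (z 0) ^ 2 - 1) / (cay (z 0) + 1) ^ 2 = (cay (z 0) - 1) / (cay (z 0) + 1) := by
      rw [div_eq_div_iff (pow_ne_zero 2 hc) hc]
      ring
    have e2 : cay (z 0) + 1 = 2 / (1 - z 0) := by rw [cay]; field_simp; ring
    have e3 : cay (z 0) - 1 = 2 * z 0 / (1 - z 0) := by rw [cay]; field_simp; ring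
    rw [e1, e2, e3]
    field_simp
  simp only [koePhi, koePsi, neg_zero, Real.exp_zero, one_smul]
  rw [hv, e]
  exact eta z

lemma koePhi_deriv {z : E} (hz : z ∈ B) {t : ℝ} (ht : 0 ≤ t) :
    HasDerivAt (koePhi z) (-koeH (koePhi z t)) t := by
  have hx := ball_zero' hz
  have hs0 : 0 < Real.exp (-t) := Real.exp_pos _
  have hs1 : Real.exp (-t) ≤ 1 := by simpa using ht
  have hslit := seg_slit hx hs0.le hs1
  have ds : HasDerivAt (fun t : ℝ => ((Real.exp (-t) : ℝ) : ℂ)) (-((Real.exp (-t) : ℝ) : ℂ)) t := by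
    have h1 : HasDerivAt (fun t : ℝ => Real.exp (-t)) (Real.exp (-t) * (-1)) t :=
      (Real.hasDerivAt_exp (-t)).comp t (hasDerivAt_neg t)
    have h2 := h1.ofReal_comp
    refine h2.congr_deriv ?_
    push_cast; ring
  have dq : HasDerivAt (fun t : ℝ => (1 - ((Real.exp (-t) : ℝ) : ℂ)) +
      ((Real.exp (-t) : ℝ) : ℂ) * cay (z 0) ^ 2)
      (((Real.exp (-t) : ℝ) : ℂ) - ((Real.exp (-t) : ℝ) : ℂ) * cay (z 0) ^ 2) t := by
    refine ((ds.const_sub 1).add (ds.mul_const (cay (z 0) ^ 2))).congr_deriv ?_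
    ring
  have dv : HasDerivAt (fun t : ℝ => koeV (z 0) ((Real.exp (-t) : ℝ) : ℂ))
      (1 / (2 * koeV (z 0) ((Real.exp (-t) : ℝ) : ℂ)) *
        (((Real.exp (-t) : ℝ) : ℂ) - ((Real.exp (-t) : ℝ) : ℂ) * cay (z 0) ^ 2)) t :=
    (sqrt_deriv hslit).comp t dq
  have hsq : ∀ s : ℂ, koeV (z 0) s ^ 2 = (1 - s) + s * cay (z 0) ^ 2 := fun s => sqrt_sq' _
  have hne : ∀ s : ℂ, koeV (z 0) s + 1 ≠ 0 := fun s => sqrt_add_ne _
  have hval : ∀ s : ℂ, s * ((cay (z 0) ^ 2 - 1) / (koeV (z 0) s + 1) ^ 2) =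
      (koeV (z 0) s - 1) / (koeV (z 0) s + 1) := by
    intro s
    rw [← mul_div_assoc, div_eq_div_iff (pow_ne_zero 2 (hne s)) (hne s)]
    have e : s * (cay (z 0) ^ 2 - 1) = koeV (z 0) s ^ 2 - 1 := by
      rw [hsq]; ring
    rw [e]; ring
  have hform : ∀ t : ℝ, koePhi z t = !₂[(koeV (z 0) ((Real.exp (-t) : ℝ) : ℂ) - 1) /
      (koeV (z 0) ((Real.exp (-t) : ℝ) : ℂ) + 1), ((Real.exp (-t) : ℝ) : ℂ) * z 1] := by
    intro t
    rw [← hval]
    simp only [koePhi, koePsi]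
    ext i; fin_cases i
    · simp
    · simp
  have hfun : koePhi z = fun t : ℝ => !₂[(koeV (z 0) ((Real.exp (-t) : ℝ) : ℂ) - 1) /
      (koeV (z 0) ((Real.exp (-t) : ℝ) : ℂ) + 1), ((Real.exp (-t) : ℝ) : ℂ) * z 1] :=
    funext hform
  have dw : HasDerivAt (fun t : ℝ => (koeV (z 0) ((Real.exp (-t) : ℝ) : ℂ) - 1) /
      (koeV (z 0) ((Real.exp (-t) : ℝ) : ℂ) + 1))
      (((1 / (2 * koeV (z 0) ((Real.exp (-t) : ℝ) : ℂ)) *
        (((Real.exp (-t) : ℝ) : ℂ) - ((Real.exp (-t) : ℝ) : ℂ) * cay (z 0) ^ 2)) *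
          (koeV (z 0) ((Real.exp (-t) : ℝ) : ℂ) + 1) -
        (koeV (z 0) ((Real.exp (-t) : ℝ) : ℂ) - 1) *
        (1 / (2 * koeV (z 0) ((Real.exp (-t) : ℝ) : ℂ)) *
        (((Real.exp (-t) : ℝ) : ℂ) - ((Real.exp (-t) : ℝ) : ℂ) * cay (z 0) ^ 2))) /
        (koeV (z 0) ((Real.exp (-t) : ℝ) : ℂ) + 1) ^ 2) t :=
    (dv.sub_const 1).div (dv.add_const 1) (hne _)
  have H := hasDerivAt_pair_real dw (ds.mul_const (z 1))
  rw [hfun]
  refine H.congr_deriv ?_
  have hV0 : koeV (z 0) ((Real.exp (-t) : ℝ) : ℂ) ≠ 0 := sqrt_ne (Complex.slitPlane_ne_zero hslit)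
  have e2 : ((Real.exp (-t) : ℝ) : ℂ) - ((Real.exp (-t) : ℝ) : ℂ) * cay (z 0) ^ 2 =
      1 - koeV (z 0) ((Real.exp (-t) : ℝ) : ℂ) ^ 2 := by
    rw [hsq]; ring
  rw [e2]
  have hne' := hne ((Real.exp (-t) : ℝ) : ℂ)
  have hH : ∀ v s y : ℂ, v ≠ 0 → v + 1 ≠ 0 →
      (!₂[(1 / (2 * v) * (1 - v ^ 2) * (v + 1) - (v - 1) * (1 / (2 * v) * (1 - v ^ 2))) /
        (v + 1) ^ 2, -s * y] : E) = -koeH !₂[(v - 1) / (v + 1), s * y] := by
    intro v s y h1 h2
    ext i; fin_cases i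
    · show (1 / (2 * v) * (1 - v ^ 2) * (v + 1) - (v - 1) * (1 / (2 * v) * (1 - v ^ 2))) /
        (v + 1) ^ 2 = -((v - 1) / (v + 1) * (1 - (v - 1) / (v + 1)) / (1 + (v - 1) / (v + 1)))
      have e3 : 1 - (v - 1) / (v + 1) = 2 / (v + 1) := by field_simp; ring
      have e4 : 1 + (v - 1) / (v + 1) = 2 * v / (v + 1) := by field_simp; ring
      rw [e3, e4]
      field_simp
      ring
    · show -s * y = -(s * y)
      ring
  exact hH _ _ _ hV0 hne'

theorem koebe_mem : koebe ∈ ClassS0 := by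
  apply mem_S0 (h := koeH) (φ := koePhi) koeH_mem koebe_classS
  · intro z hz; exact koePhi_zero hz
  · intro z hz t ht; exact koePhi_deriv hz ht
  · apply tendsto_of_joint (Ψ := koePsi) koePsi_cont
    · intro z hz; exact koePsi_zero hz
    · intro z _ t _; rfl

theorem koebe_coeff : coeffOne 2 0 koebe = 2 := by
  have h1 : ∀ y : ℂ, iteratedDeriv 2 (fun x : ℂ => koebe !₂[x, y] 0) 0 = 4 := by
    intro y
    have e0 : (fun x : ℂ => koebe !₂[x, y] 0) = fun x : ℂ => x / (1 - x) ^ 2 := rfl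
    rw [e0, iteratedDeriv_succ, iteratedDeriv_one]
    have d1 : ∀ x : ℂ, HasDerivAt (fun x : ℂ => 1 - x) (-1) x := fun x => by
      simpa using (hasDerivAt_id x).const_sub 1
    have e1 : deriv (fun x : ℂ => x / (1 - x) ^ 2) =ᶠ[𝓝 0] fun x : ℂ => (1 + x) / (1 - x) ^ 3 := by
      filter_upwards [ball_mem_nhds (0 : ℂ) one_pos] with x hx
      have hx' : ‖x‖ < 1 := by simpa using hx
      have hne := extm_sub_ne hx'
      have := (hasDerivAt_id x).div ((d1 x).pow 2) (pow_ne_zero 2 hne)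
      refine (this.congr_deriv ?_).deriv
      simp only [id, Pi.pow_apply]
      push_cast
      field_simp
      ring
    rw [e1.deriv_eq]
    have hne : ((1 : ℂ) - 0) ^ 3 ≠ 0 := by simp
    have := ((hasDerivAt_id (0 : ℂ)).const_add 1).div ((d1 0).pow 3) hne
    refine (this.congr_deriv ?_).deriv
    simp
    norm_num
  rw [coeffOne]
  simp only [iteratedDeriv_zero, h1]
  norm_num

end Pool.Agent.Work.MP_620749_an
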