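import Pool.Agent.Work.MP_620749_an.ModelBase

/-!
The shears `(z_1 + β z_2^2, z_2)` with `|β| ≤ 3√3/2` are restrictions of automorphisms of `C^2`
which belong to `S^0`.
-/

open Set Filter Topology MeasureTheory Metric

noncomputable section

namespace Pool.Agent.Work.MP_620749_an

/-- The shear `(z_1 + β z_2^2, z_2)`. -/
def shear (β : ℂ) : E → E := fun z => !₂[z 0 + β * z 1 ^ 2, z 1]

/-- The vector field of the shear. -/
def shH (β : ℂ) : E → E := fun z => !₂[z 0 - β * z 1 ^ 2, z 1]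

/-- The rescaled flow, `s = exp (-t)`. -/
def shPsi (β : ℂ) : E → ℝ → E := fun z s => !₂[z 0 + β * (1 - (s : ℂ)) * z 1 ^ 2, z 1]

lemma sh_diff_co (i : Fin 2) (p : E) : DifferentiableAt ℂ (fun z : E => z i) p :=
  (pr i).differentiableAt

lemma sh_mk2_pr : mk2.comp ((pr 0).prod (pr 1)) = ContinuousLinearMap.id ℂ E := by
  apply ContinuousLinearMap.ext
  intro z
  show mk2 (z 0, z 1) = z
  rw [mk2_apply, eta]

/-- A shear is entire. -/
lemma shear_diff (β : ℂ) (p : E) : DifferentiableAt ℂ (shear β) p :=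
  differentiableAt_pair ((sh_diff_co 0 p).add (((sh_diff_co 1 p).pow 2).const_mul β))
    (sh_diff_co 1 p)

lemma shear_neg (β : ℂ) : shH β = shear (-β) := by
  funext z
  simp only [shH, shear]
  ring_nf

lemma shear_left (β : ℂ) (z : E) : shear (-β) (shear β z) = z := by
  have : shear (-β) (shear β z) = !₂[z 0 + β * z 1 ^ 2 + -β * z 1 ^ 2, z 1] := rfl
  rw [this]
  have e : z 0 + β * z 1 ^ 2 + -β * z 1 ^ 2 = z 0 := by ring
  rw [e, eta]

lemma shear_zero (β : ℂ) : shear β 0 = 0 := by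
  ext i; fin_cases i <;> simp [shear]

lemma shear_fderiv (β : ℂ) : fderiv ℂ (shear β) 0 = ContinuousLinearMap.id ℂ E := by
  rw [← sh_mk2_pr]
  apply HasFDerivAt.fderiv
  apply hasFDerivAt_pair
  · have h0 : HasFDerivAt (fun z : E => z 0) (pr 0) 0 := (pr 0).hasFDerivAt
    have h1 : HasFDerivAt (fun z : E => z 1) (pr 1) 0 := (pr 1).hasFDerivAt
    have h2 := h0.add ((h1.pow 2).const_mul β)
    refine h2.congr_fderiv ?_
    apply ContinuousLinearMap.ext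
    intro v
    simp
  · exact (pr 1).hasFDerivAt

lemma sh_key {a b : ℝ} (ha : 0 ≤ a) (hb : 0 ≤ b) : 27 * (a * b ^ 2) ≤ 4 * (a + b) ^ 3 := by
  have e : 4 * (a + b) ^ 3 - 27 * (a * b ^ 2) = (a + 4 * b) * (2 * a - b) ^ 2 := by ring
  have : 0 ≤ (a + 4 * b) * (2 * a - b) ^ 2 := by positivity
  linarith

lemma sh_bound {β x y : ℂ} (hβ : ‖β‖ ≤ 3 * √3 / 2) (h0 : 0 < ‖x‖ ^ 2 + ‖y‖ ^ 2)
    (h1 : ‖x‖ ^ 2 + ‖y‖ ^ 2 < 1) : ‖(starRingEnd ℂ) x * (β * y ^ 2)‖ < ‖x‖ ^ 2 + ‖y‖ ^ 2 := by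
  have e : ‖(starRingEnd ℂ) x * (β * y ^ 2)‖ = ‖β‖ * (‖x‖ * ‖y‖ ^ 2) := by
    rw [norm_mul, norm_mul, norm_pow, RCLike.norm_conj]; ring
  rw [e]
  apply lt_of_pow_lt_pow_left₀ 2 h0.le
  have s3 : √3 ^ 2 = 3 := Real.sq_sqrt (by norm_num)
  have hb2 : ‖β‖ ^ 2 ≤ 27 / 4 := by
    have : ‖β‖ ^ 2 ≤ (3 * √3 / 2) ^ 2 := by gcongr
    have e2 : (3 * √3 / 2) ^ 2 = 27 / 4 := by
      linear_combination (9 / 4) * s3
    linarith
  have hk := sh_key (a := ‖x‖ ^ 2) (b := ‖y‖ ^ 2) (by positivity) (by positivity)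
  have hc : (‖x‖ ^ 2 + ‖y‖ ^ 2) ^ 3 < (‖x‖ ^ 2 + ‖y‖ ^ 2) ^ 2 := by
    have : 0 < (‖x‖ ^ 2 + ‖y‖ ^ 2) ^ 2 := by positivity
    nlinarith
  calc (‖β‖ * (‖x‖ * ‖y‖ ^ 2)) ^ 2 = ‖β‖ ^ 2 * (‖x‖ ^ 2 * (‖y‖ ^ 2) ^ 2) := by ring
    _ ≤ 27 / 4 * (‖x‖ ^ 2 * (‖y‖ ^ 2) ^ 2) := by gcongr
    _ ≤ (‖x‖ ^ 2 + ‖y‖ ^ 2) ^ 3 := by linarith
    _ < _ := hc

lemma shH_mem {β : ℂ} (hβ : ‖β‖ ≤ 3 * √3 / 2) : shH β ∈ ClassM := by
  rw [shear_neg]
  refine ⟨fun z _ => (shear_diff _ z).differentiableWithinAt, shear_zero _, shear_fderiv _, ?_⟩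
  intro z hz hz0
  rw [← shear_neg, inner_E]
  show 0 < ((starRingEnd ℂ) (z 0) * (z 0 - β * z 1 ^ 2) + (starRingEnd ℂ) (z 1) * z 1).re
  have hn : ‖z 0‖ ^ 2 + ‖z 1‖ ^ 2 < 1 := by
    have := (norm_lt_iff (z := z) (r := 1) (by norm_num)).1 (mem_ball_zero_iff.1 hz)
    simpa using this
  have hp : 0 < ‖z 0‖ ^ 2 + ‖z 1‖ ^ 2 := by
    rw [← norm_sq_E]
    have : 0 < ‖z‖ := norm_pos_iff.2 hz0
    positivity
  have hb := sh_bound hβ hp hn
  have ex : (starRingEnd ℂ) (z 0) * z 0 = ((‖z 0‖ ^ 2 : ℝ) : ℂ) := by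
    rw [mul_comm, Complex.mul_conj, Complex.normSq_eq_norm_sq]
  have ey : (starRingEnd ℂ) (z 1) * z 1 = ((‖z 1‖ ^ 2 : ℝ) : ℂ) := by
    rw [mul_comm, Complex.mul_conj, Complex.normSq_eq_norm_sq]
  have e : (starRingEnd ℂ) (z 0) * (z 0 - β * z 1 ^ 2) + (starRingEnd ℂ) (z 1) * z 1 =
      ((‖z 0‖ ^ 2 + ‖z 1‖ ^ 2 : ℝ) : ℂ) - (starRingEnd ℂ) (z 0) * (β * z 1 ^ 2) := by
    rw [mul_sub, ex, ey]; push_cast; ring
  rw [e, Complex.sub_re, Complex.ofReal_re]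
  have := Complex.re_le_norm ((starRingEnd ℂ) (z 0) * (β * z 1 ^ 2))
  linarith

lemma shear_classS (β : ℂ) : shear β ∈ ClassS := by
  refine ⟨fun z _ => (shear_diff _ z).differentiableWithinAt, ?_, shear_zero _, shear_fderiv _⟩
  intro z _ w _ hzw
  rw [← shear_left β z, ← shear_left β w, hzw]

lemma shPsi_cont (β : ℂ) :
    ContinuousOn (fun p : E × ℝ => shPsi β p.1 p.2) (B ×ˢ Icc (0 : ℝ) 1) := by
  have c0 : Continuous (fun p : E × ℝ => p.1 0) := (pr 0).continuous.comp continuous_fst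
  have c1 : Continuous (fun p : E × ℝ => p.1 1) := (pr 1).continuous.comp continuous_fst
  have cs : Continuous (fun p : E × ℝ => (1 : ℂ) - (p.2 : ℂ)) :=
    continuous_const.sub (Complex.continuous_ofReal.comp continuous_snd)
  exact (continuous_pair (c0.add ((continuous_const.mul cs).mul (c1.pow 2))) c1).continuousOn

/-- The flow. -/
def shPhi (β : ℂ) : E → ℝ → E := fun z t => Real.exp (-t) • shPsi β z (Real.exp (-t))

lemma shPhi_zero (β : ℂ) (z : E) : shPhi β z 0 = z := by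
  simp only [shPhi, shPsi, neg_zero, Real.exp_zero, one_smul]
  rw [← eta z]
  simp

lemma shPhi_form (β : ℂ) (z : E) : shPhi β z = fun t : ℝ =>
      !₂[((Real.exp (-t) : ℝ) : ℂ) * (z 0 + β * (1 - ((Real.exp (-t) : ℝ) : ℂ)) * z 1 ^ 2),
        ((Real.exp (-t) : ℝ) : ℂ) * z 1] := by
  funext t
  simp only [shPhi, shPsi]
  ext i; fin_cases i
  · simp
    ring
  · simp

lemma shPhi_deriv (β : ℂ) (z : E) (t : ℝ) : HasDerivAt (shPhi β z) (-shH β (shPhi β z t)) t := by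
  have ds : HasDerivAt (fun t : ℝ => ((Real.exp (-t) : ℝ) : ℂ)) (-((Real.exp (-t) : ℝ) : ℂ)) t := by
    have h1 : HasDerivAt (fun t : ℝ => Real.exp (-t)) (Real.exp (-t) * (-1)) t :=
      (Real.hasDerivAt_exp (-t)).comp t (hasDerivAt_neg t)
    have h2 := h1.ofReal_comp
    refine h2.congr_deriv ?_
    push_cast; ring
  have d1 : HasDerivAt (fun t : ℝ => z 0 + β * (1 - ((Real.exp (-t) : ℝ) : ℂ)) * z 1 ^ 2)
      (β * ((Real.exp (-t) : ℝ) : ℂ) * z 1 ^ 2) t := by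
    have := (((ds.const_sub 1).const_mul β).mul_const (z 1 ^ 2)).const_add (z 0)
    refine this.congr_deriv ?_
    ring
  have H := hasDerivAt_pair_real (ds.mul d1) (ds.mul_const (z 1))
  rw [shPhi_form]
  refine H.congr_deriv ?_
  beta_reduce
  generalize ((Real.exp (-t) : ℝ) : ℂ) = s
  have e : shH β !₂[s * (z 0 + β * (1 - s) * z 1 ^ 2), s * z 1] =
    !₂[s * (z 0 + β * (1 - s) * z 1 ^ 2) - β * (s * z 1) ^ 2, s * z 1] := rfl
  rw [e]
  ext i; fin_cases i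
  · show -s * (z 0 + β * (1 - s) * z 1 ^ 2) + s * (β * s * z 1 ^ 2) =
      -(s * (z 0 + β * (1 - s) * z 1 ^ 2) - β * (s * z 1) ^ 2)
    ring
  · show -s * z 1 = -(s * z 1)
    ring

theorem shear_mem_S0 {β : ℂ} (hβ : ‖β‖ ≤ 3 * √3 / 2) : shear β ∈ ClassS0 := by
  apply mem_S0 (h := shH β) (φ := shPhi β) (shH_mem hβ) (shear_classS β)
  · intro z _; exact shPhi_zero β z
  · intro z _ t _; exact shPhi_deriv β z t
  · apply tendsto_of_joint (Ψ := shPsi β) (shPsi_cont β)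
    · intro z _
      simp [shPsi, shear]
    · intro z _ t _; rfl

theorem shear_mem {β : ℂ} (hβ : ‖β‖ ≤ 3 * √3 / 2) : shear β ∈ ClassA := by
  refine ⟨shear_mem_S0 hβ, shear β, ⟨shear_diff β, shear (-β), shear_diff _, ?_, ?_⟩,
    fun z _ => rfl⟩
  · intro z; exact shear_left β z
  · intro z
    have := shear_left (-β) z
    rwa [neg_neg] at this

theorem shear_coeff (β : ℂ) : coeffOne 0 2 (shear β) = β := by
  have h1 : (fun y : ℂ => iteratedDeriv 0 (fun x : ℂ => shear β !₂[x, y] 0) 0) =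
      fun y : ℂ => β * y ^ 2 := by
    funext y
    rw [iteratedDeriv_zero]
    show (0 : ℂ) + β * y ^ 2 = β * y ^ 2
    ring
  have h2 : deriv (fun y : ℂ => β * y ^ 2) = fun y : ℂ => β * 2 * y := by
    funext y
    have : HasDerivAt (fun y : ℂ => β * y ^ 2) (β * 2 * y) y := by
      have := (hasDerivAt_pow 2 y).const_mul β
      refine this.congr_deriv ?_
      simp; ring
    exact this.deriv
  have h3 : deriv (fun y : ℂ => β * 2 * y) 0 = β * 2 := by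
    have : HasDerivAt (fun y : ℂ => β * 2 * y) (β * 2) 0 := by
      simpa using (hasDerivAt_id (0 : ℂ)).const_mul (β * 2)
    exact this.deriv
  rw [coeffOne, h1, iteratedDeriv_succ, iteratedDeriv_one, h2, h3]
  simp

end Pool.Agent.Work.MP_620749_an
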