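import Pool.Agent.Work.MP_620749_an.Ext02
import Pool.Agent.Work.MP_620749_an.Ext20
import Pool.Agent.Work.MP_620749_an.Koebe
import Pool.Agent.Work.MP_620749_an.Shear
import Pool.Agent.Work.MP_620749_an.ExtModel

/-!
The three monomials of degree two.
-/

open Set Filter Topology MeasureTheory Metric

noncomputable section

namespace Pool.Agent.Work.MP_620749_an

/-- What is needed from a representation of `f` by a Herglotz vector field. -/
def AEField (f : E → E) : Prop :=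
  ∃ H : ℝ → E → E, (∀ᵐ t ∂(volume.restrict (Ici (0 : ℝ))), H t ∈ ClassM) ∧
    (∀ a b : ℕ, a + b = 2 →
      IntegrableOn (fun t => Real.exp (-t) • coeffOne a b (H t)) (Ici (0 : ℝ)) ∧
      coeffOne a b f = - ∫ t in Ici (0 : ℝ), Real.exp (-t) • coeffOne a b (H t)) ∧
    (∀ (i : Fin 2) (P Γ : ℂ → ℂ) (δ : ℝ), 0 < δ →
      (∀ x : ℂ, ‖x‖ < δ → HasDerivAt Γ (deriv Γ x) x) → Γ 0 = 0 → deriv Γ 0 = 1 →
      (∀ x : ℂ, ‖x‖ < δ → deriv Γ x * P x = Γ x) →
      (∀ᵐ t ∂(volume.restrict (Ici (0 : ℝ))), ∀ x : ℂ, ‖x‖ < δ →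
        H t (EuclideanSpace.single i x) = EuclideanSpace.single i (P x)) →
      ∀ᶠ x in 𝓝 (0 : ℂ), f (EuclideanSpace.single i x) i = Γ x)

lemma exp_int : ∫ t in Ici (0 : ℝ), Real.exp (-t) = 1 := by
  rw [integral_Ici_eq_integral_Ioi]; exact integral_exp_neg_Ioi_zero

lemma exp_integrable : IntegrableOn (fun t : ℝ => Real.exp (-t)) (Ici (0 : ℝ)) := by
  rw [integrableOn_Ici_iff_integrableOn_Ioi]
  exact integrableOn_exp_neg_Ioi 0

lemma int_norm_le {c : ℝ → ℂ} {R : ℝ}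
    (hb : ∀ᵐ t ∂(volume.restrict (Ici (0 : ℝ))), ‖c t‖ ≤ R) :
    ‖∫ t in Ici (0 : ℝ), Real.exp (-t) • c t‖ ≤ R := by
  have h1 : ‖∫ t in Ici (0 : ℝ), Real.exp (-t) • c t‖ ≤
      ∫ t in Ici (0 : ℝ), Real.exp (-t) * R := by
    refine norm_integral_le_of_norm_le (exp_integrable.mul_const R) ?_
    filter_upwards [hb] with t ht
    rw [norm_smul, Real.norm_eq_abs, abs_of_pos (Real.exp_pos _)]
    exact mul_le_mul_of_nonneg_left ht (Real.exp_pos _).le
  rw [integral_mul_const, exp_int, one_mul] at h1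
  exact h1

lemma eq_of_int {c : ℝ → ℂ} {R : ℝ}
    (hi : IntegrableOn (fun t => Real.exp (-t) • c t) (Ici (0 : ℝ)))
    (hb : ∀ᵐ t ∂(volume.restrict (Ici (0 : ℝ))), ‖c t‖ ≤ R)
    (he : ∫ t in Ici (0 : ℝ), Real.exp (-t) • c t = (R : ℂ)) :
    ∀ᵐ t ∂(volume.restrict (Ici (0 : ℝ))), c t = (R : ℂ) := by
  have hre : IntegrableOn (fun t => (Real.exp (-t) • c t).re) (Ici (0 : ℝ)) := hi.re
  have hR : IntegrableOn (fun t : ℝ => Real.exp (-t) * R) (Ici (0 : ℝ)) :=
    exp_integrable.mul_const R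
  have hnn : 0 ≤ᵐ[volume.restrict (Ici (0 : ℝ))]
      (fun t => Real.exp (-t) * R - (Real.exp (-t) • c t).re) := by
    filter_upwards [hb] with t ht
    have h1 : (c t).re ≤ R := (Complex.re_le_norm _).trans ht
    have h2 : (Real.exp (-t) • c t).re = Real.exp (-t) * (c t).re := Complex.smul_re _ _
    rw [h2, Pi.zero_apply]
    nlinarith [Real.exp_pos (-t), mul_le_mul_of_nonneg_left h1 (Real.exp_pos (-t)).le]
  have hz : ∫ t in Ici (0 : ℝ), (Real.exp (-t) * R - (Real.exp (-t) • c t).re) = 0 := by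
    rw [integral_sub hR hre, integral_mul_const, exp_int, one_mul]
    have h3 : ∫ t in Ici (0 : ℝ), (Real.exp (-t) • c t).re =
        (∫ t in Ici (0 : ℝ), Real.exp (-t) • c t).re := integral_re hi
    rw [h3, he, Complex.ofReal_re, sub_self]
  have h0 := (integral_eq_zero_iff_of_nonneg_ae hnn (hR.sub hre)).mp hz
  filter_upwards [h0, hb] with t h1 h2
  have h3 : (Real.exp (-t) • c t).re = Real.exp (-t) * (c t).re := Complex.smul_re _ _
  have h4 : Real.exp (-t) * R - Real.exp (-t) * (c t).re = 0 := by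
    have := h1
    simp only [h3, Pi.zero_apply] at this
    exact this
  have h5 : (c t).re = R := by
    have := Real.exp_pos (-t)
    have h6 : Real.exp (-t) * (R - (c t).re) = 0 := by linarith
    rcases mul_eq_zero.mp h6 with h7 | h7
    · exact absurd h7 this.ne'
    · linarith
  have h6 : ‖c t‖ ^ 2 = (c t).re ^ 2 + (c t).im ^ 2 := by
    rw [Complex.sq_norm, Complex.normSq_apply]; ring
  have h7 : ‖c t‖ ^ 2 ≤ R ^ 2 := pow_le_pow_left₀ (norm_nonneg _) h2 2
  have h8 : (c t).im = 0 := by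
    rw [h6, h5] at h7
    have : (c t).im ^ 2 ≤ 0 := by linarith
    exact pow_eq_zero_iff (two_ne_zero) |>.mp (le_antisymm this (sq_nonneg _))
  apply Complex.ext
  · rw [h5, Complex.ofReal_re]
  · rw [h8, Complex.ofReal_im]

lemma no_entire {Ψ : E → E} (hΨ : Differentiable ℂ Ψ) (i : Fin 2) {k : ℕ} (hk : k ≠ 0)
    (h : ∀ᶠ x in 𝓝 (0 : ℂ), Ψ (EuclideanSpace.single i x) i = x / (1 - x) ^ k) : False := by
  have hs : Differentiable ℂ (fun x : ℂ => (EuclideanSpace.single i x : E)) := by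
    have : (fun x : ℂ => (EuclideanSpace.single i x : E)) =
        fun x : ℂ => x • (EuclideanSpace.single i (1 : ℂ) : E) := by
      funext x
      ext j
      by_cases hj : j = i
      · subst hj; simp
      · simp [hj]
    rw [this]
    fun_prop
  have hu : Differentiable ℂ (fun x : ℂ => Ψ (EuclideanSpace.single i x) i) := by
    have h1 : Differentiable ℂ (fun x : ℂ => Ψ (EuclideanSpace.single i x)) := hΨ.comp hs
    exact (pr i).differentiable.comp h1
  have hF : Differentiable ℂ (fun x : ℂ =>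
      (1 - x) ^ k * Ψ (EuclideanSpace.single i x) i) := by
    have : Differentiable ℂ (fun x : ℂ => (1 - x) ^ k) := by fun_prop
    exact this.mul hu
  have he : (fun x : ℂ => (1 - x) ^ k * Ψ (EuclideanSpace.single i x) i) = fun x => x := by
    refine AnalyticOnNhd.eq_of_eventuallyEq (𝕜 := ℂ) (z₀ := 0) (fun z _ => hF.analyticAt z)
      (fun z _ => analyticAt_id) ?_
    have h1 : ∀ᶠ x in 𝓝 (0 : ℂ), x ≠ 1 := by
      exact isOpen_ne.mem_nhds (by norm_num)
    filter_upwards [h, h1] with x hx h1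
    rw [hx]
    have : (1 - x) ^ k ≠ 0 := pow_ne_zero _ (sub_ne_zero.mpr (Ne.symm h1))
    field_simp
  have := congrFun he 1
  simp [hk] at this

lemma m_bound {h : E → E} (hM : h ∈ ClassM) : ‖t2 (mF h)‖ ≤ 2 := by
  obtain ⟨β, hβ, h1⟩ := exists_unim (t2 (mF h))
  have h2 := m2_le (rot_mem hM hβ)
  rw [t2_mF_rot hβ, h1, Complex.ofReal_re] at h2
  exact h2

lemma single_zero' (x : ℂ) : (EuclideanSpace.single (0 : Fin 2) x : E) = !₂[x, 0] := by
  ext j; fin_cases j <;> simp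

lemma single_one' (x : ℂ) : (EuclideanSpace.single (1 : Fin 2) x : E) = !₂[0, x] := by
  ext j; fin_cases j <;> simp

theorem ext20 {h : E → E} (hM : h ∈ ClassM) (hc : coeffOne 2 0 h = -2) {x : ℂ}
    (hx : ‖x‖ < 1) : h !₂[x, 0] = !₂[x * (1 - x) / (1 + x), 0] := by
  have hs := sw_mem hM
  have hβ : ‖(-1 : ℂ)‖ = 1 := by simp
  have hr := rot_mem hs hβ
  have hm : t2 (mF (rot (-1) (sw h))) = 2 := by
    rw [t2_mF_rot hβ, ← coeff20 hM, hc]; norm_num
  have hx' : ‖-x‖ < 1 := by rwa [norm_neg]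
  have h1 := m_ext hr hm hx'
  have h2 := e_ext hr hm hx'
  rw [mF_rot] at h1
  rw [eF_rot] at h2
  have e1 : mF (sw h) x = h !₂[x, 0] 0 := sw_pair1 h 0 x
  have e2 : eF (sw h) x = h !₂[x, 0] 1 := sw_pair0 h 0 x
  have e3 : (-1 : ℂ) * -x = x := by ring
  rw [e3, e1] at h1
  rw [e3, e2] at h2
  have h3 : h !₂[x, 0] 0 = x * (1 - x) / (1 + x) := by
    have e4 : cj (-1 : ℂ) = -1 := by simp [cj]
    rw [e4] at h1
    have h5 : h !₂[x, 0] 0 = -(-x * (1 + -x) / (1 - -x)) := by rw [← h1]; ring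
    rw [h5]
    have : (1 - -x) = 1 + x := by ring
    rw [this]; ring
  ext j
  fin_cases j
  · simpa using h3
  · simpa using h2

theorem case02 {f : E → E} (hA : AEField f) :
    ∃ g ∈ ClassA, coeffOne 0 2 g = coeffOne 0 2 f := by
  obtain ⟨H, hM, hI, -⟩ := hA
  obtain ⟨-, h2⟩ := hI 0 2 (by norm_num)
  have hb : ∀ᵐ t ∂(volume.restrict (Ici (0 : ℝ))), ‖coeffOne 0 2 (H t)‖ ≤ 3 * √3 / 2 := by
    filter_upwards [hM] with t ht
    rw [coeff02 ht.1]
    exact e2_bound ht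
  have h3 := int_norm_le hb
  refine ⟨shear (coeffOne 0 2 f), shear_mem ?_, shear_coeff _⟩
  rw [h2, norm_neg]
  exact h3

theorem case11 : ¬ ∀ f ∈ ClassS0, (∃ g ∈ ClassA, AEField g ∧ coeffOne 1 1 g = coeffOne 1 1 f) := by
  intro hall
  obtain ⟨g, ⟨-, Ψ, ⟨hΨ, -⟩, hΨg⟩, ⟨H, hM, hI, hax⟩, hc⟩ := hall extr extr_mem
  obtain ⟨h1, h2⟩ := hI 1 1 (by norm_num)
  have hb : ∀ᵐ t ∂(volume.restrict (Ici (0 : ℝ))), ‖coeffOne 1 1 (H t)‖ ≤ 2 + 2 * √2 := by
    filter_upwards [hM] with t ht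
    rw [coeff11]
    exact g_bound ht
  have h3 : ∫ t in Ici (0 : ℝ), Real.exp (-t) • coeffOne 1 1 (H t) =
      ((2 + 2 * √2 : ℝ) : ℂ) := by
    rw [hc, extr_coeff] at h2
    have : ∫ t in Ici (0 : ℝ), Real.exp (-t) • coeffOne 1 1 (H t) = -(1 - (kap : ℂ)) := by
      rw [h2, neg_neg]
    rw [this, kap]
    push_cast
    ring
  have h4 := eq_of_int h1 hb h3
  have h5 : ∀ᵐ t ∂(volume.restrict (Ici (0 : ℝ))), ∀ x : ℂ, ‖x‖ < 1 / 10 →
      H t (EuclideanSpace.single 1 x) = EuclideanSpace.single 1 (x * (1 - x)) := by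
    filter_upwards [h4, hM] with t ht hMt x hx
    rw [single_one', single_one', ext11 hMt (ω := 1) (by simp)
      (by rw [← coeff11, ht]; ring) hx, one_mul]
  have hd : ∀ x : ℂ, ‖x‖ < 1 / 10 → HasDerivAt (fun y : ℂ => y / (1 - y) ^ 1)
      (1 / (1 - x) ^ 2) x := by
    intro x hx
    have hne : (1 - x) ≠ 0 := by
      intro h0
      have : x = 1 := (sub_eq_zero.mp h0).symm
      rw [this] at hx; norm_num at hx
    have h7 := (hasDerivAt_id' x).fun_div ((((hasDerivAt_id' x).const_sub 1)).fun_pow 1)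
      (pow_ne_zero 1 hne)
    refine h7.congr_deriv ?_
    field_simp
    norm_num
  have h6 := hax 1 (fun x => x * (1 - x)) (fun y => y / (1 - y) ^ 1) (1 / 10) (by norm_num)
    (fun x hx => by rw [(hd x hx).deriv]; exact hd x hx) (by simp)
    (by rw [(hd 0 (by simp)).deriv]; simp)
    (fun x hx => by
      have hne : (1 - x) ≠ 0 := by
        intro h0
        have : x = 1 := (sub_eq_zero.mp h0).symm
        rw [this] at hx; norm_num at hx
      rw [(hd x hx).deriv]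
      field_simp) h5
  refine no_entire hΨ 1 (k := 1) one_ne_zero ?_
  have hB : ∀ᶠ x in 𝓝 (0 : ℂ), (EuclideanSpace.single (1 : Fin 2) x : E) ∈ B := by
    have : ball (0 : ℂ) 1 ∈ 𝓝 (0 : ℂ) := ball_mem_nhds _ one_pos
    filter_upwards [this] with x hx
    simpa using hx
  filter_upwards [h6, hB] with x h7 h8
  rw [hΨg h8]
  exact h7

theorem case20 : ¬ ∀ f ∈ ClassS0, (∃ g ∈ ClassA, AEField g ∧ coeffOne 2 0 g = coeffOne 2 0 f) := by
  intro hall
  obtain ⟨g, ⟨-, Ψ, ⟨hΨ, -⟩, hΨg⟩, ⟨H, hM, hI, hax⟩, hc⟩ := hall koebe koebe_mem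
  obtain ⟨h1, h2⟩ := hI 2 0 (by norm_num)
  have h1' : IntegrableOn (fun t => Real.exp (-t) • (-coeffOne 2 0 (H t))) (Ici (0 : ℝ)) := by
    have := h1.neg
    refine this.congr (Eventually.of_forall fun t => ?_)
    simp only [Pi.neg_apply, smul_neg]
  have hb : ∀ᵐ t ∂(volume.restrict (Ici (0 : ℝ))), ‖-coeffOne 2 0 (H t)‖ ≤ 2 := by
    filter_upwards [hM] with t ht
    rw [norm_neg, coeff20 ht]
    exact m_bound (sw_mem ht)
  have h3 : ∫ t in Ici (0 : ℝ), Real.exp (-t) • (-coeffOne 2 0 (H t)) = ((2 : ℝ) : ℂ) := by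
    simp only [smul_neg]
    rw [integral_neg, ← h2, hc, koebe_coeff]
    norm_num
  have h4 := eq_of_int h1' hb h3
  have h5 : ∀ᵐ t ∂(volume.restrict (Ici (0 : ℝ))), ∀ x : ℂ, ‖x‖ < 1 →
      H t (EuclideanSpace.single 0 x) = EuclideanSpace.single 0 (x * (1 - x) / (1 + x)) := by
    filter_upwards [h4, hM] with t ht hMt x hx
    have hc2 : coeffOne 2 0 (H t) = -2 := by
      have := congrArg Neg.neg ht
      simpa using this
    rw [single_zero', single_zero', ext20 hMt hc2 hx]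
  have hne1 : ∀ x : ℂ, ‖x‖ < 1 → (1 - x) ≠ 0 := by
    intro x hx h0
    have : x = 1 := (sub_eq_zero.mp h0).symm
    rw [this] at hx; norm_num at hx
  have hne2 : ∀ x : ℂ, ‖x‖ < 1 → (1 + x) ≠ 0 := by
    intro x hx h0
    have : x = -1 := by linear_combination h0
    rw [this] at hx; norm_num at hx
  have hd : ∀ x : ℂ, ‖x‖ < 1 → HasDerivAt (fun y : ℂ => y / (1 - y) ^ 2)
      ((1 + x) / (1 - x) ^ 3) x := by
    intro x hx
    have hne := hne1 x hx
    have h7 := (hasDerivAt_id' x).fun_div ((((hasDerivAt_id' x).const_sub 1)).fun_pow 2)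
      (pow_ne_zero 2 hne)
    refine h7.congr_deriv ?_
    field_simp
    norm_num
    ring
  have h6 := hax 0 (fun x => x * (1 - x) / (1 + x)) (fun y => y / (1 - y) ^ 2) 1 one_pos
    (fun x hx => by rw [(hd x hx).deriv]; exact hd x hx) (by simp)
    (by rw [(hd 0 (by simp)).deriv]; simp)
    (fun x hx => by
      have ha := hne1 x hx
      have hb := hne2 x hx
      rw [(hd x hx).deriv]
      field_simp) h5
  refine no_entire hΨ 0 (k := 2) two_ne_zero ?_
  have hB : ∀ᶠ x in 𝓝 (0 : ℂ), (EuclideanSpace.single (0 : Fin 2) x : E) ∈ B := by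
    have : ball (0 : ℂ) 1 ∈ 𝓝 (0 : ℂ) := ball_mem_nhds _ one_pos
    filter_upwards [this] with x hx
    simpa using hx
  filter_upwards [h6, hB] with x h7 h8
  rw [hΨg h8]
  exact h7

theorem main (hAE : ∀ f ∈ ClassS0, AEField f) (a b : ℕ) (hab : a + b = 2) :
    (∀ f ∈ ClassS0, ∃ g ∈ ClassA, coeffOne a b g = coeffOne a b f) ↔ (a = 0 ∧ b = 2) := by
  constructor
  · intro hall
    have ha : a ≤ 2 := by omega
    interval_cases a
    · exact ⟨rfl, by omega⟩
    · exfalso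
      obtain rfl : b = 1 := by omega
      refine case11 fun f hf => ?_
      obtain ⟨g, hg, hc⟩ := hall f hf
      exact ⟨g, hg, hAE g hg.1, hc⟩
    · exfalso
      obtain rfl : b = 0 := by omega
      refine case20 fun f hf => ?_
      obtain ⟨g, hg, hc⟩ := hall f hf
      exact ⟨g, hg, hAE g hg.1, hc⟩
  · rintro ⟨rfl, rfl⟩ f hf
    exact case02 (hAE f hf)

end Pool.Agent.Work.MP_620749_an
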