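import Mathlib

/-!
Averages over the unit circle: formulas for holomorphic functions.
-/

open Set Filter Topology MeasureTheory Metric Real

noncomputable section

namespace Pool.Agent.Work.MP_620749_an

/-- Complex conjugation. -/
abbrev cj : ℂ →+* ℂ := starRingEnd ℂ

/-- The average over the unit circle. -/
def av (u : ℂ → ℂ) : ℂ := Real.circleAverage u 0 1

lemma av_def (u : ℂ → ℂ) : av u = (2 * π)⁻¹ • ∫ θ in (0 : ℝ)..2 * π, u (circleMap 0 1 θ) := rfl

lemma norm_circle (θ : ℝ) : ‖circleMap 0 1 θ‖ = 1 := by simp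

lemma av_congr {u v : ℂ → ℂ} (h : ∀ τ : ℂ, ‖τ‖ = 1 → u τ = v τ) : av u = av v := by
  unfold av
  apply Real.circleAverage_congr_sphere
  intro τ hτ
  apply h
  simpa using hτ

lemma circleIntegrable_of_cont {u : ℂ → ℂ} (hu : ContinuousOn u (sphere 0 1)) :
    CircleIntegrable u 0 1 := by
  apply ContinuousOn.circleIntegrable (by norm_num) hu

lemma av_add {u v : ℂ → ℂ} (hu : ContinuousOn u (sphere 0 1)) (hv : ContinuousOn v (sphere 0 1)) :
    av (fun τ => u τ + v τ) = av u + av v :=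
  Real.circleAverage_fun_add (circleIntegrable_of_cont hu) (circleIntegrable_of_cont hv)

lemma av_sub {u v : ℂ → ℂ} (hu : ContinuousOn u (sphere 0 1)) (hv : ContinuousOn v (sphere 0 1)) :
    av (fun τ => u τ - v τ) = av u - av v :=
  Real.circleAverage_fun_sub (circleIntegrable_of_cont hu) (circleIntegrable_of_cont hv)

lemma av_mul_left (c : ℂ) (u : ℂ → ℂ) : av (fun τ => c * u τ) = c * av u := by
  have := Real.circleAverage_fun_smul (a := c) (f := u) (c := 0) (R := 1)
  simpa [av, smul_eq_mul] using this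

lemma av_const (c : ℂ) : av (fun _ => c) = c := Real.circleAverage_const c 0 1

lemma av_cj (u : ℂ → ℂ) : av (fun τ => cj (u τ)) = cj (av u) := by
  simp only [av_def, Complex.real_smul, map_mul, Complex.conj_ofReal, ← integral_conj,
    intervalIntegral.integral_of_le Real.two_pi_pos.le]

/-- Holomorphic functions on the closed disc. -/
abbrev Hol (F : ℂ → ℂ) : Prop := DiffContOnCl ℂ F (ball 0 1)

lemma Hol.contSphere {F : ℂ → ℂ} (hF : Hol F) : ContinuousOn F (sphere 0 1) := by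
  have := hF.continuousOn_ball
  exact this.mono sphere_subset_closedBall

lemma contSphere_cj : ContinuousOn (fun τ : ℂ => cj τ) (sphere 0 1) :=
  Complex.continuous_conj.continuousOn

lemma av_hol {F : ℂ → ℂ} (hF : Hol F) : av F = F 0 := by
  unfold av
  have h : DiffContOnCl ℂ F (ball 0 |(1 : ℝ)|) := by simpa using hF
  exact h.circleAverage

lemma one_sub_ne {a τ : ℂ} (ha : ‖a‖ < 1) (hτ : ‖τ‖ ≤ 1) : 1 - a * τ ≠ 0 := by
  intro h
  have h1 : a * τ = 1 := by linear_combination -h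
  have h2 : ‖a * τ‖ < 1 := by
    rw [norm_mul]
    nlinarith [norm_nonneg a, norm_nonneg τ]
  rw [h1] at h2
  norm_num at h2

lemma norm_cj (τ : ℂ) : ‖cj τ‖ = ‖τ‖ := RCLike.norm_conj τ

lemma mul_cj_one {τ : ℂ} (hτ : ‖τ‖ = 1) : τ * cj τ = 1 := by
  rw [Complex.mul_conj, Complex.normSq_eq_norm_sq, hτ]; norm_num

lemma cj_eq_inv {τ : ℂ} (hτ : ‖τ‖ = 1) : cj τ = τ⁻¹ := by
  have h0 : τ ≠ 0 := by intro h; simp [h] at hτ
  have := mul_cj_one hτ
  field_simp
  linear_combination this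

lemma contSphere_ker {a : ℂ} (ha : ‖a‖ < 1) :
    ContinuousOn (fun τ : ℂ => (1 - a * cj τ)⁻¹) (sphere 0 1) := by
  apply ContinuousOn.inv₀
  · exact continuousOn_const.sub (continuousOn_const.mul contSphere_cj)
  · intro τ hτ
    apply one_sub_ne ha
    rw [norm_cj]
    simp at hτ
    rw [hτ]

/-- The Cauchy formula. -/
lemma av_cauchy {F : ℂ → ℂ} (hF : Hol F) {a : ℂ} (ha : ‖a‖ < 1) :
    av (fun τ => F τ * (1 - a * cj τ)⁻¹) = F a := by
  have h : DiffContOnCl ℂ F (ball 0 |(1 : ℝ)|) := by simpa using hF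
  have := h.circleAverage_smul_div (w := a) (by simpa using ha)
  rw [← this]
  unfold av
  apply Real.circleAverage_congr_sphere
  intro τ hτ
  have hτ1 : ‖τ‖ = 1 := by simpa using hτ
  have h0 : τ ≠ 0 := by intro h; simp [h] at hτ1
  have h1 : τ - a ≠ 0 := by
    intro h
    have : τ = a := by linear_combination h
    rw [this] at hτ1; linarith
  simp only [smul_eq_mul, sub_zero]
  rw [cj_eq_inv hτ1]
  have h2 : 1 - a * τ⁻¹ = (τ - a) / τ := by field_simp
  rw [h2, inv_div]
  ring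

lemma hol_const (c : ℂ) : Hol (fun _ => c) := diffContOnCl_const

lemma hol_id : Hol (fun τ => τ) := differentiable_id.diffContOnCl

lemma hol_dslope {F : ℂ → ℂ} (hF : Hol F) : Hol (dslope F 0) := by
  have h0 : ball (0 : ℂ) 1 ∈ 𝓝 (0 : ℂ) := ball_mem_nhds _ (by norm_num)
  refine ⟨(Complex.differentiableOn_dslope h0).2 hF.differentiableOn, ?_⟩
  rw [closure_ball _ (by norm_num)]
  have h1 : closedBall (0 : ℂ) 1 ∈ 𝓝 (0 : ℂ) := closedBall_mem_nhds _ (by norm_num)
  rw [continuousOn_dslope h1]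
  refine ⟨hF.continuousOn_ball, hF.differentiableOn.differentiableAt h0⟩

lemma dslope_eq {F : ℂ → ℂ} {a : ℂ} (ha : a ≠ 0) : dslope F 0 a = (F a - F 0) / a := by
  rw [dslope_of_ne _ ha, slope_def_field, sub_zero]

lemma dslope_zero (F : ℂ → ℂ) : dslope F 0 0 = deriv F 0 := dslope_same F 0

lemma mul_dslope (F : ℂ → ℂ) (a : ℂ) : F a = F 0 + a * dslope F 0 a := by
  by_cases ha : a = 0
  · simp [ha]
  · rw [dslope_eq ha]; field_simp; ring

lemma av_antihol {a : ℂ} (ha : ‖a‖ < 1) (n : ℕ) :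
    av (fun τ => cj τ ^ (n + 1) * (1 - a * cj τ)⁻¹) = 0 := by
  have hK : Hol (fun τ => τ ^ (n + 1) * (1 - cj a * τ)⁻¹) := by
    have : DifferentiableOn ℂ (fun τ : ℂ => τ ^ (n + 1) * (1 - cj a * τ)⁻¹)
        (closure (ball (0 : ℂ) 1)) := by
      rw [closure_ball _ (by norm_num)]
      intro τ hτ
      have : 1 - cj a * τ ≠ 0 := one_sub_ne (by rwa [norm_cj]) (by simpa using hτ)
      apply DifferentiableAt.differentiableWithinAt
      exact DifferentiableAt.mul (by fun_prop)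
        ((by fun_prop : DifferentiableAt ℂ (fun τ : ℂ => 1 - cj a * τ) τ).fun_inv this)
    exact this.diffContOnCl
  have h1 := av_hol hK
  have h2 := av_cj (fun τ => τ ^ (n + 1) * (1 - cj a * τ)⁻¹)
  rw [h1] at h2
  simp only [ne_eq, Nat.add_eq_zero_iff, one_ne_zero, and_false, not_false_eq_true, zero_pow,
    mul_zero, sub_zero, inv_one, mul_one, map_zero, map_mul, map_inv₀, map_sub, map_one, map_pow,
    RingHomCompTriple.comp_apply, RingHom.id_apply] at h2
  rw [← h2]

/-- Averages of a holomorphic function against negative powers and a Cauchy kernel. -/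
lemma av_pow {a : ℂ} (ha : ‖a‖ < 1) (n : ℕ) : ∀ {F : ℂ → ℂ}, Hol F →
    av (fun τ => F τ * (cj τ ^ n * (1 - a * cj τ)⁻¹)) = ((fun G => dslope G 0)^[n] F) a := by
  induction n with
  | zero =>
    intro F hF
    simpa using av_cauchy hF ha
  | succ n ih =>
    intro F hF
    have hG := hol_dslope hF
    have e1 : av (fun τ => F τ * (cj τ ^ (n + 1) * (1 - a * cj τ)⁻¹)) =
        av (fun τ => dslope F 0 τ * (cj τ ^ n * (1 - a * cj τ)⁻¹) +
          F 0 * (cj τ ^ (n + 1) * (1 - a * cj τ)⁻¹)) := by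
      apply av_congr
      intro τ hτ
      have h1 := mul_cj_one hτ
      conv_lhs => rw [mul_dslope F τ]
      rw [pow_succ]
      linear_combination (dslope F 0 τ * (cj τ ^ n * (1 - a * cj τ)⁻¹)) * h1
    rw [e1, av_add, av_mul_left, av_antihol ha, mul_zero, add_zero, ih hG, Function.iterate_succ,
      Function.comp_apply]
    · exact hG.contSphere.mul ((contSphere_cj.pow n).mul (contSphere_ker ha))
    · exact continuousOn_const.mul ((contSphere_cj.pow (n + 1)).mul (contSphere_ker ha))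

lemma av_pow1 {a : ℂ} (ha : ‖a‖ < 1) {F : ℂ → ℂ} (hF : Hol F) :
    av (fun τ => F τ * (cj τ * (1 - a * cj τ)⁻¹)) = dslope F 0 a := by
  simpa using av_pow ha 1 hF

lemma av_pow2 {a : ℂ} (ha : ‖a‖ < 1) {F : ℂ → ℂ} (hF : Hol F) :
    av (fun τ => F τ * (cj τ ^ 2 * (1 - a * cj τ)⁻¹)) = dslope (dslope F 0) 0 a := by
  simpa using av_pow ha 2 hF

lemma av_pow3 {a : ℂ} (ha : ‖a‖ < 1) {F : ℂ → ℂ} (hF : Hol F) :
    av (fun τ => F τ * (cj τ ^ 3 * (1 - a * cj τ)⁻¹)) =
      dslope (dslope (dslope F 0) 0) 0 a := by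
  simpa using av_pow ha 3 hF

lemma av_mul_cj {F : ℂ → ℂ} (hF : Hol F) : av (fun τ => F τ * cj τ) = deriv F 0 := by
  have := av_pow1 (a := 0) (by simp) hF
  simpa [dslope_zero] using this

lemma av_mul_cj2 {F : ℂ → ℂ} (hF : Hol F) :
    av (fun τ => F τ * cj τ ^ 2) = dslope (dslope F 0) 0 0 := by
  have := av_pow2 (a := 0) (by simp) hF
  simpa using this

end Pool.Agent.Work.MP_620749_an
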