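import Pool.Agent.Work.MP_620749_an.Circ

/-!
Averages over the two dimensional torus.
-/

open Set Filter Topology MeasureTheory Metric Real

noncomputable section

namespace Pool.Agent.Work.MP_620749_an

/-- The average over the torus, inner average over the first variable. -/
def A2 (u : ℂ → ℂ → ℂ) : ℂ := av (fun τ => av (fun l => u l τ))

/-- The point of the unit circle with argument `θ`. -/
abbrev ce (θ : ℝ) : ℂ := circleMap 0 1 θ

/-- Continuity on the torus. -/
def CT {X : Type*} [TopologicalSpace X] (u : ℂ → ℂ → X) : Prop :=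
  Continuous (fun p : ℝ × ℝ => u (ce p.1) (ce p.2))

/-- The parameter square. -/
def SS : Set (ℝ × ℝ) := Ioc 0 (2 * π) ×ˢ Ioc 0 (2 * π)

lemma CT.integrableOn {u : ℂ → ℂ → ℂ} (hu : CT u) :
    IntegrableOn (fun p : ℝ × ℝ => u (ce p.1) (ce p.2)) SS (volume.prod volume) := by
  have h1 : IntegrableOn (fun p : ℝ × ℝ => u (ce p.1) (ce p.2))
      (Icc 0 (2 * π) ×ˢ Icc 0 (2 * π)) (volume.prod volume) :=
    hu.continuousOn.integrableOn_compact (isCompact_Icc.prod isCompact_Icc)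
  exact h1.mono_set (prod_mono Ioc_subset_Icc_self Ioc_subset_Icc_self)

lemma CT.integrableOn_real {u : ℂ → ℂ → ℝ} (hu : CT u) :
    IntegrableOn (fun p : ℝ × ℝ => u (ce p.1) (ce p.2)) SS (volume.prod volume) := by
  have h1 : IntegrableOn (fun p : ℝ × ℝ => u (ce p.1) (ce p.2))
      (Icc 0 (2 * π) ×ˢ Icc 0 (2 * π)) (volume.prod volume) :=
    hu.continuousOn.integrableOn_compact (isCompact_Icc.prod isCompact_Icc)
  exact h1.mono_set (prod_mono Ioc_subset_Icc_self Ioc_subset_Icc_self)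

/-- The double integral. -/
def I2 (u : ℂ → ℂ → ℂ) : ℂ :=
  ((2 * π)⁻¹ * (2 * π)⁻¹ : ℝ) • ∫ p in SS, u (ce p.1) (ce p.2) ∂(volume.prod volume)

lemma av_av_eq {u : ℂ → ℂ → ℂ} (hu : CT u) :
    av (fun l => av (fun τ => u l τ)) = I2 u := by
  unfold I2 SS
  rw [setIntegral_prod _ hu.integrableOn]
  simp only [av_def, intervalIntegral.integral_of_le Real.two_pi_pos.le]
  rw [integral_smul, smul_smul]

lemma A2_eq {u : ℂ → ℂ → ℂ} (hu : CT u) : A2 u = I2 u := by
  have hu' : CT (fun τ l => u l τ) := by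
    have : Continuous ((fun p : ℝ × ℝ => u (ce p.1) (ce p.2)) ∘ Prod.swap) :=
      Continuous.comp hu continuous_swap
    exact this
  have h := av_av_eq hu'
  unfold A2
  rw [h]
  unfold I2 SS
  congr 1
  rw [← setIntegral_prod_swap]
  rfl

lemma A2_swap {u : ℂ → ℂ → ℂ} (hu : CT u) : A2 u = av (fun l => av (fun τ => u l τ)) := by
  rw [A2_eq hu, av_av_eq hu]

lemma I2_add {u v : ℂ → ℂ → ℂ} (hu : CT u) (hv : CT v) :
    I2 (fun l τ => u l τ + v l τ) = I2 u + I2 v := by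
  unfold I2
  rw [integral_add hu.integrableOn hv.integrableOn, smul_add]

lemma I2_cj (u : ℂ → ℂ → ℂ) : I2 (fun l τ => cj (u l τ)) = cj (I2 u) := by
  unfold I2
  rw [integral_conj, Complex.real_smul, Complex.real_smul, map_mul, Complex.conj_ofReal]

lemma CT.mul {u v : ℂ → ℂ → ℂ} (hu : CT u) (hv : CT v) : CT (fun l τ => u l τ * v l τ) :=
  Continuous.mul hu hv

lemma CT.cj {u : ℂ → ℂ → ℂ} (hu : CT u) : CT (fun l τ => cj (u l τ)) :=
  Complex.continuous_conj.comp hu

lemma CT.ofReal {V : ℂ → ℂ → ℝ} (hV : CT V) : CT (fun l τ => (V l τ : ℂ)) :=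
  Complex.continuous_ofReal.comp hV

/-- The general principle: a test function `T` dominated by `V`. -/
lemma general_principle {Z T : ℂ → ℂ → ℂ} {V : ℂ → ℂ → ℝ} (hZ : CT Z) (hT : CT T) (hV : CT V)
    (hpos : ∀ l τ : ℂ, ‖l‖ = 1 → ‖τ‖ = 1 → 0 ≤ (Z l τ).re)
    (hle : ∀ l τ : ℂ, ‖l‖ = 1 → ‖τ‖ = 1 → ‖T l τ‖ ≤ V l τ) :
    ‖A2 (fun l τ => Z l τ * T l τ) + cj (A2 (fun l τ => Z l τ * cj (T l τ)))‖ ≤
      2 * (A2 (fun l τ => Z l τ * (V l τ : ℂ))).re := by
  have c1 : CT (fun l τ => Z l τ * T l τ) := hZ.mul hT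
  have c2 : CT (fun l τ => Z l τ * cj (T l τ)) := hZ.mul hT.cj
  have c3 : CT (fun l τ => Z l τ * (V l τ : ℂ)) := hZ.mul hV.ofReal
  rw [A2_eq c1, A2_eq c2, A2_eq c3, ← I2_cj, ← I2_add c1 c2.cj]
  have e1 : (I2 fun l τ => Z l τ * (V l τ : ℂ)).re =
      ((2 * π)⁻¹ * (2 * π)⁻¹ : ℝ) • ∫ p in SS, (Z (ce p.1) (ce p.2)).re * V (ce p.1) (ce p.2)
        ∂(volume.prod volume) := by
    unfold I2
    rw [Complex.smul_re]
    congr 1
    have := integral_re (𝕜 := ℂ) (f := fun p : ℝ × ℝ => Z (ce p.1) (ce p.2) * (V (ce p.1) (ce p.2) : ℂ))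
      (μ := (volume.prod volume).restrict SS) c3.integrableOn
    simp only [RCLike.re_to_complex] at this
    rw [← this]
    congr 1
    funext p
    simp [Complex.mul_re]
  rw [e1]
  unfold I2
  rw [norm_smul, Real.norm_of_nonneg (by positivity), smul_eq_mul, mul_left_comm]
  apply mul_le_mul_of_nonneg_left _ (by positivity)
  rw [← integral_const_mul]
  apply norm_integral_le_of_norm_le
  · have : CT (fun l τ => 2 * ((Z l τ).re * V l τ)) := by
      have h1 : Continuous fun p : ℝ × ℝ => (Z (ce p.1) (ce p.2)).re :=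
        Complex.continuous_re.comp hZ
      exact continuous_const.mul (h1.mul hV)
    exact this.integrableOn_real
  · apply Eventually.of_forall
    intro p
    have h1 := hpos (ce p.1) (ce p.2) (norm_circle _) (norm_circle _)
    have h2 := hle (ce p.1) (ce p.2) (norm_circle _) (norm_circle _)
    have h3 : Z (ce p.1) (ce p.2) * T (ce p.1) (ce p.2) +
        Pool.Agent.Work.MP_620749_an.cj (Z (ce p.1) (ce p.2) * Pool.Agent.Work.MP_620749_an.cj (T (ce p.1) (ce p.2))) =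
        ((2 * (Z (ce p.1) (ce p.2)).re : ℝ) : ℂ) * T (ce p.1) (ce p.2) := by
      rw [map_mul, Complex.conj_conj, ← add_mul, Complex.add_conj]
    show ‖Z (ce p.1) (ce p.2) * T (ce p.1) (ce p.2) +
        Pool.Agent.Work.MP_620749_an.cj
          (Z (ce p.1) (ce p.2) * Pool.Agent.Work.MP_620749_an.cj (T (ce p.1) (ce p.2)))‖ ≤ _
    rw [h3, norm_mul, Complex.norm_real, Real.norm_of_nonneg (by positivity)]
    nlinarith

end Pool.Agent.Work.MP_620749_an
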