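import Pool.Agent.Work.MP_620749_an.Growth
import Pool.Agent.Work.MP_620749_an.Torus

/-!
The slice functions of a map of the class `M`, and the maps which extend beyond the closed ball.
-/

open Set Filter Topology MeasureTheory Metric

noncomputable section

namespace Pool.Agent.Work.MP_620749_an

/-- `e(y) = h_1(0,y)`. -/
def eF (h : E → E) (y : ℂ) : ℂ := h !₂[0, y] 0
/-- `m(y) = h_2(0,y)`. -/
def mF (h : E → E) (y : ℂ) : ℂ := h !₂[0, y] 1
/-- `g(y) = ∂_x h_1(0,y)`. -/
def gF (h : E → E) (y : ℂ) : ℂ := deriv (fun x : ℂ => h !₂[x, y] 0) 0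

/-- Maps of the class `M` which extend beyond the closed ball. -/
def Cl (h : E → E) : Prop := h ∈ ClassM ∧ ∃ R : ℝ, 1 < R ∧ DifferentiableOn ℂ h (ball 0 R)

lemma comp_diff {h : E → E} {R : ℝ} (hd : DifferentiableOn ℂ h (ball 0 R)) (i : Fin 2) :
    DifferentiableOn ℂ (fun z => h z i) (ball 0 R) :=
  (pr i).differentiable.comp_differentiableOn hd

lemma zero_pair : (!₂[(0 : ℂ), 0] : E) = 0 := by
  ext i; fin_cases i <;> rfl

lemma slice_diff {h : E → E} {R : ℝ} (hR : 0 < R) (hd : DifferentiableOn ℂ h (ball 0 R))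
    (i : Fin 2) {X Y : ℂ → ℂ} {U : Set ℂ} (hX : DifferentiableOn ℂ X U)
    (hY : DifferentiableOn ℂ Y U) (hm : ∀ t ∈ U, ‖X t‖ ^ 2 + ‖Y t‖ ^ 2 < R ^ 2) :
    DifferentiableOn ℂ (fun t => h !₂[X t, Y t] i) U := by
  have h1 : DifferentiableOn ℂ (fun t => (!₂[X t, Y t] : E)) U := differentiableOn_pair hX hY
  have h2 : MapsTo (fun t => (!₂[X t, Y t] : E)) U (ball 0 R) := by
    intro t ht
    exact (pair_mem_ball hR.le).2 (hm t ht)
  exact (comp_diff hd i).comp h1 h2

lemma eF_diff {h : E → E} {R : ℝ} (hR : 0 < R) (hd : DifferentiableOn ℂ h (ball 0 R)) :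
    DifferentiableOn ℂ (eF h) (ball 0 R) := by
  apply slice_diff hR hd 0 (differentiableOn_const 0) differentiableOn_id
  intro t ht
  have : ‖t‖ < R := by simpa using ht
  simp only [norm_zero, id]
  nlinarith [norm_nonneg t]

lemma mF_diff {h : E → E} {R : ℝ} (hR : 0 < R) (hd : DifferentiableOn ℂ h (ball 0 R)) :
    DifferentiableOn ℂ (mF h) (ball 0 R) := by
  apply slice_diff hR hd 1 (differentiableOn_const 0) differentiableOn_id
  intro t ht
  have : ‖t‖ < R := by simpa using ht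
  simp only [norm_zero, id]
  nlinarith [norm_nonneg t]

lemma gF_diff {h : E → E} {R : ℝ} (hd : DifferentiableOn ℂ h (ball 0 R)) :
    DifferentiableOn ℂ (gF h) (ball 0 R) := holG (comp_diff hd 0)

lemma diffAt_zero {h : E → E} (hM : h ∈ ClassM) : HasFDerivAt h (ContinuousLinearMap.id ℂ E) 0 := by
  rw [← hM.2.2.1]
  exact (hM.1.differentiableAt (ball_mem_nhds _ (by norm_num))).hasFDerivAt

/-- Derivative along a curve through the origin. -/
lemma deriv_curve {h : E → E} (hM : h ∈ ClassM) (i : Fin 2) {X Y : ℂ → ℂ} {x' y' : ℂ}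
    (hX : HasDerivAt X x' 0) (hY : HasDerivAt Y y' 0) (hX0 : X 0 = 0) (hY0 : Y 0 = 0) :
    HasDerivAt (fun t => h !₂[X t, Y t] i) ((!₂[x', y'] : E) i) 0 := by
  have h1 := hasDerivAt_pair hX hY
  have h2 : HasFDerivAt h (ContinuousLinearMap.id ℂ E) ((fun t => (!₂[X t, Y t] : E)) 0) := by
    simp only [hX0, hY0, zero_pair]
    exact diffAt_zero hM
  have h3 := h2.comp_hasDerivAt 0 h1
  have h4 := (pr i).hasFDerivAt.comp_hasDerivAt 0 h3
  exact h4

lemma eF_zero {h : E → E} (hM : h ∈ ClassM) : eF h 0 = 0 := by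
  unfold eF; rw [zero_pair, hM.2.1]; rfl

lemma mF_zero {h : E → E} (hM : h ∈ ClassM) : mF h 0 = 0 := by
  unfold mF; rw [zero_pair, hM.2.1]; rfl

lemma eF_deriv {h : E → E} (hM : h ∈ ClassM) : deriv (eF h) 0 = 0 :=
  (deriv_curve hM 0 (hasDerivAt_const 0 0) (hasDerivAt_id 0) rfl rfl).deriv

lemma mF_deriv {h : E → E} (hM : h ∈ ClassM) : deriv (mF h) 0 = 1 :=
  (deriv_curve hM 1 (hasDerivAt_const 0 0) (hasDerivAt_id 0) rfl rfl).deriv

lemma gF_zero {h : E → E} (hM : h ∈ ClassM) : gF h 0 = 1 :=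
  (deriv_curve hM 0 (hasDerivAt_id 0) (hasDerivAt_const 0 0) rfl rfl).deriv

lemma off_deriv {h : E → E} (hM : h ∈ ClassM) (s : ℂ) :
    deriv (fun x : ℂ => h !₂[s * x, 0] 1) 0 = 0 := by
  have h1 : HasDerivAt (fun x : ℂ => s * x) s 0 := by
    simpa using (hasDerivAt_id (0 : ℂ)).const_mul s
  exact (deriv_curve hM 1 h1 (hasDerivAt_const 0 0) (by simp) rfl).deriv

/-- Positivity on the closed ball. -/
lemma Cl.pos {h : E → E} (hC : Cl h) {z : E} (hz : ‖z‖ ≤ 1) : 0 ≤ (inner ℂ z (h z)).re := by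
  obtain ⟨hM, R, hR, hd⟩ := hC
  have hcont : ContinuousOn (fun w : E => (inner ℂ w (h w)).re) (ball 0 R) := by
    apply Complex.continuous_re.comp_continuousOn
    exact continuousOn_id.inner hd.continuousOn
  have hzR : z ∈ ball (0 : E) R := by rw [mem_ball_zero_iff]; linarith
  have h1 : Tendsto (fun s : ℝ => (s : ℝ) • z) (𝓝[<] 1) (𝓝 z) := by
    have : Tendsto (fun s : ℝ => (s : ℝ) • z) (𝓝 1) (𝓝 ((1 : ℝ) • z)) :=
      (continuous_id.smul continuous_const).tendsto 1
    rw [one_smul] at this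
    exact this.mono_left nhdsWithin_le_nhds
  have h2 := (hcont.continuousAt (isOpen_ball.mem_nhds hzR)).tendsto.comp h1
  apply ge_of_tendsto h2
  have h3 : Ioo (0 : ℝ) 1 ∈ 𝓝[<] (1 : ℝ) := Ioo_mem_nhdsLT (by norm_num)
  filter_upwards [h3] with s hs
  show 0 ≤ (inner ℂ (s • z) (h (s • z))).re
  by_cases h0 : s • z = 0
  · rw [h0]; simp
  · apply (hM.2.2.2 (s • z) _ h0).le
    rw [mem_ball_zero_iff, norm_smul, Real.norm_of_nonneg hs.1.le]
    nlinarith [hs.1, hs.2, norm_nonneg z]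

/-- The second difference quotient at the origin, i.e. the second Taylor coefficient. -/
def t2 (F : ℂ → ℂ) : ℂ := dslope (dslope F 0) 0 0

lemma dslope_scale (F : ℂ → ℂ) {s : ℂ} (hs : s ≠ 0) (l : ℂ) :
    dslope (fun x => F (s * x)) 0 l = s * dslope F 0 (s * l) := by
  by_cases hl : l = 0
  · subst hl
    rw [dslope_same, mul_zero, dslope_same]
    have := deriv_comp_mul_left s F 0
    simpa using this
  · rw [dslope_eq hl, dslope_eq (mul_ne_zero hs hl)]
    simp only [mul_zero]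
    field_simp

lemma t2_scale (F : ℂ → ℂ) {s : ℂ} (hs : s ≠ 0) : t2 (fun x => F (s * x)) = s ^ 2 * t2 F := by
  unfold t2
  have e : dslope (fun x => F (s * x)) 0 = fun l => s * (fun y => dslope F 0 (s * y)) l := by
    funext l; exact dslope_scale F hs l
  rw [e]
  have e2 : dslope (fun l => s * (fun y => dslope F 0 (s * y)) l) 0 0 =
      s * dslope (fun y => dslope F 0 (s * y)) 0 0 := by
    rw [dslope_same, dslope_same]
    exact deriv_const_mul_field s
  rw [e2, dslope_scale (dslope F 0) hs, mul_zero]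
  ring

end Pool.Agent.Work.MP_620749_an
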