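import Pool.Agent.Work.MP_620749_an.Ext11

/-!
Conjugation by unitary maps, and the coefficients in terms of the slice functions.
-/

open Set Filter Topology MeasureTheory Metric

noncomputable section

namespace Pool.Agent.Work.MP_620749_an

lemma conj_mem {h : E → E} (hM : h ∈ ClassM) (U V : E →L[ℂ] E) (hVU : ∀ z, V (U z) = z)
    (hUV : ∀ z, U (V z) = z) (hin : ∀ z w, inner ℂ (U z) (U w) = (inner ℂ z w : ℂ)) :
    (fun z => V (h (U z))) ∈ ClassM := by
  have hn : ∀ z, ‖U z‖ = ‖z‖ := by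
    intro z
    have h1 := hin z z
    rw [inner_self_eq_norm_sq_to_K, inner_self_eq_norm_sq_to_K] at h1
    have h2 : ‖U z‖ ^ 2 = ‖z‖ ^ 2 := by exact_mod_cast h1
    exact (pow_left_inj₀ (norm_nonneg _) (norm_nonneg _) two_ne_zero).1 h2
  have hmaps : MapsTo (fun z => U z) (ball 0 1) (ball 0 1) := by
    intro z hz
    rw [mem_ball_zero_iff] at *
    rw [hn]; exact hz
  refine ⟨?_, ?_, ?_, ?_⟩
  · have h1 : DifferentiableOn ℂ (fun z => U z) (ball 0 1) := U.differentiable.differentiableOn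
    exact V.differentiable.comp_differentiableOn (hM.1.comp h1 hmaps)
  · simp only [map_zero, hM.2.1]
  · have e1 : HasFDerivAt h (ContinuousLinearMap.id ℂ E) (U 0) := by
      rw [map_zero]; exact diffAt_zero hM
    have e2 := V.hasFDerivAt.comp (0 : E) (e1.comp (0 : E) U.hasFDerivAt)
    have e3 : HasFDerivAt (fun z => V (h (U z))) (V.comp ((ContinuousLinearMap.id ℂ E).comp U)) 0 := e2
    rw [e3.fderiv]
    ext z : 1
    simp [hVU]
  · intro z hz hz0
    have hU0 : U z ≠ 0 := by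
      intro h0
      apply hz0
      rw [← hVU z, h0, map_zero]
    have := hM.2.2.2 (U z) (hmaps hz) hU0
    rw [← hin, hUV]
    exact this

/-- The unitary map `(x,y) ↦ (x, β y)`. -/
def rotU (β : ℂ) : E →L[ℂ] E := mk2.comp ((pr 0).prod (β • pr 1))

lemma rotU_apply (β : ℂ) (z : E) : rotU β z = !₂[z 0, β * z 1] := by
  unfold rotU
  rw [ContinuousLinearMap.comp_apply, ContinuousLinearMap.prod_apply, mk2_apply]
  rfl

/-- The swap. -/
def swU : E →L[ℂ] E := mk2.comp ((pr 1).prod (pr 0))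

lemma swU_apply (z : E) : swU z = !₂[z 1, z 0] := by
  unfold swU
  rw [ContinuousLinearMap.comp_apply, ContinuousLinearMap.prod_apply, mk2_apply]
  rfl

/-- Rotation of a vector field in the second variable. -/
def rot (β : ℂ) (h : E → E) : E → E := fun z => rotU (cj β) (h (rotU β z))

/-- Exchange of the coordinates. -/
def sw (h : E → E) : E → E := fun z => swU (h (swU z))

lemma rot_mem {h : E → E} (hM : h ∈ ClassM) {β : ℂ} (hβ : ‖β‖ = 1) : rot β h ∈ ClassM := by
  have hb := mul_cj_one hβ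
  apply conj_mem hM
  · intro z
    rw [rotU_apply, rotU_apply]
    show (!₂[z 0, cj β * (β * z 1)] : E) = z
    rw [← mul_assoc, mul_comm (cj β), hb, one_mul]
    exact eta z
  · intro z
    rw [rotU_apply, rotU_apply]
    show (!₂[z 0, β * (cj β * z 1)] : E) = z
    rw [← mul_assoc, hb, one_mul]
    exact eta z
  · intro z w
    rw [rotU_apply, rotU_apply, inner_E, inner_E]
    show cj (z 0) * w 0 + cj (β * z 1) * (β * w 1) = cj (z 0) * w 0 + cj (z 1) * w 1
    rw [map_mul]
    linear_combination (cj (z 1) * w 1) * hb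

lemma sw_mem {h : E → E} (hM : h ∈ ClassM) : sw h ∈ ClassM := by
  apply conj_mem hM
  · intro z
    rw [swU_apply, swU_apply]
    show (!₂[z 0, z 1] : E) = z
    exact eta z
  · intro z
    rw [swU_apply, swU_apply]
    show (!₂[z 0, z 1] : E) = z
    exact eta z
  · intro z w
    rw [swU_apply, swU_apply, inner_E, inner_E]
    show cj (z 1) * w 1 + cj (z 0) * w 0 = cj (z 0) * w 0 + cj (z 1) * w 1
    ring

lemma rot_pair0 (β : ℂ) (h : E → E) (x y : ℂ) : rot β h !₂[x, y] 0 = h !₂[x, β * y] 0 := by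
  unfold rot
  rw [rotU_apply, rotU_apply]
  rfl

lemma rot_pair1 (β : ℂ) (h : E → E) (x y : ℂ) :
    rot β h !₂[x, y] 1 = cj β * h !₂[x, β * y] 1 := by
  unfold rot
  rw [rotU_apply, rotU_apply]
  rfl

lemma sw_pair0 (h : E → E) (x y : ℂ) : sw h !₂[x, y] 0 = h !₂[y, x] 1 := by
  unfold sw
  rw [swU_apply, swU_apply]
  rfl

lemma sw_pair1 (h : E → E) (x y : ℂ) : sw h !₂[x, y] 1 = h !₂[y, x] 0 := by
  unfold sw
  rw [swU_apply, swU_apply]
  rfl

lemma gF_rot (β : ℂ) (h : E → E) (y : ℂ) : gF (rot β h) y = gF h (β * y) := by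
  unfold gF
  congr 1
  funext x
  exact rot_pair0 β h x y

lemma gF_rot_deriv (β : ℂ) (h : E → E) : deriv (gF (rot β h)) 0 = β * deriv (gF h) 0 := by
  have e : gF (rot β h) = fun y => gF h (β * y) := by funext y; exact gF_rot β h y
  rw [e]
  have := deriv_comp_mul_left β (gF h) 0
  simpa using this

lemma eF_rot (β : ℂ) (h : E → E) (y : ℂ) : eF (rot β h) y = eF h (β * y) := rot_pair0 β h 0 y

lemma mF_rot (β : ℂ) (h : E → E) (y : ℂ) : mF (rot β h) y = cj β * mF h (β * y) :=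
  rot_pair1 β h 0 y

lemma t2_mF_rot {β : ℂ} (hβ : ‖β‖ = 1) (h : E → E) : t2 (mF (rot β h)) = β * t2 (mF h) := by
  have h0 : β ≠ 0 := by intro h; simp [h] at hβ
  have e : mF (rot β h) = fun y => cj β * (fun x => mF h (β * x)) y := by
    funext y; exact mF_rot β h y
  rw [e, t2_const_mul, t2_scale _ h0]
  have := mul_cj_one hβ
  linear_combination (β * t2 (mF h)) * this

/-- A unimodular number turning `z` into its modulus. -/
lemma exists_unim (z : ℂ) : ∃ β : ℂ, ‖β‖ = 1 ∧ β * z = (‖z‖ : ℂ) := by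
  by_cases hz : z = 0
  · exact ⟨1, by simp, by simp [hz]⟩
  · refine ⟨(‖z‖ : ℂ) / z, ?_, ?_⟩
    · rw [norm_div, Complex.norm_real, norm_norm, div_self (norm_ne_zero_iff.2 hz)]
    · field_simp

theorem g_bound {h : E → E} (hM : h ∈ ClassM) : ‖deriv (gF h) 0‖ ≤ 2 + 2 * √2 := by
  obtain ⟨β, hβ, hβ'⟩ := exists_unim (deriv (gF h) 0)
  have := re_le (rot_mem hM hβ)
  rw [gF_rot_deriv, hβ', Complex.ofReal_re] at this
  exact this

theorem ext11 {h : E → E} (hM : h ∈ ClassM) {ω : ℂ} (hω : ‖ω‖ = 1)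
    (hg : deriv (gF h) 0 = ((2 + 2 * √2 : ℝ) : ℂ) * ω) {y : ℂ} (hy : ‖y‖ < 1 / 10) :
    h !₂[0, y] = !₂[0, y * (1 - ω * y)] := by
  have hc : ‖cj ω‖ = 1 := by rw [norm_cj]; exact hω
  have hM' := rot_mem hM hc
  have hω1 := mul_cj_one hω
  have hg' : deriv (gF (rot (cj ω) h)) 0 = ((2 + 2 * √2 : ℝ) : ℂ) := by
    rw [gF_rot_deriv, hg]
    linear_combination ((2 + 2 * √2 : ℝ) : ℂ) * hω1
  have hwy : ‖ω * y‖ < 1 / 10 := by rw [norm_mul, hω, one_mul]; exact hy
  have e1 := e_zero hM' hg' hwy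
  have e2 := m_form hM' hg' hwy
  have e3 : cj ω * (ω * y) = y := by linear_combination y * hω1
  rw [eF_rot, e3] at e1
  rw [mF_rot, e3, Complex.conj_conj] at e2
  have hω0 : ω ≠ 0 := by intro h; simp [h] at hω
  have e4 : mF h y = y * (1 - ω * y) := by
    apply mul_left_cancel₀ hω0
    rw [e2]; ring
  rw [← eta (h !₂[0, y])]
  unfold eF at e1
  unfold mF at e4
  rw [e1, e4]

/-- The second difference quotient is half of the second derivative. -/
lemma t2_eq {F : ℂ → ℂ} {r : ℝ} (hr : 0 < r) (hF : DifferentiableOn ℂ F (ball 0 r)) :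
    t2 F = iteratedDeriv 2 F 0 / 2 := by
  have h0 : ball (0 : ℂ) r ∈ 𝓝 (0 : ℂ) := ball_mem_nhds _ hr
  have hG : DifferentiableOn ℂ (dslope F 0) (ball 0 r) :=
    (Complex.differentiableOn_dslope h0).2 hF
  have hG' := hG.deriv isOpen_ball
  have e1 : ∀ᶠ z in 𝓝 (0 : ℂ), deriv F z = dslope F 0 z + z * deriv (dslope F 0) z := by
    filter_upwards [h0] with z hz
    have hz' : HasDerivAt (dslope F 0) (deriv (dslope F 0) z) z :=
      (hG.differentiableAt (isOpen_ball.mem_nhds hz)).hasDerivAt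
    have h2 := ((hasDerivAt_id z).fun_mul hz').const_add (F 0)
    have h3 : F = fun z => F 0 + id z * dslope F 0 z := by
      funext w; exact mul_dslope F w
    conv_lhs => rw [h3]
    rw [h2.deriv]
    simp
  rw [iteratedDeriv_succ, iteratedDeriv_one]
  have e2 : deriv (deriv F) 0 = deriv (fun z => dslope F 0 z + z * deriv (dslope F 0) z) 0 :=
    Filter.EventuallyEq.deriv_eq e1
  rw [e2]
  have k1 : HasDerivAt (dslope F 0) (deriv (dslope F 0) 0) 0 :=
    (hG.differentiableAt h0).hasDerivAt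
  have k2 : HasDerivAt (deriv (dslope F 0)) (deriv (deriv (dslope F 0)) 0) 0 :=
    (hG'.differentiableAt h0).hasDerivAt
  have k3 := (k1.fun_add ((hasDerivAt_id (0 : ℂ)).fun_mul k2)).deriv
  have k4 : deriv (fun z => dslope F 0 z + z * deriv (dslope F 0) z) 0 =
      deriv (dslope F 0) 0 + (1 * deriv (dslope F 0) 0 + id 0 * deriv (deriv (dslope F 0)) 0) := k3
  rw [k4]
  unfold t2
  rw [dslope_same]
  simp

lemma coeff11 (h : E → E) : coeffOne 1 1 h = deriv (gF h) 0 := by
  unfold coeffOne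
  rw [iteratedDeriv_one]
  simp only [iteratedDeriv_one, Nat.factorial_one, Nat.cast_one, mul_one, div_one]
  rfl

lemma coeff02 {h : E → E} (hd : DifferentiableOn ℂ h B) : coeffOne 0 2 h = t2 (eF h) := by
  unfold coeffOne
  rw [t2_eq one_pos (eF_diff one_pos hd)]
  simp only [iteratedDeriv_zero, Nat.factorial_zero, Nat.cast_one, one_mul, Nat.factorial_two,
    Nat.cast_ofNat]
  rfl

lemma coeff20 {h : E → E} (hM : h ∈ ClassM) : coeffOne 2 0 h = t2 (mF (sw h)) := by
  unfold coeffOne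
  rw [t2_eq one_pos (mF_diff one_pos (sw_mem hM).1)]
  simp only [iteratedDeriv_zero, Nat.factorial_zero, Nat.cast_one, mul_one, Nat.factorial_two,
    Nat.cast_ofNat]
  have : (fun x : ℂ => h !₂[x, 0] 0) = mF (sw h) := by
    funext x; unfold mF; rw [sw_pair1]
  rw [this]

end Pool.Agent.Work.MP_620749_an
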