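import Mathlib

/-!
Definitions for MP_620749_an: the class S^0 of the unit ball of C^2 and the subclass of
restrictions of automorphisms of C^2.
-/

open Set Filter Topology MeasureTheory Metric

noncomputable section

namespace Pool.Agent.Work.MP_620749_an

/-- The complex Euclidean space of dimension two. -/
abbrev E := EuclideanSpace ℂ (Fin 2)

/-- The open Euclidean unit ball. -/
abbrev B : Set E := ball (0 : E) 1

/-- The class `M` : holomorphic `h` on the ball with `h 0 = 0`, `dh_0 = id` and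
`Re ⟨h z, z⟩ > 0` off the origin. -/
def ClassM : Set (E → E) :=
  {h | DifferentiableOn ℂ h B ∧ h 0 = 0 ∧ fderiv ℂ h 0 = ContinuousLinearMap.id ℂ E ∧
    ∀ z ∈ B, z ≠ 0 → 0 < (inner ℂ z (h z)).re}

/-- Herglotz vector fields associated with `M`. -/
def IsHerglotz (G : E → ℝ → E) : Prop :=
  (∀ᵐ t ∂(volume.restrict (Ici (0 : ℝ))), (fun z => -G z t) ∈ ClassM) ∧
    ∀ z ∈ B, AEStronglyMeasurable (fun t => G z t) (volume.restrict (Ici (0 : ℝ)))

/-- `φ` is the flow on the ball of the Herglotz vector field `G`: absolutely continuous in time,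
with `φ z 0 = z` and `∂_t φ(z,t) = G(φ(z,t),t)` for almost every `t ≥ 0` and all `z`. -/
def IsFlow (G φ : E → ℝ → E) : Prop :=
  (∀ z ∈ B, ∀ t : ℝ, 0 ≤ t → φ z t ∈ B) ∧ (∀ z ∈ B, φ z 0 = z) ∧
    (∀ z ∈ B, ∀ T : ℝ, 0 < T → AbsolutelyContinuousOnInterval (φ z) 0 T) ∧
    ∀ᵐ t ∂(volume.restrict (Ici (0 : ℝ))), ∀ z ∈ B, HasDerivAt (φ z) (G (φ z t) t) t

/-- The class `S` of normalised univalent maps of the ball. -/
def ClassS : Set (E → E) :=
  {f | DifferentiableOn ℂ f B ∧ InjOn f B ∧ f 0 = 0 ∧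
    fderiv ℂ f 0 = ContinuousLinearMap.id ℂ E}

/-- The class `S^0` of the maps in `S` which have parametric representation. -/
def ClassS0 : Set (E → E) :=
  {f | f ∈ ClassS ∧ ∃ G φ : E → ℝ → E, IsHerglotz G ∧ IsFlow G φ ∧
    TendstoLocallyUniformlyOn (fun (t : ℝ) z => Real.exp t • φ z t) f atTop B}

/-- Holomorphic automorphisms of `C^2`. -/
def IsAut (Ψ : E → E) : Prop :=
  Differentiable ℂ Ψ ∧ ∃ Φ : E → E, Differentiable ℂ Φ ∧ Function.LeftInverse Φ Ψ ∧
    Function.RightInverse Φ Ψ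

/-- The maps in `S^0` which are restrictions of automorphisms of `C^2`. -/
def ClassA : Set (E → E) :=
  {f | f ∈ ClassS0 ∧ ∃ Ψ : E → E, IsAut Ψ ∧ EqOn Ψ f B}

/-- The Taylor coefficient at the origin of the monomial `z_1^a z_2^b` in the first component
of `f`. -/
def coeffOne (a b : ℕ) (f : E → E) : ℂ :=
  iteratedDeriv b (fun y : ℂ => iteratedDeriv a (fun x : ℂ => f !₂[x, y] 0) 0) 0 /
    ((a.factorial : ℂ) * (b.factorial : ℂ))

end Pool.Agent.Work.MP_620749_an
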