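import Pool.Agent.Work.MP_620749_an.Conj

/-!
The sharp bound for the coefficient `(0,2)`.
-/

open Set Filter Topology MeasureTheory Metric

noncomputable section

namespace Pool.Agent.Work.MP_620749_an

lemma t2_lim {F : ℂ → ℂ} {r : ℝ} (hr : 0 < r) (hF : DifferentiableOn ℂ F (ball 0 r))
    (h0 : F 0 = 0) (h1 : deriv F 0 = 0) :
    Tendsto (fun l : ℂ => F l / l ^ 2) (𝓝[≠] 0) (𝓝 (t2 F)) := by
  have hb : ball (0 : ℂ) r ∈ 𝓝 (0 : ℂ) := ball_mem_nhds _ hr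
  have d1 : DifferentiableOn ℂ (dslope F 0) (ball 0 r) :=
    (Complex.differentiableOn_dslope hb).2 hF
  have d2 : DifferentiableOn ℂ (dslope (dslope F 0) 0) (ball 0 r) :=
    (Complex.differentiableOn_dslope hb).2 d1
  have c2 : ContinuousAt (dslope (dslope F 0) 0) 0 := (d2.differentiableAt hb).continuousAt
  have t : Tendsto (dslope (dslope F 0) 0) (𝓝[≠] 0) (𝓝 (t2 F)) :=
    c2.tendsto.mono_left nhdsWithin_le_nhds
  refine t.congr' ?_
  filter_upwards [self_mem_nhdsWithin] with l hl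
  have hl' : l ≠ 0 := hl
  rw [dslope_eq hl', dslope_eq hl', dslope_same, h0, h1]
  field_simp
  ring

variable {h : E → E}

lemma t2_weighted (hM : h ∈ ClassM) {x w : ℂ} (hx : ‖x‖ ≤ 1) (hw : ‖w‖ ≤ 1) :
    t2 (fun l => h !₂[l ^ 2 * x, l * w] 0) = x + w ^ 2 * t2 (eF h) := by
  obtain ⟨C, hC, hlip⟩ := lip
  have hr : (0 : ℝ) < 1 / 2 := by norm_num
  have nb : ∀ l : ℂ, ‖l‖ < 1 / 2 → ‖l ^ 2 * x‖ ^ 2 + ‖l * w‖ ^ 2 ≤ (2 * ‖l‖) ^ 2 := by
    intro l hl
    have e1 : ‖l ^ 2 * x‖ ≤ ‖l‖ := by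
      rw [norm_mul, norm_pow]
      have : ‖l‖ ^ 2 * ‖x‖ ≤ ‖l‖ ^ 2 * 1 := by gcongr
      nlinarith [norm_nonneg l]
    have e2 : ‖l * w‖ ≤ ‖l‖ := by
      rw [norm_mul]
      have : ‖l‖ * ‖w‖ ≤ ‖l‖ * 1 := by gcongr
      linarith
    nlinarith [norm_nonneg (l ^ 2 * x), norm_nonneg (l * w), norm_nonneg l]
  have hF : DifferentiableOn ℂ (fun l => h !₂[l ^ 2 * x, l * w] 0) (ball 0 (1 / 2)) := by
    apply slice_diff one_pos hM.1 0 (by fun_prop) (by fun_prop)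
    intro l hl
    have hl' : ‖l‖ < 1 / 2 := by simpa using hl
    have := nb l hl'
    nlinarith [norm_nonneg l]
  have c0 : (fun l => h !₂[l ^ 2 * x, l * w] 0) 0 = 0 := by
    simp only [ne_eq, OfNat.ofNat_ne_zero, not_false_eq_true, zero_pow, zero_mul]
    rw [zero_pair, hM.2.1]; rfl
  have c1 : deriv (fun l => h !₂[l ^ 2 * x, l * w] 0) 0 = 0 := by
    have a1 : HasDerivAt (fun l : ℂ => l ^ 2 * x) 0 0 := by
      have := (hasDerivAt_pow 2 (0 : ℂ)).mul_const x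
      simpa using this
    have a2 : HasDerivAt (fun l : ℂ => l * w) w 0 := by
      simpa using (hasDerivAt_id (0 : ℂ)).mul_const w
    exact (deriv_curve hM 0 a1 a2 (by simp) (by simp)).deriv
  have L1 := t2_lim hr hF c0 c1
  have hE : DifferentiableOn ℂ (fun l => eF h (w * l)) (ball 0 1) := by
    apply (eF_diff one_pos hM.1).comp (by fun_prop)
    intro l hl
    have hl' : ‖l‖ < 1 := by simpa using hl
    rw [mem_ball_zero_iff, norm_mul]
    nlinarith [norm_nonneg l, norm_nonneg w]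
  have hE0 : (fun l => eF h (w * l)) 0 = 0 := by simp [eF_zero hM]
  have hE1 : deriv (fun l => eF h (w * l)) 0 = 0 := by
    have := deriv_comp_mul_left w (eF h) 0
    simpa [eF_deriv hM] using this
  have L2 := t2_lim one_pos hE hE0 hE1
  have e2 : t2 (fun l => eF h (w * l)) = w ^ 2 * t2 (eF h) := by
    by_cases hw0 : w = 0
    · subst hw0
      have : (fun l : ℂ => eF h (0 * l)) = fun _ => 0 := by
        funext l; rw [zero_mul, eF_zero hM]
      rw [this]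
      unfold t2
      have : dslope (fun _ : ℂ => (0 : ℂ)) 0 = fun _ => 0 := by
        funext l
        by_cases hl : l = 0
        · subst hl; rw [dslope_same]; simp
        · rw [dslope_eq hl]; simp
      rw [this, dslope_same]
      simp
    · exact t2_scale (eF h) hw0
  rw [e2] at L2
  have L3 : Tendsto (fun l : ℂ => (h !₂[l ^ 2 * x, l * w] 0 - eF h (w * l) - l ^ 2 * x) / l ^ 2)
      (𝓝[≠] 0) (𝓝 0) := by
    rw [tendsto_zero_iff_norm_tendsto_zero]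
    have up : Tendsto (fun l : ℂ => C * (2 * ‖l‖)) (𝓝[≠] 0) (𝓝 0) := by
      have : Continuous fun l : ℂ => C * (2 * ‖l‖) := by fun_prop
      have := this.tendsto 0
      simp only [norm_zero, mul_zero] at this
      exact this.mono_left nhdsWithin_le_nhds
    apply squeeze_zero' (Eventually.of_forall fun _ => norm_nonneg _) _ up
    have hsmall : ∀ᶠ l : ℂ in 𝓝[≠] 0, ‖l‖ < 1 / 20 := by
      have : ball (0 : ℂ) (1 / 20) ∈ 𝓝 (0 : ℂ) := ball_mem_nhds _ (by norm_num)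
      filter_upwards [mem_nhdsWithin_of_mem_nhds this] with l hl
      simpa using hl
    filter_upwards [hsmall, self_mem_nhdsWithin] with l hl hl0
    have hl0' : l ≠ 0 := hl0
    have hlp : 0 < ‖l‖ := norm_pos_iff.2 hl0'
    have z1 : ‖(!₂[l ^ 2 * x, l * w] : E)‖ ≤ 2 * ‖l‖ := by
      rw [norm_le_iff (by positivity)]
      exact nb l (by linarith)
    have z2 : ‖(!₂[0, l * w] : E)‖ ≤ 2 * ‖l‖ := by
      rw [norm_le_iff (by positivity)]
      have := nb l (by linarith)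
      show ‖(0 : ℂ)‖ ^ 2 + ‖l * w‖ ^ 2 ≤ _
      simp only [norm_zero]
      nlinarith [norm_nonneg (l ^ 2 * x)]
    have key := hlip h hM (2 * ‖l‖) (by positivity) (by linarith) _ _ z1 z2
    have e3 : (!₂[l ^ 2 * x, l * w] : E) - !₂[0, l * w] = !₂[l ^ 2 * x, 0] := by
      ext i; fin_cases i <;> simp
    have e4 : ‖(!₂[l ^ 2 * x, 0] : E)‖ ≤ ‖l‖ ^ 2 := by
      rw [norm_le_iff (by positivity)]
      show ‖l ^ 2 * x‖ ^ 2 + ‖(0 : ℂ)‖ ^ 2 ≤ _
      have : ‖l ^ 2 * x‖ ≤ ‖l‖ ^ 2 := by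
        rw [norm_mul, norm_pow]
        nlinarith [sq_nonneg ‖l‖]
      simp only [norm_zero]
      nlinarith [norm_nonneg (l ^ 2 * x)]
    rw [e3] at key
    have e5 := norm_apply_le ((h !₂[l ^ 2 * x, l * w] - !₂[l ^ 2 * x, l * w]) -
      (h !₂[0, l * w] - !₂[0, l * w])) 0
    have e6 : ((h !₂[l ^ 2 * x, l * w] - !₂[l ^ 2 * x, l * w]) -
      (h !₂[0, l * w] - !₂[0, l * w])) 0 = h !₂[l ^ 2 * x, l * w] 0 - eF h (w * l) - l ^ 2 * x := by
      unfold eF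
      rw [mul_comm w l]
      show (h !₂[l ^ 2 * x, l * w] 0 - l ^ 2 * x) - (h !₂[0, l * w] 0 - 0) = _
      ring
    rw [e6] at e5
    rw [norm_div, norm_pow, div_le_iff₀ (by positivity)]
    calc ‖h !₂[l ^ 2 * x, l * w] 0 - eF h (w * l) - l ^ 2 * x‖
        ≤ C * (2 * ‖l‖) * ‖(!₂[l ^ 2 * x, 0] : E)‖ := e5.trans key
      _ ≤ C * (2 * ‖l‖) * ‖l‖ ^ 2 := by gcongr
  have L4 := (L3.add L2).add_const x
  have L5 : Tendsto (fun l : ℂ => h !₂[l ^ 2 * x, l * w] 0 / l ^ 2) (𝓝[≠] 0)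
      (𝓝 (0 + w ^ 2 * t2 (eF h) + x)) := by
    refine L4.congr' ?_
    filter_upwards [self_mem_nhdsWithin] with l hl
    have hl' : l ≠ 0 := hl
    field_simp
    ring
  have := tendsto_nhds_unique L1 L5
  rw [this]; ring

lemma cl_e2 (hC : Cl h) {x w : ℂ} (hxw : ‖x‖ ^ 2 + ‖w‖ ^ 2 = 1) :
    0 ≤ 1 + (cj x * w ^ 2 * t2 (eF h)).re := by
  have hM := hC.1
  have hx : ‖x‖ ≤ 1 := by nlinarith [norm_nonneg x, norm_nonneg w, sq_nonneg ‖w‖]
  have hw : ‖w‖ ≤ 1 := by nlinarith [norm_nonneg x, norm_nonneg w, sq_nonneg ‖x‖]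
  have hpos : ∀ l : ℂ, ‖l‖ = 1 → 0 ≤ (cj (l ^ 2 * x) * h !₂[l ^ 2 * x, l * w] 0 +
      cj (l * w) * h !₂[l ^ 2 * x, l * w] 1).re := by
    intro l hl
    have hle : ‖(!₂[l ^ 2 * x, l * w] : E)‖ ≤ 1 := by
      rw [norm_le_iff (by norm_num)]
      show ‖l ^ 2 * x‖ ^ 2 + ‖l * w‖ ^ 2 ≤ 1 ^ 2
      rw [norm_mul, norm_pow, norm_mul, hl]
      nlinarith
    have := hC.pos hle
    rwa [inner_pair] at this
  have hlt := t2_weighted hM hx hw
  obtain ⟨_, R, hR, hd⟩ := hC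
  have hbd : ∀ l : ℂ, ‖l‖ ≤ 1 → ‖l ^ 2 * x‖ ^ 2 + ‖l * w‖ ^ 2 ≤ 1 := by
    intro l hl
    rw [norm_mul, norm_pow, norm_mul, mul_pow, mul_pow, ← hxw]
    have a1 : (‖l‖ ^ 2) ^ 2 ≤ 1 := by
      have : ‖l‖ ^ 2 ≤ 1 := by nlinarith [norm_nonneg l]
      nlinarith [sq_nonneg ‖l‖]
    have a2 : ‖l‖ ^ 2 ≤ 1 := by nlinarith [norm_nonneg l]
    nlinarith [sq_nonneg ‖x‖, sq_nonneg ‖w‖]
  have F1 : Hol (fun l => h !₂[l ^ 2 * x, l * w] 0) := by
    apply hol_of_diffAt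
    intro l hl
    exact pair_at hR hd 0 (by fun_prop) (by fun_prop) (hbd l hl)
  have F2 : Hol (fun l => h !₂[l ^ 2 * x, l * w] 1) := by
    apply hol_of_diffAt
    intro l hl
    exact pair_at hR hd 1 (by fun_prop) (by fun_prop) (hbd l hl)
  have d2 : deriv (fun l => h !₂[l ^ 2 * x, l * w] 1) 0 = w := by
    have a1 : HasDerivAt (fun l : ℂ => l ^ 2 * x) 0 0 := by
      have := (hasDerivAt_pow 2 (0 : ℂ)).mul_const x
      simpa using this
    have a2 : HasDerivAt (fun l : ℂ => l * w) w 0 := by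
      simpa using (hasDerivAt_id (0 : ℂ)).mul_const w
    exact (deriv_curve hM 1 a1 a2 (by simp) (by simp)).deriv
  have e1 : av (fun l => cj (l ^ 2 * x) * h !₂[l ^ 2 * x, l * w] 0 +
      cj (l * w) * h !₂[l ^ 2 * x, l * w] 1) = cj x * (x + w ^ 2 * t2 (eF h)) + cj w * w := by
    have e2 : av (fun l => cj (l ^ 2 * x) * h !₂[l ^ 2 * x, l * w] 0 +
        cj (l * w) * h !₂[l ^ 2 * x, l * w] 1) =
        av (fun l => cj x * (h !₂[l ^ 2 * x, l * w] 0 * cj l ^ 2) +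
          cj w * (h !₂[l ^ 2 * x, l * w] 1 * cj l)) := by
      apply av_congr; intro l _; rw [map_mul, map_mul, map_pow]; ring
    rw [e2, av_add, av_mul_left, av_mul_left, av_mul_cj2 F1, av_mul_cj F2, d2]
    · have : dslope (dslope (fun l => h !₂[l ^ 2 * x, l * w] 0) 0) 0 0 =
        x + w ^ 2 * t2 (eF h) := hlt
      rw [this]
    · exact continuousOn_const.mul (F1.contSphere.mul (contSphere_cj.pow 2))
    · exact continuousOn_const.mul (F2.contSphere.mul contSphere_cj)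
  have e3 : 0 ≤ (av (fun l => cj (l ^ 2 * x) * h !₂[l ^ 2 * x, l * w] 0 +
      cj (l * w) * h !₂[l ^ 2 * x, l * w] 1)).re := by
    have hcont : ContinuousOn (fun l => cj (l ^ 2 * x) * h !₂[l ^ 2 * x, l * w] 0 +
        cj (l * w) * h !₂[l ^ 2 * x, l * w] 1) (sphere 0 1) := by
      apply ContinuousOn.add
      · apply ContinuousOn.mul _ F1.contSphere
        exact (Complex.continuous_conj.comp (by fun_prop)).continuousOn
      · apply ContinuousOn.mul _ F2.contSphere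
        exact (Complex.continuous_conj.comp (by fun_prop)).continuousOn
    have h5 : (av (fun l => cj (l ^ 2 * x) * h !₂[l ^ 2 * x, l * w] 0 +
      cj (l * w) * h !₂[l ^ 2 * x, l * w] 1)).re =
      Real.circleAverage (fun l => (cj (l ^ 2 * x) * h !₂[l ^ 2 * x, l * w] 0 +
      cj (l * w) * h !₂[l ^ 2 * x, l * w] 1).re) 0 1 := by
      have := ContinuousLinearMap.circleAverage_comp_comm Complex.reCLM
        (circleIntegrable_of_cont hcont)
      exact this.symm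
    rw [h5]
    apply Real.circleAverage_nonneg_of_nonneg
    intro l hl
    apply hpos
    simpa using hl
  rw [e1] at e3
  have e6 : cj x * (x + w ^ 2 * t2 (eF h)) + cj w * w =
      ((‖x‖ ^ 2 + ‖w‖ ^ 2 : ℝ) : ℂ) + cj x * w ^ 2 * t2 (eF h) := by
    have a1 : cj x * x = ((‖x‖ ^ 2 : ℝ) : ℂ) := by
      rw [mul_comm, Complex.mul_conj, Complex.normSq_eq_norm_sq]
    have a2 : cj w * w = ((‖w‖ ^ 2 : ℝ) : ℂ) := by
      rw [mul_comm, Complex.mul_conj, Complex.normSq_eq_norm_sq]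
    rw [Complex.ofReal_add, ← a1, ← a2]
    ring
  rw [e6, Complex.add_re, Complex.ofReal_re, hxw] at e3
  exact e3

lemma cl_e2_bound (hC : Cl h) : ‖t2 (eF h)‖ ≤ 3 * √3 / 2 := by
  obtain ⟨β, hβ, hβ'⟩ := exists_unim (t2 (eF h))
  have s3 : (√3 : ℝ) ^ 2 = 3 := Real.sq_sqrt (by norm_num)
  have s3p : (0 : ℝ) < √3 := Real.sqrt_pos.2 (by norm_num)
  have s23 : (√(2 / 3) : ℝ) ^ 2 = 2 / 3 := Real.sq_sqrt (by norm_num)
  have key := cl_e2 hC (x := -(cj β) * ((√3 / 3 : ℝ) : ℂ)) (w := ((√(2 / 3) : ℝ) : ℂ)) (by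
    rw [norm_mul, norm_neg, norm_cj, hβ, Complex.norm_real, Complex.norm_real,
      Real.norm_of_nonneg (by positivity), Real.norm_of_nonneg (by positivity), s23]
    nlinarith)
  have e : cj (-(cj β) * ((√3 / 3 : ℝ) : ℂ)) * ((√(2 / 3) : ℝ) : ℂ) ^ 2 * t2 (eF h) =
      ((-(√3 / 3 * (2 / 3) * ‖t2 (eF h)‖) : ℝ) : ℂ) := by
    rw [map_mul, map_neg, Complex.conj_conj, Complex.conj_ofReal, ← Complex.ofReal_pow, s23]
    push_cast
    linear_combination (-(((√3 : ℝ) : ℂ) / 3) * (2 / 3)) * hβ'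
  rw [e, Complex.ofReal_re] at key
  nlinarith

theorem e2_bound (hM : h ∈ ClassM) : ‖t2 (eF h)‖ ≤ 3 * √3 / 2 := by
  have h1 : ∀ r : ℝ, r ∈ Ioo (0 : ℝ) 1 → r * ‖t2 (eF h)‖ ≤ 3 * √3 / 2 := by
    intro r hr
    have := cl_e2_bound (dil_cl hr.1 hr.2 hM)
    have e : eF (dil r h) = fun y => (r : ℂ)⁻¹ * eF h ((r : ℂ) * y) := by
      funext y; exact eF_dil r h y
    rw [e, t2_dil hr.1, norm_mul, Complex.norm_real, Real.norm_of_nonneg hr.1.le] at this
    exact this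
  have h2 : Tendsto (fun r : ℝ => r * ‖t2 (eF h)‖) (𝓝[<] (1 : ℝ)) (𝓝 (1 * ‖t2 (eF h)‖)) :=
    (tendsto_id.mono_left nhdsWithin_le_nhds).mul_const _
  rw [one_mul] at h2
  apply le_of_tendsto h2
  filter_upwards [Ioo_mem_left] with r hr
  exact h1 r hr

end Pool.Agent.Work.MP_620749_an
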