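import Pool.Agent.Work.MP_620749_an.HoroIneq
import Pool.Agent.Work.MP_620749_an.Dil

/-!
The coefficient `(1,1)`: the sharp bound and the extremal fields.
-/

open Set Filter Topology MeasureTheory Metric

noncomputable section

namespace Pool.Agent.Work.MP_620749_an

variable {c : ℝ} {h : E → E}

lemma WW_lt (h0 : 0 < c) (h1 : c < 1 / 2) {τ : ℂ} (hτ : ‖τ‖ < 1) : ‖WW c τ‖ < 1 := by
  have hd := dd_ne h0 h1 hτ.le
  have hdp : 0 < ‖dd c τ‖ ^ 2 := by positivity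
  have hid := norm_sq_ident c h0 h1 τ
  have e2 : ‖WW c τ‖ ^ 2 = ((1 - 2 * c) ^ 2 * ‖τ‖ ^ 2) / ‖dd c τ‖ ^ 2 := by
    unfold WW
    rw [norm_div, norm_mul, Complex.norm_real, Real.norm_of_nonneg (by linarith)]
    ring
  have h3 : 0 ≤ (sg c) ^ 2 * ‖1 - τ‖ ^ 2 := by positivity
  have hτ2 : ‖τ‖ ^ 2 < 1 := by nlinarith [norm_nonneg τ]
  have h4 : 0 < (1 - c) * (1 - 2 * c) * (1 - ‖τ‖ ^ 2) := by
    apply mul_pos (mul_pos (by linarith) (by linarith)) (by linarith)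
  have h5 : ‖WW c τ‖ ^ 2 < 1 := by
    rw [e2, div_lt_one hdp]; nlinarith
  nlinarith [norm_nonneg (WW c τ)]

lemma tendsto_mass (c : ℝ) (h : E → E) :
    Tendsto (fun r : ℝ => mass c (dil r h)) (𝓝[<] (1 : ℝ)) (𝓝 (mass c h)) := by
  unfold mass
  have h1 := (Complex.continuous_re.tendsto _).comp (tendsto_gF' h)
  exact tendsto_const_nhds.sub (tendsto_const_nhds.mul h1)

lemma massM_nonneg (h0 : 0 < c) (h1 : c < 1 / 2) (hM : h ∈ ClassM) : 0 ≤ mass c h := by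
  apply ge_of_tendsto (tendsto_mass c h)
  filter_upwards [Ioo_mem_left] with r hr
  exact mass_nonneg h0 h1 (dil_cl hr.1 hr.2 hM)

theorem ineqM_one (h0 : 0 < c) (h1 : c < 1 / 2) (hM : h ∈ ClassM) {a : ℂ} (ha : ‖a‖ < 1)
    (ha0 : a ≠ 0) :
    ‖(sg c : ℂ) * (dd c a * eF h (WW c a) / a - dd c a * eF h (WW c a) / a / a) +
      cj (-((sg c : ℂ) * (c : ℂ) * q20 h))‖ ≤ 2 * (1 / (1 - ‖a‖) * mass c h) := by
  have hW := WW_lt h0 h1 ha
  have t1 := tendsto_eF hM hW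
  have t2' : Tendsto (fun r : ℝ => q20 (dil r h)) (𝓝[<] (1 : ℝ)) (𝓝 (q20 h)) := by
    have := tendsto_ofReal_one.mul_const (q20 h)
    rw [one_mul] at this
    refine this.congr' ?_
    filter_upwards [Ioo_mem_left] with r hr
    unfold q20
    rw [← t2_dil hr.1]
    congr 1
    funext x
    rw [dil_pair, mul_zero]
  have t3 := tendsto_mass c h
  have t4 : Tendsto (fun r : ℝ => ‖(sg c : ℂ) * (dd c a * eF (dil r h) (WW c a) / a -
      dd c a * eF (dil r h) (WW c a) / a / a) +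
      cj (-((sg c : ℂ) * (c : ℂ) * q20 (dil r h)))‖) (𝓝[<] (1 : ℝ))
      (𝓝 ‖(sg c : ℂ) * (dd c a * eF h (WW c a) / a - dd c a * eF h (WW c a) / a / a) +
      cj (-((sg c : ℂ) * (c : ℂ) * q20 h))‖) := by
    have A1 : Tendsto (fun r : ℝ => dd c a * eF (dil r h) (WW c a) / a) (𝓝[<] (1 : ℝ))
        (𝓝 (dd c a * eF h (WW c a) / a)) := (t1.const_mul _).div_const a
    have A3 := (A1.sub (A1.div_const a)).const_mul (sg c : ℂ)
    have A4 : Tendsto (fun r : ℝ => cj (-((sg c : ℂ) * (c : ℂ) * q20 (dil r h)))) (𝓝[<] (1 : ℝ))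
        (𝓝 (cj (-((sg c : ℂ) * (c : ℂ) * q20 h)))) :=
      (Complex.continuous_conj.tendsto _).comp ((t2'.const_mul ((sg c : ℂ) * (c : ℂ))).neg)
    exact (A3.add A4).norm
  have t5 : Tendsto (fun r : ℝ => 2 * (1 / (1 - ‖a‖) * mass c (dil r h))) (𝓝[<] (1 : ℝ))
      (𝓝 (2 * (1 / (1 - ‖a‖) * mass c h))) :=
    tendsto_const_nhds.mul (tendsto_const_nhds.mul t3)
  apply le_of_tendsto_of_tendsto t4 t5
  filter_upwards [Ioo_mem_left] with r hr
  exact ineq_one h0 h1 (dil_cl hr.1 hr.2 hM) ha ha0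

theorem ineqM_two (h0 : 0 < c) (h1 : c < 1 / 2) (hM : h ∈ ClassM) {a : ℂ} (ha : ‖a‖ < 1)
    (ha0 : a ≠ 0) :
    ‖(sg c : ℂ) ^ 2 * ((2 - a) * gF h (WW c a) - (gF h (WW c a) - 1) / a) +
        ((1 - 2 * c : ℝ) : ℂ) * (dd c a * mF h (WW c a) / a) +
      cj ((sg c : ℂ) ^ 2 * (2 - deriv (gF h) 0 * (((1 - 2 * c : ℝ) : ℂ) / ((1 - c : ℝ) : ℂ)) - cj a) +
        ((1 - 2 * c : ℝ) : ℂ) ^ 2)‖ ≤ 2 * (1 / (1 - ‖a‖) * mass c h) := by
  have hW := WW_lt h0 h1 ha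
  have t1 := tendsto_gF hM hW
  have t2' := tendsto_mF hM hW
  have t2'' := tendsto_gF' h
  have t3 := tendsto_mass c h
  have A1 : Tendsto (fun r : ℝ => (sg c : ℂ) ^ 2 * ((2 - a) * gF (dil r h) (WW c a) -
      (gF (dil r h) (WW c a) - 1) / a)) (𝓝[<] (1 : ℝ))
      (𝓝 ((sg c : ℂ) ^ 2 * ((2 - a) * gF h (WW c a) - (gF h (WW c a) - 1) / a))) :=
    ((t1.const_mul _).sub ((t1.sub_const 1).div_const a)).const_mul _
  have A2' : Tendsto (fun r : ℝ => ((1 - 2 * c : ℝ) : ℂ) * (dd c a * mF (dil r h) (WW c a) / a))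
      (𝓝[<] (1 : ℝ)) (𝓝 (((1 - 2 * c : ℝ) : ℂ) * (dd c a * mF h (WW c a) / a))) :=
    ((t2'.const_mul _).div_const a).const_mul _
  have A3 : Tendsto (fun r : ℝ => cj ((sg c : ℂ) ^ 2 * (2 - deriv (gF (dil r h)) 0 *
      (((1 - 2 * c : ℝ) : ℂ) / ((1 - c : ℝ) : ℂ)) - cj a) + ((1 - 2 * c : ℝ) : ℂ) ^ 2))
      (𝓝[<] (1 : ℝ)) (𝓝 (cj ((sg c : ℂ) ^ 2 * (2 - deriv (gF h) 0 *
      (((1 - 2 * c : ℝ) : ℂ) / ((1 - c : ℝ) : ℂ)) - cj a) + ((1 - 2 * c : ℝ) : ℂ) ^ 2))) :=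
    (Complex.continuous_conj.tendsto _).comp
      (((((t2''.mul_const _).const_sub 2).sub_const (cj a)).const_mul _).add_const _)
  have t4 := ((A1.add A2').add A3).norm
  have t5 : Tendsto (fun r : ℝ => 2 * (1 / (1 - ‖a‖) * mass c (dil r h))) (𝓝[<] (1 : ℝ))
      (𝓝 (2 * (1 / (1 - ‖a‖) * mass c h))) :=
    tendsto_const_nhds.mul (tendsto_const_nhds.mul t3)
  apply le_of_tendsto_of_tendsto t4 t5
  filter_upwards [Ioo_mem_left] with r hr
  exact ineq_two h0 h1 (dil_cl hr.1 hr.2 hM) ha ha0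

/-- The optimal parameter. -/
def cs : ℝ := 1 - √2 / 2

lemma sqrt2_sq : (√2 : ℝ) ^ 2 = 2 := Real.sq_sqrt (by norm_num)

lemma sqrt2_lt : (√2 : ℝ) < 1.4143 := by
  rw [show (1.4143 : ℝ) = √(1.4143 ^ 2) by rw [Real.sqrt_sq (by norm_num)]]
  exact Real.sqrt_lt_sqrt (by norm_num) (by norm_num)

lemma lt_sqrt2 : (1.4142 : ℝ) < √2 := by
  rw [show (1.4142 : ℝ) = √(1.4142 ^ 2) by rw [Real.sqrt_sq (by norm_num)]]
  exact Real.sqrt_lt_sqrt (by norm_num) (by norm_num)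

/-- The sharp bound for the real part. -/
theorem re_le (hM : h ∈ ClassM) : (deriv (gF h) 0).re ≤ 2 + 2 * √2 := by
  have s1 := sqrt2_lt
  have s2 := lt_sqrt2
  have s3 := sqrt2_sq
  have hc0 : 0 < cs := by unfold cs; linarith
  have hc1 : cs < 1 / 2 := by unfold cs; linarith
  have hm := massM_nonneg hc0 hc1 hM
  unfold mass at hm
  have e1 : 1 - 2 * cs + 2 * cs ^ 2 = 2 - √2 := by unfold cs; nlinarith
  have e2 : cs * (1 - 2 * cs) = (3 * √2 - 4) / 2 := by unfold cs; nlinarith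
  rw [e1, e2] at hm
  have hp : 0 < (3 * √2 - 4) / 2 := by linarith
  have e3 : 2 - √2 = (3 * √2 - 4) / 2 * (2 + 2 * √2) := by nlinarith
  rw [e3, ← mul_sub] at hm
  nlinarith [nonneg_of_mul_nonneg_right hm hp]

/-- A function which is `O((c-c_0)^2)` has a double zero. -/
lemma double_zero {F : ℝ → ℂ} {F' : ℂ} {c0 δ C : ℝ} (hδ : 0 < δ) (hF : HasDerivAt F F' c0)
    (hb : ∀ c, |c - c0| < δ → ‖F c‖ ≤ C * (c - c0) ^ 2) : F c0 = 0 ∧ F' = 0 := by
  have h0 : F c0 = 0 := by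
    have := hb c0 (by simpa using hδ)
    simpa using this
  refine ⟨h0, ?_⟩
  have h1 : HasDerivAt F 0 c0 := by
    rw [hasDerivAt_iff_isLittleO]
    have e1 : (fun x' => F x' - F c0 - (x' - c0) • (0 : ℂ)) =O[𝓝 c0] fun x' => (x' - c0) ^ 2 := by
      apply Asymptotics.IsBigO.of_bound C
      have : ∀ᶠ x' in 𝓝 c0, |x' - c0| < δ := by
        have := Metric.ball_mem_nhds c0 hδ
        filter_upwards [this] with x hx
        rwa [← Real.dist_eq]
      filter_upwards [this] with x hx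
      rw [h0, smul_zero, sub_zero, sub_zero, Real.norm_of_nonneg (sq_nonneg _)]
      exact hb x hx
    apply e1.trans_isLittleO
    have : (fun x' : ℝ => (x' - c0) ^ 2) =o[𝓝 c0] fun x' => x' - c0 := by
      have h2 : (fun x' : ℝ => (x' - c0) * (x' - c0)) =o[𝓝 c0] fun x' => 1 * (x' - c0) := by
        apply Asymptotics.IsLittleO.mul_isBigO _ (Asymptotics.isBigO_refl _ _)
        rw [Asymptotics.isLittleO_one_iff]
        have : Tendsto (fun x' : ℝ => x' - c0) (𝓝 c0) (𝓝 (c0 - c0)) :=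
          (continuous_id.sub continuous_const).tendsto c0
        simpa using this
      simpa [sq] using h2
    exact this
  exact hF.unique h1

/-- The factor `L`. -/
def LL (c : ℝ) (w : ℂ) : ℂ := 1 - (c : ℂ) * (2 - w)
/-- The point `a` with `WW c a = w`. -/
def AA (c : ℝ) (w : ℂ) : ℂ := ((1 - c : ℝ) : ℂ) * w / LL c w

lemma bounds_c {c : ℝ} (hc : |c - cs| < 1 / 100) : 0.28 < c ∧ c < 0.31 := by
  have s1 := sqrt2_lt
  have s2 := lt_sqrt2
  rw [abs_lt] at hc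
  unfold cs at hc
  constructor <;> linarith [hc.1, hc.2]

lemma LL_norm {c : ℝ} (hc0 : 0.28 < c) (hc1 : c < 0.31) {w : ℂ} (hw : ‖w‖ < 1 / 10) :
    0.3 < ‖LL c w‖ := by
  have e : LL c w = ((1 - 2 * c : ℝ) : ℂ) + (c : ℂ) * w := by unfold LL; push_cast; ring
  rw [e]
  have h1 : ‖((1 - 2 * c : ℝ) : ℂ)‖ = 1 - 2 * c := by
    rw [Complex.norm_real, Real.norm_of_nonneg (by linarith)]
  have h2 : ‖(c : ℂ) * w‖ ≤ 0.031 := by
    rw [norm_mul, Complex.norm_real, Real.norm_of_nonneg (by linarith)]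
    nlinarith [norm_nonneg w]
  have h3 : ‖((1 - 2 * c : ℝ) : ℂ)‖ - ‖-((c : ℂ) * w)‖ ≤ ‖((1 - 2 * c : ℝ) : ℂ) - -((c : ℂ) * w)‖ :=
    norm_sub_norm_le _ _
  rw [norm_neg, sub_neg_eq_add] at h3
  linarith

lemma LL_le {c : ℝ} (hc0 : 0.28 < c) (hc1 : c < 0.31) {w : ℂ} (hw : ‖w‖ < 1 / 10) :
    ‖LL c w‖ ≤ 1 := by
  have e : LL c w = ((1 - 2 * c : ℝ) : ℂ) + (c : ℂ) * w := by unfold LL; push_cast; ring
  rw [e]
  have h1 : ‖((1 - 2 * c : ℝ) : ℂ)‖ = 1 - 2 * c := by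
    rw [Complex.norm_real, Real.norm_of_nonneg (by linarith)]
  have h2 : ‖(c : ℂ) * w‖ ≤ 0.031 := by
    rw [norm_mul, Complex.norm_real, Real.norm_of_nonneg (by linarith)]
    nlinarith [norm_nonneg w]
  have h3 := norm_add_le ((1 - 2 * c : ℝ) : ℂ) ((c : ℂ) * w)
  linarith

lemma AA_norm {c : ℝ} (hc0 : 0.28 < c) (hc1 : c < 0.31) {w : ℂ} (hw : ‖w‖ < 1 / 10) :
    ‖AA c w‖ ≤ 1 / 2 := by
  have hL := LL_norm hc0 hc1 hw
  unfold AA
  rw [norm_div, norm_mul, Complex.norm_real, Real.norm_of_nonneg (by linarith),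
    div_le_iff₀ (by linarith)]
  nlinarith [norm_nonneg w]

lemma dd_AA {c : ℝ} (hc0 : 0.28 < c) (hc1 : c < 0.31) {w : ℂ} (hw : ‖w‖ < 1 / 10) :
    dd c (AA c w) = ((1 - c : ℝ) : ℂ) * ((1 - 2 * c : ℝ) : ℂ) / LL c w := by
  have hL : LL c w ≠ 0 := by
    have := LL_norm hc0 hc1 hw
    intro h; rw [h, norm_zero] at this; linarith
  unfold dd AA
  field_simp
  unfold LL
  push_cast
  ring

lemma WW_AA {c : ℝ} (hc0 : 0.28 < c) (hc1 : c < 0.31) {w : ℂ} (hw : ‖w‖ < 1 / 10) :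
    WW c (AA c w) = w := by
  have hL : LL c w ≠ 0 := by
    have := LL_norm hc0 hc1 hw
    intro h; rw [h, norm_zero] at this; linarith
  have h1 : ((1 - c : ℝ) : ℂ) ≠ 0 := by
    rw [Complex.ofReal_ne_zero]; linarith
  have h2 : ((1 - 2 * c : ℝ) : ℂ) ≠ 0 := by
    rw [Complex.ofReal_ne_zero]; linarith
  unfold WW
  rw [dd_AA hc0 hc1 hw]
  unfold AA
  field_simp

/-- The mass in the extremal case. -/
lemma mass_ext (hg : deriv (gF h) 0 = ((2 + 2 * √2 : ℝ) : ℂ)) (c : ℝ) :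
    mass c h = 2 * (3 + 2 * √2) * (c - cs) ^ 2 := by
  unfold mass
  rw [hg, Complex.ofReal_re]
  unfold cs
  have s3 := sqrt2_sq
  have s4 : (√2 : ℝ) ^ 3 = 2 * √2 := by rw [pow_succ, s3]
  ring_nf
  rw [s4, s3]
  ring

/-- In the extremal case `h_1(0,w) = 0`. -/
theorem e_zero (hM : h ∈ ClassM) (hg : deriv (gF h) 0 = ((2 + 2 * √2 : ℝ) : ℂ)) {w : ℂ}
    (hw : ‖w‖ < 1 / 10) : eF h w = 0 := by
  by_cases hw0 : w = 0
  · rw [hw0, eF_zero hM]
  set X : ℂ := (1 - w) * eF h w / w ^ 2 with hX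
  set Y : ℂ := cj (q20 h) with hY
  set F : ℝ → ℂ := fun c => (1 - 2 * (c : ℂ)) ^ 2 * X + (c : ℂ) * (1 - (c : ℂ)) * Y with hF
  have s1 := sqrt2_lt
  have s2 := lt_sqrt2
  have hder : HasDerivAt F (2 * (1 - 2 * (cs : ℂ)) * (-2) * X + (1 - 2 * (cs : ℂ)) * Y) cs := by
    have e0 : HasDerivAt (fun c : ℝ => (c : ℂ)) 1 cs := Complex.ofRealCLM.hasDerivAt
    have e1 : HasDerivAt (fun c : ℝ => 1 - 2 * (c : ℂ)) (-2) cs := by
      simpa using (e0.const_mul 2).const_sub 1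
    have e2 := ((e1.fun_pow 2).mul_const X)
    have e3 : HasDerivAt (fun c : ℝ => 1 - (c : ℂ)) (-1) cs := by
      simpa using e0.const_sub 1
    have e4 := (e0.fun_mul e3).mul_const Y
    have e5 := e2.fun_add e4
    have e6 : 2 * (1 - 2 * (cs : ℂ)) * (-2) * X + (1 - 2 * (cs : ℂ)) * Y =
        ((2 : ℕ) : ℂ) * (1 - 2 * (cs : ℂ)) ^ (2 - 1) * (-2) * X +
          (1 * (1 - (cs : ℂ)) + (cs : ℂ) * (-1)) * Y := by
      push_cast
      ring
    rw [e6]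
    exact e5
  have hb : ∀ c, |c - cs| < 1 / 100 → ‖F c‖ ≤ 100 * (c - cs) ^ 2 := by
    intro c hc
    obtain ⟨hc0, hc1⟩ := bounds_c hc
    have k0 : 0 < c := by linarith
    have k1 : c < 1 / 2 := by linarith
    have hA := AA_norm hc0 hc1 hw
    have hL := LL_norm hc0 hc1 hw
    have hLne : LL c w ≠ 0 := by
      intro h; rw [h, norm_zero] at hL; linarith
    have n1 : ((1 - c : ℝ) : ℂ) ≠ 0 := by
      rw [Complex.ofReal_ne_zero]; linarith
    have n2 : ((1 - 2 * c : ℝ) : ℂ) ≠ 0 := by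
      rw [Complex.ofReal_ne_zero]; linarith
    have hA0 : AA c w ≠ 0 := by
      unfold AA; exact div_ne_zero (mul_ne_zero n1 hw0) hLne
    have key := ineqM_one k0 k1 hM (a := AA c w) (by linarith) hA0
    rw [WW_AA hc0 hc1 hw, dd_AA hc0 hc1 hw, mass_ext hg] at key
    have e1 : (sg c : ℂ) * (((1 - c : ℝ) : ℂ) * ((1 - 2 * c : ℝ) : ℂ) / LL c w * eF h w / AA c w -
        ((1 - c : ℝ) : ℂ) * ((1 - 2 * c : ℝ) : ℂ) / LL c w * eF h w / AA c w / AA c w) +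
        cj (-((sg c : ℂ) * (c : ℂ) * q20 h)) = -((sg c : ℂ) / ((1 - c : ℝ) : ℂ)) * F c := by
      rw [map_neg, map_mul, map_mul, Complex.conj_ofReal, Complex.conj_ofReal, ← hY]
      simp only [hF, hX]
      unfold AA
      field_simp
      unfold LL
      push_cast
      ring
    rw [e1, norm_mul, norm_neg, norm_div, Complex.norm_real, Complex.norm_real,
      Real.norm_of_nonneg (sg_pos k0 k1).le, Real.norm_of_nonneg (by linarith)] at key
    have e2 : 1 / (1 - ‖AA c w‖) ≤ 2 := by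
      rw [div_le_iff₀ (by linarith)]; linarith
    have e3 : 1 / 2 ≤ sg c / (1 - c) := by
      rw [le_div_iff₀ (by linarith)]
      have : ((1 : ℝ) / 2 * (1 - c)) ^ 2 ≤ sg c ^ 2 := by
        rw [sg_sq k0 k1]; nlinarith
      exact le_of_sq_le_sq this (sg_pos k0 k1).le
    have e4 : 0 ≤ 2 * (3 + 2 * √2) * (c - cs) ^ 2 := by positivity
    have e5 : 1 / 2 * ‖F c‖ ≤ sg c / (1 - c) * ‖F c‖ :=
      mul_le_mul_of_nonneg_right e3 (norm_nonneg _)
    have e6 : 1 / (1 - ‖AA c w‖) * (2 * (3 + 2 * √2) * (c - cs) ^ 2) ≤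
        2 * (2 * (3 + 2 * √2) * (c - cs) ^ 2) := mul_le_mul_of_nonneg_right e2 e4
    nlinarith [sq_nonneg (c - cs)]
  obtain ⟨r1, r2⟩ := double_zero (by norm_num : (0 : ℝ) < 1 / 100) hder hb
  have n2 : (1 - 2 * (cs : ℂ)) ≠ 0 := by
    have : ((1 - 2 * cs : ℝ) : ℂ) ≠ 0 := by
      rw [Complex.ofReal_ne_zero]; unfold cs; linarith
    intro h; apply this; push_cast; exact h
  have hYX : Y = 4 * X := by
    have : (1 - 2 * (cs : ℂ)) * (Y - 4 * X) = 0 := by linear_combination r2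
    rcases mul_eq_zero.1 this with h | h
    · exact absurd h n2
    · linear_combination h
  have hX0 : X = 0 := by
    simp only [hF] at r1
    rw [hYX] at r1
    linear_combination r1
  have hw1 : (1 - w) ≠ 0 := by
    intro h
    have : w = 1 := by linear_combination -h
    rw [this] at hw; norm_num at hw
  rw [hX, div_eq_zero_iff] at hX0
  rcases hX0 with h | h
  · rcases mul_eq_zero.1 h with h' | h'
    · exact absurd h' hw1
    · exact h'
  · exact absurd h (pow_ne_zero 2 hw0)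

/-- In the extremal case `h_2(0,w) = w (1-w)`. -/
theorem m_form (hM : h ∈ ClassM) (hg : deriv (gF h) 0 = ((2 + 2 * √2 : ℝ) : ℂ)) {w : ℂ}
    (hw : ‖w‖ < 1 / 10) : mF h w = w * (1 - w) := by
  by_cases hw0 : w = 0
  · rw [hw0, mF_zero hM]; ring
  have hw1 : (1 - w) ≠ 0 := by
    intro h
    have : w = 1 := by linear_combination -h
    rw [this] at hw; norm_num at hw
  set R : ℂ := ((2 + 2 * √2 : ℝ) : ℂ) with hR
  set dg : ℂ := gF h w - (1 - w + (R + 1) * w / (1 - w)) with hdg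
  set dk : ℂ := mF h w / w - (1 - w) with hdk
  set F : ℝ → ℂ := fun c => -(c : ℂ) * ((1 - w) ^ 2 / w) * dg + (1 - (c : ℂ) * (2 - w)) * dk with hF
  have s1 := sqrt2_lt
  have s2 := lt_sqrt2
  have hder : HasDerivAt F (-((1 - w) ^ 2 / w) * dg - (2 - w) * dk) cs := by
    have e0 : HasDerivAt (fun c : ℝ => (c : ℂ)) 1 cs := Complex.ofRealCLM.hasDerivAt
    have e1 := ((e0.fun_neg.mul_const ((1 - w) ^ 2 / w)).mul_const dg)
    have e2 := ((e0.mul_const (2 - w)).const_sub 1).mul_const dk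
    have e3 := e1.fun_add e2
    have e4 : -((1 - w) ^ 2 / w) * dg - (2 - w) * dk =
        -1 * ((1 - w) ^ 2 / w) * dg + -(1 * (2 - w)) * dk := by ring
    rw [e4]
    exact e3
  have hb : ∀ c, |c - cs| < 1 / 100 → ‖F c‖ ≤ 600 * (c - cs) ^ 2 := by
    intro c hc
    obtain ⟨hc0, hc1⟩ := bounds_c hc
    have k0 : 0 < c := by linarith
    have k1 : c < 1 / 2 := by linarith
    have hA := AA_norm hc0 hc1 hw
    have hL := LL_norm hc0 hc1 hw
    have hL1 := LL_le hc0 hc1 hw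
    have hLne : LL c w ≠ 0 := by
      intro h; rw [h, norm_zero] at hL; linarith
    have n1 : ((1 - c : ℝ) : ℂ) ≠ 0 := by
      rw [Complex.ofReal_ne_zero]; linarith
    have n2 : ((1 - 2 * c : ℝ) : ℂ) ≠ 0 := by
      rw [Complex.ofReal_ne_zero]; linarith
    have hA0 : AA c w ≠ 0 := by
      unfold AA; exact div_ne_zero (mul_ne_zero n1 hw0) hLne
    have key := ineqM_two k0 k1 hM (a := AA c w) (by linarith) hA0
    have hmass := mass_ext hg c
    have hmass2 : ((mass c h : ℝ) : ℂ) = 1 - 2 * (c : ℂ) + 2 * (c : ℂ) ^ 2 -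
        (c : ℂ) * (1 - 2 * (c : ℂ)) * R := by
      unfold mass
      rw [hg, Complex.ofReal_re]
      push_cast
      rw [hR]
      push_cast
      ring
    rw [WW_AA hc0 hc1 hw, dd_AA hc0 hc1 hw, hg] at key
    set S : ℂ := (sg c : ℂ) ^ 2 * ((2 - AA c w) * gF h w - (gF h w - 1) / AA c w) +
      ((1 - 2 * c : ℝ) : ℂ) * (((1 - c : ℝ) : ℂ) * ((1 - 2 * c : ℝ) : ℂ) / LL c w * mF h w /
        AA c w) + cj ((sg c : ℂ) ^ 2 * (2 - R * (((1 - 2 * c : ℝ) : ℂ) / ((1 - c : ℝ) : ℂ)) -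
        cj (AA c w)) + ((1 - 2 * c : ℝ) : ℂ) ^ 2) with hS
    have e0 : (sg c : ℂ) ^ 2 = (c : ℂ) * (1 - (c : ℂ)) := by
      have := sg_sq k0 k1
      exact_mod_cast this
    have e1 : S * LL c w = (1 - 2 * (c : ℂ)) ^ 2 * F c + ((mass c h : ℝ) : ℂ) *
        (2 * (1 - 2 * (c : ℂ)) - (1 - 3 * (c : ℂ)) * w) := by
      rw [hmass2, hS]
      simp only [map_add, map_mul, map_pow, map_sub, Complex.conj_conj, Complex.conj_ofReal,
        map_div₀, map_ofNat, hR]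
      rw [← hR, e0]
      simp only [hF, hdg, hdk]
      have n1' : (1 - (c : ℂ)) ≠ 0 := by simpa using n1
      unfold AA
      push_cast
      field_simp
      unfold LL
      ring
    have m0 : 0 ≤ mass c h := by rw [hmass]; positivity
    have e2 : 1 / (1 - ‖AA c w‖) ≤ 2 := by
      rw [div_le_iff₀ (by linarith)]; linarith
    have e3 : ‖S‖ ≤ 4 * mass c h := by
      refine key.trans ?_
      have := mul_le_mul_of_nonneg_right e2 m0
      linarith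
    have e4 : ‖(2 * (1 - 2 * (c : ℂ)) - (1 - 3 * (c : ℂ)) * w)‖ ≤ 2 := by
      have a1 : ‖(2 * (1 - 2 * (c : ℂ)))‖ = 2 * (1 - 2 * c) := by
        have : (2 * (1 - 2 * (c : ℂ))) = ((2 * (1 - 2 * c) : ℝ) : ℂ) := by push_cast; ring
        rw [this, Complex.norm_real, Real.norm_of_nonneg (by linarith)]
      have a2 : ‖(1 - 3 * (c : ℂ)) * w‖ ≤ 0.1 := by
        have : (1 - 3 * (c : ℂ)) = ((1 - 3 * c : ℝ) : ℂ) := by push_cast; ring
        rw [this, norm_mul, Complex.norm_real, Real.norm_of_nonneg (by linarith)]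
        nlinarith [norm_nonneg w]
      have := norm_sub_le (2 * (1 - 2 * (c : ℂ))) ((1 - 3 * (c : ℂ)) * w)
      linarith
    have e5 : ‖(1 - 2 * (c : ℂ)) ^ 2 * F c‖ ≤ 6 * mass c h := by
      have : (1 - 2 * (c : ℂ)) ^ 2 * F c = S * LL c w - ((mass c h : ℝ) : ℂ) *
        (2 * (1 - 2 * (c : ℂ)) - (1 - 3 * (c : ℂ)) * w) := by rw [e1]; ring
      rw [this]
      refine (norm_sub_le _ _).trans ?_
      rw [norm_mul, norm_mul, Complex.norm_real, Real.norm_of_nonneg m0]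
      have b1 : ‖S‖ * ‖LL c w‖ ≤ 4 * mass c h * 1 :=
        mul_le_mul e3 hL1 (norm_nonneg _) (by positivity)
      have b2 := mul_le_mul_of_nonneg_left e4 m0
      linarith
    have e6 : ‖(1 - 2 * (c : ℂ)) ^ 2 * F c‖ = (1 - 2 * c) ^ 2 * ‖F c‖ := by
      have : (1 - 2 * (c : ℂ)) = ((1 - 2 * c : ℝ) : ℂ) := by push_cast; ring
      rw [this, norm_mul, norm_pow, Complex.norm_real, Real.norm_of_nonneg (by linarith)]
    rw [e6, hmass] at e5
    have e7 : (0.14 : ℝ) ≤ (1 - 2 * c) ^ 2 := by nlinarith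
    have e8 := mul_le_mul_of_nonneg_right e7 (norm_nonneg (F c))
    nlinarith [sq_nonneg (c - cs)]
  obtain ⟨r1, r2⟩ := double_zero (by norm_num : (0 : ℝ) < 1 / 100) hder hb
  have hdk0 : dk = 0 := by
    simp only [hF] at r1
    linear_combination r1 - (cs : ℂ) * r2
  have : mF h w / w = 1 - w := by rw [hdk] at hdk0; linear_combination hdk0
  rw [div_eq_iff hw0] at this
  rw [this]; ring

end Pool.Agent.Work.MP_620749_an
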