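import Pool.Agent.Work.MP_620749_an.Vec

/-!
Growth of the maps in the class `M`, and one-variable slices of functions on the ball of C^2.
-/

open Set Filter Topology MeasureTheory Metric

noncomputable section

namespace Pool.Agent.Work.MP_620749_an

lemma slice_bound {h : E → E} (hM : h ∈ ClassM) {z : E} (hz : ‖z‖ ≤ 3 / 4) :
    ‖(inner ℂ z (h z) : ℂ)‖ ≤ 13 * ‖z‖ ^ 2 := by
  obtain ⟨hd, h0, hf, hp⟩ := hM
  rcases eq_or_ne z 0 with rfl | hne
  · simp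
  have hzn : 0 < ‖z‖ := norm_pos_iff.2 hne
  obtain ⟨r, hr⟩ : ∃ r : ℝ, r = ‖z‖ := ⟨_, rfl⟩
  rw [← hr] at hzn hz ⊢
  obtain ⟨u, hu⟩ : ∃ u : E, u = ((r⁻¹ : ℝ) : ℂ) • z := ⟨_, rfl⟩
  have hu1 : ‖u‖ = 1 := by
    rw [hu, norm_smul, Complex.norm_real, norm_inv, Real.norm_of_nonneg hzn.le, ← hr]
    field_simp
  have hzu : z = (r : ℂ) • u := by
    rw [hu, smul_smul, ← Complex.ofReal_mul, mul_inv_cancel₀ hzn.ne', Complex.ofReal_one, one_smul]
  obtain ⟨φ, hφ⟩ : ∃ φ : ℂ → ℂ, φ = fun ζ => inner ℂ u (h (ζ • u)) := ⟨_, rfl⟩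
  have hmaps : MapsTo (fun ζ : ℂ => ζ • u) (ball (0 : ℂ) 1) B := by
    intro ζ hζ
    rw [mem_ball_zero_iff, norm_smul, hu1, mul_one]
    simpa using hζ
  have hφd : DifferentiableOn ℂ φ (ball 0 1) := by
    have h1 : DifferentiableOn ℂ (fun ζ : ℂ => h (ζ • u)) (ball 0 1) :=
      hd.comp (by fun_prop) hmaps
    have := (innerSL ℂ u).differentiable.comp_differentiableOn h1
    rw [hφ]
    exact this
  have hφ0 : φ 0 = 0 := by simp [hφ, h0]
  have hB0 : B ∈ 𝓝 (0 : E) := ball_mem_nhds _ one_pos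
  have hφ' : HasDerivAt φ 1 0 := by
    have h1 : HasFDerivAt h (ContinuousLinearMap.id ℂ E) ((0 : ℂ) • u) := by
      rw [zero_smul, ← hf]
      exact (hd.differentiableAt hB0).hasFDerivAt
    have h2 : HasDerivAt (fun ζ : ℂ => ζ • u) ((1 : ℂ) • u) 0 := (hasDerivAt_id 0).smul_const u
    have h3 := h1.comp_hasDerivAt (0 : ℂ) h2
    have h4 := ((innerSL ℂ u).hasFDerivAt (x := h ((0 : ℂ) • u))).comp_hasDerivAt (0 : ℂ) h3
    have e : (innerSL ℂ u) ((ContinuousLinearMap.id ℂ E) ((1 : ℂ) • u)) = 1 := by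
      simp only [one_smul, ContinuousLinearMap.coe_id', id_eq, innerSL_apply_apply]
      rw [inner_self_eq_norm_sq_to_K, hu1]; norm_num
    rw [e] at h4
    rw [hφ]
    exact h4
  have hinner : ∀ ζ : ℂ, inner ℂ (ζ • u) (h (ζ • u)) = (starRingEnd ℂ) ζ * φ ζ := by
    intro ζ
    rw [inner_smul_left, hφ]
  have hb : ball (0 : ℂ) 1 ∈ 𝓝 (0 : ℂ) := ball_mem_nhds _ one_pos
  obtain ⟨p, hpp⟩ : ∃ p : ℂ → ℂ, p = dslope φ 0 := ⟨_, rfl⟩
  have hpd : DifferentiableOn ℂ p (ball 0 1) := by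
    rw [hpp]; exact (Complex.differentiableOn_dslope hb).2 hφd
  have hp0 : p 0 = 1 := by rw [hpp, dslope_same, hφ'.deriv]
  have hpne : ∀ ζ : ℂ, ζ ≠ 0 → ζ * p ζ = φ ζ := by
    intro ζ hζ
    rw [hpp, dslope_of_ne _ hζ, slope_def_field, hφ0]
    field_simp
    ring
  have hre : MapsTo (fun ζ => -p ζ) (ball (0 : ℂ) 1) {ζ | ζ.re ≤ 1} := by
    intro ζ hζ
    show (-p ζ).re ≤ 1
    rcases eq_or_ne ζ 0 with rfl | hζ0
    · rw [hp0]; norm_num
    · have h1 := hp (ζ • u) (hmaps hζ) (by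
        rw [Ne, smul_eq_zero, not_or]
        refine ⟨hζ0, ?_⟩
        intro h; rw [h, norm_zero] at hu1; norm_num at hu1)
      rw [hinner, ← hpne ζ hζ0, ← mul_assoc] at h1
      have e : (starRingEnd ℂ) ζ * ζ = ((‖ζ‖ ^ 2 : ℝ) : ℂ) := by
        rw [mul_comm, Complex.mul_conj, Complex.normSq_eq_norm_sq]
      rw [e, Complex.re_ofReal_mul] at h1
      have h2 : 0 < ‖ζ‖ ^ 2 := by positivity
      have h3 : 0 < (p ζ).re := (pos_iff_pos_of_mul_pos h1).1 h2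
      rw [Complex.neg_re]; linarith
  have hrm : (r : ℂ) ∈ ball (0 : ℂ) 1 := by
    rw [mem_ball_zero_iff, Complex.norm_real, Real.norm_of_nonneg hzn.le]; linarith
  have key := Complex.borelCaratheodory (f := fun ζ => -p ζ) (M := 1) one_pos hpd.neg hre one_pos hrm
  rw [norm_neg, norm_neg, hp0, norm_one, Complex.norm_real, Real.norm_of_nonneg hzn.le] at key
  have key2 : ‖p r‖ ≤ 13 := by
    refine key.trans ?_
    have : 0 < 1 - r := by linarith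
    rw [← add_div, div_le_iff₀ this]
    linarith
  rw [hzu, hinner, Complex.conj_ofReal, ← hpne _ (by exact_mod_cast hzn.ne'), norm_mul, norm_mul,
    Complex.norm_real, Real.norm_of_nonneg hzn.le]
  nlinarith [mul_nonneg hzn.le hzn.le]

lemma norm_h_le {h : E → E} (hM : h ∈ ClassM) {z : E} (hz : ‖z‖ < 1 / 2) : ‖h z‖ ≤ 30 := by
  rcases eq_or_ne (h z) 0 with h0 | hne
  · rw [h0]; norm_num
  obtain ⟨R, hR⟩ : ∃ R : ℝ, R = ‖h z‖ := ⟨_, rfl⟩
  have hRp : 0 < R := by rw [hR]; exact norm_pos_iff.2 hne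
  obtain ⟨v, hv⟩ : ∃ v : E, v = ((R⁻¹ : ℝ) : ℂ) • h z := ⟨_, rfl⟩
  have hv1 : ‖v‖ = 1 := by
    rw [hv, norm_smul, Complex.norm_real, norm_inv, Real.norm_of_nonneg hRp.le, ← hR]
    field_simp
  have hvi : inner ℂ v (h z) = (R : ℂ) := by
    rw [hv, inner_smul_left, Complex.conj_ofReal, inner_self_eq_norm_sq_to_K, ← hR]
    have hRc : (R : ℂ) ≠ 0 := by exact_mod_cast hRp.ne'
    push_cast
    field_simp
    rfl
  obtain ⟨c, hc⟩ : ∃ c : ℂ → E, c = fun τ : ℂ => z + (τ / 4) • v := ⟨_, rfl⟩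
  have hcn : ∀ τ : ℂ, ‖τ‖ ≤ 1 → ‖c τ‖ ≤ 3 / 4 := by
    intro τ hτ
    rw [hc]
    refine (norm_add_le _ _).trans ?_
    rw [norm_smul, hv1, mul_one, norm_div]
    have : ‖(4 : ℂ)‖ = 4 := by norm_num
    rw [this]
    linarith
  have hcd : Differentiable ℂ c := by rw [hc]; fun_prop
  obtain ⟨G, hG⟩ : ∃ G : ℂ → ℂ, G = fun τ : ℂ => τ * inner ℂ z (h (c τ)) + 4⁻¹ * inner ℂ v (h (c τ)) :=
    ⟨_, rfl⟩
  have hGd : DifferentiableOn ℂ G (closure (ball (0 : ℂ) 1)) := by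
    rw [closure_ball _ one_ne_zero]
    have h1 : DifferentiableOn ℂ (fun τ => h (c τ)) (closedBall (0 : ℂ) 1) := by
      apply hM.1.comp hcd.differentiableOn
      intro τ hτ
      have := hcn τ (by simpa using hτ)
      rw [mem_ball_zero_iff]; linarith
    have h2 : DifferentiableOn ℂ (fun τ => inner ℂ z (h (c τ))) (closedBall (0 : ℂ) 1) :=
      (innerSL ℂ z).differentiable.comp_differentiableOn h1
    have h3 : DifferentiableOn ℂ (fun τ => inner ℂ v (h (c τ))) (closedBall (0 : ℂ) 1) :=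
      (innerSL ℂ v).differentiable.comp_differentiableOn h1
    rw [hG]
    exact (differentiableOn_id.mul h2).add (h3.const_mul _)
  have hGb : ∀ τ ∈ frontier (ball (0 : ℂ) 1), ‖G τ‖ ≤ 13 * (3 / 4) ^ 2 := by
    intro τ hτ
    rw [frontier_ball _ one_ne_zero] at hτ
    have hτ1 : ‖τ‖ = 1 := by simpa using hτ
    have hcc : (starRingEnd ℂ) τ * τ = 1 := by
      rw [mul_comm, Complex.mul_conj, Complex.normSq_eq_norm_sq, hτ1]; norm_num
    have e : G τ = τ * inner ℂ (c τ) (h (c τ)) := by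
      have e1 : inner ℂ (c τ) (h (c τ)) = inner ℂ z (h (c τ)) +
          (starRingEnd ℂ) (τ / 4) * inner ℂ v (h (c τ)) := by
        conv_lhs => rw [show c τ = z + (τ / 4) • v by rw [hc]]
        rw [inner_add_left, inner_smul_left]
        rw [show z + (τ / 4) • v = c τ by rw [hc]]
      rw [e1, hG]
      simp only [map_div₀, map_ofNat]
      linear_combination -(1 / 4 : ℂ) * inner ℂ v (h (c τ)) * hcc
    rw [e, norm_mul, hτ1, one_mul]
    have h1 := hcn τ hτ1.le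
    refine (slice_bound hM h1).trans ?_
    have : ‖c τ‖ ^ 2 ≤ (3 / 4) ^ 2 := by gcongr
    linarith
  have key := Complex.norm_le_of_forall_mem_frontier_norm_le isBounded_ball hGd.diffContOnCl hGb
    (z := 0) (by rw [closure_ball _ one_ne_zero]; simp)
  have e0 : G 0 = 4⁻¹ * R := by
    rw [hG]
    simp only [zero_mul, zero_add]
    rw [show c 0 = z by rw [hc]; simp, hvi]
  rw [e0, norm_mul, Complex.norm_real, Real.norm_of_nonneg hRp.le] at key
  have : ‖(4 : ℂ)⁻¹‖ = 4⁻¹ := by norm_num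
  rw [this] at key
  rw [← hR]
  linarith

lemma growth_aux {h : E → E} (hM : h ∈ ClassM) {z : E} (hz : ‖z‖ < 1 / 2) :
    ‖h z - z‖ ≤ 124 * ‖z‖ ^ 2 := by
  have hB0 : B ∈ 𝓝 (0 : E) := ball_mem_nhds _ one_pos
  obtain ⟨g, hg⟩ : ∃ g : E → E, g = fun z => h z - z := ⟨_, rfl⟩
  have hsub : ball (0 : E) (1 / 2) ⊆ B := ball_subset_ball (by norm_num)
  have hgd : DifferentiableOn ℂ g (ball 0 (1 / 2)) := by
    rw [hg]; exact (hM.1.mono hsub).sub differentiableOn_id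
  have hg0 : g 0 = 0 := by rw [hg]; simp [hM.2.1]
  have hmaps : MapsTo g (ball 0 (1 / 2)) (closedBall (g 0) 31) := by
    intro w hw
    have hw' : ‖w‖ < 1 / 2 := by simpa using hw
    rw [hg0, mem_closedBall_zero_iff, hg]
    refine (norm_sub_le _ _).trans ?_
    linarith [norm_h_le hM hw']
  have hlo : (fun w => g w - g 0) =o[𝓝 0] (fun w => ‖w - 0‖ ^ 1) := by
    have h1 : HasFDerivAt g (0 : E →L[ℂ] E) 0 := by
      have h2 : HasFDerivAt h (ContinuousLinearMap.id ℂ E) 0 := by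
        rw [← hM.2.2.1]
        exact (hM.1.differentiableAt hB0).hasFDerivAt
      have h3 := h2.sub (hasFDerivAt_id (0 : E))
      rw [hg]
      have e : ContinuousLinearMap.id ℂ E - ContinuousLinearMap.id ℂ E = 0 := sub_self _
      rw [e] at h3
      exact h3
    have h4 := h1.isLittleO
    simp only [zero_apply, sub_zero] at h4
    simp only [pow_one, sub_zero]
    exact h4.norm_right
  have key := Complex.dist_le_mul_div_pow_of_mapsTo_ball_of_isLittleO (n := 1) hgd hmaps hlo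
    (z := z) (by simpa using hz)
  rw [hg0, dist_zero_right, dist_zero_right, hg] at key
  refine key.trans (le_of_eq ?_)
  ring

theorem growth : ∃ C : ℝ, 0 < C ∧ ∀ h ∈ ClassM, ∀ z : E, ‖z‖ < 1 / 2 →
    ‖h z - z‖ ≤ C * ‖z‖ ^ 2 :=
  ⟨124, by norm_num, fun _ hM _ hz => growth_aux hM hz⟩

theorem lip : ∃ C : ℝ, 0 < C ∧ ∀ h ∈ ClassM, ∀ s : ℝ, 0 < s → s < 1 / 8 → ∀ z w : E,
    ‖z‖ ≤ s → ‖w‖ ≤ s → ‖(h z - z) - (h w - w)‖ ≤ C * s * ‖z - w‖ := by
  refine ⟨992, by norm_num, fun h hM s hs hs8 z w hz hw => ?_⟩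
  obtain ⟨g, hg⟩ : ∃ g : E → E, g = fun z => h z - z := ⟨_, rfl⟩
  have hgd : DifferentiableOn ℂ g B := by
    rw [hg]; exact hM.1.sub differentiableOn_id
  have hgn : ∀ a : E, ‖a‖ < 2 * s → ‖g a‖ ≤ 124 * (2 * s) ^ 2 := by
    intro a ha
    rw [hg]
    refine (growth_aux hM (by linarith)).trans ?_
    have : ‖a‖ ^ 2 ≤ (2 * s) ^ 2 := by gcongr
    linarith
  have hfd : ∀ a ∈ closedBall (0 : E) s, ‖fderiv ℂ g a‖ ≤ 992 * s := by
    intro a ha
    have ha' : ‖a‖ ≤ s := by simpa using ha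
    have hsub : ball a s ⊆ B := by
      intro b hb
      rw [mem_ball_iff_norm] at hb
      rw [mem_ball_zero_iff]
      have : ‖b‖ ≤ ‖b - a‖ + ‖a‖ := by simpa using norm_add_le (b - a) a
      linarith
    have hmaps : MapsTo g (ball a s) (closedBall (g a) (992 * s ^ 2)) := by
      intro b hb
      rw [mem_ball_iff_norm] at hb
      have hb2 : ‖b‖ < 2 * s := by
        have : ‖b‖ ≤ ‖b - a‖ + ‖a‖ := by simpa using norm_add_le (b - a) a
        linarith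
      rw [mem_closedBall_iff_norm]
      refine (norm_sub_le _ _).trans ?_
      have h1 := hgn b hb2
      have h2 := hgn a (by linarith)
      nlinarith
    have := Complex.norm_fderiv_le_div_of_mapsTo_ball (hgd.mono hsub) hmaps hs
    refine this.trans (le_of_eq ?_)
    field_simp
  have key := (convex_closedBall (0 : E) s).norm_image_sub_le_of_norm_fderiv_le (𝕜 := ℂ) (f := g)
    (C := 992 * s) (x := w) (y := z) ?_ hfd (by simpa using hw) (by simpa using hz)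
  · rw [hg] at key
    exact key
  · intro a ha
    apply hgd.differentiableAt
    apply isOpen_ball.mem_nhds
    rw [mem_ball_zero_iff]
    have : ‖a‖ ≤ s := by simpa using ha
    linarith

lemma loc_bound {F : E → ℂ} {r : ℝ} (hF : DifferentiableOn ℂ F (ball 0 r)) {y0 : ℂ}
    (hy : ‖y0‖ < r) :
    ∃ δ : ℝ, 0 < δ ∧ ∃ M : ℝ, 0 ≤ M ∧ ∀ x y : ℂ, ‖x‖ < δ → ‖y - y0‖ < δ →
      (!₂[x, y] : E) ∈ ball (0 : E) r ∧ ‖F !₂[x, y]‖ ≤ M := by
  have hr : 0 < r := (norm_nonneg y0).trans_lt hy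
  have hmem : (!₂[(0 : ℂ), y0] : E) ∈ ball (0 : E) r := by
    rw [pair_mem_ball hr.le, norm_zero]
    nlinarith [norm_nonneg y0]
  have hc : ContinuousAt F (!₂[(0 : ℂ), y0] : E) :=
    (hF.differentiableAt (isOpen_ball.mem_nhds hmem)).continuousAt
  have hpc : Continuous (fun p : ℂ × ℂ => (!₂[p.1, p.2] : E)) :=
    continuous_pair continuous_fst continuous_snd
  have ev1 : ∀ᶠ p : ℂ × ℂ in 𝓝 (0, y0), (!₂[p.1, p.2] : E) ∈ ball (0 : E) r :=
    hpc.continuousAt.preimage_mem_nhds (isOpen_ball.mem_nhds hmem)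
  have ev2 : ∀ᶠ p : ℂ × ℂ in 𝓝 (0, y0), ‖F !₂[p.1, p.2]‖ < ‖F !₂[(0 : ℂ), y0]‖ + 1 := by
    have h1 : ContinuousAt (fun p : ℂ × ℂ => ‖F !₂[p.1, p.2]‖) (0, y0) := by
      have : ContinuousAt (fun p : ℂ × ℂ => F !₂[p.1, p.2]) (0, y0) :=
        ContinuousAt.comp (g := F) (f := fun p : ℂ × ℂ => (!₂[p.1, p.2] : E)) hc hpc.continuousAt
      exact this.norm
    exact h1.eventually_lt_const (lt_add_one _)
  obtain ⟨δ, hδ, hball⟩ := Metric.eventually_nhds_iff_ball.1 (ev1.and ev2)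
  refine ⟨δ, hδ, ‖F !₂[(0 : ℂ), y0]‖ + 1, by positivity, fun x y hx hy' => ?_⟩
  have := hball (x, y) (by
    rw [mem_ball, Prod.dist_eq]
    apply max_lt
    · simpa using hx
    · simpa [dist_eq_norm] using hy')
  exact ⟨this.1, this.2.le⟩

lemma second_order {f : ℂ → ℂ} {δ M : ℝ} (hδ : 0 < δ) (hf : DifferentiableOn ℂ f (ball 0 δ))
    (hM : ∀ x ∈ ball (0 : ℂ) δ, ‖f x‖ ≤ M) {x : ℂ} (hx : ‖x‖ < δ) :
    ‖f x - f 0 - x * deriv f 0‖ ≤ 4 * M * (‖x‖ / δ) ^ 2 := by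
  have h00 : (0 : ℂ) ∈ ball (0 : ℂ) δ := mem_ball_self hδ
  have hd : ‖deriv f 0‖ ≤ 2 * M / δ := by
    apply Complex.norm_deriv_le_div_of_mapsTo_ball hf _ hδ
    intro y hy
    rw [mem_closedBall_iff_norm]
    refine (norm_sub_le _ _).trans ?_
    linarith [hM y hy, hM 0 h00]
  obtain ⟨φ, hφ⟩ : ∃ φ : ℂ → ℂ, φ = fun x => f x - f 0 - x * deriv f 0 := ⟨_, rfl⟩
  have hφ0 : φ 0 = 0 := by rw [hφ]; simp
  have hφd : DifferentiableOn ℂ φ (ball 0 δ) := by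
    rw [hφ]
    exact (hf.sub_const _).sub (differentiableOn_id.mul_const _)
  have hmaps : MapsTo φ (ball 0 δ) (closedBall (φ 0) (4 * M)) := by
    intro y hy
    have hy' : ‖y‖ < δ := by simpa using hy
    rw [hφ0, mem_closedBall_zero_iff, hφ]
    have h1 : ‖f y - f 0 - y * deriv f 0‖ ≤ ‖f y‖ + ‖f 0‖ + ‖y‖ * ‖deriv f 0‖ := by
      refine (norm_sub_le _ _).trans ?_
      rw [norm_mul]
      gcongr
      exact norm_sub_le _ _
    refine h1.trans ?_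
    have h2 : ‖y‖ * ‖deriv f 0‖ ≤ δ * (2 * M / δ) := by gcongr
    have h3 : δ * (2 * M / δ) = 2 * M := by field_simp
    linarith [hM y hy, hM 0 h00]
  have hlo : (fun w => φ w - φ 0) =o[𝓝 0] (fun w => ‖w - 0‖ ^ 1) := by
    have h1 : HasDerivAt f (deriv f 0) 0 :=
      (hf.differentiableAt (isOpen_ball.mem_nhds h00)).hasDerivAt
    have h4 := h1.isLittleO
    simp only [sub_zero, smul_eq_mul] at h4
    simp only [pow_one, sub_zero, hφ0]
    rw [hφ]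
    exact h4.norm_right
  have key := Complex.dist_le_mul_div_pow_of_mapsTo_ball_of_isLittleO (n := 1) hφd hmaps hlo
    (z := x) (by simpa using hx)
  rw [hφ0, dist_zero_right, dist_zero_right, hφ] at key
  exact key

/-- The derivative in the first variable along the second axis. -/
def dx (F : E → ℂ) (y : ℂ) : ℂ := deriv (fun x : ℂ => F !₂[x, y]) 0

lemma quot_bound {F : E → ℂ} {r : ℝ} (hF : DifferentiableOn ℂ F (ball 0 r)) {y0 : ℂ} {δ M : ℝ}
    (hδ : 0 < δ) (hb : ∀ x y : ℂ, ‖x‖ < δ → ‖y - y0‖ < δ →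
      (!₂[x, y] : E) ∈ ball (0 : E) r ∧ ‖F !₂[x, y]‖ ≤ M) {x y : ℂ} (hx : ‖x‖ < δ)
    (hy : ‖y - y0‖ < δ) :
    ‖F !₂[x, y] - F !₂[(0 : ℂ), y] - x * dx F y‖ ≤ 4 * M * (‖x‖ / δ) ^ 2 := by
  have h1 : DifferentiableOn ℂ (fun x : ℂ => F !₂[x, y]) (ball 0 δ) := by
    have h2 : DifferentiableOn ℂ (fun x : ℂ => (!₂[x, y] : E)) (ball 0 δ) :=
      differentiableOn_pair differentiableOn_id (differentiableOn_const y)
    exact hF.comp h2 (fun x hx => (hb x y (by simpa using hx) hy).1)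
  exact second_order hδ h1 (fun x hx => (hb x y (by simpa using hx) hy).2) hx

lemma diff_quot {F : E → ℂ} {r : ℝ} (hF : DifferentiableOn ℂ F (ball 0 r)) {y0 : ℂ} {δ M : ℝ}
    (hb : ∀ x y : ℂ, ‖x‖ < δ → ‖y - y0‖ < δ →
      (!₂[x, y] : E) ∈ ball (0 : E) r ∧ ‖F !₂[x, y]‖ ≤ M) {x : ℂ} (hx : ‖x‖ < δ) :
    DifferentiableOn ℂ (fun y : ℂ => F !₂[x, y]) (ball y0 δ) := by
  have h2 : DifferentiableOn ℂ (fun y : ℂ => (!₂[x, y] : E)) (ball y0 δ) :=
    differentiableOn_pair (differentiableOn_const x) differentiableOn_id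
  exact hF.comp h2 (fun y hy => (hb x y hx (by simpa [dist_eq_norm] using hy)).1)

lemma dx_diff {F : E → ℂ} {r : ℝ} (hF : DifferentiableOn ℂ F (ball 0 r)) {y0 : ℂ} {δ M : ℝ}
    (hδ : 0 < δ) (hb : ∀ x y : ℂ, ‖x‖ < δ → ‖y - y0‖ < δ →
      (!₂[x, y] : E) ∈ ball (0 : E) r ∧ ‖F !₂[x, y]‖ ≤ M) :
    DifferentiableOn ℂ (dx F) (ball y0 δ) := by
  have hlim : TendstoUniformlyOn (fun (ε : ℂ) (y : ℂ) => (F !₂[ε, y] - F !₂[(0 : ℂ), y]) / ε)
      (dx F) (𝓝[≠] 0) (ball y0 δ) := by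
    rw [Metric.tendstoUniformlyOn_iff]
    intro η hη
    have h1 : Tendsto (fun ε : ℂ => 4 * M * (‖ε‖ / δ ^ 2)) (𝓝[≠] 0) (𝓝 0) := by
      have h2 : Tendsto (fun ε : ℂ => 4 * M * (‖ε‖ / δ ^ 2)) (𝓝 0) (𝓝 (4 * M * (‖(0 : ℂ)‖ / δ ^ 2))) := by
        apply Continuous.tendsto
        fun_prop
      rw [norm_zero, zero_div, mul_zero] at h2
      exact h2.mono_left nhdsWithin_le_nhds
    have h3 : ∀ᶠ ε : ℂ in 𝓝[≠] 0, ‖ε‖ < δ := by
      have : ball (0 : ℂ) δ ∈ 𝓝[≠] (0 : ℂ) := nhdsWithin_le_nhds (ball_mem_nhds _ hδ)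
      filter_upwards [this] with ε hε
      simpa using hε
    filter_upwards [h1.eventually_lt_const hη, h3, self_mem_nhdsWithin] with ε hε1 hε2 hε3 y hy
    have hε0 : ε ≠ 0 := hε3
    have hy' : ‖y - y0‖ < δ := by simpa [dist_eq_norm] using hy
    have key := quot_bound hF hδ hb hε2 hy'
    rw [dist_comm, dist_eq_norm]
    have e : (F !₂[ε, y] - F !₂[(0 : ℂ), y]) / ε - dx F y =
        (F !₂[ε, y] - F !₂[(0 : ℂ), y] - ε * dx F y) / ε := by
      field_simp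
    rw [e, norm_div]
    refine lt_of_le_of_lt ?_ hε1
    have hεp : 0 < ‖ε‖ := norm_pos_iff.2 hε0
    rw [div_le_iff₀ hεp]
    refine key.trans (le_of_eq ?_)
    field_simp
  refine hlim.tendstoLocallyUniformlyOn.differentiableOn ?_ isOpen_ball
  have h3 : ∀ᶠ ε : ℂ in 𝓝[≠] 0, ‖ε‖ < δ := by
    have : ball (0 : ℂ) δ ∈ 𝓝[≠] (0 : ℂ) := nhdsWithin_le_nhds (ball_mem_nhds _ hδ)
    filter_upwards [this] with ε hε
    simpa using hε
  filter_upwards [h3] with ε hε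
  exact ((diff_quot hF hb hε).sub (diff_quot hF hb (by simpa using hδ))).div_const _

theorem holG {F : E → ℂ} {r : ℝ} (hF : DifferentiableOn ℂ F (ball 0 r)) :
    DifferentiableOn ℂ (fun y : ℂ => deriv (fun x : ℂ => F !₂[x, y]) 0) (ball 0 r) := by
  intro y0 hy0
  have hy : ‖y0‖ < r := by simpa using hy0
  obtain ⟨δ, hδ, M, hM, hb⟩ := loc_bound hF hy
  have := dx_diff hF hδ hb
  exact (this.differentiableAt (ball_mem_nhds _ hδ)).differentiableWithinAt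

theorem mixed {F : E → ℂ} {r : ℝ} (hr : 0 < r) (hF : DifferentiableOn ℂ F (ball 0 r)) :
    Tendsto (fun ε : ℂ => (F !₂[ε, ε] - F !₂[ε, 0] - F !₂[0, ε] + F 0) / ε ^ 2) (𝓝[≠] 0)
      (𝓝 (deriv (fun y : ℂ => deriv (fun x : ℂ => F !₂[x, y]) 0) 0)) := by
  obtain ⟨δ, hδ, M, hM, hb⟩ := loc_bound hF (y0 := 0) (by simpa using hr)
  have hdx := dx_diff hF hδ hb
  have h00 : (0 : ℂ) ∈ ball (0 : ℂ) δ := mem_ball_self hδ
  have hder : HasDerivAt (dx F) (deriv (dx F) 0) 0 :=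
    (hdx.differentiableAt (ball_mem_nhds _ hδ)).hasDerivAt
  have hsl := hder.tendsto_slope
  have hF0 : F 0 = F !₂[(0 : ℂ), 0] := by
    congr 1
    ext i; fin_cases i <;> rfl
  have hsmall : ∀ᶠ ε : ℂ in 𝓝[≠] 0, ‖ε‖ < δ := by
    have : ball (0 : ℂ) δ ∈ 𝓝[≠] (0 : ℂ) := nhdsWithin_le_nhds (ball_mem_nhds _ hδ)
    filter_upwards [this] with ε hε
    simpa using hε
  obtain ⟨q, hq⟩ : ∃ q : ℂ → ℂ → ℂ, q = fun ε y =>
      (F !₂[ε, y] - F !₂[(0 : ℂ), y] - ε * dx F y) / ε ^ 2 := ⟨_, rfl⟩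
  have hqb : ∀ ε : ℂ, ε ≠ 0 → ‖ε‖ < δ → ∀ y : ℂ, ‖y‖ < δ → ‖q ε y‖ ≤ 4 * M / δ ^ 2 := by
    intro ε h0 hε y hy
    have key := quot_bound hF hδ hb hε (by simpa using hy)
    have hεp : 0 < ‖ε‖ := norm_pos_iff.2 h0
    rw [hq]
    simp only
    rw [norm_div, norm_pow, div_le_iff₀ (by positivity)]
    refine key.trans (le_of_eq ?_)
    field_simp
  have hqd : ∀ ε : ℂ, ‖ε‖ < δ → DifferentiableOn ℂ (q ε) (ball 0 δ) := by
    intro ε hε
    rw [hq]
    exact (((diff_quot hF hb hε).sub (diff_quot hF hb (by simpa using hδ))).sub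
      (hdx.const_mul ε)).div_const _
  have hqs : ∀ ε : ℂ, ε ≠ 0 → ‖ε‖ < δ → ‖q ε ε - q ε 0‖ ≤ 8 * M / δ ^ 3 * ‖ε‖ := by
    intro ε h0 hε
    have hmaps : MapsTo (q ε) (ball 0 δ) (closedBall (q ε 0) (8 * M / δ ^ 2)) := by
      intro y hy
      rw [mem_closedBall_iff_norm]
      refine (norm_sub_le _ _).trans ?_
      have h1 := hqb ε h0 hε y (by simpa using hy)
      have h2 := hqb ε h0 hε 0 (by simpa using hδ)
      have h3 : 8 * M / δ ^ 2 = 4 * M / δ ^ 2 + 4 * M / δ ^ 2 := by ring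
      linarith
    have key := Complex.dist_le_div_mul_dist_of_mapsTo_ball (hqd ε hε) hmaps (z := ε)
      (by simpa using hε)
    rw [dist_eq_norm, dist_zero_right] at key
    refine key.trans (le_of_eq ?_)
    field_simp
  have hlim0 : Tendsto (fun ε : ℂ => q ε ε - q ε 0) (𝓝[≠] 0) (𝓝 0) := by
    have h2 : Tendsto (fun ε : ℂ => 8 * M / δ ^ 3 * ‖ε‖) (𝓝[≠] 0) (𝓝 0) := by
      have h3 : Tendsto (fun ε : ℂ => 8 * M / δ ^ 3 * ‖ε‖) (𝓝 0) (𝓝 (8 * M / δ ^ 3 * ‖(0 : ℂ)‖)) := by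
        apply Continuous.tendsto
        fun_prop
      rw [norm_zero, mul_zero] at h3
      exact h3.mono_left nhdsWithin_le_nhds
    apply squeeze_zero_norm' _ h2
    filter_upwards [hsmall, self_mem_nhdsWithin] with ε h1 h2
    exact hqs ε h2 h1
  have hsum := hsl.add hlim0
  rw [add_zero] at hsum
  refine hsum.congr' ?_
  filter_upwards [self_mem_nhdsWithin] with ε h2
  have h0 : ε ≠ 0 := h2
  rw [slope_def_field, hq, hF0]
  simp only [sub_zero]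
  field_simp
  ring

end Pool.Agent.Work.MP_620749_an
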