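import Pool.Agent.Work.MP_620749_an.FlowB
import Pool.Agent.Work.MP_620749_an.Growth

/-!
The second order coefficients of a map in S^0 as integrals over the generating vector field, and
the restriction of the map to an invariant coordinate axis.
-/

open Set Filter Topology MeasureTheory Metric
open scoped NNReal Interval

noncomputable section

namespace Pool.Agent.Work.MP_620749_an

variable {H : ℝ → E → E} {φ : E → ℝ → E}

lemma slice_analytic {F : E → E} (hF : DifferentiableOn ℂ F B) {u : ℂ → E}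
    (hu : Differentiable ℂ u) (hB : ∀ x : ℂ, ‖x‖ < 1 → u x ∈ B) :
    AnalyticAt ℂ (fun x : ℂ => F (u x) 0) 0 := by
  have h1 : DifferentiableOn ℂ (fun x : ℂ => F (u x)) (ball 0 1) :=
    hF.comp hu.differentiableOn fun x hx => hB x (by simpa using hx)
  have h2 : DifferentiableOn ℂ (fun x : ℂ => F (u x) 0) (ball 0 1) :=
    (pr 0).differentiable.comp_differentiableOn h1
  exact h2.analyticAt (ball_mem_nhds _ one_pos)

lemma slice_deriv {F : E → E} (hF : DifferentiableOn ℂ F B)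
    (hf : fderiv ℂ F 0 = ContinuousLinearMap.id ℂ E) {u : ℂ → E} {v : E}
    (hu : HasDerivAt u v 0) (h0 : u 0 = 0) :
    deriv (fun x : ℂ => F (u x) 0) 0 = v 0 := by
  have h1 : HasFDerivAt F (ContinuousLinearMap.id ℂ E) (u 0) := by
    rw [h0, ← hf]
    exact (hF.differentiableAt (ball_mem_nhds _ one_pos)).hasFDerivAt
  have h2 := h1.comp_hasDerivAt (0 : ℂ) hu
  have h3 := ((pr 0).hasFDerivAt (x := F (u 0))).comp_hasDerivAt (0 : ℂ) h2
  exact h3.deriv

lemma real_tendsto_ne : Tendsto (fun ε : ℝ => (ε : ℂ)) (𝓝[>] 0) (𝓝[≠] 0) := by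
  apply tendsto_nhdsWithin_of_tendsto_nhds_of_eventually_within
  · have : Tendsto (fun ε : ℝ => (ε : ℂ)) (𝓝 0) (𝓝 ((0 : ℝ) : ℂ)) :=
      Complex.continuous_ofReal.tendsto 0
    simpa using this.mono_left nhdsWithin_le_nhds
  · filter_upwards [self_mem_nhdsWithin] with ε hε
    have hε' : (0 : ℝ) < ε := hε
    simpa using hε'.ne'

lemma flow_smul_pair (ε : ℝ) (x y : ℂ) : ε • (!₂[x, y] : E) = !₂[(ε : ℂ) * x, (ε : ℂ) * y] := by
  ext i; fin_cases i <;> simp

lemma flow_zero_pair : (!₂[(0 : ℂ), 0] : E) = 0 := by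
  ext i; fin_cases i <;> simp

lemma coeff_lim {a b : ℕ} (hab : a + b = 2) : ∃ (κ : Fin 3 → ℂ) (w : Fin 3 → E),
    (∀ j, ‖w j‖ ≤ 2) ∧ ∀ F : E → E, DifferentiableOn ℂ F B → F 0 = 0 →
      fderiv ℂ F 0 = ContinuousLinearMap.id ℂ E →
      Tendsto (fun ε : ℝ => (∑ j, κ j * (F (ε • w j) 0 - (ε • w j) 0)) / (ε : ℂ) ^ 2) (𝓝[>] 0)
        (𝓝 (coeffOne a b F)) := by
  have hn1 : ‖(!₂[(1 : ℂ), 0] : E)‖ ≤ 2 := by
    rw [norm_le_iff (by norm_num)]; simp
  have hn2 : ‖(!₂[(0 : ℂ), 1] : E)‖ ≤ 2 := by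
    rw [norm_le_iff (by norm_num)]; simp
  have hn3 : ‖(!₂[(1 : ℂ), 1] : E)‖ ≤ 2 := by
    rw [norm_le_iff (by norm_num)]; simp; norm_num
  have dx : Differentiable ℂ (fun x : ℂ => (!₂[x, 0] : E)) := fun x =>
    differentiableAt_pair differentiableAt_id (differentiableAt_const 0)
  have dy : Differentiable ℂ (fun x : ℂ => (!₂[0, x] : E)) := fun x =>
    differentiableAt_pair (differentiableAt_const 0) differentiableAt_id
  have bx : ∀ x : ℂ, ‖x‖ < 1 → (!₂[x, 0] : E) ∈ B := by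
    intro x hx
    rw [pair_mem_ball (by norm_num)]
    simp; nlinarith [norm_nonneg x]
  have byy : ∀ x : ℂ, ‖x‖ < 1 → (!₂[0, x] : E) ∈ B := by
    intro x hx
    rw [pair_mem_ball (by norm_num)]
    simp; nlinarith [norm_nonneg x]
  have hcases : (a = 2 ∧ b = 0) ∨ (a = 1 ∧ b = 1) ∨ (a = 0 ∧ b = 2) := by omega
  rcases hcases with ⟨rfl, rfl⟩ | ⟨rfl, rfl⟩ | ⟨rfl, rfl⟩
  · refine ⟨![1, 0, 0], fun _ => !₂[1, 0], fun _ => hn1, fun F hF h0 h1 => ?_⟩
    have hT := taylor_two (slice_analytic hF dx bx)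
    have hd : deriv (fun x : ℂ => F !₂[x, 0] 0) 0 = 1 := by
      have := slice_deriv hF h1 (u := fun x : ℂ => (!₂[x, 0] : E)) (v := !₂[1, 0])
        (hasDerivAt_pair (hasDerivAt_id 0) (hasDerivAt_const 0 0)) flow_zero_pair
      rw [this]; rfl
    rw [hd] at hT
    have hc : coeffOne 2 0 F = iteratedDeriv 2 (fun x : ℂ => F !₂[x, 0] 0) 0 / 2 := by
      simp [coeffOne]
    rw [hc]
    refine hT.congr ?_
    intro ε
    rw [Fin.sum_univ_three]
    simp [flow_smul_pair, flow_zero_pair, h0]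
  · refine ⟨![1, -1, -1], ![(!₂[1, 1] : E), (!₂[1, 0] : E), (!₂[0, 1] : E)], ?_, fun F hF h0 h1 => ?_⟩
    · intro j; fin_cases j
      · exact hn3
      · exact hn1
      · exact hn2
    have hF0 : DifferentiableOn ℂ (fun z : E => F z 0) (ball 0 1) :=
      (pr 0).differentiable.comp_differentiableOn hF
    have hT := (mixed one_pos hF0).comp real_tendsto_ne
    have hc : coeffOne 1 1 F = deriv (fun y : ℂ => deriv (fun x : ℂ => F !₂[x, y] 0) 0) 0 := by
      simp [coeffOne]
    rw [hc]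
    refine hT.congr ?_
    intro ε
    rw [Fin.sum_univ_three]
    simp [flow_smul_pair, h0]
    ring
  · refine ⟨![1, 0, 0], fun _ => !₂[0, 1], fun _ => hn2, fun F hF h0 h1 => ?_⟩
    have hT := taylor_two (slice_analytic hF dy byy)
    have hd : deriv (fun x : ℂ => F !₂[0, x] 0) 0 = 0 := by
      have := slice_deriv hF h1 (u := fun x : ℂ => (!₂[0, x] : E)) (v := !₂[0, 1])
        (hasDerivAt_pair (hasDerivAt_const 0 0) (hasDerivAt_id 0)) flow_zero_pair
      rw [this]; rfl
    rw [hd] at hT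
    have hc : coeffOne 0 2 F = iteratedDeriv 2 (fun x : ℂ => F !₂[0, x] 0) 0 / 2 := by
      simp [coeffOne]
    rw [hc]
    refine hT.congr ?_
    intro ε
    rw [Fin.sum_univ_three]
    simp [flow_smul_pair, flow_zero_pair, h0]

theorem FlowData.coeff (D : FlowData H φ) {C C' : ℝ} (hC : Growth C) (hL : Lip C') {f : E → E}
    (hf : DifferentiableOn ℂ f B) (hf0 : f 0 = 0)
    (hf1 : fderiv ℂ f 0 = ContinuousLinearMap.id ℂ E)
    (hlim : ∀ z ∈ B, Tendsto (fun t : ℝ => Real.exp t • φ z t) atTop (𝓝 (f z)))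
    {a b : ℕ} (hab : a + b = 2) :
    IntegrableOn (fun t => Real.exp (-t) • coeffOne a b (H t)) (Ici 0) ∧
      coeffOne a b f = -∫ t in Ici (0 : ℝ), Real.exp (-t) • coeffOne a b (H t) := by
  obtain ⟨κ, w, hw, hcl⟩ := coeff_lim hab
  have hC0 := hC.1
  have hL0 := hL.1
  obtain ⟨δ, hδ0, hδ1, hδ2⟩ : ∃ δ : ℝ, 0 < δ ∧ δ ≤ 1 / 32 ∧ C * (2 * δ) ≤ 1 / 4 := by
    refine ⟨min (1 / 32) (1 / (8 * C)), by positivity, min_le_left _ _, ?_⟩
    calc C * (2 * min (1 / 32) (1 / (8 * C))) ≤ C * (2 * (1 / (8 * C))) := by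
          gcongr; exact min_le_right _ _
      _ = 1 / 4 := by field_simp; norm_num
  have hev : ∀ᶠ ε : ℝ in 𝓝[>] 0, 0 < ε ∧ ε < δ := Ioo_mem_nhdsGT hδ0
  have hsm : ∀ ε : ℝ, 0 < ε → ε < δ → ∀ j, ‖ε • w j‖ ≤ 2 * ε ∧ ‖ε • w j‖ < 1 / 2 ∧
      C * ‖ε • w j‖ ≤ 1 / 4 ∧ ε • w j ∈ B := by
    intro ε h0 h1 j
    have e1 : ‖ε • w j‖ ≤ 2 * ε := by
      rw [norm_smul, Real.norm_of_nonneg h0.le]
      nlinarith [hw j]
    refine ⟨e1, by linarith, ?_, ?_⟩
    · calc C * ‖ε • w j‖ ≤ C * (2 * δ) := by gcongr; linarith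
        _ ≤ 1 / 4 := hδ2
    · rw [mem_ball_zero_iff]; linarith
  obtain ⟨A, hA⟩ : ∃ A : ℝ → ℝ → ℂ, A = fun (ε : ℝ) (t : ℝ) => (∑ j, κ j * (((Real.exp t : ℝ) : ℂ) *
      (H t (φ (ε • w j) t) 0 - φ (ε • w j) t 0))) / (ε : ℂ) ^ 2 := ⟨_, rfl⟩
  obtain ⟨K, hK⟩ : ∃ K : ℝ, K = ∑ j, ‖κ j‖ := ⟨_, rfl⟩
  have hK0 : 0 ≤ K := by rw [hK]; positivity
  have hint : ∀ ε : ℝ, 0 < ε → ε < δ → IntegrableOn (A ε) (Ici 0) ∧
      ∫ t in Ici (0 : ℝ), A ε t = -((∑ j, κ j * (f (ε • w j) 0 - (ε • w j) 0)) / (ε : ℂ) ^ 2) := by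
    intro ε h0 h1
    have hj : ∀ j ∈ Finset.univ, IntegrableOn (fun t => κ j * (((Real.exp t : ℝ) : ℂ) *
        (H t (φ (ε • w j) t) 0 - φ (ε • w j) t 0))) (Ici 0) := by
      intro j _
      obtain ⟨_, b2, b3, _⟩ := hsm ε h0 h1 j
      have := D.integrable hC b2 b3 0
      rw [← integrableOn_Ici_iff_integrableOn_Ioi] at this
      exact this.const_mul _
    have hsum := integrable_finsetSum Finset.univ hj
    constructor
    · rw [hA]
      exact hsum.div_const _
    · rw [hA]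
      simp only
      rw [integral_div, integral_finsetSum _ hj]
      rw [← neg_div]
      congr 1
      rw [← Finset.sum_neg_distrib]
      apply Finset.sum_congr rfl
      intro j _
      obtain ⟨_, b2, b3, b4⟩ := hsm ε h0 h1 j
      rw [integral_const_mul, D.limit hC (hlim _ b4) b2 b3 0]
      ring
  have hbd : ∀ t : ℝ, 0 ≤ t → H t ∈ ClassM → ∀ ε : ℝ, 0 < ε → ε < δ →
      ‖A ε t‖ ≤ 4 * C * K * Real.exp (-(1 / 2) * t) := by
    intro t ht hM ε h0 h1
    rw [hA]
    simp only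
    rw [norm_div, norm_pow, Complex.norm_real, Real.norm_of_nonneg h0.le,
      div_le_iff₀ (by positivity)]
    calc ‖∑ j, κ j * (((Real.exp t : ℝ) : ℂ) * (H t (φ (ε • w j) t) 0 - φ (ε • w j) t 0))‖
        ≤ ∑ j, ‖κ j * (((Real.exp t : ℝ) : ℂ) *
          (H t (φ (ε • w j) t) 0 - φ (ε • w j) t 0))‖ := norm_sum_le _ _
      _ ≤ ∑ j, ‖κ j‖ * (4 * C * ε ^ 2 * Real.exp (-(1 / 2) * t)) := by
          apply Finset.sum_le_sum
          intro j _
          obtain ⟨b1, b2, b3, _⟩ := hsm ε h0 h1 j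
          rw [norm_mul]
          gcongr
          calc _ ≤ C * ‖ε • w j‖ ^ 2 * Real.exp (-(1 / 2) * t) := D.kpt hC b2 b3 hM ht 0
            _ ≤ C * (2 * ε) ^ 2 * Real.exp (-(1 / 2) * t) := by gcongr
            _ = _ := by ring
      _ = 4 * C * K * Real.exp (-(1 / 2) * t) * ε ^ 2 := by
          rw [← Finset.sum_mul, ← hK]; ring
  have hpt : ∀ t : ℝ, 0 ≤ t → H t ∈ ClassM →
      Tendsto (fun ε => A ε t) (𝓝[>] 0) (𝓝 (Real.exp (-t) • coeffOne a b (H t))) := by
    intro t ht hM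
    have hE := Real.exp_pos (-t)
    have hsc : Tendsto (fun ε : ℝ => Real.exp (-t) * ε) (𝓝[>] 0) (𝓝[>] 0) := by
      apply tendsto_nhdsWithin_of_tendsto_nhds_of_eventually_within
      · have : Tendsto (fun ε : ℝ => Real.exp (-t) * ε) (𝓝 0) (𝓝 (Real.exp (-t) * 0)) :=
          (continuous_const_mul _).tendsto 0
        simpa using this.mono_left nhdsWithin_le_nhds
      · filter_upwards [self_mem_nhdsWithin] with ε hε
        exact mul_pos hE hε
    have h1 := ((hcl (H t) hM.1 hM.2.1 hM.2.2.1).comp hsc).const_smul (Real.exp (-t))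
    have h2 : Tendsto (fun ε : ℝ => A ε t - Real.exp (-t) •
        ((fun ε : ℝ => (∑ j, κ j * (H t (ε • w j) 0 - (ε • w j) 0)) / (ε : ℂ) ^ 2) ∘
          fun ε : ℝ => Real.exp (-t) * ε) ε) (𝓝[>] 0) (𝓝 0) := by
      have h3 : Tendsto (fun ε : ℝ => 32 * C * C' * K * ε) (𝓝[>] 0) (𝓝 0) := by
        have : Tendsto (fun ε : ℝ => 32 * C * C' * K * ε) (𝓝 0) (𝓝 (32 * C * C' * K * 0)) :=
          (continuous_const_mul _).tendsto 0
        simpa using this.mono_left nhdsWithin_le_nhds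
      apply squeeze_zero_norm' _ h3
      filter_upwards [hev] with ε hε
      obtain ⟨e0, e1⟩ := hε
      have hε0 : (ε : ℂ) ≠ 0 := by rw [Complex.ofReal_ne_zero]; exact e0.ne'
      have hEc : ((Real.exp (-t) : ℝ) : ℂ) ≠ 0 := by rw [Complex.ofReal_ne_zero]; exact hE.ne'
      have hEE : ((Real.exp t : ℝ) : ℂ) * ((Real.exp (-t) : ℝ) : ℂ) = 1 := by
        rw [← Complex.ofReal_mul, ← Real.exp_add]; simp
      have heq : A ε t - Real.exp (-t) •
          ((fun ε : ℝ => (∑ j, κ j * (H t (ε • w j) 0 - (ε • w j) 0)) / (ε : ℂ) ^ 2) ∘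
            fun ε : ℝ => Real.exp (-t) * ε) ε =
          (∑ j, κ j * (((Real.exp t : ℝ) : ℂ) *
            ((H t (φ (ε • w j) t) - φ (ε • w j) t) -
              (H t ((Real.exp (-t) * ε) • w j) - (Real.exp (-t) * ε) • w j)) 0)) /
            (ε : ℂ) ^ 2 := by
        rw [hA]
        simp only [Function.comp_apply]
        have e2 : Real.exp (-t) • ((∑ j, κ j * (H t ((Real.exp (-t) * ε) • w j) 0 -
            ((Real.exp (-t) * ε) • w j) 0)) / ((Real.exp (-t) * ε : ℝ) : ℂ) ^ 2) =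
            (((Real.exp t : ℝ) : ℂ) * ∑ j, κ j * (H t ((Real.exp (-t) * ε) • w j) 0 -
            ((Real.exp (-t) * ε) • w j) 0)) / (ε : ℂ) ^ 2 := by
          generalize (∑ j, κ j * (H t ((Real.exp (-t) * ε) • w j) 0 -
            ((Real.exp (-t) * ε) • w j) 0)) = S
          rw [Complex.real_smul, Complex.ofReal_mul]
          generalize ((Real.exp t : ℝ) : ℂ) = P at *
          generalize ((Real.exp (-t) : ℝ) : ℂ) = Q at *
          have e3 : P = Q⁻¹ := eq_inv_of_mul_eq_one_left hEE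
          rw [e3]
          field_simp
        rw [e2, ← sub_div]
        congr 1
        rw [Finset.mul_sum, ← Finset.sum_sub_distrib]
        apply Finset.sum_congr rfl
        intro j _
        simp only [PiLp.sub_apply]
        ring
      rw [heq, norm_div, norm_pow, Complex.norm_real, Real.norm_of_nonneg e0.le,
        div_le_iff₀ (by positivity)]
      calc ‖∑ j, κ j * (((Real.exp t : ℝ) : ℂ) *
            ((H t (φ (ε • w j) t) - φ (ε • w j) t) -
              (H t ((Real.exp (-t) * ε) • w j) - (Real.exp (-t) * ε) • w j)) 0)‖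
          ≤ ∑ j, ‖κ j * (((Real.exp t : ℝ) : ℂ) *
            ((H t (φ (ε • w j) t) - φ (ε • w j) t) -
              (H t ((Real.exp (-t) * ε) • w j) - (Real.exp (-t) * ε) • w j)) 0)‖ :=
            norm_sum_le _ _
        _ ≤ ∑ j, ‖κ j‖ * (32 * C * C' * ε ^ 3) := by
            apply Finset.sum_le_sum
            intro j _
            obtain ⟨b1, b2, b3, b4⟩ := hsm ε e0 e1 j
            rw [norm_mul, norm_mul, Complex.norm_real, Real.norm_of_nonneg (Real.exp_pos t).le]
            apply mul_le_mul_of_nonneg_left _ (norm_nonneg _)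
            have hle1 : Real.exp (-t) ≤ 1 := by simpa using ht
            have g1 : ‖φ (ε • w j) t‖ ≤ 2 * ε := (D.mono b4 ht).trans b1
            have g2 : ‖(Real.exp (-t) * ε) • w j‖ ≤ 2 * ε := by
              rw [← smul_smul, norm_smul, Real.norm_of_nonneg hE.le]
              calc Real.exp (-t) * ‖ε • w j‖ ≤ 1 * (2 * ε) := by gcongr
                _ = 2 * ε := one_mul _
            have g3 := hL.2 (H t) hM (2 * ε) (by linarith) (by linarith) _ _ g1 g2
            have g4 : ‖φ (ε • w j) t - (Real.exp (-t) * ε) • w j‖ ≤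
                4 * C * (2 * ε) ^ 2 * Real.exp (-t) := by
              rw [← smul_smul]
              calc _ ≤ 4 * C * ‖ε • w j‖ ^ 2 * Real.exp (-t) := D.near hC b2 b3 ht
                _ ≤ 4 * C * (2 * ε) ^ 2 * Real.exp (-t) := by gcongr
            calc Real.exp t * ‖((H t (φ (ε • w j) t) - φ (ε • w j) t) -
                  (H t ((Real.exp (-t) * ε) • w j) - (Real.exp (-t) * ε) • w j)) 0‖
                ≤ Real.exp t * (C' * (2 * ε) * (4 * C * (2 * ε) ^ 2 * Real.exp (-t))) := by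
                  gcongr
                  refine (norm_apply_le _ 0).trans (g3.trans ?_)
                  gcongr
              _ = 32 * C * C' * ε ^ 3 * (Real.exp t * Real.exp (-t)) := by ring
              _ = 32 * C * C' * ε ^ 3 := by rw [← Real.exp_add]; simp
        _ = 32 * C * C' * K * ε * ε ^ 2 := by
            rw [← Finset.sum_mul, ← hK]; ring
    have h4 := h2.add h1
    simp only [zero_add, sub_add_cancel, Function.comp_def] at h4
    exact h4
  have hptae : ∀ᵐ t ∂(volume.restrict (Ici (0 : ℝ))),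
      Tendsto (fun ε => A ε t) (𝓝[>] 0) (𝓝 (Real.exp (-t) • coeffOne a b (H t))) := by
    filter_upwards [D.hM, ae_nonneg] with t hM ht
    exact hpt t ht hM
  have hmeas : ∀ᶠ ε : ℝ in 𝓝[>] 0, AEStronglyMeasurable (A ε) (volume.restrict (Ici 0)) := by
    filter_upwards [hev] with ε hε
    exact (hint ε hε.1 hε.2).1.aestronglyMeasurable
  have hbint : Integrable (fun t : ℝ => 4 * C * K * Real.exp (-(1 / 2) * t))
      (volume.restrict (Ici 0)) := by
    apply Integrable.const_mul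
    have : IntegrableOn (fun t : ℝ => Real.exp (-(1 / 2) * t)) (Ioi 0) :=
      exp_neg_integrableOn_Ioi 0 (by norm_num)
    rwa [← integrableOn_Ici_iff_integrableOn_Ioi] at this
  have hT := tendsto_integral_filter_of_dominated_convergence
    (fun t : ℝ => 4 * C * K * Real.exp (-(1 / 2) * t)) hmeas (by
      filter_upwards [hev] with ε hε
      filter_upwards [D.hM, ae_nonneg] with t hM ht
      exact hbd t ht hM ε hε.1 hε.2) hbint hptae
  have hT2 : Tendsto (fun ε : ℝ => ∫ t in Ici (0 : ℝ), A ε t) (𝓝[>] 0)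
      (𝓝 (-coeffOne a b f)) := by
    have h1 := (hcl f hf hf0 hf1).neg
    refine h1.congr' ?_
    filter_upwards [hev] with ε hε
    exact (hint ε hε.1 hε.2).2.symm
  have hmeas' : AEStronglyMeasurable (fun t => Real.exp (-t) • coeffOne a b (H t))
      (volume.restrict (Ici 0)) := by
    have hseq : Tendsto (fun n : ℕ => δ / ((n : ℝ) + 2)) atTop (𝓝[>] 0) := by
      apply tendsto_nhdsWithin_of_tendsto_nhds_of_eventually_within
      · have h1 : Tendsto (fun n : ℕ => (n : ℝ) + 2) atTop atTop :=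
          tendsto_atTop_add_const_right _ _ tendsto_natCast_atTop_atTop
        exact h1.const_div_atTop δ
      · exact Eventually.of_forall fun n => by
          show 0 < δ / ((n : ℝ) + 2)
          positivity
    apply aestronglyMeasurable_of_tendsto_ae (u := atTop)
      (f := fun n : ℕ => A (δ / ((n : ℝ) + 2)))
    · intro n
      have h2 : δ / ((n : ℝ) + 2) < δ := by
        rw [div_lt_iff₀ (by positivity)]
        nlinarith [Nat.cast_nonneg (α := ℝ) n]
      exact (hint _ (by positivity) h2).1.aestronglyMeasurable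
    · filter_upwards [hptae] with t ht
      exact ht.comp hseq
  constructor
  · apply hbint.mono' hmeas'
    filter_upwards [D.hM, ae_nonneg] with t hM ht
    apply le_of_tendsto (hpt t ht hM).norm
    filter_upwards [hev] with ε hε
    exact hbd t ht hM ε hε.1 hε.2
  · have := tendsto_nhds_unique hT hT2
    rw [this]; ring

theorem FlowData.axis (D : FlowData H φ) {C C' : ℝ} (hC : Growth C) (hL : Lip C') {f : E → E}
    (hlim : ∀ z ∈ B, Tendsto (fun t : ℝ => Real.exp t • φ z t) atTop (𝓝 (f z)))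
    (i : Fin 2) (P Γ : ℂ → ℂ) (δ : ℝ) (hδ : 0 < δ)
    (hΓ : ∀ x, ‖x‖ < δ → HasDerivAt Γ (deriv Γ x) x) (hΓ0 : Γ 0 = 0) (hΓ1 : deriv Γ 0 = 1)
    (hP : ∀ x, ‖x‖ < δ → deriv Γ x * P x = Γ x)
    (hax : ∀ᵐ t ∂(volume.restrict (Ici (0 : ℝ))), ∀ x : ℂ, ‖x‖ < δ →
      H t (EuclideanSpace.single i x) = EuclideanSpace.single i (P x)) :
    ∀ᶠ x in 𝓝 (0 : ℂ), f (EuclideanSpace.single i x) i = Γ x := by
  have hC0 := hC.1
  have hL0 := hL.1
  obtain ⟨r, hr0, hr1, hr2, hr3, hr4⟩ : ∃ r : ℝ, 0 < r ∧ r ≤ 1 / 16 ∧ r < δ ∧ C * r ≤ 1 / 4 ∧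
      C' * r ≤ 1 := by
    refine ⟨min (min (1 / 16) (δ / 2)) (min (1 / (4 * C)) (1 / C')), by positivity, ?_, ?_, ?_, ?_⟩
    · exact (min_le_left _ _).trans (min_le_left _ _)
    · have : min (min (1 / 16) (δ / 2)) (min (1 / (4 * C)) (1 / C')) ≤ δ / 2 :=
        (min_le_left _ _).trans (min_le_right _ _)
      linarith
    · calc C * min (min (1 / 16) (δ / 2)) (min (1 / (4 * C)) (1 / C')) ≤ C * (1 / (4 * C)) := by
            gcongr; exact (min_le_right _ _).trans (min_le_left _ _)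
        _ = 1 / 4 := by field_simp
    · calc C' * min (min (1 / 16) (δ / 2)) (min (1 / (4 * C)) (1 / C')) ≤ C' * (1 / C') := by
            gcongr; exact (min_le_right _ _).trans (min_le_right _ _)
        _ = 1 := by field_simp
  obtain ⟨j, hj1, hj2, hj3⟩ : ∃ j : Fin 2, (∀ x : ℂ, (EuclideanSpace.single i x : E) j = 0) ∧
      (∀ v : E, v j = 0 → v = EuclideanSpace.single i (v i)) ∧
      (∀ v : E, ‖v - EuclideanSpace.single i (v i)‖ = ‖v j‖) := by
    fin_cases i
    · refine ⟨1, fun x => by simp, fun v hv => ?_, fun v => ?_⟩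
      · ext k; fin_cases k
        · simp
        · simpa using hv
      · have : v - EuclideanSpace.single (0 : Fin 2) (v 0) = EuclideanSpace.single 1 (v 1) := by
          ext k; fin_cases k <;> simp
        show ‖v - EuclideanSpace.single (0 : Fin 2) (v 0)‖ = ‖v 1‖
        rw [this, EuclideanSpace.norm_single]
    · refine ⟨0, fun x => by simp, fun v hv => ?_, fun v => ?_⟩
      · ext k; fin_cases k
        · simpa using hv
        · simp
      · have : v - EuclideanSpace.single (1 : Fin 2) (v 1) = EuclideanSpace.single 0 (v 0) := by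
          ext k; fin_cases k <;> simp
        show ‖v - EuclideanSpace.single (1 : Fin 2) (v 1)‖ = ‖v 0‖
        rw [this, EuclideanSpace.norm_single]
  have hdifft : ∀ x, ‖x‖ < δ → DifferentiableAt ℂ Γ x := fun x hx => (hΓ x hx).differentiableAt
  have hdon : DifferentiableOn ℂ Γ (ball 0 δ) := fun x hx =>
    (hdifft x (by simpa using hx)).differentiableWithinAt
  obtain ⟨K, hK⟩ : ∃ K : ℝ≥0, LipschitzOnWith K Γ (closedBall 0 r) := by
    have hcd : ContinuousOn (deriv Γ) (closedBall 0 r) :=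
      (hdon.deriv isOpen_ball).continuousOn.mono (closedBall_subset_ball hr2)
    obtain ⟨M, hM⟩ := (isCompact_closedBall (0 : ℂ) r).exists_bound_of_continuousOn hcd
    refine ⟨Real.toNNReal M, (convex_closedBall (0 : ℂ) r).lipschitzOnWith_of_nnnorm_deriv_le
      (fun x hx => hdifft x ?_) fun x hx => ?_⟩
    · have : ‖x‖ ≤ r := by simpa using hx
      linarith
    · rw [← NNReal.coe_le_coe, coe_nnnorm]
      exact (hM x hx).trans (Real.le_coe_toNNReal M)
  filter_upwards [ball_mem_nhds (0 : ℂ) hr0] with x hx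
  have hxr : ‖x‖ < r := by simpa using hx
  obtain ⟨z, hz⟩ : ∃ z : E, z = EuclideanSpace.single i x := ⟨_, rfl⟩
  have hzn : ‖z‖ = ‖x‖ := by rw [hz, EuclideanSpace.norm_single]
  have hzi : z i = x := by rw [hz]; simp
  rw [← hz]
  have hzB : z ∈ B := by rw [mem_ball_zero_iff, hzn]; linarith
  have hz2 : ‖z‖ < 1 / 2 := by rw [hzn]; linarith
  have hz4 : C * ‖z‖ ≤ 1 / 4 := by
    rw [hzn]
    calc C * ‖x‖ ≤ C * r := by gcongr
      _ ≤ 1 / 4 := hr3
  have hφr : ∀ t : ℝ, 0 ≤ t → ‖φ z t‖ ≤ r := fun t ht => by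
    have := D.mono hzB ht
    rw [hzn] at this
    linarith
  have hoff : ∀ T : ℝ, 0 ≤ T → φ z T j = 0 := by
    intro T hT
    rcases eq_or_lt_of_le hT with h | h
    · rw [← h, D.h0 z hzB, hz]; exact hj1 x
    have hacj : AbsolutelyContinuousOnInterval (fun t => φ z t j) 0 T :=
      ac_clm (D.hac z hzB T h) ((pr j).restrictScalars ℝ)
    have key := anti (n := fun t => ‖φ z t j‖ ^ 2)
      (n' := fun t => 2 * inner ℝ (φ z t j) ((-(H t (φ z t))) j)) hT (ac_norm_sq hacj)
      (by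
        filter_upwards [D.hd] with t ht
        have h1 : HasDerivAt (fun t => φ z t j) ((-(H t (φ z t))) j) t :=
          (((pr j).restrictScalars ℝ).hasFDerivAt).comp_hasDerivAt t (ht z hzB)
        exact h1.norm_sq)
      (by
        filter_upwards [D.hM, ae_nonneg, hax] with t hM ht hax
        have hn := hφr t ht
        obtain ⟨v, hv⟩ : ∃ v : E, v = φ z t := ⟨_, rfl⟩
        rw [← hv] at hn ⊢
        obtain ⟨v', hv'⟩ : ∃ v' : E, v' = EuclideanSpace.single i (v i) := ⟨_, rfl⟩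
        have hvi : ‖v i‖ ≤ r := (norm_apply_le v i).trans hn
        have hv'n : ‖v'‖ ≤ r := by rw [hv', EuclideanSpace.norm_single]; exact hvi
        have hH : H t v' j = 0 := by
          rw [hv', hax (v i) (by linarith)]; exact hj1 _
        have hv'j : v' j = 0 := by rw [hv']; exact hj1 _
        have hlip := hL.2 (H t) hM r hr0 (by linarith) v v' hn hv'n
        have hvv : ‖v - v'‖ = ‖v j‖ := by rw [hv']; exact hj3 v
        have h1 : ‖H t v j - v j‖ ≤ ‖v j‖ := by
          have h2 : ((H t v - v) - (H t v' - v')) j = H t v j - v j := by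
            simp only [PiLp.sub_apply, hH, hv'j]; ring
          rw [← h2]
          calc _ ≤ ‖(H t v - v) - (H t v' - v')‖ := norm_apply_le _ j
            _ ≤ C' * r * ‖v - v'‖ := hlip
            _ ≤ 1 * ‖v - v'‖ := by gcongr
            _ = ‖v j‖ := by rw [one_mul, hvv]
        have h3 : inner ℝ (v j) ((-(H t v)) j) =
            -‖v j‖ ^ 2 - inner ℝ (v j) (H t v j - v j) := by
          rw [PiLp.neg_apply, inner_neg_right, inner_sub_right, real_inner_self_eq_norm_sq]
          ring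
        have h4 : |inner ℝ (v j) (H t v j - v j)| ≤ ‖v j‖ * ‖H t v j - v j‖ :=
          abs_real_inner_le_norm _ _
        have h5 : ‖v j‖ * ‖H t v j - v j‖ ≤ ‖v j‖ * ‖v j‖ := by gcongr
        have h6 := (abs_le.1 h4).1
        rw [h3]
        nlinarith)
    have h0 : ‖φ z 0 j‖ ^ 2 = 0 := by
      rw [D.h0 z hzB, hz, hj1 x]; simp
    rw [h0] at key
    have : ‖φ z T j‖ = 0 := by
      have h7 := norm_nonneg (φ z T j)
      nlinarith
    simpa using this
  have hon : ∀ t : ℝ, 0 ≤ t → φ z t = EuclideanSpace.single i (φ z t i) := fun t ht =>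
    hj2 _ (hoff t ht)
  have hconst : ∀ T : ℝ, 0 ≤ T → Real.exp T • Γ (φ z T i) = Γ x := by
    intro T hT
    rcases eq_or_lt_of_le hT with h | h
    · rw [← h, D.h0 z hzB, hzi]; simp
    have hacE : AbsolutelyContinuousOnInterval (fun t : ℝ => Real.exp t) 0 T := by
      have := ac_exp 1 0 T
      simpa using this
    have haci : AbsolutelyContinuousOnInterval (fun t => φ z t i) 0 T :=
      ac_clm (D.hac z hzB T h) ((pr i).restrictScalars ℝ)
    have hacG : AbsolutelyContinuousOnInterval (fun t => Γ (φ z t i)) 0 T := by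
      refine ac_comp_lip haci hK ?_
      intro t ht
      rw [uIcc_of_le hT] at ht
      rw [mem_closedBall_zero_iff]
      exact (norm_apply_le _ i).trans (hφr t ht.1)
    have hacY : AbsolutelyContinuousOnInterval (fun t => Real.exp t • Γ (φ z t i)) 0 T :=
      hacE.fun_smul hacG
    have hder : ∀ᵐ t ∂(volume.restrict (Ici (0 : ℝ))),
        HasDerivAt (fun t => Real.exp t • Γ (φ z t i)) 0 t := by
      filter_upwards [D.hd, ae_nonneg, hax] with t hd ht hax
      have hvi : ‖φ z t i‖ < δ := lt_of_le_of_lt ((norm_apply_le _ i).trans (hφr t ht)) hr2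
      have hHi : H t (φ z t) i = P (φ z t i) := by
        have h1 := hax (φ z t i) hvi
        rw [← hon t ht] at h1
        rw [h1]; simp
      have h1 : HasDerivAt (fun t => φ z t i) ((-(H t (φ z t))) i) t :=
        (((pr i).restrictScalars ℝ).hasFDerivAt).comp_hasDerivAt t (hd z hzB)
      have h2 : HasDerivAt (fun t => Γ (φ z t i))
          (deriv Γ (φ z t i) * (-(H t (φ z t))) i) t := (hΓ _ hvi).comp t h1
      have h3 := (Real.hasDerivAt_exp t).smul h2
      refine h3.congr_deriv ?_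
      rw [PiLp.neg_apply, hHi, mul_neg, hP _ hvi]
      simp
    rw [ae_restrict_iff' measurableSet_Ici] at hder
    obtain ⟨c, hc⟩ := hacY.const_of_ae_hasDerivAt_zero (by
      filter_upwards [hder] with t ht hmem
      rw [uIcc_of_le hT] at hmem
      exact ht hmem.1)
    have h1 := hc T (by simp)
    have h2 := hc 0 (by simp)
    simp only [Real.exp_zero, one_smul, D.h0 z hzB, hzi] at h2
    rw [h1, h2]
  have hto0 : Tendsto (fun t : ℝ => φ z t i) atTop (𝓝 0) := by
    have h1 : Tendsto (fun t : ℝ => Real.exp (-(3 / 4) * t) * ‖z‖) atTop (𝓝 (0 * ‖z‖)) := by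
      apply Tendsto.mul_const
      apply Real.tendsto_exp_atBot.comp
      exact tendsto_id.const_mul_atTop_of_neg (by norm_num)
    rw [zero_mul] at h1
    apply squeeze_zero_norm' _ h1
    filter_upwards [eventually_ge_atTop (0 : ℝ)] with t ht
    exact (norm_apply_le _ i).trans (D.decay hC hz2 hz4 ht)
  have hds : Tendsto (fun t : ℝ => dslope Γ 0 (φ z t i)) atTop (𝓝 1) := by
    have h1 : ContinuousAt (dslope Γ 0) 0 :=
      continuousAt_dslope_same.2 (hdifft 0 (by simpa using hδ))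
    have h2 : dslope Γ 0 0 = 1 := by rw [dslope_same, hΓ1]
    have h3 : Tendsto (dslope Γ 0) (𝓝 0) (𝓝 1) := by
      have := h1.tendsto
      rwa [h2] at this
    exact h3.comp hto0
  have hYl : Tendsto (fun t : ℝ => (Real.exp t • φ z t) i) atTop (𝓝 (f z i)) :=
    ((pr i).continuous.tendsto _).comp (hlim z hzB)
  have hprod := hYl.mul hds
  rw [mul_one] at hprod
  have hcst : Tendsto (fun _ : ℝ => Γ x) atTop (𝓝 (f z i)) := by
    refine hprod.congr' ?_
    filter_upwards [eventually_ge_atTop (0 : ℝ)] with t ht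
    rw [← hconst t ht]
    have h1 : (φ z t i - 0) • dslope Γ 0 (φ z t i) = Γ (φ z t i) - Γ 0 := sub_smul_dslope _ _ _
    rw [hΓ0, sub_zero, sub_zero, smul_eq_mul] at h1
    rw [← h1, PiLp.smul_apply, smul_mul_assoc]
  exact tendsto_nhds_unique hcst tendsto_const_nhds

/-- The second order coefficients of a map in `S^0` as integrals over the generating field, and
the restriction of the map to an invariant coordinate axis. -/
theorem ae_field {f : E → E} (hf : f ∈ ClassS0) : ∃ H : ℝ → E → E,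
    (∀ᵐ t ∂(volume.restrict (Ici (0 : ℝ))), H t ∈ ClassM) ∧
    (∀ a b : ℕ, a + b = 2 →
      IntegrableOn (fun t => Real.exp (-t) • coeffOne a b (H t)) (Ici 0) ∧
      coeffOne a b f = -∫ t in Ici (0 : ℝ), Real.exp (-t) • coeffOne a b (H t)) ∧
    ∀ (i : Fin 2) (P Γ : ℂ → ℂ) (δ : ℝ), 0 < δ →
      (∀ x, ‖x‖ < δ → HasDerivAt Γ (deriv Γ x) x) → Γ 0 = 0 → deriv Γ 0 = 1 →
      (∀ x, ‖x‖ < δ → deriv Γ x * P x = Γ x) →
      (∀ᵐ t ∂(volume.restrict (Ici (0 : ℝ))), ∀ x : ℂ, ‖x‖ < δ →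
        H t (EuclideanSpace.single i x) = EuclideanSpace.single i (P x)) →
      ∀ᶠ x in 𝓝 (0 : ℂ), f (EuclideanSpace.single i x) i = Γ x := by
  obtain ⟨C, hC⟩ : ∃ C, Growth C := growth
  obtain ⟨C', hL⟩ : ∃ C, Lip C := lip
  obtain ⟨⟨hfd, _, hf0, hf1⟩, G, φ, ⟨hG1, _⟩, ⟨hφ1, hφ2, hφ3, hφ4⟩, hlim⟩ := hf
  have D : FlowData (fun t z => -G z t) φ := by
    refine ⟨hG1, hφ1, hφ2, hφ3, ?_⟩
    filter_upwards [hφ4] with t ht z hz
    simpa using ht z hz
  have hpt : ∀ z ∈ B, Tendsto (fun t : ℝ => Real.exp t • φ z t) atTop (𝓝 (f z)) :=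
    fun z hz => hlim.tendsto_at hz
  exact ⟨fun t z => -G z t, hG1, fun a b hab => D.coeff hC hL hfd hf0 hf1 hpt hab,
    fun i P Γ δ h1 h2 h3 h4 h5 h6 => D.axis hC hL hpt i P Γ δ h1 h2 h3 h4 h5 h6⟩

end Pool.Agent.Work.MP_620749_an
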