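import Pool.Agent.Work.MP_620749_an.Vec

/-!
Absolutely continuous functions: composition with Lipschitz maps, the fundamental theorem of
calculus for complex valued functions, and the one variable Taylor limit.
-/

open Set Filter Topology MeasureTheory Metric
open scoped NNReal Interval

noncomputable section

namespace Pool.Agent.Work.MP_620749_an

lemma ac_comp_lip {X Y : Type*} [PseudoMetricSpace X] [PseudoMetricSpace Y] {f : ℝ → X}
    {g : X → Y} {s : Set X} {K : ℝ≥0} {a b : ℝ} (hf : AbsolutelyContinuousOnInterval f a b)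
    (hg : LipschitzOnWith K g s) (hs : ∀ t ∈ uIcc a b, f t ∈ s) :
    AbsolutelyContinuousOnInterval (fun t => g (f t)) a b := by
  unfold AbsolutelyContinuousOnInterval at hf ⊢
  apply squeeze_zero' ?_ ?_ (by simpa using hf.const_mul (K : ℝ))
  · exact Eventually.of_forall fun _ => Finset.sum_nonneg fun i hi => dist_nonneg
  rw [eventually_inf_principal]
  filter_upwards with (n, I) hnI
  rw [Finset.mul_sum]
  gcongr with i hi
  exact hg.dist_le_mul _ (hs _ (hnI.left i hi).1) _ (hs _ (hnI.left i hi).2)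

lemma ac_clm {F G : Type*} [NormedAddCommGroup F] [NormedAddCommGroup G] [NormedSpace ℝ F]
    [NormedSpace ℝ G] {f : ℝ → F} {a b : ℝ} (hf : AbsolutelyContinuousOnInterval f a b)
    (L : F →L[ℝ] G) : AbsolutelyContinuousOnInterval (fun t => L (f t)) a b :=
  ac_comp_lip hf (L.lipschitz.lipschitzOnWith (s := univ)) fun _ _ => mem_univ _

lemma ac_exp (c a b : ℝ) : AbsolutelyContinuousOnInterval (fun t => Real.exp (c * t)) a b :=
  ContDiffOn.absolutelyContinuousOnInterval (by fun_prop)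

lemma ac_norm_sq {F : Type*} [NormedAddCommGroup F] {f : ℝ → F} {a b : ℝ}
    (hf : AbsolutelyContinuousOnInterval f a b) :
    AbsolutelyContinuousOnInterval (fun t => ‖f t‖ ^ 2) a b := by
  have h1 : AbsolutelyContinuousOnInterval (fun t => ‖f t‖) a b :=
    ac_comp_lip hf (lipschitzWith_one_norm.lipschitzOnWith (s := univ)) fun _ _ => mem_univ _
  have h2 := h1.mul h1
  have e : (fun t => ‖f t‖ ^ 2) = (fun t => ‖f t‖) * (fun t => ‖f t‖) := by
    funext t; simp [sq]
  rw [e]; exact h2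

lemma ae_uIoc {T : ℝ} (hT : 0 ≤ T) {p : ℝ → Prop}
    (h : ∀ᵐ t ∂(volume.restrict (Ici (0 : ℝ))), p t) : ∀ᵐ t ∂(volume.restrict (Ι 0 T)), p t := by
  apply ae_restrict_of_ae_restrict_of_subset _ h
  rw [uIoc_of_le hT]
  intro t ht
  exact ht.1.le

lemma ftc_real {n n' : ℝ → ℝ} {T : ℝ} (hT : 0 ≤ T)
    (hac : AbsolutelyContinuousOnInterval n 0 T)
    (hd : ∀ᵐ t ∂(volume.restrict (Ici (0 : ℝ))), HasDerivAt n (n' t) t) :
    IntervalIntegrable n' volume 0 T ∧ ∫ t in (0 : ℝ)..T, n' t = n T - n 0 := by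
  have h1 : ∀ᵐ t ∂(volume.restrict (Ι 0 T)), deriv n t = n' t := by
    filter_upwards [ae_uIoc hT hd] with t ht
    exact ht.deriv
  constructor
  · exact hac.intervalIntegrable_deriv.congr_ae h1
  · rw [← hac.integral_deriv_eq_sub]
    symm
    apply intervalIntegral.integral_congr_ae
    rwa [ae_restrict_iff' measurableSet_uIoc] at h1

lemma anti {n n' : ℝ → ℝ} {T : ℝ} (hT : 0 ≤ T)
    (hac : AbsolutelyContinuousOnInterval n 0 T)
    (hd : ∀ᵐ t ∂(volume.restrict (Ici (0 : ℝ))), HasDerivAt n (n' t) t)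
    (hle : ∀ᵐ t ∂(volume.restrict (Ici (0 : ℝ))), n' t ≤ 0) : n T ≤ n 0 := by
  obtain ⟨_, h2⟩ := ftc_real hT hac hd
  have h3 : ∫ t in (0 : ℝ)..T, n' t ≤ 0 := by
    rw [intervalIntegral.integral_of_le hT]
    apply integral_nonpos_of_ae
    have := ae_uIoc hT hle
    rwa [uIoc_of_le hT] at this
  linarith

lemma ftc_cplx {y y' : ℝ → ℂ} {T : ℝ} (hT : 0 ≤ T)
    (hac : AbsolutelyContinuousOnInterval y 0 T)
    (hd : ∀ᵐ t ∂(volume.restrict (Ici (0 : ℝ))), HasDerivAt y (y' t) t) :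
    IntervalIntegrable y' volume 0 T ∧ ∫ t in (0 : ℝ)..T, y' t = y T - y 0 := by
  have hre := ftc_real (n := fun t => (y t).re) (n' := fun t => (y' t).re) hT
    (ac_clm hac Complex.reCLM) (by
      filter_upwards [hd] with t ht
      exact Complex.reCLM.hasFDerivAt.comp_hasDerivAt t ht)
  have him := ftc_real (n := fun t => (y t).im) (n' := fun t => (y' t).im) hT
    (ac_clm hac Complex.imCLM) (by
      filter_upwards [hd] with t ht
      exact Complex.imCLM.hasFDerivAt.comp_hasDerivAt t ht)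
  have hint : IntervalIntegrable y' volume 0 T := by
    have h1 : IntervalIntegrable (fun t => ((y' t).re : ℂ) + ((y' t).im : ℂ) * Complex.I)
        volume 0 T := by
      have a1 := hre.1
      have a2 := him.1
      rw [intervalIntegrable_iff] at a1 a2 ⊢
      exact a1.ofReal.add (a2.ofReal.mul_const _)
    refine h1.congr ?_
    intro t _
    exact Complex.re_add_im _
  refine ⟨hint, ?_⟩
  have e1 : (∫ t in (0 : ℝ)..T, y' t).re = ∫ t in (0 : ℝ)..T, (y' t).re :=
    (Complex.reCLM.intervalIntegral_comp_comm hint).symm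
  have e2 : (∫ t in (0 : ℝ)..T, y' t).im = ∫ t in (0 : ℝ)..T, (y' t).im :=
    (Complex.imCLM.intervalIntegral_comp_comm hint).symm
  apply Complex.ext
  · rw [e1, hre.2]; simp
  · rw [e2, him.2]; simp

/-- One variable Taylor formula of order two. -/
lemma taylor_two {g : ℂ → ℂ} (hg : AnalyticAt ℂ g 0) :
    Tendsto (fun ε : ℝ => (g ε - g 0 - deriv g 0 * ε) / (ε : ℂ) ^ 2) (𝓝[>] 0)
      (𝓝 (iteratedDeriv 2 g 0 / 2)) := by
  have h1 := hg.hasFPowerSeriesAt.isBigO_sub_partialSum_pow 3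
  have h2 : (fun y : ℂ => g y - g 0 - deriv g 0 * y - iteratedDeriv 2 g 0 / 2 * y ^ 2) =O[𝓝 0]
      fun y : ℂ => ‖y‖ ^ 3 := by
    refine h1.congr_left ?_
    intro y
    simp only [zero_add, FormalMultilinearSeries.partialSum, Finset.sum_range_succ,
      Finset.sum_range_zero]
    simp [FormalMultilinearSeries.ofScalars, iteratedDeriv_zero, iteratedDeriv_one]
    ring
  have h3 : Tendsto (fun ε : ℝ => (ε : ℂ)) (𝓝[>] 0) (𝓝 0) := by
    have : Tendsto (fun ε : ℝ => (ε : ℂ)) (𝓝 0) (𝓝 ((0 : ℝ) : ℂ)) :=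
      Complex.continuous_ofReal.tendsto 0
    simpa using this.mono_left nhdsWithin_le_nhds
  have h4 := h2.comp_tendsto h3
  have h5 : Tendsto (fun ε : ℝ => (g ε - g 0 - deriv g 0 * ε) / (ε : ℂ) ^ 2 -
      iteratedDeriv 2 g 0 / 2) (𝓝[>] 0) (𝓝 0) := by
    obtain ⟨C, hC⟩ := h4.bound
    have h6 : Tendsto (fun ε : ℝ => C * ε) (𝓝[>] 0) (𝓝 0) := by
      have : Tendsto (fun ε : ℝ => C * ε) (𝓝 0) (𝓝 (C * 0)) := (continuous_const_mul C).tendsto 0
      simpa using this.mono_left nhdsWithin_le_nhds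
    apply squeeze_zero_norm' _ h6
    filter_upwards [hC, self_mem_nhdsWithin] with ε hε hpos
    have hpos' : (0 : ℝ) < ε := hpos
    have hne : (ε : ℂ) ≠ 0 := by
      rw [Complex.ofReal_ne_zero]; exact hpos'.ne'
    have e : (g ε - g 0 - deriv g 0 * ε) / (ε : ℂ) ^ 2 - iteratedDeriv 2 g 0 / 2 =
        (g ε - g 0 - deriv g 0 * ε - iteratedDeriv 2 g 0 / 2 * (ε : ℂ) ^ 2) / (ε : ℂ) ^ 2 := by
      field_simp
    rw [e, norm_div, norm_pow, Complex.norm_real, Real.norm_of_nonneg hpos'.le,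
      div_le_iff₀ (by positivity)]
    simp only [Function.comp_apply] at hε
    calc _ ≤ C * ‖‖(ε : ℂ)‖ ^ 3‖ := hε
      _ = C * ε * ε ^ 2 := by
        rw [Complex.norm_real, Real.norm_of_nonneg hpos'.le, Real.norm_of_nonneg (by positivity)]
        ring
  have := h5.add_const (iteratedDeriv 2 g 0 / 2)
  simpa using this

end Pool.Agent.Work.MP_620749_an
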