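import Pool.Agent.Work.MP_620749_an.FlowA

/-!
Estimates for the flow of a Herglotz vector field near the origin.
-/

open Set Filter Topology MeasureTheory Metric
open scoped NNReal Interval

noncomputable section

namespace Pool.Agent.Work.MP_620749_an

/-- The vector field `H t = - G t` and its flow. -/
structure FlowData (H : ℝ → E → E) (φ : E → ℝ → E) : Prop where
  hM : ∀ᵐ t ∂(volume.restrict (Ici (0 : ℝ))), H t ∈ ClassM
  hB : ∀ z ∈ B, ∀ t : ℝ, 0 ≤ t → φ z t ∈ B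
  h0 : ∀ z ∈ B, φ z 0 = z
  hac : ∀ z ∈ B, ∀ T : ℝ, 0 < T → AbsolutelyContinuousOnInterval (φ z) 0 T
  hd : ∀ᵐ t ∂(volume.restrict (Ici (0 : ℝ))), ∀ z ∈ B,
    HasDerivAt (φ z) (-(H t (φ z t))) t

/-- The growth hypothesis with constant `C`. -/
def Growth (C : ℝ) : Prop :=
  0 < C ∧ ∀ h ∈ ClassM, ∀ z : E, ‖z‖ < 1 / 2 → ‖h z - z‖ ≤ C * ‖z‖ ^ 2

/-- The Lipschitz hypothesis with constant `C`. -/
def Lip (C : ℝ) : Prop :=
  0 < C ∧ ∀ h ∈ ClassM, ∀ s : ℝ, 0 < s → s < 1 / 8 → ∀ z w : E, ‖z‖ ≤ s → ‖w‖ ≤ s →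
    ‖(h z - z) - (h w - w)‖ ≤ C * s * ‖z - w‖

variable {H : ℝ → E → E} {φ : E → ℝ → E}

lemma ae_nonneg : ∀ᵐ t ∂(volume.restrict (Ici (0 : ℝ))), 0 ≤ t :=
  ae_restrict_mem measurableSet_Ici

lemma inner_real_eq (z w : E) : inner ℝ z w = (inner ℂ z w).re := rfl

lemma FlowData.mono (D : FlowData H φ) {z : E} (hz : z ∈ B) {T : ℝ} (hT : 0 ≤ T) :
    ‖φ z T‖ ≤ ‖z‖ := by
  rcases eq_or_lt_of_le hT with h | h
  · rw [← h, D.h0 z hz]
  have key := anti (n := fun t => ‖φ z t‖ ^ 2)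
    (n' := fun t => 2 * inner ℝ (φ z t) (-(H t (φ z t)))) hT (ac_norm_sq (D.hac z hz T h))
    (by
      filter_upwards [D.hd] with t ht
      exact (ht z hz).norm_sq)
    (by
      filter_upwards [D.hM, ae_nonneg] with t hM ht
      rw [inner_neg_right, inner_real_eq]
      by_cases h0 : φ z t = 0
      · rw [h0]; simp
      · have := hM.2.2.2 _ (D.hB z hz t ht) h0
        linarith)
  simp only [D.h0 z hz] at key
  exact le_of_sq_le_sq key (norm_nonneg _)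

lemma FlowData.decay (D : FlowData H φ) {C : ℝ} (hC : Growth C) {z : E} (hz : ‖z‖ < 1 / 2)
    (hCz : C * ‖z‖ ≤ 1 / 4) {T : ℝ} (hT : 0 ≤ T) :
    ‖φ z T‖ ≤ Real.exp (-(3 / 4) * T) * ‖z‖ := by
  have hzB : z ∈ B := by rw [mem_ball_zero_iff]; linarith
  have key : Real.exp (3 / 2 * T) * ‖φ z T‖ ^ 2 ≤ ‖z‖ ^ 2 := by
    rcases eq_or_lt_of_le hT with h | h
    · rw [← h, D.h0 z hzB]; simp
    have hA : AbsolutelyContinuousOnInterval (fun t : ℝ => Real.exp (3 / 2 * t)) 0 T :=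
      ac_exp (3 / 2) 0 T
    have hA2 : AbsolutelyContinuousOnInterval (fun t : ℝ => ‖φ z t‖ ^ 2) 0 T :=
      ac_norm_sq (D.hac z hzB T h)
    have hA3 : AbsolutelyContinuousOnInterval
        (fun t : ℝ => Real.exp (3 / 2 * t) * ‖φ z t‖ ^ 2) 0 T := hA.fun_mul hA2
    have key := anti (n := fun t => Real.exp (3 / 2 * t) * ‖φ z t‖ ^ 2)
      (n' := fun t => Real.exp (3 / 2 * t) * (3 / 2) * ‖φ z t‖ ^ 2 +
        Real.exp (3 / 2 * t) * (2 * inner ℝ (φ z t) (-(H t (φ z t))))) hT hA3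
      (by
        filter_upwards [D.hd] with t ht
        have h1 : HasDerivAt (fun t : ℝ => Real.exp (3 / 2 * t)) (Real.exp (3 / 2 * t) * (3 / 2))
            t := by
          have := ((hasDerivAt_id t).const_mul (3 / 2 : ℝ)).exp
          simpa using this
        exact h1.mul (ht z hzB).norm_sq)
      (by
        filter_upwards [D.hM, ae_nonneg] with t hM ht
        have hm := D.mono hzB ht
        have hg := hC.2 (H t) hM (φ z t) (by linarith)
        have e : inner ℝ (φ z t) (-(H t (φ z t))) =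
            -‖φ z t‖ ^ 2 - inner ℝ (φ z t) (H t (φ z t) - φ z t) := by
          rw [inner_neg_right, inner_sub_right, real_inner_self_eq_norm_sq]
          ring
        have h2 : |inner ℝ (φ z t) (H t (φ z t) - φ z t)| ≤ ‖φ z t‖ * ‖H t (φ z t) - φ z t‖ :=
          abs_real_inner_le_norm _ _
        have h3 : ‖φ z t‖ * ‖H t (φ z t) - φ z t‖ ≤ 1 / 4 * ‖φ z t‖ ^ 2 := by
          calc ‖φ z t‖ * ‖H t (φ z t) - φ z t‖ ≤ ‖φ z t‖ * (C * ‖φ z t‖ ^ 2) := by gcongr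
            _ = (C * ‖φ z t‖) * ‖φ z t‖ ^ 2 := by ring
            _ ≤ (C * ‖z‖) * ‖φ z t‖ ^ 2 := by
                gcongr
                exact hC.1.le
            _ ≤ 1 / 4 * ‖φ z t‖ ^ 2 := by gcongr
        have h4 := (abs_le.1 h2).1
        rw [e]
        have hE := Real.exp_pos (3 / 2 * t)
        have : Real.exp (3 / 2 * t) * (3 / 2) * ‖φ z t‖ ^ 2 + Real.exp (3 / 2 * t) *
            (2 * (-‖φ z t‖ ^ 2 - inner ℝ (φ z t) (H t (φ z t) - φ z t))) =
            Real.exp (3 / 2 * t) * (-(1 / 2) * ‖φ z t‖ ^ 2 -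
              2 * inner ℝ (φ z t) (H t (φ z t) - φ z t)) := by ring
        rw [this]
        apply mul_nonpos_of_nonneg_of_nonpos hE.le
        linarith)
    simp only [D.h0 z hzB, mul_zero, Real.exp_zero, one_mul] at key
    exact key
  apply le_of_sq_le_sq _ (by positivity)
  rw [mul_pow, ← Real.exp_nat_mul]
  have e : Real.exp (((2 : ℕ) : ℝ) * (-(3 / 4) * T)) = (Real.exp (3 / 2 * T))⁻¹ := by
    rw [← Real.exp_neg]; congr 1; push_cast; ring
  rw [e, inv_mul_eq_div, le_div_iff₀ (Real.exp_pos _)]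
  linarith

lemma FlowData.kpt (D : FlowData H φ) {C : ℝ} (hC : Growth C) {z : E} (hz : ‖z‖ < 1 / 2)
    (hCz : C * ‖z‖ ≤ 1 / 4) {t : ℝ} (hM : H t ∈ ClassM) (ht : 0 ≤ t) (i : Fin 2) :
    ‖((Real.exp t : ℝ) : ℂ) * (H t (φ z t) i - φ z t i)‖ ≤
        C * ‖z‖ ^ 2 * Real.exp (-(1 / 2) * t) := by
  have hzB : z ∈ B := by rw [mem_ball_zero_iff]; linarith
  have hm := D.mono hzB ht
  have hg := hC.2 (H t) hM (φ z t) (by linarith)
  have hdec := D.decay hC hz hCz ht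
  have h1 : ‖H t (φ z t) i - φ z t i‖ ≤ ‖H t (φ z t) - φ z t‖ :=
    norm_apply_le (H t (φ z t) - φ z t) i
  rw [norm_mul, Complex.norm_real, Real.norm_of_nonneg (Real.exp_pos t).le]
  have hC0 := hC.1
  calc Real.exp t * ‖H t (φ z t) i - φ z t i‖
      ≤ Real.exp t * (C * (Real.exp (-(3 / 4) * t) * ‖z‖) ^ 2) := by
        gcongr
        exact h1.trans (hg.trans (by gcongr))
    _ = C * ‖z‖ ^ 2 * (Real.exp t * Real.exp (-(3 / 4) * t) ^ 2) := by ring
    _ = C * ‖z‖ ^ 2 * Real.exp (-(1 / 2) * t) := by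
        congr 1
        rw [← Real.exp_nat_mul, ← Real.exp_add]
        congr 1
        push_cast; ring

lemma FlowData.kbound (D : FlowData H φ) {C : ℝ} (hC : Growth C) {z : E} (hz : ‖z‖ < 1 / 2)
    (hCz : C * ‖z‖ ≤ 1 / 4) : ∀ᵐ t ∂(volume.restrict (Ici (0 : ℝ))), ∀ i : Fin 2,
      ‖((Real.exp t : ℝ) : ℂ) * (H t (φ z t) i - φ z t i)‖ ≤
        C * ‖z‖ ^ 2 * Real.exp (-(1 / 2) * t) := by
  filter_upwards [D.hM, ae_nonneg] with t hM ht i
  exact D.kpt hC hz hCz hM ht i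

lemma int_exp_le {T : ℝ} (_hT : 0 ≤ T) : ∫ t in (0 : ℝ)..T, Real.exp (-(1 / 2) * t) ≤ 2 := by
  have h : ∫ t in (0 : ℝ)..T, Real.exp (-(1 / 2) * t) = 2 - 2 * Real.exp (-(1 / 2) * T) := by
    have hd : ∀ t ∈ uIcc (0 : ℝ) T, HasDerivAt (fun t : ℝ => -2 * Real.exp (-(1 / 2) * t))
        (Real.exp (-(1 / 2) * t)) t := by
      intro t _
      have h1 : HasDerivAt (fun t : ℝ => -(1 / 2) * t) (-(1 / 2)) t := by
        simpa using (hasDerivAt_id t).const_mul (-(1 / 2) : ℝ)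
      refine (h1.exp.const_mul (-2 : ℝ)).congr_deriv ?_
      ring
    rw [intervalIntegral.integral_eq_sub_of_hasDerivAt hd
      (Continuous.intervalIntegrable (by fun_prop) _ _)]
    simp
    ring
  rw [h]
  have := Real.exp_pos (-(1 / 2) * T)
  linarith

lemma FlowData.formula (D : FlowData H φ) {z : E} (hzB : z ∈ B) (i : Fin 2) {T : ℝ}
    (hT : 0 ≤ T) :
    IntervalIntegrable (fun t => ((Real.exp t : ℝ) : ℂ) * (H t (φ z t) i - φ z t i)) volume 0 T ∧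
    ∫ t in (0 : ℝ)..T, ((Real.exp t : ℝ) : ℂ) * (H t (φ z t) i - φ z t i) =
      z i - ((Real.exp T : ℝ) : ℂ) * φ z T i := by
  rcases eq_or_lt_of_le hT with h | h
  · subst h
    simp [D.h0 z hzB]
  have hacE : AbsolutelyContinuousOnInterval (fun t : ℝ => Real.exp t) 0 T := by
    have := ac_exp 1 0 T
    simpa using this
  have hac1 : AbsolutelyContinuousOnInterval (fun t : ℝ => Real.exp t • φ z t) 0 T :=
    hacE.smul (D.hac z hzB T h)
  have hac2 : AbsolutelyContinuousOnInterval (fun t : ℝ => (Real.exp t • φ z t) i) 0 T :=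
    ac_clm hac1 ((pr i).restrictScalars ℝ)
  have key := ftc_cplx (y := fun t => -(Real.exp t • φ z t) i)
    (y' := fun t => ((Real.exp t : ℝ) : ℂ) * (H t (φ z t) i - φ z t i)) hT hac2.neg (by
      filter_upwards [D.hd] with t ht
      have h1 : HasDerivAt (fun t : ℝ => Real.exp t • φ z t)
          (Real.exp t • (-(H t (φ z t))) + Real.exp t • φ z t) t :=
        (Real.hasDerivAt_exp t).smul (ht z hzB)
      have h2 : HasDerivAt (fun t : ℝ => (Real.exp t • φ z t) i)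
          ((Real.exp t • (-(H t (φ z t))) + Real.exp t • φ z t) i) t :=
        (((pr i).restrictScalars ℝ).hasFDerivAt).comp_hasDerivAt t h1
      refine h2.neg.congr_deriv ?_
      simp
      ring)
  refine ⟨key.1, key.2.trans ?_⟩
  simp [D.h0 z hzB]
  ring

lemma FlowData.norm_int (D : FlowData H φ) {C : ℝ} (hC : Growth C) {z : E} (hz : ‖z‖ < 1 / 2)
    (hCz : C * ‖z‖ ≤ 1 / 4) (i : Fin 2) {T : ℝ} (hT : 0 ≤ T) :
    ∫ t in (0 : ℝ)..T, ‖((Real.exp t : ℝ) : ℂ) * (H t (φ z t) i - φ z t i)‖ ≤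
      2 * C * ‖z‖ ^ 2 := by
  have hzB : z ∈ B := by rw [mem_ball_zero_iff]; linarith
  have h1 := (D.formula hzB i hT).1
  have hk := D.kbound hC hz hCz
  have hC0 := hC.1
  calc ∫ t in (0 : ℝ)..T, ‖((Real.exp t : ℝ) : ℂ) * (H t (φ z t) i - φ z t i)‖
      ≤ ∫ t in (0 : ℝ)..T, C * ‖z‖ ^ 2 * Real.exp (-(1 / 2) * t) := by
        apply intervalIntegral.integral_mono_ae_restrict hT h1.norm
          (Continuous.intervalIntegrable (by fun_prop) _ _)
        have : ∀ᵐ t ∂(volume.restrict (Icc 0 T)), ∀ i : Fin 2,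
          ‖((Real.exp t : ℝ) : ℂ) * (H t (φ z t) i - φ z t i)‖ ≤
            C * ‖z‖ ^ 2 * Real.exp (-(1 / 2) * t) :=
          ae_restrict_of_ae_restrict_of_subset Icc_subset_Ici_self hk
        filter_upwards [this] with t ht
        exact ht i
    _ = C * ‖z‖ ^ 2 * ∫ t in (0 : ℝ)..T, Real.exp (-(1 / 2) * t) :=
        intervalIntegral.integral_const_mul _ _
    _ ≤ C * ‖z‖ ^ 2 * 2 := by gcongr; exact int_exp_le hT
    _ = 2 * C * ‖z‖ ^ 2 := by ring

lemma FlowData.near (D : FlowData H φ) {C : ℝ} (hC : Growth C) {z : E} (hz : ‖z‖ < 1 / 2)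
    (hCz : C * ‖z‖ ≤ 1 / 4) {T : ℝ} (hT : 0 ≤ T) :
    ‖φ z T - Real.exp (-T) • z‖ ≤ 4 * C * ‖z‖ ^ 2 * Real.exp (-T) := by
  have hzB : z ∈ B := by rw [mem_ball_zero_iff]; linarith
  have hi : ∀ i : Fin 2, ‖(φ z T - Real.exp (-T) • z) i‖ ≤ 2 * C * ‖z‖ ^ 2 * Real.exp (-T) := by
    intro i
    have h1 := (D.formula hzB i hT).2
    have h2 : ‖∫ t in (0 : ℝ)..T, ((Real.exp t : ℝ) : ℂ) * (H t (φ z t) i - φ z t i)‖ ≤
        2 * C * ‖z‖ ^ 2 :=
      (intervalIntegral.norm_integral_le_integral_norm hT).trans (D.norm_int hC hz hCz i hT)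
    rw [h1] at h2
    have e : (φ z T - Real.exp (-T) • z) i =
        -(((Real.exp (-T) : ℝ) : ℂ) * (z i - ((Real.exp T : ℝ) : ℂ) * φ z T i)) := by
      have : ((Real.exp (-T) : ℝ) : ℂ) * ((Real.exp T : ℝ) : ℂ) = 1 := by
        rw [← Complex.ofReal_mul, ← Real.exp_add]; simp
      have e1 : (φ z T - Real.exp (-T) • z) i = φ z T i - ((Real.exp (-T) : ℝ) : ℂ) * z i := by
        simp
      rw [e1]
      linear_combination (-(φ z T i)) * this
    rw [e, norm_neg, norm_mul, Complex.norm_real, Real.norm_of_nonneg (Real.exp_pos _).le]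
    calc Real.exp (-T) * ‖z i - ((Real.exp T : ℝ) : ℂ) * φ z T i‖
        ≤ Real.exp (-T) * (2 * C * ‖z‖ ^ 2) := by gcongr
      _ = _ := by ring
  calc ‖φ z T - Real.exp (-T) • z‖
      ≤ ‖(φ z T - Real.exp (-T) • z) 0‖ + ‖(φ z T - Real.exp (-T) • z) 1‖ := norm_le_add _
    _ ≤ 2 * C * ‖z‖ ^ 2 * Real.exp (-T) + 2 * C * ‖z‖ ^ 2 * Real.exp (-T) :=
        add_le_add (hi 0) (hi 1)
    _ = _ := by ring

lemma FlowData.integrable (D : FlowData H φ) {C : ℝ} (hC : Growth C) {z : E} (hz : ‖z‖ < 1 / 2)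
    (hCz : C * ‖z‖ ≤ 1 / 4) (i : Fin 2) :
    IntegrableOn (fun t => ((Real.exp t : ℝ) : ℂ) * (H t (φ z t) i - φ z t i)) (Ioi 0) := by
  have hzB : z ∈ B := by rw [mem_ball_zero_iff]; linarith
  apply integrableOn_Ioi_of_intervalIntegral_norm_bounded (2 * C * ‖z‖ ^ 2) 0
    (b := fun n : ℕ => (n : ℝ)) (l := atTop) _ tendsto_natCast_atTop_atTop
  · exact Eventually.of_forall fun n => D.norm_int hC hz hCz i (Nat.cast_nonneg n)
  · intro n
    have := (D.formula hzB i (Nat.cast_nonneg (α := ℝ) n)).1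
    rwa [intervalIntegrable_iff_integrableOn_Ioc_of_le (Nat.cast_nonneg n)] at this

lemma FlowData.limit (D : FlowData H φ) {C : ℝ} (hC : Growth C) {f : E → E} {z : E}
    (hlim : Tendsto (fun t : ℝ => Real.exp t • φ z t) atTop (𝓝 (f z)))
    (hz : ‖z‖ < 1 / 2) (hCz : C * ‖z‖ ≤ 1 / 4) (i : Fin 2) :
    f z i - z i = -∫ t in Ici (0 : ℝ), ((Real.exp t : ℝ) : ℂ) * (H t (φ z t) i - φ z t i) := by
  have hzB : z ∈ B := by rw [mem_ball_zero_iff]; linarith
  have h1 := intervalIntegral_tendsto_integral_Ioi 0 (D.integrable hC hz hCz i) tendsto_id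
  have h2 : Tendsto (fun T : ℝ => z i - ((Real.exp T : ℝ) : ℂ) * φ z T i) atTop
      (𝓝 (z i - f z i)) := by
    have h3 : Tendsto (fun T : ℝ => (Real.exp T • φ z T) i) atTop (𝓝 (f z i)) :=
      ((pr i).continuous.tendsto _).comp hlim
    have h4 := h3.const_sub (z i)
    refine h4.congr ?_
    intro T
    simp
  have h5 : Tendsto (fun T : ℝ => ∫ t in (0 : ℝ)..T,
      ((Real.exp t : ℝ) : ℂ) * (H t (φ z t) i - φ z t i)) atTop (𝓝 (z i - f z i)) := by
    refine h2.congr' ?_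
    filter_upwards [eventually_ge_atTop (0 : ℝ)] with T hT
    exact (D.formula hzB i hT).2.symm
  have h6 := tendsto_nhds_unique h1 h5
  rw [integral_Ici_eq_integral_Ioi, h6]
  ring

end Pool.Agent.Work.MP_620749_an
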