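import Pool.Agent.Work.MP_620749_an.Closed

/-!
The torus over a horocycle.
-/

open Set Filter Topology MeasureTheory Metric

noncomputable section

namespace Pool.Agent.Work.MP_620749_an

section

variable (c : ℝ)

/-- Denominator. -/
def dd (τ : ℂ) : ℂ := (1 - c : ℝ) - (c : ℂ) * τ
/-- `σ = sqrt (c (1-c))`. -/
def sg : ℝ := Real.sqrt (c * (1 - c))
/-- First coordinate. -/
def XX (τ : ℂ) : ℂ := (sg c : ℂ) * (1 - τ) / dd c τ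
/-- Second coordinate. -/
def WW (τ : ℂ) : ℂ := ((1 - 2 * c : ℝ) : ℂ) * τ / dd c τ

end

variable {c : ℝ}

lemma sg_sq (h0 : 0 < c) (h1 : c < 1 / 2) : (sg c) ^ 2 = c * (1 - c) :=
  Real.sq_sqrt (by nlinarith)

lemma sg_pos (h0 : 0 < c) (h1 : c < 1 / 2) : 0 < sg c := Real.sqrt_pos.2 (by nlinarith)

lemma dd_ne (h0 : 0 < c) (h1 : c < 1 / 2) {τ : ℂ} (hτ : ‖τ‖ ≤ 1) : dd c τ ≠ 0 := by
  intro h
  unfold dd at h
  have h2 : ((1 - c : ℝ) : ℂ) = (c : ℂ) * τ := by linear_combination h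
  have h3 := congrArg norm h2
  rw [norm_mul, Complex.norm_real, Complex.norm_real, Real.norm_of_nonneg (by linarith),
    Real.norm_of_nonneg h0.le] at h3
  nlinarith [norm_nonneg τ]

lemma nsq (z : ℂ) : ‖z‖ ^ 2 = z.re ^ 2 + z.im ^ 2 := by
  rw [← Complex.normSq_eq_norm_sq, Complex.normSq_apply]; ring

lemma norm_sq_ident (c : ℝ) (h0 : 0 < c) (h1 : c < 1 / 2) (τ : ℂ) :
    (sg c) ^ 2 * ‖1 - τ‖ ^ 2 + (1 - 2 * c) ^ 2 * ‖τ‖ ^ 2 =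
      ‖dd c τ‖ ^ 2 - (1 - c) * (1 - 2 * c) * (1 - ‖τ‖ ^ 2) := by
  rw [sg_sq h0 h1, nsq, nsq, nsq]
  simp only [dd, Complex.sub_re, Complex.one_re, Complex.sub_im, Complex.one_im, Complex.mul_re,
    Complex.ofReal_re, Complex.ofReal_im, Complex.mul_im]
  ring

lemma XW_le (h0 : 0 < c) (h1 : c < 1 / 2) {l τ : ℂ} (hl : ‖l‖ ≤ 1) (hτ : ‖τ‖ ≤ 1) :
    ‖l * XX c τ‖ ^ 2 + ‖WW c τ‖ ^ 2 ≤ 1 := by
  have hd := dd_ne h0 h1 hτ
  have hdp : 0 < ‖dd c τ‖ ^ 2 := by positivity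
  have hid := norm_sq_ident c h0 h1 τ
  have e1 : ‖l * XX c τ‖ ^ 2 = ‖l‖ ^ 2 * ((sg c) ^ 2 * ‖1 - τ‖ ^ 2) / ‖dd c τ‖ ^ 2 := by
    unfold XX
    rw [norm_mul, norm_div, norm_mul, Complex.norm_real, Real.norm_of_nonneg (sg_pos h0 h1).le]
    ring
  have e2 : ‖WW c τ‖ ^ 2 = ((1 - 2 * c) ^ 2 * ‖τ‖ ^ 2) / ‖dd c τ‖ ^ 2 := by
    unfold WW
    rw [norm_div, norm_mul, Complex.norm_real, Real.norm_of_nonneg (by linarith)]
    ring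
  rw [e1, e2, ← add_div, div_le_one hdp]
  have hl2 : ‖l‖ ^ 2 ≤ 1 := by nlinarith [norm_nonneg l]
  have hτ2 : ‖τ‖ ^ 2 ≤ 1 := by nlinarith [norm_nonneg τ]
  have h3 : 0 ≤ (sg c) ^ 2 * ‖1 - τ‖ ^ 2 := by positivity
  have h4 : 0 ≤ (1 - c) * (1 - 2 * c) * (1 - ‖τ‖ ^ 2) := by
    apply mul_nonneg (mul_nonneg (by linarith) (by linarith)) (by linarith)
  nlinarith

lemma dd_diff : Differentiable ℂ (dd c) := by
  unfold dd; fun_prop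

lemma XX_diff (h0 : 0 < c) (h1 : c < 1 / 2) {τ : ℂ} (hτ : ‖τ‖ ≤ 1) :
    DifferentiableAt ℂ (XX c) τ := by
  unfold XX
  exact DifferentiableAt.fun_div (by fun_prop) (dd_diff τ) (dd_ne h0 h1 hτ)

lemma WW_diff (h0 : 0 < c) (h1 : c < 1 / 2) {τ : ℂ} (hτ : ‖τ‖ ≤ 1) :
    DifferentiableAt ℂ (WW c) τ := by
  unfold WW
  exact DifferentiableAt.fun_div (by fun_prop) (dd_diff τ) (dd_ne h0 h1 hτ)

lemma WW_zero : WW c 0 = 0 := by simp [WW]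

lemma dd_zero : dd c 0 = ((1 - c : ℝ) : ℂ) := by simp [dd]

lemma XX_zero : XX c 0 = (sg c : ℂ) / ((1 - c : ℝ) : ℂ) := by simp [XX, dd]

lemma WW_deriv (h0 : 0 < c) (h1 : c < 1 / 2) :
    HasDerivAt (WW c) (((1 - 2 * c : ℝ) : ℂ) / ((1 - c : ℝ) : ℂ)) 0 := by
  have hd : dd c 0 ≠ 0 := dd_ne h0 h1 (by simp)
  have e1 : HasDerivAt (fun τ : ℂ => ((1 - 2 * c : ℝ) : ℂ) * τ) ((1 - 2 * c : ℝ) : ℂ) 0 := by
    simpa using (hasDerivAt_id (0 : ℂ)).const_mul ((1 - 2 * c : ℝ) : ℂ)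
  have e2 : HasDerivAt (dd c) (-(c : ℂ)) 0 := by
    have := ((hasDerivAt_id (0 : ℂ)).const_mul (c : ℂ)).const_sub (((1 - c : ℝ)) : ℂ)
    have hdd : dd c = fun τ => ((1 - c : ℝ) : ℂ) - (c : ℂ) * τ := rfl
    rw [hdd]
    simpa using this
  have e3 := e1.fun_div e2 hd
  unfold WW
  have h1c : ((1 - c : ℝ) : ℂ) ≠ 0 := by rw [← dd_zero]; exact hd
  have e4 : ((1 - 2 * c : ℝ) : ℂ) / ((1 - c : ℝ) : ℂ) =
      (((1 - 2 * c : ℝ) : ℂ) * dd c 0 - ((1 - 2 * c : ℝ) : ℂ) * 0 * -(c : ℂ)) / dd c 0 ^ 2 := by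
    rw [dd_zero]
    field_simp
    ring
  rw [e4]
  exact e3

/-- Continuity on the closed disc and differentiability give `Hol`. -/
lemma hol_of_diffAt {F : ℂ → ℂ} (h : ∀ τ : ℂ, ‖τ‖ ≤ 1 → DifferentiableAt ℂ F τ) : Hol F := by
  have : DifferentiableOn ℂ F (closure (ball (0 : ℂ) 1)) := by
    rw [closure_ball _ (by norm_num)]
    intro τ hτ
    exact (h τ (by simpa using hτ)).differentiableWithinAt
  exact this.diffContOnCl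

lemma comp_at {F W : ℂ → ℂ} {R : ℝ} (hR : 1 < R) (hF : DifferentiableOn ℂ F (ball 0 R))
    {τ : ℂ} (hW : DifferentiableAt ℂ W τ) (hle : ‖W τ‖ ≤ 1) :
    DifferentiableAt ℂ (fun t => F (W t)) τ := by
  have h1 : W τ ∈ ball (0 : ℂ) R := by rw [mem_ball_zero_iff]; linarith
  exact (hF.differentiableAt (isOpen_ball.mem_nhds h1)).comp τ hW

lemma pair_at {h : E → E} {R : ℝ} (hR : 1 < R) (hd : DifferentiableOn ℂ h (ball 0 R)) (i : Fin 2)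
    {X Y : ℂ → ℂ} {t : ℂ} (hX : DifferentiableAt ℂ X t) (hY : DifferentiableAt ℂ Y t)
    (hle : ‖X t‖ ^ 2 + ‖Y t‖ ^ 2 ≤ 1) :
    DifferentiableAt ℂ (fun s => h !₂[X s, Y s] i) t := by
  have h1 : (!₂[X t, Y t] : E) ∈ ball (0 : E) R :=
    (pair_mem_ball (by linarith)).2 (by nlinarith)
  have h2 := ((comp_diff hd i).differentiableAt (isOpen_ball.mem_nhds h1))
  exact DifferentiableAt.comp t h2 (differentiableAt_pair hX hY)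

lemma WW_le (h0 : 0 < c) (h1 : c < 1 / 2) {τ : ℂ} (hτ : ‖τ‖ ≤ 1) : ‖WW c τ‖ ≤ 1 := by
  have := XW_le h0 h1 (l := 0) (by simp) hτ
  simp only [zero_mul, norm_zero] at this
  nlinarith [norm_nonneg (WW c τ)]

variable {h : E → E}

/-- The integrand on the torus. -/
def ZZ (c : ℝ) (h : E → E) (l τ : ℂ) : ℂ :=
  dd c τ * ((sg c : ℂ) * cj l * (1 - cj τ) * h !₂[l * XX c τ, WW c τ] 0 +
    ((1 - 2 * c : ℝ) : ℂ) * cj τ * h !₂[l * XX c τ, WW c τ] 1)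

lemma ZZ_pos (h0 : 0 < c) (h1 : c < 1 / 2) (hC : Cl h) {l τ : ℂ} (hl : ‖l‖ = 1) (hτ : ‖τ‖ = 1) :
    0 ≤ (ZZ c h l τ).re := by
  have hd := dd_ne h0 h1 hτ.le
  have hle : ‖(!₂[l * XX c τ, WW c τ] : E)‖ ≤ 1 := by
    rw [norm_le_iff (by norm_num)]
    simpa using XW_le h0 h1 hl.le hτ.le
  have hp := hC.pos hle
  rw [inner_pair] at hp
  have hcd : cj (dd c τ) ≠ 0 := by simpa using hd
  have e : ZZ c h l τ = ((‖dd c τ‖ ^ 2 : ℝ) : ℂ) *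
      (cj (l * XX c τ) * h !₂[l * XX c τ, WW c τ] 0 + cj (WW c τ) * h !₂[l * XX c τ, WW c τ] 1) := by
    have e0 : ((‖dd c τ‖ ^ 2 : ℝ) : ℂ) = dd c τ * cj (dd c τ) := by
      rw [Complex.mul_conj, Complex.normSq_eq_norm_sq]
    rw [e0]
    have e1 : cj (XX c τ) = (sg c : ℂ) * (1 - cj τ) / cj (dd c τ) := by
      simp [XX]
    have e2 : cj (WW c τ) = ((1 - 2 * c : ℝ) : ℂ) * cj τ / cj (dd c τ) := by
      unfold WW
      rw [map_div₀, map_mul, Complex.conj_ofReal]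
    rw [map_mul, e1, e2]
    unfold ZZ
    field_simp
  rw [e, Complex.re_ofReal_mul]
  positivity

end Pool.Agent.Work.MP_620749_an
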