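import Pool.Agent.Work.MP_620749_an.Horo

/-!
The inequalities obtained by averaging over the torus above a horocycle.
-/

open Set Filter Topology MeasureTheory Metric

noncomputable section

namespace Pool.Agent.Work.MP_620749_an

variable {c : ℝ} {h : E → E}

/-- `g` along the disc. -/
def GG (c : ℝ) (h : E → E) (τ : ℂ) : ℂ := gF h (WW c τ)
/-- `m` along the disc. -/
def MM (c : ℝ) (h : E → E) (τ : ℂ) : ℂ := dd c τ * mF h (WW c τ)
/-- `e` along the disc. -/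
def NN (c : ℝ) (h : E → E) (τ : ℂ) : ℂ := dd c τ * eF h (WW c τ)

/-- The Cauchy kernel. -/
def KK (a τ : ℂ) : ℂ := (1 - a * cj τ)⁻¹

lemma KK_cont {a : ℂ} (ha : ‖a‖ < 1) : ContinuousOn (KK a) (sphere 0 1) := contSphere_ker ha

lemma KK_norm {a τ : ℂ} (ha : ‖a‖ < 1) (hτ : ‖τ‖ = 1) : ‖KK a τ‖ ≤ 1 / (1 - ‖a‖) := by
  unfold KK
  rw [norm_inv, one_div]
  apply inv_anti₀ (by linarith)
  have h1 : ‖(1 : ℂ)‖ - ‖a * cj τ‖ ≤ ‖1 - a * cj τ‖ := norm_sub_norm_le _ _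
  rw [norm_one, norm_mul, norm_cj, hτ, mul_one] at h1
  exact h1

lemma hol_GG (h0 : 0 < c) (h1 : c < 1 / 2) (hC : Cl h) : Hol (GG c h) := by
  obtain ⟨hM, R, hR, hd⟩ := hC
  apply hol_of_diffAt
  intro τ hτ
  exact comp_at hR (gF_diff hd) (WW_diff h0 h1 hτ) (WW_le h0 h1 hτ)

lemma hol_MM (h0 : 0 < c) (h1 : c < 1 / 2) (hC : Cl h) : Hol (MM c h) := by
  obtain ⟨hM, R, hR, hd⟩ := hC
  apply hol_of_diffAt
  intro τ hτ
  exact (dd_diff τ).fun_mul
    (comp_at hR (mF_diff (by linarith) hd) (WW_diff h0 h1 hτ) (WW_le h0 h1 hτ))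

lemma hol_NN (h0 : 0 < c) (h1 : c < 1 / 2) (hC : Cl h) : Hol (NN c h) := by
  obtain ⟨hM, R, hR, hd⟩ := hC
  apply hol_of_diffAt
  intro τ hτ
  exact (dd_diff τ).fun_mul
    (comp_at hR (eF_diff (by linarith) hd) (WW_diff h0 h1 hτ) (WW_le h0 h1 hτ))

lemma hmul {F G : ℂ → ℂ} (hF : Hol F) (hG : Hol G) : Hol (fun τ => F τ * G τ) := by
  have := DiffContOnCl.smul hF hG
  exact this

lemma hsub {F G : ℂ → ℂ} (hF : Hol F) (hG : Hol G) : Hol (fun τ => F τ - G τ) :=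
  DiffContOnCl.sub hF hG

lemma ce_norm (θ : ℝ) : ‖ce θ‖ = 1 := norm_circle θ

lemma ce_cont : Continuous ce := continuous_circleMap 0 1

lemma cont_of_diffAt {F : ℂ → ℂ} (hF : ∀ τ : ℂ, ‖τ‖ ≤ 1 → DifferentiableAt ℂ F τ) :
    Continuous (fun p : ℝ × ℝ => F (ce p.2)) := by
  rw [continuous_iff_continuousAt]
  intro p
  have h1 : ContinuousAt F (ce p.2) := (hF (ce p.2) (ce_norm _).le).continuousAt
  exact ContinuousAt.comp (f := fun p : ℝ × ℝ => ce p.2) h1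
    (ce_cont.comp continuous_snd).continuousAt

lemma CT_h (h0 : 0 < c) (h1 : c < 1 / 2) (hC : Cl h) (i : Fin 2) :
    CT (fun l τ => h !₂[l * XX c τ, WW c τ] i) := by
  obtain ⟨hM, R, hR, hd⟩ := hC
  have e1 : Continuous (fun p : ℝ × ℝ => (!₂[ce p.1 * XX c (ce p.2), WW c (ce p.2)] : E)) := by
    apply continuous_pair
    · exact (ce_cont.comp continuous_fst).mul (cont_of_diffAt fun τ hτ => XX_diff h0 h1 hτ)
    · exact cont_of_diffAt fun τ hτ => WW_diff h0 h1 hτ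
  apply ContinuousOn.comp_continuous (comp_diff hd i).continuousOn e1
  intro p
  apply (pair_mem_ball (by linarith)).2
  have := XW_le h0 h1 (ce_norm p.1).le (ce_norm p.2).le
  nlinarith

lemma CT_fst {u : ℂ → ℂ} (hu : ContinuousOn u (sphere 0 1)) : CT (fun l _ => u l) := by
  apply ContinuousOn.comp_continuous hu (ce_cont.comp continuous_fst)
  intro p
  simp

lemma CT_snd {u : ℂ → ℂ} (hu : ContinuousOn u (sphere 0 1)) : CT (fun _ τ => u τ) := by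
  apply ContinuousOn.comp_continuous hu (ce_cont.comp continuous_snd)
  intro p
  simp

lemma CT.add {u v : ℂ → ℂ → ℂ} (hu : CT u) (hv : CT v) : CT (fun l τ => u l τ + v l τ) :=
  Continuous.add hu hv

lemma CT_ZZ (h0 : 0 < c) (h1 : c < 1 / 2) (hC : Cl h) : CT (ZZ c h) := by
  have a1 := CT_h h0 h1 hC 0
  have a2 := CT_h h0 h1 hC 1
  have a3 : CT (fun _ τ => dd c τ) := CT_snd dd_diff.continuous.continuousOn
  have a4 : CT (fun l _ => (sg c : ℂ) * cj l) :=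
    CT_fst (continuousOn_const.mul contSphere_cj)
  have a5 : CT (fun _ τ => (1 - cj τ)) := CT_snd (continuousOn_const.sub contSphere_cj)
  have a6 : CT (fun _ τ => ((1 - 2 * c : ℝ) : ℂ) * cj τ) :=
    CT_snd (continuousOn_const.mul contSphere_cj)
  exact a3.mul (((a4.mul a5).mul a1).add (a6.mul a2))

lemma hol_in (h0 : 0 < c) (h1 : c < 1 / 2) (hC : Cl h) (i : Fin 2) {τ : ℂ} (hτ : ‖τ‖ ≤ 1) :
    Hol (fun l => h !₂[l * XX c τ, WW c τ] i) := by
  obtain ⟨hM, R, hR, hd⟩ := hC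
  apply hol_of_diffAt
  intro l hl
  exact pair_at hR hd i (by fun_prop) (by fun_prop) (XW_le h0 h1 hl hτ)

lemma hol_out (h0 : 0 < c) (h1 : c < 1 / 2) (hC : Cl h) (i : Fin 2) {l : ℂ} (hl : ‖l‖ ≤ 1) :
    Hol (fun τ => h !₂[l * XX c τ, WW c τ] i) := by
  obtain ⟨hM, R, hR, hd⟩ := hC
  apply hol_of_diffAt
  intro τ hτ
  exact pair_at hR hd i ((XX_diff h0 h1 hτ).const_mul l) (WW_diff h0 h1 hτ) (XW_le h0 h1 hl hτ)

lemma dd_XX (h0 : 0 < c) (h1 : c < 1 / 2) {τ : ℂ} (hτ : ‖τ‖ ≤ 1) :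
    dd c τ * XX c τ = (sg c : ℂ) * (1 - τ) := by
  unfold XX
  have := dd_ne h0 h1 hτ
  field_simp

/-- The inner average. -/
lemma in_one (h0 : 0 < c) (h1 : c < 1 / 2) (hC : Cl h) {τ : ℂ} (hτ : ‖τ‖ = 1) :
    av (fun l => ZZ c h l τ) =
      (sg c : ℂ) ^ 2 * (2 - τ - cj τ) * GG c h τ + ((1 - 2 * c : ℝ) : ℂ) * cj τ * MM c h τ := by
  have hF1 := hol_in h0 h1 hC 0 hτ.le
  have hF2 := hol_in h0 h1 hC 1 hτ.le
  have e1 : av (fun l => ZZ c h l τ) =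
      av (fun l => (dd c τ * (sg c : ℂ) * (1 - cj τ)) * (h !₂[l * XX c τ, WW c τ] 0 * cj l) +
        (dd c τ * ((1 - 2 * c : ℝ) : ℂ) * cj τ) * h !₂[l * XX c τ, WW c τ] 1) := by
    apply av_congr; intro l _; unfold ZZ; ring
  rw [e1, av_add, av_mul_left, av_mul_left, av_mul_cj hF1, av_hol hF2]
  · have e2 : deriv (fun l : ℂ => h !₂[l * XX c τ, WW c τ] 0) 0 = XX c τ * gF h (WW c τ) := by
      have := deriv_comp_mul_left (XX c τ) (fun x : ℂ => h !₂[x, WW c τ] 0) 0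
      simp only [mul_comm (XX c τ), smul_eq_mul, zero_mul] at this
      rw [this]
      unfold gF
      ring
    rw [e2, zero_mul]
    have e3 := dd_XX h0 h1 hτ.le
    have e4 := mul_cj_one hτ
    unfold GG MM mF
    linear_combination (sg c : ℂ) * (1 - cj τ) * gF h (WW c τ) * e3 +
      (sg c : ℂ) ^ 2 * gF h (WW c τ) * e4
  · exact continuousOn_const.mul (hF1.contSphere.mul contSphere_cj)
  · exact continuousOn_const.mul hF2.contSphere

lemma in_l (h0 : 0 < c) (h1 : c < 1 / 2) (hC : Cl h) {τ : ℂ} (hτ : ‖τ‖ = 1) :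
    av (fun l => ZZ c h l τ * l) = (sg c : ℂ) * (1 - cj τ) * NN c h τ := by
  have hF1 := hol_in h0 h1 hC 0 hτ.le
  have hF2 := hol_in h0 h1 hC 1 hτ.le
  have hF3 : Hol (fun l => h !₂[l * XX c τ, WW c τ] 1 * l) := hmul hF2 hol_id
  have e1 : av (fun l => ZZ c h l τ * l) =
      av (fun l => (dd c τ * (sg c : ℂ) * (1 - cj τ)) * (h !₂[l * XX c τ, WW c τ] 0) +
        (dd c τ * ((1 - 2 * c : ℝ) : ℂ) * cj τ) * (h !₂[l * XX c τ, WW c τ] 1 * l)) := by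
    apply av_congr; intro l hl; unfold ZZ
    have := mul_cj_one hl
    linear_combination (dd c τ * (sg c : ℂ) * (1 - cj τ)) * (h !₂[l * XX c τ, WW c τ] 0) * this
  rw [e1, av_add, av_mul_left, av_mul_left, av_hol hF1, av_hol hF3]
  · unfold NN eF
    simp only [zero_mul, mul_zero, add_zero]
    ring
  · exact continuousOn_const.mul hF1.contSphere
  · exact continuousOn_const.mul hF3.contSphere

lemma av_mul_right (u : ℂ → ℂ) (k : ℂ) : av (fun τ => u τ * k) = av u * k := by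
  have := av_mul_left k u
  rw [mul_comm (av u) k, ← this]
  apply av_congr; intro τ _; ring

lemma A2_ZZ (h0 : 0 < c) (h1 : c < 1 / 2) (hC : Cl h) (T : ℂ → ℂ) :
    A2 (fun l τ => ZZ c h l τ * T τ) = av (fun τ => ((sg c : ℂ) ^ 2 * (2 - τ - cj τ) * GG c h τ +
      ((1 - 2 * c : ℝ) : ℂ) * cj τ * MM c h τ) * T τ) := by
  unfold A2
  apply av_congr
  intro τ hτ
  rw [av_mul_right, in_one h0 h1 hC hτ]

lemma GG_zero (hC : Cl h) : GG c h 0 = 1 := by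
  unfold GG; rw [WW_zero, gF_zero hC.1]

lemma MM_zero (hC : Cl h) : MM c h 0 = 0 := by
  unfold MM; rw [WW_zero, mF_zero hC.1, mul_zero]

lemma NN_zero (hC : Cl h) : NN c h 0 = 0 := by
  unfold NN; rw [WW_zero, eF_zero hC.1, mul_zero]

lemma GG_deriv (h0 : 0 < c) (h1 : c < 1 / 2) (hC : Cl h) :
    deriv (GG c h) 0 = deriv (gF h) 0 * (((1 - 2 * c : ℝ) : ℂ) / ((1 - c : ℝ) : ℂ)) := by
  obtain ⟨hM, R, hR, hd⟩ := hC
  have e1 : HasDerivAt (gF h) (deriv (gF h) 0) (WW c 0) := by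
    rw [WW_zero]
    exact ((gF_diff hd).differentiableAt (ball_mem_nhds _ (by linarith))).hasDerivAt
  exact (e1.comp 0 (WW_deriv h0 h1)).deriv

lemma MM_deriv (h0 : 0 < c) (h1 : c < 1 / 2) (hC : Cl h) :
    deriv (MM c h) 0 = ((1 - 2 * c : ℝ) : ℂ) := by
  have hρ : ((1 - c : ℝ) : ℂ) ≠ 0 := by rw [← dd_zero]; exact dd_ne h0 h1 (by simp)
  have hm0 := mF_zero hC.1
  have hm1 := mF_deriv hC.1
  obtain ⟨hM, R, hR, hd⟩ := hC
  have hR0 : 0 < R := by linarith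
  have e1 : HasDerivAt (mF h) (deriv (mF h) 0) (WW c 0) := by
    rw [WW_zero]
    exact ((mF_diff hR0 hd).differentiableAt (ball_mem_nhds _ hR0)).hasDerivAt
  rw [hm1] at e1
  have e2 := e1.comp 0 (WW_deriv h0 h1)
  have e3 := ((dd_diff (c := c)) 0).hasDerivAt.mul e2
  have e4 := e3.deriv
  have e5 : deriv (MM c h) 0 = deriv (dd c * mF h ∘ WW c) 0 := rfl
  rw [e5, e4]
  simp only [Function.comp_apply, WW_zero, hm0, dd_zero]
  field_simp
  simp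

lemma NN_deriv (h0 : 0 < c) (h1 : c < 1 / 2) (hC : Cl h) : deriv (NN c h) 0 = 0 := by
  have hm0 := eF_zero hC.1
  have hm1 := eF_deriv hC.1
  obtain ⟨hM, R, hR, hd⟩ := hC
  have hR0 : 0 < R := by linarith
  have e1 : HasDerivAt (eF h) (deriv (eF h) 0) (WW c 0) := by
    rw [WW_zero]
    exact ((eF_diff hR0 hd).differentiableAt (ball_mem_nhds _ hR0)).hasDerivAt
  rw [hm1] at e1
  have e2 := e1.comp 0 (WW_deriv h0 h1)
  have e3 := ((dd_diff (c := c)) 0).hasDerivAt.mul e2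
  have e4 := e3.deriv
  have e5 : deriv (NN c h) 0 = deriv (dd c * eF h ∘ WW c) 0 := rfl
  rw [e5, e4]
  simp only [Function.comp_apply, WW_zero, hm0]
  ring

/-- The value of the functional on the Cauchy kernel. -/
lemma val_K (h0 : 0 < c) (h1 : c < 1 / 2) (hC : Cl h) {a : ℂ} (ha : ‖a‖ < 1) :
    A2 (fun l τ => ZZ c h l τ * KK a τ) =
      (sg c : ℂ) ^ 2 * ((2 - a) * GG c h a - dslope (GG c h) 0 a) +
        ((1 - 2 * c : ℝ) : ℂ) * dslope (MM c h) 0 a := by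
  have hG := hol_GG h0 h1 hC
  have hM' := hol_MM h0 h1 hC
  have hG2 : Hol (fun τ => (2 - τ) * GG c h τ) := hmul (hsub (hol_const 2) hol_id) hG
  rw [A2_ZZ h0 h1 hC]
  have e1 : av (fun τ => ((sg c : ℂ) ^ 2 * (2 - τ - cj τ) * GG c h τ +
      ((1 - 2 * c : ℝ) : ℂ) * cj τ * MM c h τ) * KK a τ) =
      av (fun τ => ((sg c : ℂ) ^ 2 * (((2 - τ) * GG c h τ) * (1 - a * cj τ)⁻¹) -
        (sg c : ℂ) ^ 2 * (GG c h τ * (cj τ * (1 - a * cj τ)⁻¹))) +
        ((1 - 2 * c : ℝ) : ℂ) * (MM c h τ * (cj τ * (1 - a * cj τ)⁻¹))) := by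
    apply av_congr; intro τ _; unfold KK; ring
  have k := contSphere_ker ha
  have c1 : ContinuousOn (fun τ => (sg c : ℂ) ^ 2 * (((2 - τ) * GG c h τ) * (1 - a * cj τ)⁻¹))
      (sphere 0 1) := continuousOn_const.mul (hG2.contSphere.mul k)
  have c2 : ContinuousOn (fun τ => (sg c : ℂ) ^ 2 * (GG c h τ * (cj τ * (1 - a * cj τ)⁻¹)))
      (sphere 0 1) := continuousOn_const.mul (hG.contSphere.mul (contSphere_cj.mul k))
  have c3 : ContinuousOn (fun τ => ((1 - 2 * c : ℝ) : ℂ) *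
      (MM c h τ * (cj τ * (1 - a * cj τ)⁻¹))) (sphere 0 1) :=
    continuousOn_const.mul (hM'.contSphere.mul (contSphere_cj.mul k))
  have c12 : ContinuousOn (fun τ => (sg c : ℂ) ^ 2 * (((2 - τ) * GG c h τ) * (1 - a * cj τ)⁻¹) -
      (sg c : ℂ) ^ 2 * (GG c h τ * (cj τ * (1 - a * cj τ)⁻¹))) (sphere 0 1) := c1.sub c2
  rw [e1, av_add c12 c3, av_sub c1 c2, av_mul_left, av_mul_left, av_mul_left,
    av_cauchy hG2 ha, av_pow1 ha hG, av_pow1 ha hM']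
  ring

lemma val_one (h0 : 0 < c) (h1 : c < 1 / 2) (hC : Cl h) :
    A2 (fun l τ => ZZ c h l τ * 1) =
      (sg c : ℂ) ^ 2 * (2 - deriv (gF h) 0 * (((1 - 2 * c : ℝ) : ℂ) / ((1 - c : ℝ) : ℂ))) +
        ((1 - 2 * c : ℝ) : ℂ) ^ 2 := by
  have := val_K h0 h1 hC (a := 0) (by simp)
  rw [dslope_same, dslope_same, GG_deriv h0 h1 hC, MM_deriv h0 h1 hC, GG_zero hC] at this
  have e : (fun l τ => ZZ c h l τ * 1) = (fun l τ => ZZ c h l τ * KK 0 τ) := by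
    funext l τ; simp [KK]
  rw [e, this]
  ring

lemma hol_chi {a : ℂ} (ha : ‖a‖ < 1) : Hol (fun τ => (1 - cj a * τ)⁻¹) := by
  apply hol_of_diffAt
  intro τ hτ
  have : 1 - cj a * τ ≠ 0 := one_sub_ne (by rwa [norm_cj]) hτ
  exact (by fun_prop : DifferentiableAt ℂ (fun τ : ℂ => 1 - cj a * τ) τ).fun_inv this

lemma chi_deriv (a : ℂ) : HasDerivAt (fun τ : ℂ => (1 - cj a * τ)⁻¹) (cj a) 0 := by
  have e1 : HasDerivAt (fun τ : ℂ => 1 - cj a * τ) (-cj a) 0 := by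
    simpa using ((hasDerivAt_id (0 : ℂ)).const_mul (cj a)).const_sub 1
  have e2 := e1.fun_inv (by simp)
  simpa using e2

lemma cj_KK (a τ : ℂ) : cj (KK a τ) = (1 - cj a * τ)⁻¹ := by
  simp [KK]

lemma val_cjK (h0 : 0 < c) (h1 : c < 1 / 2) (hC : Cl h) {a : ℂ} (ha : ‖a‖ < 1) :
    A2 (fun l τ => ZZ c h l τ * cj (KK a τ)) =
      (sg c : ℂ) ^ 2 * (2 - deriv (gF h) 0 * (((1 - 2 * c : ℝ) : ℂ) / ((1 - c : ℝ) : ℂ)) - cj a) +
        ((1 - 2 * c : ℝ) : ℂ) ^ 2 := by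
  have hG := hol_GG h0 h1 hC
  have hM' := hol_MM h0 h1 hC
  have hχ := hol_chi ha
  have hG2 : Hol (fun τ => ((2 - τ) * GG c h τ) * (1 - cj a * τ)⁻¹) :=
    hmul (hmul (hsub (hol_const 2) hol_id) hG) hχ
  have hG3 : Hol (fun τ => GG c h τ * (1 - cj a * τ)⁻¹) := hmul hG hχ
  have hM3 : Hol (fun τ => MM c h τ * (1 - cj a * τ)⁻¹) := hmul hM' hχ
  rw [A2_ZZ h0 h1 hC (fun τ => cj (KK a τ))]
  have e1 : av (fun τ => ((sg c : ℂ) ^ 2 * (2 - τ - cj τ) * GG c h τ +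
      ((1 - 2 * c : ℝ) : ℂ) * cj τ * MM c h τ) * cj (KK a τ)) =
      av (fun τ => ((sg c : ℂ) ^ 2 * (((2 - τ) * GG c h τ) * (1 - cj a * τ)⁻¹) -
        (sg c : ℂ) ^ 2 * ((GG c h τ * (1 - cj a * τ)⁻¹) * cj τ)) +
        ((1 - 2 * c : ℝ) : ℂ) * ((MM c h τ * (1 - cj a * τ)⁻¹) * cj τ)) := by
    apply av_congr; intro τ _; rw [cj_KK]; ring
  have c1 : ContinuousOn (fun τ => (sg c : ℂ) ^ 2 * (((2 - τ) * GG c h τ) * (1 - cj a * τ)⁻¹))
      (sphere 0 1) := continuousOn_const.mul hG2.contSphere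
  have c2 : ContinuousOn (fun τ => (sg c : ℂ) ^ 2 * ((GG c h τ * (1 - cj a * τ)⁻¹) * cj τ))
      (sphere 0 1) := continuousOn_const.mul (hG3.contSphere.mul contSphere_cj)
  have c3 : ContinuousOn (fun τ => ((1 - 2 * c : ℝ) : ℂ) *
      ((MM c h τ * (1 - cj a * τ)⁻¹) * cj τ)) (sphere 0 1) :=
    continuousOn_const.mul (hM3.contSphere.mul contSphere_cj)
  have d1 : deriv (fun τ => GG c h τ * (1 - cj a * τ)⁻¹) 0 =
      deriv (gF h) 0 * (((1 - 2 * c : ℝ) : ℂ) / ((1 - c : ℝ) : ℂ)) + cj a := by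
    have := ((hG.differentiableOn.differentiableAt
      (ball_mem_nhds (0 : ℂ) (by norm_num : (0 : ℝ) < 1))).hasDerivAt.fun_mul (chi_deriv a)).deriv
    rw [this, GG_deriv h0 h1 hC, GG_zero hC]
    simp
  have d2 : deriv (fun τ => MM c h τ * (1 - cj a * τ)⁻¹) 0 = ((1 - 2 * c : ℝ) : ℂ) := by
    have := ((hM'.differentiableOn.differentiableAt
      (ball_mem_nhds (0 : ℂ) (by norm_num : (0 : ℝ) < 1))).hasDerivAt.fun_mul (chi_deriv a)).deriv
    rw [this, MM_deriv h0 h1 hC, MM_zero hC]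
    simp
  have c12 : ContinuousOn (fun τ =>
      (sg c : ℂ) ^ 2 * (((2 - τ) * GG c h τ) * (1 - cj a * τ)⁻¹) -
      (sg c : ℂ) ^ 2 * ((GG c h τ * (1 - cj a * τ)⁻¹) * cj τ)) (sphere 0 1) := c1.sub c2
  rw [e1, av_add c12 c3, av_sub c1 c2, av_mul_left, av_mul_left, av_mul_left,
    av_hol hG2, av_mul_cj hG3, av_mul_cj hM3, d1, d2, GG_zero hC]
  simp only [sub_zero, mul_one, mul_zero, inv_one]
  ring

/-- Mass of the measure. -/
def mass (c : ℝ) (h : E → E) : ℝ :=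
  1 - 2 * c + 2 * c ^ 2 - c * (1 - 2 * c) * (deriv (gF h) 0).re

lemma re_one (h0 : 0 < c) (h1 : c < 1 / 2) (hC : Cl h) (k : ℝ) :
    (A2 (fun l τ => ZZ c h l τ * ((fun _ _ => k) l τ : ℝ))).re = k * mass c h := by
  have hρ : (1 - c) ≠ 0 := by linarith
  have e : A2 (fun l τ => ZZ c h l τ * (((fun _ _ => k) l τ : ℝ) : ℂ)) =
      (k : ℂ) * A2 (fun l τ => ZZ c h l τ * 1) := by
    unfold A2
    rw [← av_mul_left]
    apply av_congr; intro τ _
    rw [← av_mul_left]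
    apply av_congr; intro l _
    ring
  rw [e, val_one h0 h1 hC, Complex.re_ofReal_mul]
  congr 1
  have e2 : (sg c : ℂ) ^ 2 = ((c * (1 - c) : ℝ) : ℂ) := by
    rw [← sg_sq h0 h1]; push_cast; ring
  rw [e2]
  have e3 : ((c * (1 - c) : ℝ) : ℂ) * (2 - deriv (gF h) 0 *
      (((1 - 2 * c : ℝ) : ℂ) / ((1 - c : ℝ) : ℂ))) + ((1 - 2 * c : ℝ) : ℂ) ^ 2 =
      ((2 * c * (1 - c) + (1 - 2 * c) ^ 2 : ℝ) : ℂ) - ((c * (1 - 2 * c) : ℝ) : ℂ) *
        deriv (gF h) 0 := by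
    have hρ' : ((1 - c : ℝ) : ℂ) ≠ 0 := by exact_mod_cast hρ
    field_simp
    push_cast
    ring
  rw [e3, Complex.sub_re, Complex.ofReal_re, Complex.re_ofReal_mul]
  unfold mass
  ring

lemma mass_nonneg (h0 : 0 < c) (h1 : c < 1 / 2) (hC : Cl h) : 0 ≤ mass c h := by
  have := general_principle (Z := ZZ c h) (T := fun _ _ => 0) (V := fun _ _ => 1)
    (CT_ZZ h0 h1 hC) (CT_fst continuousOn_const) (by unfold CT; exact continuous_const)
    (fun l τ hl hτ => ZZ_pos h0 h1 hC hl hτ) (fun _ _ _ _ => by simp)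
  rw [re_one h0 h1 hC 1] at this
  have := (norm_nonneg _).trans this
  linarith

/-- The inequality for `g` and `m`. -/
theorem ineq_two (h0 : 0 < c) (h1 : c < 1 / 2) (hC : Cl h) {a : ℂ} (ha : ‖a‖ < 1) (ha0 : a ≠ 0) :
    ‖(sg c : ℂ) ^ 2 * ((2 - a) * gF h (WW c a) - (gF h (WW c a) - 1) / a) +
        ((1 - 2 * c : ℝ) : ℂ) * (dd c a * mF h (WW c a) / a) +
      cj ((sg c : ℂ) ^ 2 * (2 - deriv (gF h) 0 * (((1 - 2 * c : ℝ) : ℂ) / ((1 - c : ℝ) : ℂ)) - cj a) +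
        ((1 - 2 * c : ℝ) : ℂ) ^ 2)‖ ≤ 2 * (1 / (1 - ‖a‖) * mass c h) := by
  have key := general_principle (Z := ZZ c h) (T := fun _ τ => KK a τ)
    (V := fun _ _ => 1 / (1 - ‖a‖))
    (CT_ZZ h0 h1 hC) (CT_snd (KK_cont ha)) (by unfold CT; exact continuous_const)
    (fun l τ hl hτ => ZZ_pos h0 h1 hC hl hτ) (fun _ τ _ hτ => KK_norm ha hτ)
  rw [re_one h0 h1 hC (1 / (1 - ‖a‖)), val_K h0 h1 hC ha, val_cjK h0 h1 hC ha, dslope_eq ha0,
    dslope_eq ha0, GG_zero hC, MM_zero hC, sub_zero] at key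
  exact key

/-- Second Taylor coefficient of `x ↦ h_1(x,0)`. -/
def q20 (h : E → E) : ℂ := t2 (fun x => h !₂[x, 0] 0)

lemma val_lK (h0 : 0 < c) (h1 : c < 1 / 2) (hC : Cl h) {a : ℂ} (ha : ‖a‖ < 1) :
    A2 (fun l τ => ZZ c h l τ * (l * (cj τ * KK a τ))) =
      (sg c : ℂ) * (dslope (NN c h) 0 a - dslope (dslope (NN c h) 0) 0 a) := by
  have hN := hol_NN h0 h1 hC
  have e0 : A2 (fun l τ => ZZ c h l τ * (l * (cj τ * KK a τ))) =
      av (fun τ => ((sg c : ℂ) * (1 - cj τ) * NN c h τ) * (cj τ * KK a τ)) := by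
    unfold A2
    apply av_congr
    intro τ hτ
    rw [← in_l h0 h1 hC hτ, ← av_mul_right]
    apply av_congr; intro l _; ring
  have e1 : av (fun τ => ((sg c : ℂ) * (1 - cj τ) * NN c h τ) * (cj τ * KK a τ)) =
      av (fun τ => (sg c : ℂ) * (NN c h τ * (cj τ * (1 - a * cj τ)⁻¹)) -
        (sg c : ℂ) * (NN c h τ * (cj τ ^ 2 * (1 - a * cj τ)⁻¹))) := by
    apply av_congr; intro τ _; unfold KK; ring
  have k := contSphere_ker ha
  rw [e0, e1, av_sub, av_mul_left, av_mul_left, av_pow1 ha hN, av_pow2 ha hN]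
  · ring
  · exact continuousOn_const.mul (hN.contSphere.mul (contSphere_cj.mul k))
  · exact continuousOn_const.mul (hN.contSphere.mul ((contSphere_cj.pow 2).mul k))

lemma val_cjlK (h0 : 0 < c) (h1 : c < 1 / 2) (hC : Cl h) {a : ℂ} (ha : ‖a‖ < 1) :
    A2 (fun l τ => ZZ c h l τ * cj (l * (cj τ * KK a τ))) =
      -((sg c : ℂ) * (c : ℂ) * q20 h) := by
  have hρ : ((1 - c : ℝ) : ℂ) ≠ 0 := by rw [← dd_zero]; exact dd_ne h0 h1 (by simp)
  have hσ : (sg c : ℂ) ≠ 0 := by exact_mod_cast (sg_pos h0 h1).ne'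
  have hX0 : XX c 0 ≠ 0 := by rw [XX_zero]; exact div_ne_zero hσ hρ
  have hχ := hol_chi ha
  have hCT : CT (fun l τ => ZZ c h l τ * cj (l * (cj τ * KK a τ))) := by
    apply (CT_ZZ h0 h1 hC).mul
    apply CT.cj
    apply (CT_fst continuousOn_id).mul
    exact CT_snd (contSphere_cj.mul (KK_cont ha))
  rw [A2_swap hCT]
  have inner : ∀ l : ℂ, ‖l‖ = 1 → av (fun τ => ZZ c h l τ * cj (l * (cj τ * KK a τ))) =
      -((sg c : ℂ) * ((1 - c : ℝ) : ℂ)) * (h !₂[l * XX c 0, 0] 0 * cj l ^ 2) +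
        (((1 - 2 * c : ℝ) : ℂ) * ((1 - c : ℝ) : ℂ)) * (h !₂[l * XX c 0, 0] 1 * cj l) := by
    intro l hl
    have hF1 := hol_out h0 h1 hC 0 hl.le
    have hF2 := hol_out h0 h1 hC 1 hl.le
    have hD : Hol (dd c) := (dd_diff (c := c)).diffContOnCl
    have hA : Hol (fun τ => (dd c τ * (τ - 1)) * (1 - cj a * τ)⁻¹ *
        h !₂[l * XX c τ, WW c τ] 0) := hmul (hmul (hmul hD (hsub hol_id (hol_const 1))) hχ) hF1
    have hB : Hol (fun τ => dd c τ * (1 - cj a * τ)⁻¹ * h !₂[l * XX c τ, WW c τ] 1) :=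
      hmul (hmul hD hχ) hF2
    have e1 : av (fun τ => ZZ c h l τ * cj (l * (cj τ * KK a τ))) =
        av (fun τ => ((sg c : ℂ) * cj l ^ 2) * ((dd c τ * (τ - 1)) * (1 - cj a * τ)⁻¹ *
          h !₂[l * XX c τ, WW c τ] 0) + (((1 - 2 * c : ℝ) : ℂ) * cj l) *
          (dd c τ * (1 - cj a * τ)⁻¹ * h !₂[l * XX c τ, WW c τ] 1)) := by
      apply av_congr; intro τ hτ
      rw [map_mul, map_mul, Complex.conj_conj, cj_KK]
      unfold ZZ
      have := mul_cj_one hτ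
      linear_combination ((1 - cj a * τ)⁻¹ * dd c τ * cj l * (((1 - 2 * c : ℝ) : ℂ) *
        h !₂[l * XX c τ, WW c τ] 1 - (sg c : ℂ) * cj l * h !₂[l * XX c τ, WW c τ] 0)) * this
    rw [e1, av_add, av_mul_left, av_mul_left, av_hol hA, av_hol hB, WW_zero, dd_zero]
    · simp only [mul_zero, sub_zero, inv_one, mul_one]
      ring
    · exact continuousOn_const.mul hA.contSphere
    · exact continuousOn_const.mul hB.contSphere
  rw [av_congr inner]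
  have h3 : Hol (fun l => h !₂[l * XX c 0, 0] 0) := by
    have := hol_in h0 h1 hC 0 (τ := 0) (by simp)
    rwa [WW_zero] at this
  have h4 : Hol (fun l => h !₂[l * XX c 0, 0] 1) := by
    have := hol_in h0 h1 hC 1 (τ := 0) (by simp)
    rwa [WW_zero] at this
  rw [av_add, av_mul_left, av_mul_left, av_mul_cj2 h3, av_mul_cj h4]
  · have d1 : deriv (fun l => h !₂[l * XX c 0, 0] 1) 0 = 0 := by
      have := off_deriv hC.1 (XX c 0)
      simpa only [mul_comm] using this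
    have d2 : dslope (dslope (fun l => h !₂[l * XX c 0, 0] 0) 0) 0 0 = (XX c 0) ^ 2 * q20 h := by
      have := t2_scale (fun x => h !₂[x, 0] 0) hX0
      unfold t2 at this
      unfold q20 t2
      rw [← this]
      simp only [mul_comm]
    rw [d1, d2, XX_zero]
    have e2 : (sg c : ℂ) ^ 2 = (c : ℂ) * ((1 - c : ℝ) : ℂ) := by
      have := sg_sq h0 h1
      exact_mod_cast this
    field_simp
    linear_combination (-(sg c : ℂ) * q20 h) * e2
  · exact continuousOn_const.mul (h3.contSphere.mul (contSphere_cj.pow 2))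
  · exact continuousOn_const.mul (h4.contSphere.mul contSphere_cj)

/-- The inequality for `e`. -/
theorem ineq_one (h0 : 0 < c) (h1 : c < 1 / 2) (hC : Cl h) {a : ℂ} (ha : ‖a‖ < 1) (ha0 : a ≠ 0) :
    ‖(sg c : ℂ) * (dd c a * eF h (WW c a) / a - dd c a * eF h (WW c a) / a / a) +
      cj (-((sg c : ℂ) * (c : ℂ) * q20 h))‖ ≤ 2 * (1 / (1 - ‖a‖) * mass c h) := by
  have key := general_principle (Z := ZZ c h) (T := fun l τ => l * (cj τ * KK a τ))
    (V := fun _ _ => 1 / (1 - ‖a‖))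
    (CT_ZZ h0 h1 hC) ((CT_fst continuousOn_id).mul (CT_snd (contSphere_cj.mul (KK_cont ha))))
    (by unfold CT; exact continuous_const)
    (fun l τ hl hτ => ZZ_pos h0 h1 hC hl hτ) (fun l τ hl hτ => by
      rw [norm_mul, norm_mul, hl, norm_cj, hτ, one_mul, one_mul]
      exact KK_norm ha hτ)
  rw [re_one h0 h1 hC (1 / (1 - ‖a‖)), val_lK h0 h1 hC ha, val_cjlK h0 h1 hC ha, dslope_eq ha0,
    dslope_eq ha0, dslope_eq ha0, dslope_same, NN_zero hC, NN_deriv h0 h1 hC, sub_zero,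
    sub_zero] at key
  exact key

end Pool.Agent.Work.MP_620749_an
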