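import Pool.Agent.Work.MP_620749_an.Vec

/-!
How to show that an explicit map belongs to S^0.
-/

open Set Filter Topology MeasureTheory Metric

noncomputable section

namespace Pool.Agent.Work.MP_620749_an

/-- An integral curve of `-h`, `h` in the class `M`, stays in the ball. -/
lemma stay {h : E → E} (hM : h ∈ ClassM) {φ : ℝ → E} (h0 : φ 0 ∈ B)
    (hd : ∀ t : ℝ, 0 ≤ t → HasDerivAt φ (-h (φ t)) t) : ∀ t : ℝ, 0 ≤ t → φ t ∈ B := by
  intro T hT
  have h1 : ‖φ 0‖ < 1 := by simpa using h0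
  have h1' : ‖φ 0‖ ^ 2 < 1 := by nlinarith [norm_nonneg (φ 0)]
  set R2 : ℝ := (1 + ‖φ 0‖ ^ 2) / 2 with hR2
  have hder : ∀ t : ℝ, 0 ≤ t → HasDerivAt (fun s => ‖φ s‖ ^ 2) (2 * inner ℝ (φ t) (-h (φ t))) t := by
    intro t ht
    exact (hd t ht).norm_sq
  have key := image_le_of_deriv_right_lt_deriv_boundary' (f := fun s => ‖φ s‖ ^ 2)
    (f' := fun s => 2 * inner ℝ (φ s) (-h (φ s))) (a := 0) (b := T) (B := fun _ => R2)
    (B' := fun _ => 0)
    (fun t ht => (hder t ht.1).continuousAt.continuousWithinAt)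
    (fun t ht => (hder t ht.1).hasDerivWithinAt)
    (by simp only [hR2]; linarith)
    continuousOn_const (fun t _ => hasDerivWithinAt_const _ _ _)
    (by
      intro t ht hft
      have hn : ‖φ t‖ ^ 2 < 1 := by rw [hft]; simp only [hR2]; linarith
      have hB : φ t ∈ B := by
        rw [mem_ball_zero_iff]
        by_contra hcon
        push Not at hcon
        nlinarith
      have hne : φ t ≠ 0 := by
        intro h
        rw [h] at hft
        simp only [norm_zero] at hft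
        have : 0 < R2 := by positivity
        nlinarith
      have hp := hM.2.2.2 (φ t) hB hne
      have e : inner ℝ (φ t) (-h (φ t)) = -(inner ℂ (φ t) (h (φ t))).re := by
        rw [inner_neg_right]
        rfl
      show 2 * inner ℝ (φ t) (-h (φ t)) < 0
      rw [e]; linarith)
  have h2 : ‖φ T‖ ^ 2 ≤ R2 := key (right_mem_Icc.2 hT)
  rw [mem_ball_zero_iff]
  by_contra hcon
  push Not at hcon
  have : R2 < 1 := by simp only [hR2]; linarith
  nlinarith

/-- A smooth autonomous flow gives an element of `S^0`. -/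
lemma mem_S0 {h f : E → E} {φ : E → ℝ → E} (hM : h ∈ ClassM) (hf : f ∈ ClassS)
    (h0 : ∀ z ∈ B, φ z 0 = z)
    (hd : ∀ z ∈ B, ∀ t : ℝ, 0 ≤ t → HasDerivAt (φ z) (-h (φ z t)) t)
    (hlim : TendstoLocallyUniformlyOn (fun (t : ℝ) z => Real.exp t • φ z t) f atTop B) :
    f ∈ ClassS0 := by
  have hst : ∀ z ∈ B, ∀ t : ℝ, 0 ≤ t → φ z t ∈ B := fun z hz t ht =>
    stay hM (by rw [h0 z hz]; exact hz) (hd z hz) t ht
  refine ⟨hf, fun z _ => -h z, φ, ⟨?_, ?_⟩, ⟨hst, h0, ?_, ?_⟩, hlim⟩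
  · apply Eventually.of_forall
    intro t
    simpa using hM
  · intro z _
    exact aestronglyMeasurable_const
  · intro z hz T hT
    have hc : ContinuousOn (fun t => h (φ z t)) (Icc 0 T) := by
      apply hM.1.continuousOn.comp
      · intro t ht
        exact (hd z hz t ht.1).continuousAt.continuousWithinAt
      · intro t ht
        exact hst z hz t ht.1
    obtain ⟨C, hC⟩ := isCompact_Icc.exists_bound_of_continuousOn hc
    have hL : LipschitzOnWith (Real.toNNReal C) (φ z) (Icc 0 T) := by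
      apply (convex_Icc 0 T).lipschitzOnWith_of_nnnorm_hasDerivWithin_le (f' := fun t => -h (φ z t))
      · intro t ht
        exact (hd z hz t ht.1).hasDerivWithinAt
      · intro t ht
        have := hC t ht
        rw [← NNReal.coe_le_coe, coe_nnnorm, norm_neg]
        exact this.trans (Real.le_coe_toNNReal C)
    apply LipschitzOnWith.absolutelyContinuousOnInterval (K := Real.toNNReal C)
    rwa [uIcc_of_le hT.le]
  · have : ∀ᵐ t ∂(volume.restrict (Ici (0 : ℝ))), t ∈ Ici (0 : ℝ) :=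
      ae_restrict_mem measurableSet_Ici
    filter_upwards [this] with t ht z hz
    exact hd z hz t ht

/-- Joint continuity gives locally uniform convergence. -/
lemma tendsto_of_joint {f : E → E} {φ Ψ : E → ℝ → E}
    (hc : ContinuousOn (fun p : E × ℝ => Ψ p.1 p.2) (B ×ˢ Icc (0 : ℝ) 1))
    (h0 : ∀ z ∈ B, Ψ z 0 = f z)
    (hφ : ∀ z ∈ B, ∀ t : ℝ, 0 ≤ t → φ z t = Real.exp (-t) • Ψ z (Real.exp (-t))) :
    TendstoLocallyUniformlyOn (fun (t : ℝ) z => Real.exp t • φ z t) f atTop B := by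
  rw [Metric.tendstoLocallyUniformlyOn_iff]
  intro ε hε x hx
  have hx0 : ((x, (0 : ℝ)) : E × ℝ) ∈ B ×ˢ Icc (0 : ℝ) 1 := ⟨hx, by simp⟩
  have hcw := hc (x, 0) hx0
  rw [Metric.continuousWithinAt_iff] at hcw
  obtain ⟨δ, hδ, hδ'⟩ := hcw (ε / 2) (by positivity)
  refine ⟨B ∩ ball x δ, inter_mem_nhdsWithin _ (ball_mem_nhds _ hδ), ?_⟩
  have ht : ∀ᶠ t : ℝ in atTop, Real.exp (-t) < δ := by
    have : Tendsto (fun t : ℝ => Real.exp (-t)) atTop (𝓝 0) := Real.tendsto_exp_neg_atTop_nhds_zero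
    exact this.eventually_lt_const hδ
  filter_upwards [ht, eventually_ge_atTop (0 : ℝ)] with t ht1 ht2 z hz
  have hE : Real.exp (-t) ∈ Icc (0 : ℝ) 1 := ⟨(Real.exp_pos _).le, by simpa using ht2⟩
  have e1 : Real.exp t • φ z t = Ψ z (Real.exp (-t)) := by
    rw [hφ z hz.1 t ht2, smul_smul, ← Real.exp_add]
    simp
  rw [e1, ← h0 z hz.1]
  have d1 := hδ' (x := (z, 0)) ⟨hz.1, by simp⟩ (by
    rw [Prod.dist_eq]
    simpa [hδ] using hz.2)
  have d2 := hδ' (x := (z, Real.exp (-t))) ⟨hz.1, hE⟩ (by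
    rw [Prod.dist_eq]
    simp only [sup_lt_iff]
    refine ⟨hz.2, ?_⟩
    rw [Real.dist_eq, sub_zero, abs_of_pos (Real.exp_pos _)]
    exact ht1)
  calc dist (Ψ z 0) (Ψ z (Real.exp (-t)))
      ≤ dist (Ψ z 0) (Ψ x 0) + dist (Ψ x 0) (Ψ z (Real.exp (-t))) := dist_triangle _ _ _
    _ < ε / 2 + ε / 2 := by
        apply add_lt_add d1
        rw [dist_comm]; exact d2
    _ = ε := by ring

end Pool.Agent.Work.MP_620749_an
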