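import Pool.Agent.Work.MP_620749_an.Defs

/-!
Coordinates in C^2.
-/

open Set Filter Topology MeasureTheory Metric

noncomputable section

namespace Pool.Agent.Work.MP_620749_an

lemma pair_zero (x y : ℂ) : (!₂[x, y] : E) 0 = x := rfl
lemma pair_one (x y : ℂ) : (!₂[x, y] : E) 1 = y := rfl

lemma eta (z : E) : !₂[z 0, z 1] = z := by
  ext i; fin_cases i <;> rfl

lemma norm_sq_E (z : E) : ‖z‖ ^ 2 = ‖z 0‖ ^ 2 + ‖z 1‖ ^ 2 := by
  rw [EuclideanSpace.norm_sq_eq, Fin.sum_univ_two]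

lemma norm_sq_pair (x y : ℂ) : ‖(!₂[x, y] : E)‖ ^ 2 = ‖x‖ ^ 2 + ‖y‖ ^ 2 := by
  rw [norm_sq_E]; rfl

lemma norm_lt_iff {z : E} {r : ℝ} (hr : 0 ≤ r) : ‖z‖ < r ↔ ‖z 0‖ ^ 2 + ‖z 1‖ ^ 2 < r ^ 2 := by
  rw [← norm_sq_E]
  constructor
  · intro h; gcongr
  · intro h; exact lt_of_pow_lt_pow_left₀ 2 hr h

lemma norm_le_iff {z : E} {r : ℝ} (hr : 0 ≤ r) : ‖z‖ ≤ r ↔ ‖z 0‖ ^ 2 + ‖z 1‖ ^ 2 ≤ r ^ 2 := by
  rw [← norm_sq_E]
  constructor
  · intro h; gcongr
  · intro h; exact le_of_sq_le_sq h hr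

lemma pair_mem_ball {x y : ℂ} {r : ℝ} (hr : 0 ≤ r) :
    (!₂[x, y] : E) ∈ ball (0 : E) r ↔ ‖x‖ ^ 2 + ‖y‖ ^ 2 < r ^ 2 := by
  rw [mem_ball_zero_iff, norm_lt_iff hr]; rfl

lemma norm_apply_le (z : E) (i : Fin 2) : ‖z i‖ ≤ ‖z‖ := PiLp.norm_apply_le z i

lemma norm_le_add (z : E) : ‖z‖ ≤ ‖z 0‖ + ‖z 1‖ := by
  rw [norm_le_iff (by positivity)]
  nlinarith [norm_nonneg (z 0), norm_nonneg (z 1)]

lemma inner_E (z w : E) : inner ℂ z w = (starRingEnd ℂ) (z 0) * w 0 + (starRingEnd ℂ) (z 1) * w 1 := by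
  rw [PiLp.inner_apply, Fin.sum_univ_two]
  simp [RCLike.inner_apply, mul_comm]

lemma inner_pair (x y : ℂ) (w : E) :
    inner ℂ (!₂[x, y] : E) w = (starRingEnd ℂ) x * w 0 + (starRingEnd ℂ) y * w 1 := by
  rw [inner_E]; rfl

/-- Evaluation of a coordinate as a continuous linear map. -/
def pr (i : Fin 2) : E →L[ℂ] ℂ := EuclideanSpace.proj i

lemma pr_apply (i : Fin 2) (z : E) : pr i z = z i := rfl

/-- The map `(x,y) ↦ (x,y)` as a continuous linear map. -/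
def mk2 : ℂ × ℂ →L[ℂ] E :=
  (EuclideanSpace.equiv (Fin 2) ℂ).symm.toContinuousLinearMap.comp
    (ContinuousLinearMap.pi ![ContinuousLinearMap.fst ℂ ℂ ℂ, ContinuousLinearMap.snd ℂ ℂ ℂ])

lemma mk2_apply (x y : ℂ) : mk2 (x, y) = !₂[x, y] := by
  ext i; fin_cases i <;> simp [mk2]

lemma differentiableAt_pair {F : Type*} [NormedAddCommGroup F] [NormedSpace ℂ F]
    {f g : F → ℂ} {p : F} (hf : DifferentiableAt ℂ f p) (hg : DifferentiableAt ℂ g p) :
    DifferentiableAt ℂ (fun q => (!₂[f q, g q] : E)) p := by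
  have : (fun q => (!₂[f q, g q] : E)) = fun q => mk2 (f q, g q) := by
    funext q; rw [mk2_apply]
  rw [this]
  exact mk2.differentiableAt.comp p (hf.prodMk hg)

lemma differentiableOn_pair {F : Type*} [NormedAddCommGroup F] [NormedSpace ℂ F]
    {f g : F → ℂ} {s : Set F} (hf : DifferentiableOn ℂ f s) (hg : DifferentiableOn ℂ g s) :
    DifferentiableOn ℂ (fun q => (!₂[f q, g q] : E)) s := by
  have : (fun q => (!₂[f q, g q] : E)) = fun q => mk2 (f q, g q) := by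
    funext q; rw [mk2_apply]
  rw [this]
  exact mk2.differentiable.comp_differentiableOn (hf.prodMk hg)

lemma continuous_pair {X : Type*} [TopologicalSpace X] {f g : X → ℂ} (hf : Continuous f)
    (hg : Continuous g) : Continuous (fun q => (!₂[f q, g q] : E)) := by
  have : (fun q => (!₂[f q, g q] : E)) = fun q => mk2 (f q, g q) := by
    funext q; rw [mk2_apply]
  rw [this]
  exact mk2.continuous.comp (hf.prodMk hg)

lemma continuousOn_pair {X : Type*} [TopologicalSpace X] {f g : X → ℂ} {s : Set X}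
    (hf : ContinuousOn f s) (hg : ContinuousOn g s) :
    ContinuousOn (fun q => (!₂[f q, g q] : E)) s := by
  have : (fun q => (!₂[f q, g q] : E)) = fun q => mk2 (f q, g q) := by
    funext q; rw [mk2_apply]
  rw [this]
  exact mk2.continuous.comp_continuousOn (hf.prodMk hg)

lemma hasFDerivAt_pair {F : Type*} [NormedAddCommGroup F] [NormedSpace ℂ F]
    {f g : F → ℂ} {f' g' : F →L[ℂ] ℂ} {p : F} (hf : HasFDerivAt f f' p) (hg : HasFDerivAt g g' p) :
    HasFDerivAt (fun q => (!₂[f q, g q] : E)) (mk2.comp (f'.prod g')) p := by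
  have : (fun q => (!₂[f q, g q] : E)) = fun q => mk2 (f q, g q) := by
    funext q; rw [mk2_apply]
  rw [this]
  exact mk2.hasFDerivAt.comp p (hf.prodMk hg)

lemma pair_eq_smul (x y : ℂ) : (!₂[x, y] : E) = x • (!₂[(1 : ℂ), 0] : E) +
    y • (!₂[(0 : ℂ), 1] : E) := by
  ext i; fin_cases i <;> simp

lemma hasDerivAt_pair {f g : ℂ → ℂ} {f' g' : ℂ} {p : ℂ} (hf : HasDerivAt f f' p)
    (hg : HasDerivAt g g' p) :
    HasDerivAt (fun q => (!₂[f q, g q] : E)) !₂[f', g'] p := by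
  have : (fun q => (!₂[f q, g q] : E)) = fun q => f q • (!₂[(1 : ℂ), 0] : E) +
      g q • (!₂[(0 : ℂ), 1] : E) := by
    funext q; exact pair_eq_smul _ _
  rw [this, pair_eq_smul f' g']
  exact (hf.smul_const _).add (hg.smul_const _)

lemma hasDerivAt_pair_real {f g : ℝ → ℂ} {f' g' : ℂ} {p : ℝ} (hf : HasDerivAt f f' p)
    (hg : HasDerivAt g g' p) :
    HasDerivAt (fun q => (!₂[f q, g q] : E)) !₂[f', g'] p := by
  have : (fun q => (!₂[f q, g q] : E)) = fun q => f q • (!₂[(1 : ℂ), 0] : E) +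
      g q • (!₂[(0 : ℂ), 1] : E) := by
    funext q; exact pair_eq_smul _ _
  rw [this, pair_eq_smul f' g']
  exact (hf.smul_const _).add (hg.smul_const _)

end Pool.Agent.Work.MP_620749_an
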